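-- Proof of frozen statement S00017.
import Pool.Statements.S00017
import Pool.Agent.Lib.MP_0c67ff_ag.Final

set_option autoImplicit false
open Pool Pool.MP_0c67ff_ag

namespace Pool.Agent.S00017

/-- For every eventually constant g from ℕ to ℤ with g(t) ≥ 2 for t ≥ 1, there are a field k, a number n and a monomial ideal Q in k[x1..xn] such that the projective dimension of the module Q^t equals g(t) for every t ≥ 1. -/
theorem result :
    ∀ g : ℕ → ℤ, (∃ c : ℤ, ∃ N : ℕ, ∀ t ≥ N, g t = c) → (∀ t ≥ 1, 2 ≤ g t) →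
      ∃ (k : Type) (_ : Field k) (n : ℕ) (s : Set (Fin n →₀ ℕ)),
        ∀ t ≥ 1, ∀ m : ℕ,
          (CategoryTheory.HasProjectiveDimensionLE
            (ModuleCat.of (MvPolynomial (Fin n) k)
              ↥((Ideal.span ((fun e => MvPolynomial.monomial e (1 : k)) '' s)) ^ t)) m
            ↔ g t ≤ (m : ℤ)) := by
  intro g hc hg
  obtain ⟨c, N, hN⟩ := hc
  obtain ⟨ι, _, P, hPN, hP⟩ := Pool.Agent.Lib.MP_0c67ff_ag.exists_data N
    (fun n => (g (n + 1) - 1).toNat) (fun n _ => by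
      have := hg (n + 1) (by omega)
      omega)
  obtain ⟨n, ⟨V⟩⟩ := Pool.Agent.Lib.MP_0c67ff_ag.exists_setup ι
  refine ⟨ℚ, inferInstance, n, V.W P.A P.b (2 * P.D₁) 0, ?_⟩
  intro t ht m
  obtain ⟨s, rfl⟩ : ∃ s, t = s + 1 := ⟨t - 1, by omega⟩
  have h1 := Pool.Agent.Lib.MP_0c67ff_ag.PD_pow V P ℚ s (m + 1)
  refine h1.trans ?_
  have h2 : (P.Lv (min s P.N)).card = (g (min s P.N + 1) - 1).toNat :=
    hP _ (by rw [hPN]; exact min_le_right _ _)
  have h3 : g (min s P.N + 1) = g (s + 1) := by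
    rcases le_total s P.N with h | h
    · rw [min_eq_left h]
    · rw [min_eq_right h, hN (P.N + 1) (by omega), hN (s + 1) (by omega)]
  have h4 := hg (s + 1) (by omega)
  rw [h2, h3]
  omega

end Pool.Agent.S00017
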