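import Pool.Statements.S00162
import Pool.Agent.Lib.MP_43d240_ag.H44.Final
import Pool.Agent.Lib.MP_43d240_ag.PI.All

set_option autoImplicit false
open AlgebraicGeometry CategoryTheory
open scoped TensorProduct
open Pool Pool.MP_43d240_ag

namespace Pool.Agent.S00162

/-- The negation of the preceding statement: For a smooth projective variety of dimension d over an algebraically closed field, any Brauer class of its function field unramified at every point has index dividing period^(d-1).

The example has d = 3, period 2 and index 8. X is a (Z/2)^18-cover of P^3 branched along 24 sextic
surfaces in general position over an algebraically closed field with a valuation; the class is a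
product of three quaternion algebras which specialises to the product of the quaternion algebras
(z, b), (x + z, z - 1), (y, z - 2) over kappa(x, y, z), a division algebra of degree 8.

Possible earlier work: the problem file MP_96ca88_ag lists as known, without reference, that some
class of period 2 over a field of transcendence degree 3 has index not dividing 4; with de Jong and
Starr (discriminant avoidance) that would already give this statement. We found this example
independently and do not know the source. -/
theorem result :
    ¬ (∀ (k : Type) [Field k] [IsAlgClosed k] (X : Scheme.{0}) [IsIntegral X]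
    (f : X ⟶ Spec (CommRingCat.of k)), Smooth f → IsProper f →
    (∃ (n : ℕ), ∀ [GradedAlgebra (MvPolynomial.homogeneousSubmodule (Fin (n + 1)) k)],
      ∃ (i : X ⟶ Proj (MvPolynomial.homogeneousSubmodule (Fin (n + 1)) k)),
        IsClosedImmersion i) →
    ∀ (d : ℕ), topologicalKrullDim X = ((d : ℕ∞) : WithBot ℕ∞) →
    ∀ (D : Type) [DivisionRing D] [Algebra X.functionField D]
      [Algebra.IsCentral X.functionField D] [FiniteDimensional X.functionField D],
    (∀ x : X, ∃ (A : Type) (_ : Ring A) (_ : Algebra (X.presheaf.stalk x) A),
      IsAzumaya (X.presheaf.stalk x) A ∧
      ∃ m : ℕ, Nonempty (X.functionField ⊗[X.presheaf.stalk x] A ≃ₐ[X.functionField]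
        Matrix (Fin m) (Fin m) D)) →
    ∀ n : ℕ, 0 < n →
    (∃ m : ℕ, Nonempty ((⨂[X.functionField] (_ : Fin n), D) ≃ₐ[X.functionField]
        Matrix (Fin m) (Fin m) X.functionField)) →
    Nat.sqrt (Module.finrank X.functionField D) ∣ n ^ (d - 1)) :=
  Pool.Agent.Lib.MP_43d240_ag.H44.frozen_of_field Pool.Agent.PI.fieldStatement

end Pool.Agent.S00162
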