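import Pool.Statements.S00371
import Pool.Agent.Lib.MP_af4f85_ag.Assembly
import Pool.Agent.Lib.MP_af4f85_ag.Straighten

set_option autoImplicit false
open scoped Topology
open Pool Pool.MP_af4f85_ag

namespace Pool.Agent.S00371

open Pool.Agent.Lib.MP_af4f85_ag in
/-- For a holomorphic germ f of ℂⁿ at 0 with 0 isolated in its zero fiber, and V an analytic set germ at 0: if f⁻¹(V) is a complex submanifold germ at 0, then so is V. -/
theorem result :
    ∀ (n : ℕ) (f : (Fin n → ℂ) → (Fin n → ℂ)) (V : Set (Fin n → ℂ)),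
      AnalyticAt ℂ f 0 → f 0 = 0 →
      (∀ᶠ z in 𝓝[≠] (0 : Fin n → ℂ), f z ≠ 0) →
      (∃ (m : ℕ) (g : (Fin n → ℂ) → (Fin m → ℂ)),
          AnalyticAt ℂ g 0 ∧ V =ᶠ[𝓝 (0 : Fin n → ℂ)] g ⁻¹' {0}) →
      (∃ (r : ℕ) (h : (Fin n → ℂ) → (Fin r → ℂ)),
          AnalyticAt ℂ h 0 ∧ Function.Surjective (fderiv ℂ h 0) ∧
          f ⁻¹' V =ᶠ[𝓝 (0 : Fin n → ℂ)] h ⁻¹' {0}) →
      (∃ (r : ℕ) (h : (Fin n → ℂ) → (Fin r → ℂ)),
          AnalyticAt ℂ h 0 ∧ Function.Surjective (fderiv ℂ h 0) ∧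
          V =ᶠ[𝓝 (0 : Fin n → ℂ)] h ⁻¹' {0}) := by
  rintro n f V hf f0 hiso ⟨m, g, hg, hV⟩ ⟨r, h, hh, hhs, hpre⟩
  have hV' : ∀ᶠ w in 𝓝 (0 : Fin n → ℂ), w ∈ V ↔ g w = 0 := hV.mem_iff
  have hpre' : ∀ᶠ z in 𝓝 (0 : Fin n → ℂ), f z ∈ V ↔ h z = 0 := hpre.mem_iff
  by_cases h0 : h 0 = 0
  · obtain ⟨s, e, χ, hχ, hχ0, hχh, hχinj⟩ := straighten hh hhs h0
    let E : (Fin n → ℂ) ≃L[ℂ] (Fin s ⊕ Fin r → ℂ) :=
      (LinearEquiv.funCongrLeft ℂ ℂ e).toContinuousLinearEquiv
    have hχt : Filter.Tendsto χ (𝓝 0) (𝓝 0) := by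
      have := hχ.continuousAt.tendsto
      rwa [hχ0] at this
    have hft : Filter.Tendsto f (𝓝 0) (𝓝 0) := by
      have := hf.continuousAt.tendsto
      rwa [f0] at this
    have hfχ : AnalyticAt ℂ (fun x => f (χ x)) 0 := by
      refine AnalyticAt.comp (g := f) ?_ hχ
      rw [hχ0]
      exact hf
    obtain ⟨t, H, hH, hHs, hHiff⟩ := main_local (fun x => E (f (χ x)))
      ((E : (Fin n → ℂ) →L[ℂ] (Fin s ⊕ Fin r → ℂ)).analyticAt _ |>.comp hfχ)
      (by rw [hχ0, f0, map_zero])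
      (by
        rw [eventually_nhdsWithin_iff] at hiso
        filter_upwards [hχt.eventually hiso, hχinj] with x hx hx2 hx3
        have h1 : f (χ x) = 0 := by
          rw [← map_zero E] at hx3
          exact E.injective hx3
        refine hx2 ?_
        by_contra h2
        exact hx h2 h1)
      (fun y => g (E.symm y))
      (by
        refine AnalyticAt.comp (g := g) ?_
          ((E.symm : (Fin s ⊕ Fin r → ℂ) →L[ℂ] (Fin n → ℂ)).analyticAt _)
        have : E.symm 0 = 0 := map_zero _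
        rw [this]
        exact hg)
      (by
        filter_upwards [hχt.eventually hpre', (hft.comp hχt).eventually hV', hχh] with x h1 h2 h3
        simp only [ContinuousLinearEquiv.symm_apply_apply]
        rw [Function.comp_apply] at h2
        rw [← h2, h1]
        constructor
        · intro h4 l
          rw [← h3, h4]
          rfl
        · intro h4
          funext l
          rw [h3, h4]
          rfl)
    have hH0 : AnalyticAt ℂ H (E 0) := by
      rw [map_zero]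
      exact hH
    have hEt : Filter.Tendsto E (𝓝 0) (𝓝 0) := by
      have := E.continuous.tendsto 0
      rwa [map_zero] at this
    refine ⟨t, fun z => H (E z), ?_, ?_, ?_⟩
    · exact AnalyticAt.comp (g := H) hH0
        ((E : (Fin n → ℂ) →L[ℂ] (Fin s ⊕ Fin r → ℂ)).analyticAt _)
    · have h1 : HasFDerivAt H (fderiv ℂ H 0) (E 0) := by
        rw [map_zero]
        exact hH.differentiableAt.hasFDerivAt
      have h2 := h1.comp (0 : Fin n → ℂ)
        (E : (Fin n → ℂ) →L[ℂ] (Fin s ⊕ Fin r → ℂ)).hasFDerivAt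
      have h3 : fderiv ℂ (fun z => H (E z)) 0 =
          (fderiv ℂ H 0).comp (E : (Fin n → ℂ) →L[ℂ] (Fin s ⊕ Fin r → ℂ)) := h2.fderiv
      rw [h3]
      exact hHs.comp E.surjective
    · rw [Filter.eventuallyEq_set]
      filter_upwards [hV', hEt.eventually hHiff] with w h1 h2
      rw [h1]
      simp only [ContinuousLinearEquiv.symm_apply_apply] at h2
      exact h2
  · refine ⟨r, h, hh, hhs, ?_⟩
    have h1 : (0 : Fin n → ℂ) ∉ V := by
      have h2 := hpre'.self_of_nhds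
      rw [f0] at h2
      exact fun h3 => h0 (h2.mp h3)
    have h2 : g 0 ≠ 0 := fun h3 => h1 (hV'.self_of_nhds.mpr h3)
    rw [Filter.eventuallyEq_set]
    filter_upwards [hV', hg.continuousAt.eventually_ne h2, hh.continuousAt.eventually_ne h0]
      with w h3 h4 h5
    rw [h3]
    exact ⟨fun h6 => absurd h6 h4, fun h6 => absurd h6 h5⟩

end Pool.Agent.S00371
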