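import Pool.Statements.S00865

set_option autoImplicit false
open Pool Pool.MP_1d00e6_al

namespace Pool.Agent.S00865

/-! The group is `M ⋊ A`, where `A` is the locally finite `p`-group of finitary automorphisms with
cyclic local actions of the rooted `N`-ary tree (`N = p ^ k ≥ q`), acting on base-`N` expansions of
natural numbers, and `M` is an elementary abelian `q`-group of functions `ℕ → ZMod q`.  The second
`p`-subgroup is a complement of `M` given by a surjective derivation `A → M`. -/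

section Construction

open Equiv

/-- The equivalence `(j, n) ↦ j + N * n`. -/
def cons (N : ℕ) [NeZero N] : ZMod N × ℕ ≃ ℕ where
  toFun x := x.1.val + N * x.2
  invFun n := ((n : ZMod N), n / N)
  left_inv := by
    rintro ⟨j, n⟩
    have hN : 0 < N := Nat.pos_of_ne_zero (NeZero.ne N)
    have h1 : j.val < N := ZMod.val_lt j
    simp [Nat.add_mul_div_left _ _ hN, Nat.div_eq_of_lt h1]
  right_inv := by
    intro n
    simp [ZMod.val_natCast, Nat.mod_add_div]

/-- One step of the digit machine. -/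
def phi (q : ℕ) (d : ℕ) (x : ZMod q) : ZMod q := if d < q then x + (d : ZMod q) else 0

/-- State of the digit machine after reading the base-`N` digits of `n`, starting at `x`. -/
def S (N q : ℕ) (x : ZMod q) (n : ℕ) : ZMod q :=
  (Nat.digits N n).foldl (fun s d => phi q d s) x

theorem S_cons {N q : ℕ} [NeZero N] (hN : 1 < N) (hq : 0 < q) (x : ZMod q) (j : ZMod N) (n : ℕ) :
    S N q x (cons N (j, n)) = S N q (phi q j.val x) n := by
  show S N q x (j.val + N * n) = _
  have h1 : j.val < N := ZMod.val_lt j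
  by_cases h : j.val ≠ 0 ∨ n ≠ 0
  · unfold S
    rw [Nat.digits_add N hN j.val n h1 h]
    rfl
  · push Not at h
    obtain ⟨h2, h3⟩ := h
    subst h3
    simp [S, h2, phi, hq]

theorem S_zero (N q : ℕ) (x : ZMod q) : S N q x 0 = x := by
  simp [S]

theorem S_affine (N q : ℕ) (x y z : ZMod q) (n : ℕ) :
    S N q (x - y + z) n = S N q x n - S N q y n + S N q z n := by
  unfold S
  generalize Nat.digits N n = l
  induction l generalizing x y z with
  | nil => rfl
  | cons d l ih =>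
    simp only [List.foldl_cons]
    rw [← ih]
    congr 1
    unfold phi
    split_ifs <;> ring

variable {N : ℕ} [NeZero N]

/-- The permutation `j + N * n ↦ (j + r) + N * ρ j n`. -/
def mk (r : ZMod N) (ρ : ZMod N → Perm ℕ) : Perm ℕ :=
  (cons N).symm.trans ((Equiv.prodShear (Equiv.addRight r) ρ).trans (cons N))

theorem mk_apply (r : ZMod N) (ρ : ZMod N → Perm ℕ) (j : ZMod N) (n : ℕ) :
    mk r ρ (cons N (j, n)) = cons N (j + r, ρ j n) := by
  simp [mk, Equiv.prodShear]

theorem perm_ext {π σ : Perm ℕ} (h : ∀ (j : ZMod N) (n : ℕ), π (cons N (j, n)) = σ (cons N (j, n))) :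
    π = σ := by
  ext m
  obtain ⟨⟨j, n⟩, rfl⟩ := (cons N).surjective m
  exact h j n

theorem mk_mul (r r' : ZMod N) (ρ ρ' : ZMod N → Perm ℕ) :
    mk r ρ * mk r' ρ' = mk (r' + r) (fun j => ρ (j + r') * ρ' j) := by
  apply perm_ext (N := N)
  intro j n
  rw [Perm.mul_apply, mk_apply, mk_apply, mk_apply, Perm.mul_apply, add_assoc]

theorem mk_one : mk (0 : ZMod N) (fun _ => (1 : Perm ℕ)) = 1 := by
  apply perm_ext (N := N)
  intro j n
  rw [mk_apply]
  simp

theorem mk_inv (r : ZMod N) (ρ : ZMod N → Perm ℕ) :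
    (mk r ρ)⁻¹ = mk (-r) (fun j => (ρ (j - r))⁻¹) := by
  rw [inv_eq_iff_mul_eq_one, mk_mul]
  rw [← mk_one (N := N)]
  congr 1
  · simp
  · funext j
    simp [sub_eq_add_neg]

/-- Tree automorphisms of depth `k`. -/
def AA (N : ℕ) [NeZero N] : ℕ → Set (Perm ℕ)
  | 0 => {1}
  | k + 1 => {π | ∃ (r : ZMod N) (ρ : ZMod N → Perm ℕ), (∀ j, ρ j ∈ AA N k) ∧ π = mk r ρ}

theorem AA_one (k : ℕ) : (1 : Perm ℕ) ∈ AA N k := by
  induction k with
  | zero => rfl
  | succ k ih => exact ⟨0, fun _ => 1, fun _ => ih, mk_one.symm⟩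

theorem AA_mono_succ (k : ℕ) : AA N k ⊆ AA N (k + 1) := by
  induction k with
  | zero =>
    intro π hπ
    have : π = 1 := hπ
    subst this
    exact AA_one 1
  | succ k ih =>
    rintro π ⟨r, ρ, hρ, rfl⟩
    exact ⟨r, ρ, fun j => ih (hρ j), rfl⟩

theorem AA_mono : Monotone (AA N) := monotone_nat_of_le_succ AA_mono_succ

theorem AA_mul (k : ℕ) {π σ : Perm ℕ} (hπ : π ∈ AA N k) (hσ : σ ∈ AA N k) : π * σ ∈ AA N k := by
  induction k generalizing π σ with
  | zero =>
    have h1 : π = 1 := hπ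
    have h2 : σ = 1 := hσ
    subst h1 h2
    exact AA_one 0
  | succ k ih =>
    obtain ⟨r, ρ, hρ, rfl⟩ := hπ
    obtain ⟨r', ρ', hρ', rfl⟩ := hσ
    exact ⟨r' + r, _, fun j => ih (hρ _) (hρ' _), mk_mul _ _ _ _⟩

theorem AA_inv (k : ℕ) {π : Perm ℕ} (hπ : π ∈ AA N k) : π⁻¹ ∈ AA N k := by
  induction k generalizing π with
  | zero =>
    have h1 : π = 1 := hπ
    subst h1
    rw [inv_one]
    exact AA_one 0
  | succ k ih =>
    obtain ⟨r, ρ, hρ, rfl⟩ := hπ
    exact ⟨-r, _, fun j => ih (hρ _), mk_inv _ _⟩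

theorem AA_finite (k : ℕ) : (AA N k).Finite := by
  induction k with
  | zero => exact Set.finite_singleton 1
  | succ k ih =>
    have h1 : ((Set.univ : Set (ZMod N)) ×ˢ (Set.univ.pi (fun _ : ZMod N => AA N k))).Finite := by
      have := ZMod.fintype N
      exact Set.finite_univ.prod (Set.Finite.pi' (fun _ => ih) |>.subset (by
        intro f hf
        simpa using hf))
    refine (h1.image (fun x => mk x.1 x.2)).subset ?_
    rintro π ⟨r, ρ, hρ, rfl⟩
    exact ⟨(r, ρ), ⟨Set.mem_univ _, fun j _ => hρ j⟩, rfl⟩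

theorem mk_pow (k : ℕ) (r : ZMod N) (ρ : ZMod N → Perm ℕ) (hρ : ∀ j, ρ j ∈ AA N k) (t : ℕ) :
    ∃ σ : ZMod N → Perm ℕ, (∀ j, σ j ∈ AA N k) ∧ (mk r ρ) ^ t = mk (t • r) σ := by
  induction t with
  | zero => exact ⟨fun _ => 1, fun _ => AA_one k, by rw [pow_zero, zero_smul, mk_one]⟩
  | succ t ih =>
    obtain ⟨σ, hσ, h⟩ := ih
    exact ⟨fun j => ρ (j + t • r) * σ j, fun j => AA_mul k (hρ _) (hσ _), by
      rw [pow_succ', h, mk_mul, succ_nsmul]⟩

theorem mk_zero_pow (ρ : ZMod N → Perm ℕ) (t : ℕ) :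
    (mk (0 : ZMod N) ρ) ^ t = mk 0 (fun j => ρ j ^ t) := by
  induction t with
  | zero => simp only [pow_zero, mk_one]
  | succ t ih =>
    rw [pow_succ, ih, mk_mul]
    congr 1
    · simp
    · funext j
      rw [add_zero, pow_succ]

theorem AA_pow (k : ℕ) {π : Perm ℕ} (hπ : π ∈ AA N k) : π ^ (N ^ k) = 1 := by
  induction k generalizing π with
  | zero =>
    have h1 : π = 1 := hπ
    subst h1
    exact one_pow _
  | succ k ih =>
    obtain ⟨r, ρ, hρ, rfl⟩ := hπ
    obtain ⟨σ, hσ, h⟩ := mk_pow k r ρ hρ N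
    have h0 : N • r = 0 := by
      rw [nsmul_eq_mul, ZMod.natCast_self, zero_mul]
    rw [pow_succ', pow_mul, h, h0, mk_zero_pow, ← mk_one (N := N)]
    congr 1
    funext j
    exact ih (hσ j)

/-- The group of tree automorphisms of depth `k`. -/
def Agp (N : ℕ) [NeZero N] (k : ℕ) : Subgroup (Perm ℕ) where
  carrier := AA N k
  mul_mem' := AA_mul k
  one_mem' := AA_one k
  inv_mem' := AA_inv k

/-- The group of finitary tree automorphisms. -/
def Ag (N : ℕ) [NeZero N] : Subgroup (Perm ℕ) where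
  carrier := {π | ∃ k, π ∈ AA N k}
  mul_mem' := by
    rintro π σ ⟨k, hk⟩ ⟨l, hl⟩
    exact ⟨max k l, AA_mul _ (AA_mono (le_max_left _ _) hk) (AA_mono (le_max_right _ _) hl)⟩
  one_mem' := ⟨0, AA_one 0⟩
  inv_mem' := by
    rintro π ⟨k, hk⟩
    exact ⟨k, AA_inv _ hk⟩

theorem mk_mem (r : ZMod N) (ρ : ZMod N → Perm ℕ) (h : ∀ j, ρ j ∈ Ag N) : mk r ρ ∈ Ag N := by
  have := ZMod.fintype N
  choose k hk using h
  exact ⟨Finset.univ.sup k + 1, r, ρ,
    fun j => AA_mono (Finset.le_sup (Finset.mem_univ j)) (hk j), rfl⟩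

/-! ### The affine space of functions -/

/-- Functions which are determined by the digit machine after the first `k` digits. -/
def NN (N q : ℕ) [NeZero N] : ℕ → Set (ℕ → ZMod q)
  | 0 => {F | ∃ x, F = S N q x}
  | k + 1 => {F | ∀ j : ZMod N, (fun n => F (cons N (j, n))) ∈ NN N q k}

variable {q : ℕ}

theorem NN_S (hN : 1 < N) (hq : 0 < q) (k : ℕ) (x : ZMod q) : S N q x ∈ NN N q k := by
  induction k generalizing x with
  | zero => exact ⟨x, rfl⟩
  | succ k ih =>
    intro j
    have : (fun n => S N q x (cons N (j, n))) = S N q (phi q j.val x) := by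
      funext n
      exact S_cons hN hq x j n
    rw [this]
    exact ih _

theorem NN_mono_succ (hN : 1 < N) (hq : 0 < q) (k : ℕ) : NN N q k ⊆ NN N q (k + 1) := by
  induction k with
  | zero =>
    rintro F ⟨x, rfl⟩
    exact NN_S hN hq 1 x
  | succ k ih =>
    intro F hF j
    exact ih (hF j)

theorem NN_mono (hN : 1 < N) (hq : 0 < q) : Monotone (NN N q) :=
  monotone_nat_of_le_succ (NN_mono_succ hN hq)

theorem NN_affine (k : ℕ) {F F' F'' : ℕ → ZMod q} (h : F ∈ NN N q k) (h' : F' ∈ NN N q k)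
    (h'' : F'' ∈ NN N q k) : F - F' + F'' ∈ NN N q k := by
  induction k generalizing F F' F'' with
  | zero =>
    obtain ⟨x, rfl⟩ := h
    obtain ⟨y, rfl⟩ := h'
    obtain ⟨z, rfl⟩ := h''
    refine ⟨x - y + z, ?_⟩
    funext n
    exact (S_affine N q x y z n).symm
  | succ k ih =>
    intro j
    exact ih (h j) (h' j) (h'' j)

theorem NN_comp (k : ℕ) {F : ℕ → ZMod q} {π : Perm ℕ} (h : F ∈ NN N q k) (hπ : π ∈ AA N k) :
    F ∘ π ∈ NN N q k := by
  induction k generalizing F π with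
  | zero =>
    have h1 : π = 1 := hπ
    subst h1
    exact h
  | succ k ih =>
    obtain ⟨r, ρ, hρ, rfl⟩ := hπ
    intro j
    have : (fun n => (F ∘ (mk r ρ)) (cons N (j, n))) = (fun n => F (cons N (j + r, n))) ∘ ρ j := by
      funext n
      simp only [Function.comp_apply, mk_apply]
    rw [this]
    exact ih (h _) (hρ _)

/-- Equivalence of states. -/
def Eqv (N q : ℕ) [NeZero N] (x y : ZMod q) : Prop := ∃ π ∈ Ag N, S N q x = S N q y ∘ π

theorem Eqv.refl (x : ZMod q) : Eqv N q x x := ⟨1, one_mem _, rfl⟩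

theorem Eqv.symm {x y : ZMod q} (h : Eqv N q x y) : Eqv N q y x := by
  obtain ⟨π, hπ, h⟩ := h
  refine ⟨π⁻¹, inv_mem hπ, ?_⟩
  rw [h]
  funext n
  simp

theorem Eqv.trans {x y z : ZMod q} (h : Eqv N q x y) (h' : Eqv N q y z) : Eqv N q x z := by
  obtain ⟨π, hπ, h⟩ := h
  obtain ⟨π', hπ', h'⟩ := h'
  refine ⟨π' * π, mul_mem hπ' hπ, ?_⟩
  rw [h, h']
  rfl

theorem Eqv.step (hN : 1 < N) (hq : 0 < q) {x y : ZMod q} (r : ZMod N)
    (h : ∀ j : ZMod N, Eqv N q (phi q j.val x) (phi q (j + r).val y)) : Eqv N q x y := by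
  choose ρ hρ h using h
  refine ⟨mk r ρ, mk_mem r ρ hρ, ?_⟩
  funext m
  obtain ⟨⟨j, n⟩, rfl⟩ := (cons N).surjective m
  rw [S_cons hN hq, h, Function.comp_apply, Function.comp_apply, mk_apply, S_cons hN hq]

theorem eqv_aux (hN : 1 < N) (hq : 0 < q) (hqN : q ≤ N) (m : ℕ) (hm : m < q) :
    ∀ x ≤ m, Eqv N q (x : ZMod q) 0 := by
  induction m with
  | zero =>
    intro x hx
    have : x = 0 := by omega
    subst this
    rw [Nat.cast_zero]
    exact Eqv.refl 0
  | succ m ih =>
    have ih' := ih (by omega)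
    intro x hx
    have hxN : x < N := by omega
    apply Eqv.step hN hq (x : ZMod N)
    intro j
    have hj : j.val < N := ZMod.val_lt j
    have hv : (j + (x : ZMod N)).val = (j.val + x) % N := by
      rw [ZMod.val_add, ZMod.val_natCast, Nat.mod_eq_of_lt hxN]
    rw [hv]
    set a := j.val with ha
    have key : ∀ u v : ℕ, u ≤ m → v ≤ m → Eqv N q (u : ZMod q) (v : ZMod q) :=
      fun u v hu hv => (ih' u hu).trans (ih' v hv).symm
    by_cases h1 : a + x < N
    · rw [Nat.mod_eq_of_lt h1]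
      by_cases h2 : a < q
      · by_cases h3 : a + x < q
        · have : phi q a (x : ZMod q) = phi q (a + x) 0 := by
            rw [phi, phi, if_pos h2, if_pos h3]
            push_cast
            ring
          rw [this]
          exact Eqv.refl _
        · have e1 : phi q a (x : ZMod q) = ((a + x - q : ℕ) : ZMod q) := by
            rw [phi, if_pos h2, Nat.cast_sub (by omega)]
            simp [add_comm]
          have e2 : phi q (a + x) (0 : ZMod q) = ((0 : ℕ) : ZMod q) := by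
            rw [phi, if_neg h3, Nat.cast_zero]
          rw [e1, e2]
          exact key _ _ (by omega) (by omega)
      · have h3 : ¬ (a + x < q) := by omega
        have : phi q a (x : ZMod q) = phi q (a + x) 0 := by
          simp [phi, h2, h3]
        rw [this]
        exact Eqv.refl _
    · have h4 : (a + x) % N = a + x - N := by
        rw [Nat.mod_eq_sub_mod (by omega), Nat.mod_eq_of_lt (by omega)]
      rw [h4]
      have h5 : a + x - N < q := by omega
      have e2 : phi q (a + x - N) (0 : ZMod q) = ((a + x - N : ℕ) : ZMod q) := by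
        rw [phi, if_pos h5, zero_add]
      by_cases h2 : a < q
      · have e1 : phi q a (x : ZMod q) = ((a + x - q : ℕ) : ZMod q) := by
          rw [phi, if_pos h2, Nat.cast_sub (by omega)]
          simp [add_comm]
        rw [e1, e2]
        exact key _ _ (by omega) (by omega)
      · have e1 : phi q a (x : ZMod q) = ((0 : ℕ) : ZMod q) := by
          rw [phi, if_neg h2, Nat.cast_zero]
        rw [e1, e2]
        exact key _ _ (by omega) (by omega)

theorem eqv_all (hN : 1 < N) (hq : 0 < q) (hqN : q ≤ N) (x : ZMod q) : Eqv N q x 0 := by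
  have : NeZero q := ⟨by omega⟩
  have h := eqv_aux hN hq hqN (q - 1) (by omega) x.val (by have := ZMod.val_lt x; omega)
  rwa [ZMod.natCast_zmod_val] at h

theorem transitive (hN : 1 < N) (hq : 0 < q) (hqN : q ≤ N) (k : ℕ) {F : ℕ → ZMod q}
    (hF : F ∈ NN N q k) : ∃ π ∈ Ag N, F = S N q 0 ∘ π := by
  induction k generalizing F with
  | zero =>
    obtain ⟨x, rfl⟩ := hF
    exact eqv_all hN hq hqN x
  | succ k ih =>
    choose π hπ h using fun j => ih (hF j)
    choose ρ hρ h' using fun j : ZMod N => eqv_all (N := N) hN hq hqN (phi q j.val (0 : ZMod q))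
    refine ⟨mk 0 (fun j => (ρ j)⁻¹ * π j), mk_mem _ _ (fun j => mul_mem (inv_mem (hρ j)) (hπ j)), ?_⟩
    funext m
    obtain ⟨⟨j, n⟩, rfl⟩ := (cons N).surjective m
    have h1 : F (cons N (j, n)) = (S N q 0 ∘ π j) n := congrFun (h j) n
    rw [h1, Function.comp_apply, Function.comp_apply, mk_apply, add_zero, S_cons hN hq, h' j]
    simp

/-! ### The group -/

/-- The action of permutations on functions. -/
def act (q : ℕ) : Perm ℕ →* MulAut (Multiplicative (ℕ → ZMod q)) where
  toFun π :=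
    { toFun := fun m => Multiplicative.ofAdd (fun n => Multiplicative.toAdd m (π⁻¹ n))
      invFun := fun m => Multiplicative.ofAdd (fun n => Multiplicative.toAdd m (π n))
      left_inv := by
        intro m
        apply Multiplicative.toAdd.injective
        funext n
        simp
      right_inv := by
        intro m
        apply Multiplicative.toAdd.injective
        funext n
        simp
      map_mul' := by
        intro m m'
        rfl }
  map_one' := by
    ext m
    rfl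
  map_mul' := by
    intro π σ
    ext m
    rfl

theorem act_apply (π : Perm ℕ) (m : Multiplicative (ℕ → ZMod q)) :
    Multiplicative.toAdd (act q π m) = Multiplicative.toAdd m ∘ (π⁻¹ : Perm ℕ) := rfl

/-- The affine space. -/
def Aff (N q : ℕ) [NeZero N] : Set (ℕ → ZMod q) := {F | ∃ k, F ∈ NN N q k}

theorem Aff_affine (hN : 1 < N) (hq : 0 < q) {F F' F'' : ℕ → ZMod q} (h : F ∈ Aff N q)
    (h' : F' ∈ Aff N q) (h'' : F'' ∈ Aff N q) : F - F' + F'' ∈ Aff N q := by
  obtain ⟨k, hk⟩ := h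
  obtain ⟨k', hk'⟩ := h'
  obtain ⟨k'', hk''⟩ := h''
  refine ⟨max k (max k' k''), NN_affine _ (NN_mono hN hq ?_ hk) (NN_mono hN hq ?_ hk')
    (NN_mono hN hq ?_ hk'')⟩
  · exact le_max_left _ _
  · exact (le_max_left _ _).trans (le_max_right _ _)
  · exact (le_max_right _ _).trans (le_max_right _ _)

theorem Aff_comp (hN : 1 < N) (hq : 0 < q) {F : ℕ → ZMod q} (h : F ∈ Aff N q) {π : Perm ℕ}
    (hπ : π ∈ Ag N) : F ∘ π ∈ Aff N q := by
  obtain ⟨k, hk⟩ := h
  obtain ⟨l, hl⟩ := hπ
  exact ⟨max k l, NN_comp _ (NN_mono hN hq (le_max_left _ _) hk) (AA_mono (le_max_right _ _) hl)⟩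

theorem Aff_S (N q : ℕ) [NeZero N] (x : ZMod q) : S N q x ∈ Aff N q := ⟨0, x, rfl⟩

/-- Directions of the affine space. -/
def Mset (N q : ℕ) [NeZero N] : Set (ℕ → ZMod q) := {m | S N q 0 + m ∈ Aff N q}

theorem M_zero : (0 : ℕ → ZMod q) ∈ Mset N q := by
  show S N q 0 + 0 ∈ Aff N q
  rw [add_zero]
  exact Aff_S N q 0

theorem M_add (hN : 1 < N) (hq : 0 < q) {m m' : ℕ → ZMod q} (h : m ∈ Mset N q)
    (h' : m' ∈ Mset N q) : m + m' ∈ Mset N q := by
  have := Aff_affine hN hq h (Aff_S N q 0) h'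
  show S N q 0 + (m + m') ∈ Aff N q
  convert this using 1
  abel

theorem M_neg (hN : 1 < N) (hq : 0 < q) {m : ℕ → ZMod q} (h : m ∈ Mset N q) : -m ∈ Mset N q := by
  have := Aff_affine hN hq (Aff_S N q 0) h (Aff_S N q 0)
  show S N q 0 + (-m) ∈ Aff N q
  convert this using 1
  abel

theorem M_comp (hN : 1 < N) (hq : 0 < q) {m : ℕ → ZMod q} (h : m ∈ Mset N q) {π : Perm ℕ}
    (hπ : π ∈ Ag N) : m ∘ π ∈ Mset N q := by
  have := Aff_affine hN hq (Aff_comp hN hq h hπ) (Aff_comp hN hq (Aff_S N q 0) hπ) (Aff_S N q 0)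
  show S N q 0 + m ∘ π ∈ Aff N q
  convert this using 1
  funext n
  simp
  ring

/-- The ambient group. -/
abbrev X (q : ℕ) : Type := Multiplicative (ℕ → ZMod q) ⋊[act q] Perm ℕ

/-- The group `G = M ⋊ A` as a subgroup of the ambient group. -/
def GG (N q : ℕ) [NeZero N] (hN : 1 < N) (hq : 0 < q) : Subgroup (X q) where
  carrier := {g | Multiplicative.toAdd g.left ∈ Mset N q ∧ g.right ∈ Ag N}
  mul_mem' := by
    rintro g h ⟨h1, h2⟩ ⟨h3, h4⟩
    refine ⟨?_, mul_mem h2 h4⟩
    rw [SemidirectProduct.mul_left, toAdd_mul, act_apply]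
    exact M_add hN hq h1 (M_comp hN hq h3 (inv_mem h2))
  one_mem' := ⟨M_zero, one_mem _⟩
  inv_mem' := by
    rintro g ⟨h1, h2⟩
    refine ⟨?_, inv_mem h2⟩
    rw [SemidirectProduct.inv_left, act_apply, toAdd_inv]
    exact M_comp hN hq (M_neg hN hq h1) (inv_mem (inv_mem h2))

variable {hN : 1 < N} {hq : 0 < q}

theorem pow_q_of_right {g : X q} (hg : g.right = 1) : g ^ q = 1 := by
  have h1 : g = SemidirectProduct.inl g.left := by
    ext1
    · simp
    · simpa using hg
  rw [h1, ← map_pow]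
  have h2 : g.left ^ q = 1 := by
    apply Multiplicative.toAdd.injective
    funext n
    rw [toAdd_pow]
    simp
  rw [h2, map_one]

theorem right_pow (g : X q) (n : ℕ) : (g ^ n).right = g.right ^ n :=
  map_pow SemidirectProduct.rightHom g n

theorem exists_pow_right {g : X q} (hg : g ∈ GG N q hN hq) : ∃ k, (g ^ (N ^ k)).right = 1 := by
  obtain ⟨_, k, hk⟩ := hg
  exact ⟨k, by rw [right_pow, AA_pow k hk]⟩

theorem inv_app (π : Perm ℕ) (n : ℕ) : (π⁻¹ : Perm ℕ) (π n) = n := π.symm_apply_apply n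

theorem app_inv (π : Perm ℕ) (n : ℕ) : π ((π⁻¹ : Perm ℕ) n) = n := π.apply_symm_apply n

/-- The first `p`-subgroup. -/
def AS (N q : ℕ) [NeZero N] (hN : 1 < N) (hq : 0 < q) : Subgroup (GG N q hN hq) where
  carrier := {g | g.1.left = 1}
  mul_mem' := by
    intro g h hg hh
    show (g.1 * h.1).left = 1
    rw [SemidirectProduct.mul_left, (show g.1.left = 1 from hg), (show h.1.left = 1 from hh),
      map_one, mul_one]
  one_mem' := rfl
  inv_mem' := by
    intro g hg
    show (g.1⁻¹).left = 1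
    rw [SemidirectProduct.inv_left, (show g.1.left = 1 from hg), inv_one, map_one]

/-- The second `p`-subgroup: the stabiliser of the base point. -/
def BS (N q : ℕ) [NeZero N] (hN : 1 < N) (hq : 0 < q) : Subgroup (GG N q hN hq) where
  carrier := {g | Multiplicative.toAdd g.1.left + S N q 0 ∘ (g.1.right⁻¹ : Perm ℕ) = S N q 0}
  mul_mem' := by
    intro g h hg hh
    show Multiplicative.toAdd (g.1 * h.1).left + S N q 0 ∘ ((g.1 * h.1).right⁻¹ : Perm ℕ) = S N q 0
    rw [SemidirectProduct.mul_left, toAdd_mul, act_apply, SemidirectProduct.mul_right]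
    funext n
    have h1 := congrFun (show Multiplicative.toAdd g.1.left + S N q 0 ∘ (g.1.right⁻¹ : Perm ℕ)
      = S N q 0 from hg) n
    have h2 := congrFun (show Multiplicative.toAdd h.1.left + S N q 0 ∘ (h.1.right⁻¹ : Perm ℕ)
      = S N q 0 from hh) ((g.1.right⁻¹ : Perm ℕ) n)
    simp only [Pi.add_apply, Function.comp_apply, mul_inv_rev, Perm.mul_apply] at h1 h2 ⊢
    rw [add_assoc, h2, h1]
  one_mem' := by
    show Multiplicative.toAdd (1 : X q).left + S N q 0 ∘ ((1 : X q).right⁻¹ : Perm ℕ) = S N q 0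
    funext n
    simp
  inv_mem' := by
    intro g hg
    show Multiplicative.toAdd (g.1⁻¹).left + S N q 0 ∘ ((g.1⁻¹).right⁻¹ : Perm ℕ) = S N q 0
    rw [SemidirectProduct.inv_left, act_apply, SemidirectProduct.inv_right, toAdd_inv]
    funext n
    have h1 := congrFun (show Multiplicative.toAdd g.1.left + S N q 0 ∘ (g.1.right⁻¹ : Perm ℕ)
      = S N q 0 from hg) (g.1.right n)
    simp only [Pi.add_apply, Function.comp_apply, inv_app, inv_inv,
      Pi.neg_apply] at h1 ⊢
    rw [← h1]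
    ring

theorem factor (hqN : q ≤ N) (g : GG N q hN hq) :
    ∃ a ∈ AS N q hN hq, ∃ b ∈ BS N q hN hq, g = a * b := by
  obtain ⟨h1, h2⟩ := g.2
  have h3 := Aff_affine hN hq h1 (Aff_S N q 0) (Aff_comp hN hq (Aff_S N q 0) (inv_mem h2))
  obtain ⟨k, hk⟩ := h3
  obtain ⟨σ, hσ, h4⟩ := transitive hN hq hqN k hk
  have ha : (SemidirectProduct.inr σ⁻¹ : X q) ∈ GG N q hN hq := ⟨M_zero, inv_mem hσ⟩
  refine ⟨⟨_, ha⟩, rfl, (⟨_, ha⟩ : GG N q hN hq)⁻¹ * g, ?_, by rw [mul_inv_cancel_left]⟩
  show Multiplicative.toAdd ((SemidirectProduct.inr σ⁻¹ : X q)⁻¹ * g.1).left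
    + S N q 0 ∘ (((SemidirectProduct.inr σ⁻¹ : X q)⁻¹ * g.1).right⁻¹ : Perm ℕ) = S N q 0
  rw [← map_inv, inv_inv, SemidirectProduct.mul_left, toAdd_mul, act_apply,
    SemidirectProduct.mul_right, SemidirectProduct.right_inr, SemidirectProduct.left_inr]
  funext n
  have h5 := congrFun h4 ((σ⁻¹ : Perm ℕ) n)
  simp only [Pi.add_apply, Pi.sub_apply, Function.comp_apply, app_inv, toAdd_one,
    zero_add, mul_inv_rev, Perm.mul_apply] at h5 ⊢
  rw [← h5]
  ring

theorem solvable {p : ℕ} (hp : p.Prime) {e : ℕ} (hNp : N = p ^ e) (s : Finset (GG N q hN hq)) :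
    Group.IsSolvable (Subgroup.closure (s : Set (GG N q hN hq))) := by
  obtain ⟨K, hK⟩ : ∃ K, ∀ g ∈ s, g.1.right ∈ AA N K := by
    have h : ∀ g : GG N q hN hq, ∃ k, g.1.right ∈ AA N k := fun g => g.2.2
    choose k hk using h
    exact ⟨s.sup k, fun g hg => AA_mono (Finset.le_sup hg) (hk g)⟩
  have hfin : Finite (Agp N K) := (AA_finite K).to_subtype
  have hpg : IsPGroup p (Agp N K) := by
    rintro ⟨π, hπ⟩
    refine ⟨e * K, Subtype.ext ?_⟩
    show π ^ (p ^ (e * K)) = 1
    rw [pow_mul, ← hNp]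
    exact AA_pow K hπ
  have : Fact p.Prime := ⟨hp⟩
  have hnil : Group.IsNilpotent (Agp N K) := hpg.isNilpotent
  have hsol : Group.IsSolvable (Agp N K) := inferInstance
  let H := Subgroup.closure (s : Set (GG N q hN hq))
  let f : H →* Perm ℕ := (SemidirectProduct.rightHom.comp (GG N q hN hq).subtype).comp H.subtype
  have hf : ∀ x : H, f x ∈ Agp N K := by
    have h1 : H ≤ (Agp N K).comap (SemidirectProduct.rightHom.comp (GG N q hN hq).subtype) := by
      rw [Subgroup.closure_le]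
      intro g hg
      exact hK g hg
    intro x
    exact h1 x.2
  let g : H →* Agp N K := f.codRestrict (Agp N K) hf
  have hker : Group.IsSolvable g.ker := by
    apply Group.isSolvable_of_comm
    rintro ⟨a, ha⟩ ⟨b, hb⟩
    have ha' : a.1.1.right = 1 := congrArg Subtype.val (show g a = 1 from ha)
    have hb' : b.1.1.right = 1 := congrArg Subtype.val (show g b = 1 from hb)
    apply Subtype.ext
    apply Subtype.ext
    apply Subtype.ext
    show a.1.1 * b.1.1 = b.1.1 * a.1.1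
    ext1
    · rw [SemidirectProduct.mul_left, SemidirectProduct.mul_left, ha', hb']
      simp [mul_comm]
    · rw [SemidirectProduct.mul_right, SemidirectProduct.mul_right, ha', hb']
  exact Group.isSolvable_of_ker_le_range g.ker.subtype g (by simp)

theorem main {p : ℕ} (hp : p.Prime) (hq' : q.Prime) (hpq : p ≠ q) {e : ℕ} (hNp : N = p ^ e)
    (hqN : q ≤ N) :
    Monoid.IsTorsion (GG N q hN hq) ∧
        (∀ g : GG N q hN hq, ∃ a b : ℕ, orderOf g = p ^ a * q ^ b) ∧
        ¬ IsPGroup p (GG N q hN hq) ∧ ¬ IsPGroup q (GG N q hN hq) ∧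
        (∀ s : Finset (GG N q hN hq), Group.IsSolvable (Subgroup.closure (s : Set (GG N q hN hq)))) ∧
        ∃ A B : Subgroup (GG N q hN hq), IsPGroup p A ∧ IsPGroup p B ∧
          ∀ g : GG N q hN hq, ∃ a ∈ A, ∃ b ∈ B, g = a * b := by
  have hpow : ∀ g : GG N q hN hq, ∃ k, g ^ (p ^ k * q) = 1 := by
    intro g
    obtain ⟨k, hk⟩ := exists_pow_right g.2
    refine ⟨e * k, Subtype.ext ?_⟩
    show g.1 ^ (p ^ (e * k) * q) = 1
    rw [pow_mul, pow_mul, ← hNp]
    exact pow_q_of_right hk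
  have hcop : ∀ k, Nat.Coprime (p ^ k) q := fun k =>
    Nat.Coprime.pow_left k ((Nat.coprime_primes hp hq').2 hpq)
  refine ⟨?_, ?_, ?_, ?_, solvable hp hNp, AS N q hN hq, BS N q hN hq, ?_, ?_, factor hqN⟩
  · intro g
    obtain ⟨k, hk⟩ := hpow g
    exact isOfFinOrder_iff_pow_eq_one.2 ⟨_, Nat.mul_pos (pow_pos hp.pos _) hq'.pos, hk⟩
  · intro g
    obtain ⟨k, hk⟩ := hpow g
    have h1 := orderOf_dvd_of_pow_eq_one hk
    obtain ⟨y, z, hy, hz, hyz⟩ := (Nat.dvd_mul).1 h1
    obtain ⟨a, _, ha⟩ := (Nat.dvd_prime_pow hp).1 hy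
    rw [← pow_one q] at hz
    obtain ⟨b, _, hb⟩ := (Nat.dvd_prime_pow hq').1 hz
    exact ⟨a, b, by rw [← hyz, ha, hb]⟩
  · -- not a `p`-group
    intro hP
    have hm : (S N q 1 - S N q 0 : ℕ → ZMod q) ∈ Mset N q := by
      show S N q 0 + (S N q 1 - S N q 0) ∈ Aff N q
      have h1 : S N q 0 + (S N q 1 - S N q 0) = S N q 1 := by abel
      rw [h1]
      exact Aff_S N q 1
    let g : GG N q hN hq :=
      ⟨SemidirectProduct.inl (Multiplicative.ofAdd (S N q 1 - S N q 0)), hm, one_mem _⟩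
    obtain ⟨k, hk⟩ := hP g
    have hgq : g ^ q = 1 := Subtype.ext (pow_q_of_right (g := g.1) rfl)
    have h1 : g ^ (Nat.gcd (p ^ k) q) = 1 := by
      rw [pow_gcd_eq_one]
      exact ⟨hk, hgq⟩
    rw [hcop k, pow_one] at h1
    have h2 : (S N q 1 - S N q 0 : ℕ → ZMod q) = 0 := by
      have h3 : g.1.left = 1 := by rw [h1]; rfl
      exact h3
    have h3 := congrFun h2 0
    rw [Pi.sub_apply, S_zero, S_zero, sub_zero] at h3
    have : Fact q.Prime := ⟨hq'⟩
    exact one_ne_zero h3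
  · -- not a `q`-group
    intro hP
    let π : Perm ℕ := mk (1 : ZMod N) (fun _ => 1)
    have hπ : π ∈ Ag N := mk_mem _ _ (fun _ => one_mem _)
    let g : GG N q hN hq := ⟨SemidirectProduct.inr π, M_zero, hπ⟩
    obtain ⟨l, hl⟩ := hP g
    obtain ⟨k, hk⟩ := hπ
    have h0 : π ^ (p ^ (e * k)) = 1 := by
      rw [pow_mul, ← hNp]
      exact AA_pow k hk
    have hl' : π ^ (q ^ l) = 1 := by
      have h3 : (g.1 ^ (q ^ l)).right = 1 := by
        have : g.1 ^ (q ^ l) = 1 := congrArg Subtype.val hl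
        rw [this]
        rfl
      rwa [right_pow] at h3
    have h1 : π ^ (Nat.gcd (p ^ (e * k)) (q ^ l)) = 1 := by
      rw [pow_gcd_eq_one]
      exact ⟨h0, hl'⟩
    have h2 : Nat.gcd (p ^ (e * k)) (q ^ l) = 1 := Nat.Coprime.pow_right l (hcop _)
    rw [h2, pow_one] at h1
    have h3 : π (cons N (0, 0)) = cons N (1, 0) := by
      show mk (1 : ZMod N) (fun _ => 1) (cons N (0, 0)) = _
      rw [mk_apply, zero_add]
      rfl
    rw [h1, Perm.one_apply] at h3
    have h4 := congrArg Prod.fst ((cons N).injective h3)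
    have : Fact (1 < N) := ⟨hN⟩
    exact zero_ne_one h4
  · rintro ⟨a, ha⟩
    obtain ⟨k, hk⟩ := exists_pow_right a.2
    refine ⟨e * k, Subtype.ext (Subtype.ext ?_)⟩
    show a.1 ^ (p ^ (e * k)) = 1
    rw [pow_mul, ← hNp]
    have h1 : a ^ (N ^ k) ∈ AS N q hN hq := pow_mem ha _
    ext1
    · exact h1
    · exact hk
  · rintro ⟨a, ha⟩
    obtain ⟨k, hk⟩ := exists_pow_right a.2
    refine ⟨e * k, Subtype.ext (Subtype.ext ?_)⟩
    show a.1 ^ (p ^ (e * k)) = 1
    rw [pow_mul, ← hNp]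
    have h1 : a ^ (N ^ k) ∈ BS N q hN hq := pow_mem ha _
    ext1
    · have h2 : Multiplicative.toAdd (a.1 ^ (N ^ k)).left
        + S N q 0 ∘ (((a.1 ^ (N ^ k)).right)⁻¹ : Perm ℕ) = S N q 0 := h1
      rw [hk, inv_one, Perm.coe_one, Function.comp_id] at h2
      exact add_eq_right.1 h2
    · exact hk

end Construction

/-- For all distinct primes p, q there is a torsion group whose element orders are of the form p^a q^b, which is neither a p-group nor a q-group, whose finitely generated subgroups are solvable, and which equals AB for two p-subgroups A, B. -/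
theorem result :
    ∀ p q : ℕ, p.Prime → q.Prime → p ≠ q →
      ∃ (G : Type) (_ : Group G),
        Monoid.IsTorsion G ∧
        (∀ g : G, ∃ a b : ℕ, orderOf g = p ^ a * q ^ b) ∧
        ¬ IsPGroup p G ∧ ¬ IsPGroup q G ∧
        (∀ s : Finset G, IsSolvable (Subgroup.closure (s : Set G))) ∧
        ∃ A B : Subgroup G, IsPGroup p A ∧ IsPGroup p B ∧
          ∀ g : G, ∃ a ∈ A, ∃ b ∈ B, g = a * b := by
  intro p q hp hq hpq
  have : NeZero (p ^ q) := ⟨pow_ne_zero _ hp.ne_zero⟩
  have hqN : q < p ^ q := Nat.lt_pow_self hp.one_lt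
  have hN : 1 < p ^ q := hq.one_lt.trans hqN
  exact ⟨GG (p ^ q) q hN hq.pos, inferInstance, main hp hq hpq rfl hqN.le⟩

end Pool.Agent.S00865
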