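import Pool.Statements.S00980
import Pool.Agent.Lib.MP_25ed17_al.Metab
import Pool.Agent.Lib.MP_25ed17_al.Neg.Final
import Pool.Agent.Lib.MP_25ed17_al.Neg.Low
import Pool.Agent.Lib.MP_25ed17_al.Neg.Blocks

set_option autoImplicit false
open Pool Pool.MP_25ed17_al

namespace Pool.Agent.S00980

open Pool.Agent.Lib.MP_25ed17_al Pool.Agent.Lib.MP_25ed17_al.Neg

/-- The negation of the preceding statement: For every field K where −1 is a sum of squares and every r: if K((t)) has an anisotropic system of r quadratic forms in n variables, some positive multiple of which vanishes on a half-dimensional subspace, then K has such a system in at least n/2 variables. -/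
theorem result :
    ¬ (∀ (K : Type) [Field K], IsSumSq (-1 : K) →
      ∀ r n : ℕ,
        (∃ q : QuadraticMap (LaurentSeries K) (Fin n → LaurentSeries K) (Fin r → LaurentSeries K),
          (∀ x, q x = 0 → x = 0) ∧
          ∃ m : ℕ, 0 < m ∧
            ∃ W : Submodule (LaurentSeries K) (Fin m → Fin n → LaurentSeries K),
              m * n ≤ 2 * Module.finrank (LaurentSeries K) W ∧
              ∀ x ∈ W, ∑ i, q (x i) = 0) →
        ∃ n' : ℕ, n ≤ 2 * n' ∧
          ∃ q : QuadraticMap K (Fin n' → K) (Fin r → K),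
            (∀ x, q x = 0 → x = 0) ∧
            ∃ m : ℕ, 0 < m ∧
              ∃ W : Submodule K (Fin m → Fin n' → K),
                m * n' ≤ 2 * Module.finrank K W ∧
                ∀ x ∈ W, ∑ i, q (x i) = 0) := by
  intro H
  have hp : Nat.Prime 2731 := by norm_num
  have hq : Nat.Prime 8191 := by norm_num
  obtain ⟨M, hM, hmax⟩ := exists_maximal (k := LaurentSeries ℂ)
    (Ω := AlgebraicClosure (LaurentSeries ℂ)) hp hq
  have hcharL : CharZero (LaurentSeries ℂ) :=
    charZero_of_injective_ringHom (HahnSeries.C_injective (Γ := ℤ) (R := ℂ))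
  have hchar : CharZero M :=
    charZero_of_injective_ringHom (algebraMap (LaurentSeries ℂ) M).injective
  obtain ⟨A, hA⟩ := exists_low ℂ (AlgebraicClosure (LaurentSeries ℂ)) M hM
  obtain ⟨q, hq0⟩ := exists_blocks M A hA
  let f : ℂ →+* M := (algebraMap (LaurentSeries ℂ) M).comp HahnSeries.C
  obtain ⟨n', hn', q', hq', -⟩ := H M (isSumSq_neg_one f) 21 45
    ⟨q, hq0, exists_metabolic (isSumSq_neg_one (HahnSeries.C.comp f)) q⟩
  obtain ⟨c, hc⟩ := exists_restrict (by omega) q' hq'
  obtain ⟨x, hx, hx0⟩ := exists_zero M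
    (fun E _ _ _ => finrank_of_maximal hp hq hM hmax E) rfl c
  exact hx (hc x hx0)

end Pool.Agent.S00980
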