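import Pool.Statements.S01141
import Pool.Agent.Lib.MP_340815_al.H86.M2
import Pool.Agent.Lib.MP_340815_al.H64.M3
import Pool.Agent.Lib.MP_340815_al.H45.Assembly

set_option autoImplicit false
open Pool Pool.MP_340815_al

namespace Pool.Agent.S01141

/-- There exist n ≥ 2 and a finite connected graph whose n-strand braid group (π₁ of unordered n-point configurations on it) is isomorphic to a non-cyclic right-angled Artin group with a finite connected defining graph. -/
theorem result :
  ∃ (n : ℕ) (V : Type) (_ : Finite V) (_ : DecidableEq V) (G : SimpleGraph V),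
    2 ≤ n ∧ G.Connected ∧
    ∃ (x : Quot (fun (f g : {f : Fin n → {p : V → ℝ // ∃ u v : V, (u = v ∨ G.Adj u v) ∧
            ∃ t : ℝ, 0 ≤ t ∧ t ≤ 1 ∧ p = t • Pi.single u (1 : ℝ) + (1 - t) • Pi.single v (1 : ℝ)} //
              Function.Injective f}) => ∃ σ : Equiv.Perm (Fin n), g.1 = f.1 ∘ σ)),
    ∃ (W : Type) (_ : Finite W) (H : SimpleGraph W), H.Connected ∧
      ¬ IsCyclic (PresentedGroup {r : FreeGroup W | ∃ a b : W, H.Adj a b ∧
          r = FreeGroup.of a * FreeGroup.of b * (FreeGroup.of a)⁻¹ * (FreeGroup.of b)⁻¹}) ∧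
      Nonempty (FundamentalGroup _ x ≃* PresentedGroup {r : FreeGroup W | ∃ a b : W, H.Adj a b ∧
          r = FreeGroup.of a * FreeGroup.of b * (FreeGroup.of a)⁻¹ * (FreeGroup.of b)⁻¹}) := by
  exact Pool.Agent.MP_340815_al.frozen_of_M2_M3
    Pool.Agent.Lib.MP_340815_al.H86.m2Statement Pool.Agent.MP_340815_al.Cert.m3Statement

end Pool.Agent.S01141
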