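import Pool.Statements.S01222
import Pool.Agent.Lib.MP_3a7344_al.Main

set_option autoImplicit false
open Pool Pool.MP_3a7344_al

namespace Pool.Agent.S01222

/-- The negation of the preceding statement: There is a countably infinite group in which every infinite generating set X is fast: for some n, every element is a product of at most n elements of X or their inverses. -/
theorem result :
    ¬ (∃ (G : Type) (_ : Group G), Countable G ∧ Infinite G ∧
      ∀ X : Set G, Subgroup.closure X = ⊤ → X.Infinite →
        ∃ n : ℕ, ∀ g : G, ∃ l : List G,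
          l.length ≤ n ∧ (∀ x ∈ l, x ∈ X ∨ x⁻¹ ∈ X) ∧ l.prod = g) := by
  rintro ⟨G, hG, hc, hi, h⟩
  refine Pool.Agent.Lib.MP_3a7344_al.no_fast (G := G) ?_
  intro X hX hXi
  obtain ⟨n, hn⟩ := h X hX hXi
  exact ⟨n, Set.eq_univ_iff_forall.2 hn⟩

end Pool.Agent.S01222
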