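import Pool.Statements.S01380
import Pool.Agent.Lib.MP_4a5c06_al.Level

set_option autoImplicit false
open Pool Pool.MP_4a5c06_al

namespace Pool.Agent.S01380

/-- The negation of the preceding statement: For any ring R, n at least 3, and subgroup N of GL_n(R) normalized by the elementary subgroup E_n(R): either N contains E_n(R), or some proper two-sided ideal I makes every element of the commutator [N, E_n(R)] congruent to the identity mod I. -/
theorem result :
    ¬ (∀ (R : Type) [Ring R] (n : ℕ), 3 ≤ n →
      ∀ E : Subgroup (Matrix (Fin n) (Fin n) R)ˣ,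
        E = Subgroup.closure
          {g : (Matrix (Fin n) (Fin n) R)ˣ |
            ∃ i j : Fin n, ∃ c : R, i ≠ j ∧
              (g : Matrix (Fin n) (Fin n) R) =
                1 + Matrix.of (fun a b => if a = i ∧ b = j then c else 0)} →
      ∀ N : Subgroup (Matrix (Fin n) (Fin n) R)ˣ,
        (∀ e ∈ E, ∀ x ∈ N, e * x * e⁻¹ ∈ N) →
        E ≤ N ∨
          ∃ I : TwoSidedIdeal R, I ≠ ⊤ ∧
            ∀ g ∈ ⁅N, E⁆, ∀ i j : Fin n,
              (g : Matrix (Fin n) (Fin n) R) i j - (1 : Matrix (Fin n) (Fin n) R) i j ∈ I) := by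
  intro hall
  open Pool.Agent.Lib.MP_4a5c06_al in
  obtain hE | ⟨I, hI, hlev⟩ := hall Rs 3 le_rfl (Subgroup.closure gens) rfl
    (Subgroup.closure {y : MRˣ | ∃ e ∈ Subgroup.closure gens, y = e * g0 * e⁻¹}) (by
      intro e he x hx
      induction hx using Subgroup.closure_induction with
      | mem x hx =>
        obtain ⟨f, hf, rfl⟩ := hx
        refine Subgroup.subset_closure ⟨e * f, Subgroup.mul_mem _ he hf, ?_⟩
        group
      | one =>
        rw [mul_one, mul_inv_cancel]
        exact Subgroup.one_mem _
      | mul x y _ _ hx hy =>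
        have : e * (x * y) * e⁻¹ = (e * x * e⁻¹) * (e * y * e⁻¹) := by group
        rw [this]
        exact Subgroup.mul_mem _ hx hy
      | inv x _ hx =>
        have : e * x⁻¹ * e⁻¹ = (e * x * e⁻¹)⁻¹ := by group
        rw [this]
        exact Subgroup.inv_mem _ hx)
  · have hmem : ge 0 1 ∈ Subgroup.closure gens := Subgroup.subset_closure (ge_mem (by decide))
    exact ge_ne_one (by decide) (main_disjoint _ hmem (hE hmem))
  · apply hI
    rw [← TwoSidedIdeal.one_mem_iff]
    have h1 := level I.ringCon.mk' (RingCon.mk'_surjective _) (by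
      intro g hg i j
      have hg0 : g0 ∈ Subgroup.closure
          {y : MRˣ | ∃ e ∈ Subgroup.closure gens, y = e * g0 * e⁻¹} :=
        Subgroup.subset_closure ⟨1, Subgroup.one_mem _, by group⟩
      have h2 := hlev _ (Subgroup.commutator_mem_commutator hg0 (Subgroup.subset_closure hg)) i j
      have h3 := (TwoSidedIdeal.rel_iff I _ _).2 h2
      exact (RingCon.eq _).2 h3)
    have h2 : I.ringCon 1 0 := by
      apply (RingCon.eq _).1
      exact h1
    exact h2

end Pool.Agent.S01380
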