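import Pool.Statements.S02269
import Pool.Agent.Lib.MP_90732c_al.Cx.END

set_option autoImplicit false
open MeasureTheory
open Pool Pool.MP_90732c_al

namespace Pool.Agent.S02269

/-- There is a constant C such that every finitely generated group whose cost (over free measure-preserving actions) exceeds 1 has a paradoxical decomposition with at most C pieces, i.e. Tarski number at most C. -/
theorem result :
  ∃ C : ℕ, ∀ (G : Type) [Group G], Group.FG G →
    (∃ ε : ENNReal, 0 < ε ∧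
      ∀ (X : Type) [MeasurableSpace X] [StandardBorelSpace X] [MulAction G X]
        (μ : Measure X) [IsProbabilityMeasure μ],
        (∀ g : G, MeasurePreserving (fun x : X => g • x) μ μ) →
        (∀ g : G, g ≠ 1 → μ {x : X | g • x = x} = 0) →
        ∀ (s : ℕ → G) (A : ℕ → Set X), (∀ i, MeasurableSet (A i)) →
          (∀ᵐ x ∂μ, ∀ h : G, Relation.ReflTransGen
              (fun y z : X => ∃ i, (y ∈ A i ∧ z = s i • y) ∨ (z ∈ A i ∧ y = s i • z))
              x (h • x)) →
          1 + ε ≤ ∑' i, μ (A i)) →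
    ∃ (k : ℕ) (P : Fin k → Set G) (t : Fin k → G) (S : Finset (Fin k)),
      k ≤ C ∧ (∀ x : G, ∃! i, x ∈ P i) ∧
      (∀ x : G, ∃! i, i ∈ S ∧ (t i)⁻¹ * x ∈ P i) ∧
      (∀ x : G, ∃! i, i ∉ S ∧ (t i)⁻¹ * x ∈ P i) := by
  refine ⟨2 * 4 ^ 6000, fun G _ hfg hcost => ?_⟩
  obtain ⟨ε, hε, hc⟩ := hcost
  have hc' : Pool.Agent.Lib.MP_90732c_al.CostGe G (1 + ε) := hc
  exact Pool.Agent.Lib.MP_90732c_al.Cx.tarskiLe_all hfg hε hc'

end Pool.Agent.S02269
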