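import Pool.Statements.S02540
import Pool.Agent.Lib.MP_a1de5b_al.Final

set_option autoImplicit false
open Pool Pool.MP_a1de5b_al

namespace Pool.Agent.S02540

/-- The negation of the preceding statement: For every periodic locally soluble group G: G is isomorphic to every group locally equivalent to it iff G has a well-ordered ascending normal series with finite factors and every Sylow p-subgroup is Chernikov. -/
theorem result :
    ¬ (∀ (G : Type) [Group G], Monoid.IsTorsion G →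
    (∀ K : Subgroup G, K.FG → IsSolvable K) →
    ((∀ (H : Type) [Group H],
        ((∀ K : Subgroup G, K.FG → ∃ L : Subgroup H, Nonempty (K ≃* L)) ∧
         (∀ L : Subgroup H, L.FG → ∃ K : Subgroup G, Nonempty (L ≃* K))) →
        Nonempty (G ≃* H)) ↔
     ((∃ f : Ordinal.{0} → Subgroup G, f 0 = ⊥ ∧ (∀ o, (f o).Normal) ∧
        (∀ o, f o ≤ f (Order.succ o) ∧ (f o).relIndex (f (Order.succ o)) ≠ 0) ∧
        (∀ o, Order.IsSuccLimit o → f o = ⨆ (o' : Ordinal.{0}) (_ : o' < o), f o') ∧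
        ∃ o, f o = ⊤) ∧
      ∀ p : ℕ, p.Prime → ∀ P : Sylow p G, ∃ N : Subgroup G,
        N ≤ P.toSubgroup ∧
        (∀ g ∈ P.toSubgroup, ∀ n ∈ N, g * n * g⁻¹ ∈ N) ∧
        N.relIndex P.toSubgroup ≠ 0 ∧
        (∀ x ∈ N, ∀ y ∈ N, x * y = y * x) ∧
        (∀ x ∈ N, ∀ n : ℕ, 0 < n → ∃ y ∈ N, y ^ n = x) ∧
        (∀ x ∈ N, IsOfFinOrder x) ∧
        {x : G | x ∈ N ∧ (orderOf x).Prime}.Finite))) := by
  intro hall
  have h := (hall Pool.Agent.Lib.MP_a1de5b_al.G Pool.Agent.Lib.MP_a1de5b_al.G_torsion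
    Pool.Agent.Lib.MP_a1de5b_al.G_locSolvable).1
    (fun H _ hH => Pool.Agent.Lib.MP_a1de5b_al.G_categorical H hH.1 hH.2)
  obtain ⟨q, hq, Q, hQ⟩ := Pool.Agent.Lib.MP_a1de5b_al.not_chernikov
  obtain ⟨N, -, -, hN, -, -, -, hfin⟩ := h.2 q hq Q
  exact hQ N hN hfin

end Pool.Agent.S02540
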