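import Pool.Statements.S02584
import Pool.Agent.Lib.MP_a55e6f_al.Main

set_option autoImplicit false
open Pool Pool.MP_a55e6f_al

namespace Pool.Agent.S02584

/-- The negation of the preceding statement: There is a field K of characteristic zero and a Lie algebra L over K that is not isomorphic to any free Lie algebra, yet whose universal enveloping algebra is isomorphic to a free associative K-algebra. -/
theorem result :
    ¬ (∃ (K : Type) (_ : Field K) (_ : CharZero K) (L : Type) (_ : LieRing L) (_ : LieAlgebra K L),
      (¬ ∃ (X : Type), Nonempty (L ≃ₗ⁅K⁆ FreeLieAlgebra K X)) ∧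
      ∃ (Y : Type), Nonempty (UniversalEnvelopingAlgebra K L ≃ₐ[K] FreeAlgebra K Y)) := by
  exact Pool.Agent.A55.main

end Pool.Agent.S02584
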