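import Pool.Statements.S03851

set_option autoImplicit false
open Pool Pool.MP_115f17_an

namespace Pool.Agent.S03851

open Filter Topology ZeroAtInfty

theorem dist_le_of (f g : C₀(ℕ, ℝ)) (C : ℝ) (hC : 0 ≤ C) (h : ∀ j, |f j - g j| ≤ C) :
    dist f g ≤ C := by
  rw [← ZeroAtInftyContinuousMap.dist_toBCF_eq_dist]
  rw [BoundedContinuousFunction.dist_le hC]
  intro j
  simpa [Real.dist_eq] using h j

theorem coord_le (f g : C₀(ℕ, ℝ)) (j : ℕ) : |f j - g j| ≤ dist f g := by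
  rw [← ZeroAtInftyContinuousMap.dist_toBCF_eq_dist]
  have := BoundedContinuousFunction.dist_coe_le_dist (f := f.toBCF) (g := g.toBCF) j
  simpa [Real.dist_eq] using this

/-- a null sequence as an element of `c₀` -/
noncomputable def mkC (u : ℕ → ℝ) (hu : Tendsto u atTop (𝓝 0)) : C₀(ℕ, ℝ) where
  toFun := u
  continuous_toFun := continuous_of_discreteTopology
  zero_at_infty' := by
    rw [cocompact_eq_cofinite, Nat.cofinite_eq_atTop]
    exact hu

theorem tendsto_coord (f : C₀(ℕ, ℝ)) : Tendsto (fun j => f j) atTop (𝓝 0) := by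
  have := zero_at_infty f
  rw [cocompact_eq_cofinite, Nat.cofinite_eq_atTop] at this
  exact this

theorem coord_norm_le (f : C₀(ℕ, ℝ)) (j : ℕ) : |f j| ≤ ‖f‖ := by
  have := coord_le f 0 j
  simpa [dist_eq_norm] using this

theorem norm_le_of (f : C₀(ℕ, ℝ)) (C : ℝ) (hC : 0 ≤ C) (h : ∀ j, |f j| ≤ C) :
    ‖f‖ ≤ C := by
  have := dist_le_of f 0 C hC (by simpa using h)
  simpa [dist_eq_norm] using this

/-- twice the backward shift, as a linear map -/
noncomputable def Tlin : C₀(ℕ, ℝ) →ₗ[ℝ] C₀(ℕ, ℝ) where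
  toFun f := mkC (fun j => 2 * f (j + 1)) (by
    have h := (tendsto_coord f).comp (tendsto_add_atTop_nat 1)
    simpa using h.const_mul 2)
  map_add' f g := by
    ext j
    show 2 * (f (j+1) + g (j+1)) = 2 * f (j+1) + 2 * g (j+1)
    ring
  map_smul' c f := by
    ext j
    show 2 * (c * f (j+1)) = c * (2 * f (j+1))
    ring

noncomputable def T : C₀(ℕ, ℝ) →L[ℝ] C₀(ℕ, ℝ) :=
  Tlin.mkContinuous 2 (by
    intro f
    apply norm_le_of _ _ (by positivity)
    intro j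
    show |2 * f (j + 1)| ≤ 2 * ‖f‖
    rw [abs_mul]
    have := coord_norm_le f (j+1)
    norm_num
    exact this)

theorem T_apply (f : C₀(ℕ, ℝ)) (j : ℕ) : T f j = 2 * f (j + 1) := rfl

theorem T_iter (f : C₀(ℕ, ℝ)) (n j : ℕ) : ((⇑T)^[n] f) j = 2 ^ n * f (n + j) := by
  induction n generalizing j with
  | zero => simp
  | succ n ih =>
    rw [Function.iterate_succ_apply', T_apply, ih]
    rw [pow_succ]
    have : n + (j + 1) = n + 1 + j := by ring
    rw [this]; ring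

open scoped Classical in
/-- the coordinates of the frequently hypercyclic vector -/
noncomputable def xs (q : ℕ → (ℕ →₀ ℚ)) (m : ℕ) : ℝ :=
  if m - 4 ^ (Nat.log 4 m) < 4 ^ (Nat.log 4 m) ∧
      ∀ j, |((q (Nat.unpair (padicValNat 2 (Nat.log 4 m))).1 j : ℚ) : ℝ)| ≤ (Nat.log 4 m : ℝ)
  then
    ((q (Nat.unpair (padicValNat 2 (Nat.log 4 m))).1
      ((m - 4 ^ (Nat.log 4 m)) % ((Nat.unpair (padicValNat 2 (Nat.log 4 m))).2 + 1)) : ℚ) : ℝ)
    / 2 ^ (m - (m - 4 ^ (Nat.log 4 m)) %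
        ((Nat.unpair (padicValNat 2 (Nat.log 4 m))).2 + 1))
  else 0

theorem xs_bound (q : ℕ → (ℕ →₀ ℚ)) (m : ℕ) :
    |xs q m| ≤ (Nat.log 4 m : ℝ) / 2 ^ (4 ^ (Nat.log 4 m)) := by
  unfold xs
  split_ifs with h
  · obtain ⟨h1, h2⟩ := h
    rcases Nat.eq_zero_or_pos m with hm | hm
    · subst hm
      have := h2 0
      simp at this
      simp [this]
    · rw [abs_div, abs_of_pos (by positivity : (0:ℝ) < 2 ^ (m - (m - 4 ^ (Nat.log 4 m)) %
        ((Nat.unpair (padicValNat 2 (Nat.log 4 m))).2 + 1)))]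
      have hle : 4 ^ (Nat.log 4 m) ≤ m := Nat.pow_log_le_self 4 hm.ne'
      have hmod : (m - 4 ^ (Nat.log 4 m)) %
        ((Nat.unpair (padicValNat 2 (Nat.log 4 m))).2 + 1) ≤ m - 4 ^ (Nat.log 4 m) :=
        Nat.mod_le _ _
      have hexp : 4 ^ (Nat.log 4 m) ≤ m - (m - 4 ^ (Nat.log 4 m)) %
        ((Nat.unpair (padicValNat 2 (Nat.log 4 m))).2 + 1) := by omega
      gcongr
      · exact h2 _
      · norm_num
  · simp
    positivity

theorem tendsto_aux : Tendsto (fun i : ℕ => (i : ℝ) / 2 ^ i) atTop (𝓝 0) := by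
  have := tendsto_pow_const_div_const_pow_of_one_lt 1 (r := (2:ℝ)) (by norm_num)
  simpa using this

theorem xs_tendsto (q : ℕ → (ℕ →₀ ℚ)) : Tendsto (xs q) atTop (𝓝 0) := by
  apply squeeze_zero_norm (a := fun m => (Nat.log 4 m : ℝ) / 2 ^ (Nat.log 4 m))
  · intro m
    rw [Real.norm_eq_abs]
    refine (xs_bound q m).trans ?_
    gcongr
    · norm_num
    · exact (Nat.lt_pow_self (by norm_num)).le
  · have hlog : Tendsto (fun m => Nat.log 4 m) atTop atTop := by
      apply tendsto_atTop_atTop.2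
      intro b
      refine ⟨4 ^ b, fun a ha => ?_⟩
      exact Nat.le_log_of_pow_le (by norm_num) ha
    exact tendsto_aux.comp hlog

theorem log_eq {m i : ℕ} (h1 : 4 ^ i ≤ m) (h2 : m < 4 ^ (i + 1)) : Nat.log 4 m = i :=
  Nat.log_eq_of_pow_le_of_lt_pow h1 h2

theorem xs_gap (q : ℕ → (ℕ →₀ ℚ)) {m i : ℕ} (h1 : 2 * 4 ^ i ≤ m) (h2 : m < 4 ^ (i + 1)) :
    xs q m = 0 := by
  have hlog : Nat.log 4 m = i := log_eq (by omega) h2
  unfold xs
  rw [if_neg]
  rw [hlog]
  rintro ⟨h, -⟩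
  omega

theorem key (q : ℕ → (ℕ →₀ ℚ)) (p l i r : ℕ) (B ε : ℝ) (hB : ∀ j, |((q p j : ℚ) : ℝ)| ≤ B)
    (hBi : B ≤ i) (hsupp : ∀ j, l + 1 ≤ j → q p j = 0)
    (hBL : B / 2 ^ (l + 1) ≤ ε) (hε : 0 ≤ ε) (htail : ∀ i' : ℕ, i ≤ i' → (i' : ℝ) / 2 ^ i' ≤ ε)
    (hi : padicValNat 2 i = Nat.pair p l) (hr : (r + 1) * (l + 1) ≤ 4 ^ i) (j : ℕ) :
    |2 ^ (4 ^ i + r * (l + 1)) * xs q (4 ^ i + r * (l + 1) + j) - ((q p j : ℚ) : ℝ)| ≤ ε := by
  have hr' : r * (l + 1) + (l + 1) ≤ 4 ^ i := by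
    have : (r + 1) * (l + 1) = r * (l + 1) + (l + 1) := by ring
    omega
  set n := 4 ^ i + r * (l + 1) with hn
  have h4 : 4 ^ (i + 1) = 4 * 4 ^ i := by rw [pow_succ]; ring
  rcases Nat.lt_or_ge j (l + 1) with hj | hj
  · -- exact values
    have hlog : Nat.log 4 (n + j) = i := log_eq (by omega) (by omega)
    have hs : n + j - 4 ^ i = r * (l + 1) + j := by omega
    have hmod : (r * (l + 1) + j) % (l + 1) = j := by
      rw [Nat.add_comm, Nat.add_mul_mod_self_right, Nat.mod_eq_of_lt hj]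
    have : xs q (n + j) = ((q p j : ℚ) : ℝ) / 2 ^ n := by
      unfold xs
      rw [hlog, hi, Nat.unpair_pair, hs]
      simp only [hmod]
      rw [if_pos ⟨by omega, fun j => (hB j).trans hBi⟩]
      congr 2
      omega
    rw [this]
    have h2 : (2:ℝ) ^ n ≠ 0 := by positivity
    rw [mul_div_cancel₀ _ h2]
    simpa using hε
  · rw [hsupp j hj]
    simp only [Rat.cast_zero, sub_zero]
    rw [abs_mul, abs_of_pos (by positivity : (0:ℝ) < 2 ^ n)]
    set m := n + j with hm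
    have hilog : i ≤ Nat.log 4 m := Nat.le_log_of_pow_le (by norm_num) (by omega)
    have hm0 : m ≠ 0 := by
      have : 0 < 4 ^ i := by positivity
      omega
    rcases Nat.eq_or_lt_of_le hilog with hlog | hlog
    · -- same block
      unfold xs
      rw [← hlog, hi, Nat.unpair_pair]
      simp only
      split_ifs with h
      · rw [abs_div, abs_of_pos (by positivity : (0:ℝ) < 2 ^ (m - (m - 4 ^ i) % (l + 1)))]
        have hs : m - 4 ^ i = r * (l + 1) + j := by omega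
        have hmod : (m - 4 ^ i) % (l + 1) = j % (l + 1) := by
          rw [hs, Nat.add_comm, Nat.add_mul_mod_self_right]
        have hjm : l + 1 ≤ j - j % (l + 1) := by
          have h1 := Nat.div_add_mod j (l + 1)
          have h2 : 1 ≤ j / (l + 1) := (Nat.one_le_div_iff (by omega)).2 hj
          have h3 : (l + 1) * 1 ≤ (l + 1) * (j / (l + 1)) := Nat.mul_le_mul_left _ h2
          omega
        have hjle : j % (l + 1) ≤ j := Nat.mod_le _ _
        have hexp : n + (l + 1) ≤ m - (m - 4 ^ i) % (l + 1) := by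
          rw [hmod]; omega
        have hpow : (2:ℝ) ^ (n + (l + 1)) ≤ 2 ^ (m - (m - 4 ^ i) % (l + 1)) :=
          pow_le_pow_right₀ (by norm_num) hexp
        calc (2:ℝ) ^ n * (|((q p ((m - 4 ^ i) % (l + 1)) : ℚ) : ℝ)| /
                2 ^ (m - (m - 4 ^ i) % (l + 1)))
            ≤ 2 ^ n * (B / 2 ^ (n + (l + 1))) := by
              have hB0 : 0 ≤ B := (abs_nonneg _).trans (hB 0)
              gcongr
              exact hB _
          _ = B / 2 ^ (l + 1) := by
              rw [pow_add (2:ℝ) n (l + 1), mul_div_assoc', mul_div_mul_left _ _ (by positivity)]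
          _ ≤ ε := hBL
      · simpa using hε
    · -- later block
      set i' := Nat.log 4 m with hi'
      have hb := xs_bound q m
      rw [← hi'] at hb
      have h4i : 4 * 4 ^ i ≤ 4 ^ i' := by
        have : 4 ^ (i + 1) ≤ 4 ^ i' := Nat.pow_le_pow_right (by norm_num) hlog
        omega
      have hi'lt : i' < 2 ^ i' := Nat.lt_pow_self (by norm_num)
      have h42 : 4 ^ i' = 2 ^ i' * 2 ^ i' := by
        rw [← Nat.mul_pow]
      have h22 : 2 * 2 ^ i' ≤ 4 ^ i' := by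
        rw [h42]
        apply Nat.mul_le_mul_right
        have : 1 ≤ i' := by omega
        calc 2 = 2 ^ 1 := by norm_num
          _ ≤ 2 ^ i' := Nat.pow_le_pow_right (by norm_num) this
      have hexp : n + i' ≤ 4 ^ i' := by omega
      have hpow : (2:ℝ) ^ (n + i') ≤ 2 ^ (4 ^ i') :=
          pow_le_pow_right₀ (by norm_num) hexp
      calc (2:ℝ) ^ n * |xs q m| ≤ 2 ^ n * ((i' : ℝ) / 2 ^ (4 ^ i')) := by gcongr
        _ ≤ 2 ^ n * ((i' : ℝ) / 2 ^ (n + i')) := by gcongr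
        _ = (i' : ℝ) / 2 ^ i' := by
            rw [pow_add (2:ℝ) n i', mul_div_assoc', mul_div_mul_left _ _ (by positivity)]
        _ ≤ ε := htail i' hlog.le

theorem approx_exists (v : C₀(ℕ, ℝ)) (ε : ℝ) (hε : 0 < ε) :
    ∃ a : ℕ →₀ ℚ, ∀ j, |((a j : ℚ) : ℝ) - v j| ≤ ε := by
  have h0 := tendsto_coord v
  rw [Metric.tendsto_atTop] at h0
  obtain ⟨N, hN⟩ := h0 ε hε
  have hr : ∀ y : ℝ, ∃ c : ℚ, |(c : ℝ) - y| ≤ ε := by
    intro y
    obtain ⟨c, hc1, hc2⟩ := exists_rat_btwn (show y - ε < y by linarith)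
    refine ⟨c, ?_⟩
    rw [abs_le]
    constructor <;> linarith
  choose c hc using hr
  refine ⟨Finsupp.onFinset (Finset.range N) (fun j => if j < N then c (v j) else 0) ?_, ?_⟩
  · intro j hj
    simp at hj
    simpa using hj.1
  · intro j
    simp only [Finsupp.onFinset_apply]
    split_ifs with h
    · exact hc _
    · have := hN j (by omega)
      simp [Real.dist_eq] at this
      simpa using this.le

theorem exists_index (k e : ℕ) (he : 2 ^ k < e) :
    ∃ i, padicValNat 2 i = k ∧ i < e ∧ e ≤ i + 2 ^ (k + 1) := by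
  set t := (e - 1 - 2 ^ k) / 2 ^ (k + 1) with ht
  have h1 := Nat.div_add_mod (e - 1 - 2 ^ k) (2 ^ (k + 1))
  have h2 := Nat.mod_lt (e - 1 - 2 ^ k) (show 0 < 2 ^ (k + 1) by positivity)
  rw [← ht] at h1
  have h3 : 2 ^ k * (2 * t + 1) = 2 ^ (k + 1) * t + 2 ^ k := by rw [pow_succ]; ring
  refine ⟨2 ^ k * (2 * t + 1), ?_, ?_, ?_⟩
  · haveI : Fact (Nat.Prime 2) := ⟨Nat.prime_two⟩
    rw [padicValNat.mul (by positivity) (by omega), padicValNat.prime_pow]
    rw [padicValNat.eq_zero_of_not_dvd (by omega)]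
    rfl
  · rw [h3]; omega
  · rw [h3]; omega

theorem freq (q : ℕ → (ℕ →₀ ℚ)) (hq : Function.Surjective q)
    (U : Set C₀(ℕ, ℝ)) (hU : IsOpen U) (hne : U.Nonempty) :
    ∃ δ : ℝ, 0 < δ ∧ ∀ᶠ n : ℕ in atTop,
      δ * (n : ℝ) ≤
        (({k : ℕ | k < n ∧ (⇑T)^[k] (mkC (xs q) (xs_tendsto q)) ∈ U}.ncard : ℕ) : ℝ) := by
  obtain ⟨v, hv⟩ := hne
  obtain ⟨ρ, hρ, hball⟩ := Metric.isOpen_iff.1 hU v hv
  set ε := ρ / 3 with hεdef
  have hε : 0 < ε := by positivity
  obtain ⟨a, ha⟩ := approx_exists v ε hε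
  obtain ⟨p, hp⟩ := hq a
  -- bound of a
  obtain ⟨B, hB⟩ : ∃ B : ℝ, ∀ j, |((q p j : ℚ) : ℝ)| ≤ B := by
    refine ⟨ε + ‖v‖, fun j => ?_⟩
    rw [hp]
    have h1 := ha j
    have h2 := coord_norm_le v j
    calc |((a j : ℚ) : ℝ)| = |(((a j : ℚ) : ℝ) - v j) + v j| := by ring_nf
      _ ≤ |((a j : ℚ) : ℝ) - v j| + |v j| := abs_add_le _ _
      _ ≤ ε + ‖v‖ := by gcongr
  have hB0 : 0 ≤ B := (abs_nonneg _).trans (hB 0)
  -- choose l
  have htend : Tendsto (fun l : ℕ => B / 2 ^ (l + 1)) atTop (𝓝 0) := by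
    have h := tendsto_pow_atTop_nhds_zero_of_lt_one (r := (1/2:ℝ)) (by norm_num) (by norm_num)
    have h' := (h.comp (tendsto_add_atTop_nat 1)).const_mul B
    simp only [mul_zero] at h'
    refine h'.congr (fun l => ?_)
    simp [div_eq_mul_inv]
  have hev1 : ∀ᶠ l : ℕ in atTop, B / 2 ^ (l + 1) ≤ ε :=
    (htend.eventually (gt_mem_nhds hε)).mono (fun l hl => hl.le)
  have hev2 : ∀ᶠ l : ℕ in atTop, ∀ j, l + 1 ≤ j → q p j = 0 := by
    obtain ⟨M, hM⟩ := (q p).support.finite_toSet.bddAbove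
    filter_upwards [eventually_ge_atTop M] with l hl j hj
    by_contra hne
    have : j ∈ (q p).support := Finsupp.mem_support_iff.2 hne
    have := hM (by exact_mod_cast this)
    omega
  obtain ⟨l, hl1, hl2⟩ := (hev1.and hev2).exists
  set k := Nat.pair p l with hk
  -- choose i₀
  have hev3 : ∀ᶠ i : ℕ in atTop, (i : ℝ) / 2 ^ i ≤ ε :=
    (tendsto_aux.eventually (gt_mem_nhds hε)).mono (fun l hl => hl.le)
  obtain ⟨i₁, hi₁⟩ := eventually_atTop.1 hev3
  obtain ⟨i₂, hi₂⟩ := exists_nat_ge B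
  set L := l + 1 with hL
  set i₀ := max (max i₁ i₂) L with hi₀
  have hvisit : ∀ i, i₀ ≤ i → padicValNat 2 i = k → ∀ r, (r + 1) * L ≤ 4 ^ i →
      (⇑T)^[4 ^ i + r * L] (mkC (xs q) (xs_tendsto q)) ∈ U := by
    intro i hi hik r hr
    apply hball
    rw [Metric.mem_ball]
    have hle : dist ((⇑T)^[4 ^ i + r * L] (mkC (xs q) (xs_tendsto q))) v ≤ 2 * ε := by
      apply dist_le_of _ _ _ (by positivity)
      intro j
      rw [T_iter]
      have h1 := key q p l i r B ε hB (hi₂.trans (by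
        have : i₂ ≤ i := by
          have := le_max_left (max i₁ i₂) L
          have := le_max_right i₁ i₂
          omega
        exact_mod_cast this)) hl2 hl1 hε.le (by
        intro i' hi'
        apply hi₁
        have := le_max_left (max i₁ i₂) L
        have := le_max_left i₁ i₂
        omega) hik hr j
      have h2 := ha j
      rw [hp] at h1
      have h3 : (mkC (xs q) (xs_tendsto q)) (4 ^ i + r * L + j) = xs q (4 ^ i + r * L + j) := rfl
      rw [h3]
      calc |2 ^ (4 ^ i + r * L) * xs q (4 ^ i + r * L + j) - v j|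
          = |(2 ^ (4 ^ i + r * L) * xs q (4 ^ i + r * L + j) - ((a j : ℚ) : ℝ)) +
              (((a j : ℚ) : ℝ) - v j)| := by ring_nf
        _ ≤ _ := abs_add_le _ _
        _ ≤ ε + ε := add_le_add h1 h2
        _ = 2 * ε := by ring
    have : 2 * ε < ρ := by rw [hεdef]; linarith
    linarith
  refine ⟨1 / (2 * L * 4 ^ (2 ^ (k + 1) + 1)), by positivity, ?_⟩
  filter_upwards [eventually_ge_atTop (4 ^ (i₀ + 2 ^ k + 2 ^ (k + 1) + 1))] with N hN
  set e := Nat.log 4 N with he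
  have he1 : i₀ + 2 ^ k + 2 ^ (k + 1) + 1 ≤ e := Nat.le_log_of_pow_le (by norm_num) hN
  obtain ⟨i, hi1, hi2, hi3⟩ := exists_index k e (by omega)
  have hii₀ : i₀ ≤ i := by omega
  have hN0 : N ≠ 0 := by
    have : 0 < 4 ^ (i₀ + 2 ^ k + 2 ^ (k + 1) + 1) := by positivity
    omega
  have hN1 : 4 ^ e ≤ N := Nat.pow_log_le_self 4 hN0
  have hN2 : N < 4 ^ (e + 1) := Nat.lt_pow_succ_log_self (by norm_num) N
  have hie : 4 * 4 ^ i ≤ 4 ^ e := by
    have : 4 ^ (i + 1) ≤ 4 ^ e := Nat.pow_le_pow_right (by norm_num) hi2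
    rw [pow_succ] at this
    omega
  -- the count
  have hsub : ((Finset.range (4 ^ i / L)).image (fun r => 4 ^ i + r * L) : Set ℕ) ⊆
      {k : ℕ | k < N ∧ (⇑T)^[k] (mkC (xs q) (xs_tendsto q)) ∈ U} := by
    intro n hn
    simp only [Finset.coe_image, Set.mem_image, Finset.coe_range, Set.mem_Iio] at hn
    obtain ⟨r, hr, rfl⟩ := hn
    have hr2 : (r + 1) * L ≤ 4 ^ i := by
      calc (r + 1) * L ≤ (4 ^ i / L) * L := Nat.mul_le_mul_right _ hr
        _ ≤ 4 ^ i := Nat.div_mul_le_self _ _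
    have hr3 : r * L ≤ 4 ^ i := by
      have : r * L ≤ (r + 1) * L := Nat.mul_le_mul_right _ (by omega)
      omega
    refine ⟨by omega, hvisit i hii₀ hi1 r hr2⟩
  have hfin : {k : ℕ | k < N ∧ (⇑T)^[k] (mkC (xs q) (xs_tendsto q)) ∈ U}.Finite :=
    (Set.finite_Iio N).subset (fun k hk => hk.1)
  have hcard := Set.ncard_le_ncard hsub hfin
  rw [Set.ncard_coe_finset, Finset.card_image_of_injective _ (by
    intro r s hrs
    simp only [add_right_inj] at hrs
    exact Nat.eq_of_mul_eq_mul_right (by omega) hrs), Finset.card_range] at hcard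
  have hLi : L ≤ 4 ^ i := by
    have h1 : L ≤ i₀ := le_max_right _ _
    have h2 : i < 4 ^ i := Nat.lt_pow_self (by norm_num)
    omega
  have hdiv : 4 ^ i ≤ 2 * L * (4 ^ i / L) := by
    have h1 : 1 ≤ 4 ^ i / L := (Nat.one_le_div_iff (by omega)).2 hLi
    have h2 := Nat.div_add_mod (4 ^ i) L
    have h3 := Nat.mod_lt (4 ^ i) (show 0 < L by omega)
    have h4 : L * 1 ≤ L * (4 ^ i / L) := Nat.mul_le_mul_left _ h1
    have h5 : 2 * L * (4 ^ i / L) = L * (4 ^ i / L) + L * (4 ^ i / L) := by ring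
    omega
  have hNle : N ≤ 4 ^ (2 ^ (k + 1) + 1) * 4 ^ i := by
    have : 4 ^ (e + 1) ≤ 4 ^ (2 ^ (k + 1) + 1 + i) := Nat.pow_le_pow_right (by norm_num) (by omega)
    rw [pow_add 4 (2 ^ (k + 1) + 1) i] at this
    omega
  have hfinal : (N : ℝ) ≤ 4 ^ (2 ^ (k + 1) + 1) * (2 * L * ((4 ^ i / L : ℕ) : ℝ)) := by
    have : N ≤ 4 ^ (2 ^ (k + 1) + 1) * (2 * L * (4 ^ i / L)) :=
      hNle.trans (Nat.mul_le_mul_left _ hdiv)
    exact_mod_cast this
  have hcard' : (((4 ^ i / L : ℕ)) : ℝ) ≤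
      (({k : ℕ | k < N ∧ (⇑T)^[k] (mkC (xs q) (xs_tendsto q)) ∈ U}.ncard : ℕ) : ℝ) := by
    exact_mod_cast hcard
  refine le_trans ?_ hcard'
  rw [div_mul_eq_mul_div, one_mul, div_le_iff₀ (by positivity)]
  linarith

/-- Some bounded operator on a real or complex Banach space has a frequently hypercyclic vector x and a nonempty open U such that no subset of the visit set of x in U has a natural density that exists and is positive. -/
theorem result :
    ∃ (𝕜 : Type) (_ : RCLike 𝕜) (X : Type) (_ : NormedAddCommGroup X)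
      (_ : NormedSpace 𝕜 X) (_ : CompleteSpace X) (T : X →L[𝕜] X) (x : X),
      (∀ U : Set X, IsOpen U → U.Nonempty →
        ∃ δ : ℝ, 0 < δ ∧ ∀ᶠ n : ℕ in Filter.atTop,
          δ * (n : ℝ) ≤ (({k : ℕ | k < n ∧ (⇑T)^[k] x ∈ U}.ncard : ℕ) : ℝ)) ∧
      ∃ U : Set X, IsOpen U ∧ U.Nonempty ∧
        ∀ A : Set ℕ, A ⊆ {k : ℕ | (⇑T)^[k] x ∈ U} →
          ¬ ∃ d : ℝ, 0 < d ∧
            Filter.Tendsto
              (fun n : ℕ => (({k : ℕ | k < n ∧ k ∈ A}.ncard : ℕ) : ℝ) / (n : ℝ))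
              Filter.atTop (nhds d) := by
  obtain ⟨q, hq⟩ := exists_surjective_nat (ℕ →₀ ℚ)
  refine ⟨ℝ, inferInstance, C₀(ℕ, ℝ), inferInstance, inferInstance, inferInstance, T,
    mkC (xs q) (xs_tendsto q), fun U hU hne => freq q hq U hU hne, ?_⟩
  refine ⟨{z : C₀(ℕ, ℝ) | 1 < z 0}, ?_, ?_, ?_⟩
  · -- open
    rw [Metric.isOpen_iff]
    intro z hz
    have hz' : 1 < z 0 := hz
    refine ⟨z 0 - 1, by linarith, fun w hw => ?_⟩
    rw [Metric.mem_ball] at hw
    have h1 := coord_le w z 0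
    have h2 := (abs_le.1 (h1.trans hw.le)).1
    have h3 : |w 0 - z 0| < z 0 - 1 := lt_of_le_of_lt h1 hw
    have h4 := (abs_lt.1 h3).1
    show 1 < w 0
    linarith
  · -- nonempty
    refine ⟨mkC (fun j => if j = 0 then 2 else 0) ?_, ?_⟩
    · apply tendsto_const_nhds.congr'
      filter_upwards [eventually_ge_atTop 1] with j hj
      rw [if_neg (by omega)]
    · show (1:ℝ) < if (0:ℕ) = 0 then 2 else 0
      norm_num
  · rintro A hA ⟨d, hd, hlim⟩
    set c : ℕ → ℝ := fun n => (({k : ℕ | k < n ∧ k ∈ A}.ncard : ℕ) : ℝ) with hc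
    have hgap : ∀ i : ℕ, c (4 ^ (i + 1)) = c (2 * 4 ^ i) := by
      intro i
      have : {k : ℕ | k < 4 ^ (i + 1) ∧ k ∈ A} = {k : ℕ | k < 2 * 4 ^ i ∧ k ∈ A} := by
        ext m
        simp only [Set.mem_ofPred_eq]
        constructor
        · rintro ⟨h1, h2⟩
          refine ⟨?_, h2⟩
          by_contra h3
          have h4 := hA h2
          simp only [Set.mem_ofPred_eq] at h4
          rw [T_iter] at h4
          have h5 : (mkC (xs q) (xs_tendsto q)) (m + 0) = xs q m := rfl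
          rw [h5, xs_gap q (by omega) h1] at h4
          norm_num at h4
        · rintro ⟨h1, h2⟩
          refine ⟨?_, h2⟩
          rw [pow_succ]
          omega
      simp only [hc, this]
    have h1 : Tendsto (fun i : ℕ => c (4 ^ (i + 1)) / ((4 ^ (i + 1) : ℕ) : ℝ)) atTop (𝓝 d) := by
      apply hlim.comp
      exact (tendsto_pow_atTop_atTop_of_one_lt (by norm_num)).comp (tendsto_add_atTop_nat 1)
    have h2 : Tendsto (fun i : ℕ => c (2 * 4 ^ i) / ((2 * 4 ^ i : ℕ) : ℝ)) atTop (𝓝 d) := by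
      apply hlim.comp
      apply Tendsto.const_mul_atTop' (by norm_num)
      exact tendsto_pow_atTop_atTop_of_one_lt (by norm_num)
    have h3 : Tendsto (fun i : ℕ => c (4 ^ (i + 1)) / ((4 ^ (i + 1) : ℕ) : ℝ)) atTop
        (𝓝 (d / 2)) := by
      refine (h2.div_const 2).congr (fun i => ?_)
      rw [hgap i]
      push_cast
      rw [pow_succ]
      field_simp
      ring
    have h4 := tendsto_nhds_unique h1 h3
    linarith

end Pool.Agent.S03851
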