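import Pool.Statements.S03878
import Pool.Agent.Lib.MP_136c99_an.Free
import Pool.Agent.Lib.MP_136c99_an.Main

set_option autoImplicit false
open Pool Pool.MP_136c99_an

namespace Pool.Agent.S03878

/-- The negation of the preceding statement: For every pointed proper metric space whose flat-at-infinity little-Lipschitz functions separate points uniformly, its Lipschitz-free space (characterized by its universal property) has the metric approximation property. -/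
theorem result :
    ¬ (∀ (M : Type) [MetricSpace M] [ProperSpace M] (x0 : M),
    (∃ c : ℝ, 1 ≤ c ∧ ∀ x y : M, ∃ f : M → ℝ,
      (∀ a b : M, |f a - f b| ≤ c * dist a b) ∧
      (∀ ε : ℝ, 0 < ε → ∃ η : ℝ, 0 < η ∧
        ∀ a b : M, dist a b < η → |f a - f b| ≤ ε * dist a b) ∧
      (∀ ε : ℝ, 0 < ε → ∃ r : ℝ,
        ∀ a b : M, (r < dist a x0 ∨ r < dist b x0) → |f a - f b| ≤ ε * dist a b) ∧
      f x - f y = dist x y) →
    ∀ (E : Type) [NormedAddCommGroup E] [NormedSpace ℝ E] [CompleteSpace E] (δ : M → E),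
      δ x0 = 0 →
      (∀ x y : M, ‖δ x - δ y‖ = dist x y) →
      Dense ((Submodule.span ℝ (Set.range δ) : Submodule ℝ E) : Set E) →
      (∀ f : M → ℝ, f x0 = 0 → (∀ a b : M, |f a - f b| ≤ dist a b) →
        ∃ φ : E →L[ℝ] ℝ, ‖φ‖ ≤ 1 ∧ ∀ x : M, φ (δ x) = f x) →
      ∀ K : Set E, IsCompact K → ∀ ε : ℝ, 0 < ε →
        ∃ T : E →L[ℝ] E,
          FiniteDimensional ℝ (LinearMap.range (T : E →ₗ[ℝ] E)) ∧ ‖T‖ ≤ 1 ∧
          ∀ z ∈ K, ‖T z - z‖ ≤ ε) := by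
  intro H
  obtain ⟨E, i1, i2, i3, δ, h0, h1, h2, h3⟩ :=
    Pool.Agent.Lib.MP_136c99_an.exists_free Pool.Agent.Lib.MP_136c99_an.Pt
      Pool.Agent.Lib.MP_136c99_an.pt0
  have hd : Pool.Agent.Lib.MP_136c99_an.FreeData δ := ⟨h0, h1, h2, h3⟩
  obtain ⟨ε, hε, hno⟩ := Pool.Agent.Lib.MP_136c99_an.no_approx hd
  have hsep : ∃ c : ℝ, 1 ≤ c ∧ ∀ x y : Pool.Agent.Lib.MP_136c99_an.Pt,
      ∃ f : Pool.Agent.Lib.MP_136c99_an.Pt → ℝ,
      (∀ a b : Pool.Agent.Lib.MP_136c99_an.Pt, |f a - f b| ≤ c * dist a b) ∧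
      (∀ ε : ℝ, 0 < ε → ∃ η : ℝ, 0 < η ∧
        ∀ a b : Pool.Agent.Lib.MP_136c99_an.Pt, dist a b < η → |f a - f b| ≤ ε * dist a b) ∧
      (∀ ε : ℝ, 0 < ε → ∃ r : ℝ,
        ∀ a b : Pool.Agent.Lib.MP_136c99_an.Pt,
          (r < dist a Pool.Agent.Lib.MP_136c99_an.pt0 ∨
            r < dist b Pool.Agent.Lib.MP_136c99_an.pt0) → |f a - f b| ≤ ε * dist a b) ∧
      f x - f y = dist x y := by
    refine ⟨1, le_rfl, fun x y => ?_⟩
    obtain ⟨f, f1, f2, f3⟩ := Pool.Agent.Lib.MP_136c99_an.separate x y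
    refine ⟨f, f1, f2, fun ε _ => ⟨1, fun a b hab => ?_⟩, f3⟩
    have hle : ∀ p q : Pool.Agent.Lib.MP_136c99_an.Pt, dist p q ≤ 1 := fun p q => by
      rw [Pool.Agent.Lib.MP_136c99_an.dist_eq]
      exact Real.rpow_le_one (Pool.Agent.Lib.MP_136c99_an.rho_nonneg p q)
        (Pool.Agent.Lib.MP_136c99_an.rho_le_one p q) Pool.Agent.Lib.MP_136c99_an.al_pos.le
    rcases hab with hab | hab
    · exact absurd (hle _ _) (not_le.mpr hab)
    · exact absurd (hle _ _) (not_le.mpr hab)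
  obtain ⟨T, hT1, _, hT3⟩ := H Pool.Agent.Lib.MP_136c99_an.Pt Pool.Agent.Lib.MP_136c99_an.pt0
    hsep E δ h0 h1 h2 h3 (Pool.Agent.Lib.MP_136c99_an.KK δ)
    (Pool.Agent.Lib.MP_136c99_an.isCompact_KK hd) ε hε
  exact hno T hT1 hT3

end Pool.Agent.S03878
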