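import Pool.Statements.S03931
import Pool.Agent.Lib.MP_1755e3_an.Full.Cases
import Pool.Agent.Lib.MP_1755e3_an.Full.Instances

set_option autoImplicit false
open MeasureTheory Filter
open Pool Pool.MP_1755e3_an

namespace Pool.Agent.S03931

/-- Every vertically rigid Lebesgue measurable f equals a+bx or a+b·exp(kx) almost everywhere, and every vertically rigid f with the Baire property equals one of these forms on a comeagre set. -/
theorem result :
    (∀ f : ℝ → ℝ,
      (∀ c : ℝ, 0 < c → ∃ φ : EuclideanSpace ℝ (Fin 2) ≃ᵢ EuclideanSpace ℝ (Fin 2),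
        φ '' Set.range (fun x : ℝ => (WithLp.toLp 2 ![x, c * f x] : EuclideanSpace ℝ (Fin 2)))
          = Set.range (fun x : ℝ => (WithLp.toLp 2 ![x, f x] : EuclideanSpace ℝ (Fin 2)))) →
      AEMeasurable f volume →
      ∃ a b k : ℝ, (∀ᵐ x ∂volume, f x = a + b * x) ∨
        (∀ᵐ x ∂volume, f x = a + b * Real.exp (k * x))) ∧
    (∀ f : ℝ → ℝ,
      (∀ c : ℝ, 0 < c → ∃ φ : EuclideanSpace ℝ (Fin 2) ≃ᵢ EuclideanSpace ℝ (Fin 2),
        φ '' Set.range (fun x : ℝ => (WithLp.toLp 2 ![x, c * f x] : EuclideanSpace ℝ (Fin 2)))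
          = Set.range (fun x : ℝ => (WithLp.toLp 2 ![x, f x] : EuclideanSpace ℝ (Fin 2)))) →
      (∀ U : Set ℝ, IsOpen U → BaireMeasurableSet (f ⁻¹' U)) →
      ∃ a b k : ℝ, (∀ᶠ x in residual ℝ, f x = a + b * x) ∨
        (∀ᶠ x in residual ℝ, f x = a + b * Real.exp (k * x))) := by
  constructor
  · intro f hrig hf
    refine Pool.Agent.Lib.MP_1755e3_an.Full.main Pool.Agent.Lib.MP_1755e3_an.Full.nice_ae ?_ hrig
    obtain ⟨g, hg, hfg⟩ := hf
    intro U hU
    refine ⟨g ⁻¹' U, hg hU, ?_⟩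
    filter_upwards [hfg] with x hx
    rw [hx]
    exact Iff.rfl
  · intro f hrig hf
    refine Pool.Agent.Lib.MP_1755e3_an.Full.main
      Pool.Agent.Lib.MP_1755e3_an.Full.nice_residual ?_ hrig
    refine Pool.Agent.Lib.MP_1755e3_an.Full.nice_residual.em_of_open fun U hU => ?_
    exact hf U hU

end Pool.Agent.S03931
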