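import Pool.Statements.S04525
import Pool.Agent.Lib.MP_448b0d_an.Main

set_option autoImplicit false
open Pool Pool.MP_448b0d_an

namespace Pool.Agent.S04525

/-- For any three non-constant entire functions f1,f2,f3 and any entire F on C^3 that is bounded on the set where f1(z1)+f2(z2)+f3(z3)=0, F takes the same value at every point of that set. -/
theorem result :
    ∀ f₁ f₂ f₃ : ℂ → ℂ, Differentiable ℂ f₁ → Differentiable ℂ f₂ → Differentiable ℂ f₃ →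
      (∃ a b : ℂ, f₁ a ≠ f₁ b) → (∃ a b : ℂ, f₂ a ≠ f₂ b) → (∃ a b : ℂ, f₃ a ≠ f₃ b) →
      ∀ F : (Fin 3 → ℂ) → ℂ, Differentiable ℂ F →
        (∃ C : ℝ, ∀ z : Fin 3 → ℂ, f₁ (z 0) + f₂ (z 1) + f₃ (z 2) = 0 → ‖F z‖ ≤ C) →
        ∀ z w : Fin 3 → ℂ, f₁ (z 0) + f₂ (z 1) + f₃ (z 2) = 0 →
          f₁ (w 0) + f₂ (w 1) + f₃ (w 2) = 0 → F z = F w := by
  intro f₁ f₂ f₃ h1 h2 h3 h1c h2c h3c F hF hb z w hz hw
  obtain ⟨C, hC⟩ := hb
  have hv : ∀ v : Fin 3 → ℂ, (![v 0, v 1, v 2] : Fin 3 → ℂ) = v := by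
    intro v
    funext i
    fin_cases i <;> rfl
  have h := Pool.Agent.Lib.MP_448b0d_an.liouville h1 h2 h3 h1c h2c h3c hF hC
    (z 0) (z 1) (z 2) (w 0) (w 1) (w 2) hz hw
  rwa [hv z, hv w] at h

end Pool.Agent.S04525
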