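import Pool.Statements.S05067
import Pool.Agent.Lib.MP_74fee8_an.Full

set_option autoImplicit false
open Pool Pool.MP_74fee8_an

namespace Pool.Agent.S05067

/-- Every complex-linear ring isomorphism from a semisimple complex Fréchet algebra (complete, given by countably many submultiplicative seminorms) onto another such Fréchet algebra is continuous, i.e. the Fréchet algebra topology is unique. -/
theorem result :
    ∀ (A B : Type) [NonUnitalRing A] [Module ℂ A] [IsScalarTower ℂ A A] [SMulCommClass ℂ A A]
      [UniformSpace A] [IsUniformAddGroup A] [IsTopologicalRing A] [ContinuousSMul ℂ A]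
      [CompleteSpace A] [T2Space A]
      [NonUnitalRing B] [Module ℂ B] [IsScalarTower ℂ B B] [SMulCommClass ℂ B B]
      [UniformSpace B] [IsUniformAddGroup B] [IsTopologicalRing B] [ContinuousSMul ℂ B]
      [CompleteSpace B] [T2Space B],
      (∃ p : ℕ → Seminorm ℂ A, WithSeminorms p ∧ ∀ n : ℕ, ∀ x y : A, p n (x * y) ≤ p n x * p n y) →
      (∃ q : ℕ → Seminorm ℂ B, WithSeminorms q ∧ ∀ n : ℕ, ∀ x y : B, q n (x * y) ≤ q n x * q n y) →
      (∀ a : A, (∀ b : A, ∃ c : A, a * b + c = (a * b) * c ∧ a * b + c = c * (a * b)) → a = 0) →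
      ∀ φ : A ≃+* B, (∀ (z : ℂ) (x : A), φ (z • x) = z • φ x) → Continuous φ := by
  intro A B _ _ _ _ _ _ _ _ _ _ _ _ _ _ _ _ _ _ _ _ hA hB hss φ hφ
  let T : A →ₗ[ℂ] B := { toFun := φ, map_add' := map_add φ, map_smul' := hφ }
  have hssB : Pool.Agent.Lib.MP_74fee8_an.SS B := by
    intro b hb
    have h1 : φ.symm b = 0 := by
      apply hss
      intro x
      obtain ⟨c, hc1, hc2⟩ := hb (φ x)
      refine ⟨φ.symm c, ?_, ?_⟩
      · apply φ.injective
        simp only [map_add, map_mul, RingEquiv.apply_symm_apply]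
        exact hc1
      · apply φ.injective
        simp only [map_add, map_mul, RingEquiv.apply_symm_apply]
        exact hc2
    have h2 := congrArg φ h1
    rwa [RingEquiv.apply_symm_apply, map_zero] at h2
  exact Pool.Agent.Lib.MP_74fee8_an.continuous_of_semisimple hA hB hssB T (map_mul φ) φ.bijective

end Pool.Agent.S05067
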