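import Pool.Statements.S05140
import Pool.Agent.Lib.MP_7c4fde_an.Final

set_option autoImplicit false
open Pool Pool.MP_7c4fde_an

namespace Pool.Agent.S05140

/-- The negation of the preceding statement: On every infinite-dimensional separable complex Banach space, every bounded operator with spectrum {0} has a rank-exactly-one bounded perturbation F such that T + F also has spectrum {0}. -/
theorem result :
    ¬ (∀ (X : Type) [NormedAddCommGroup X] [NormedSpace ℂ X] [CompleteSpace X]
      [TopologicalSpace.SeparableSpace X],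
      ¬ FiniteDimensional ℂ X →
      ∀ T : X →L[ℂ] X, spectrum ℂ T = {0} →
        ∃ F : X →L[ℂ] X,
          Module.finrank ℂ (LinearMap.range (F : X →ₗ[ℂ] X)) = 1 ∧
          spectrum ℂ (T + F) = {0}) := by
  intro h
  obtain ⟨T, hT, hF⟩ := Pool.Agent.Lib.MP_7c4fde_an.answer
  obtain ⟨F, hF1, hF2⟩ := h Pool.Agent.Lib.MP_7c4fde_an.E1
    Pool.Agent.Lib.MP_7c4fde_an.not_finiteDimensional T hT
  exact hF F hF1 hF2

end Pool.Agent.S05140
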