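import Pool.Statements.S05470
import Pool.Agent.Lib.MP_968cc4_an.Assembly

set_option autoImplicit false
open Pool Pool.MP_968cc4_an

namespace Pool.Agent.S05470

/-- The negation of the preceding statement: Every infinite-dimensional real or complex space complete under a quasi-norm (q(x)=0 only at 0, quasi-triangle inequality with constant C≥1, homogeneity) has a proper infinite-dimensional subspace closed under q-limits. -/
theorem result :
    ¬ (∀ (𝕜 : Type) [RCLike 𝕜] (E : Type) [AddCommGroup E] [Module 𝕜 E] (q : E → ℝ) (C : ℝ),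
    1 ≤ C →
    (∀ x : E, q x = 0 → x = 0) →
    (∀ x y : E, q (x + y) ≤ C * (q x + q y)) →
    (∀ (c : 𝕜) (x : E), q (c • x) = ‖c‖ * q x) →
    (∀ u : ℕ → E, (∀ ε : ℝ, 0 < ε → ∃ N : ℕ, ∀ m ≥ N, ∀ n ≥ N, q (u m - u n) < ε) →
        ∃ x : E, ∀ ε : ℝ, 0 < ε → ∃ N : ℕ, ∀ n ≥ N, q (u n - x) < ε) →
    ¬ FiniteDimensional 𝕜 E →
    ∃ S : Submodule 𝕜 E, S ≠ ⊤ ∧ ¬ FiniteDimensional 𝕜 ↥S ∧
      ∀ (u : ℕ → E) (x : E), (∀ n, u n ∈ S) →
        (∀ ε : ℝ, 0 < ε → ∃ N : ℕ, ∀ n ≥ N, q (u n - x) < ε) → x ∈ S) :=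
  Pool.Agent.Atomic.not_main

end Pool.Agent.S05470
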