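import Pool.Statements.S05740
-- import your own Pool.Agent.* helpers here

set_option autoImplicit false
open Pool Pool.MP_a8a40e_an

namespace Pool.Agent.S05740

open Set Filter Topology

/-- The entire function `10 + (z - 1) e ^ z`. -/
noncomputable def ff (z : ℂ) : ℂ := 10 + (z - 1) * Complex.exp z

/-- Its restriction to the real line. -/
noncomputable def FF (r : ℝ) : ℝ := 10 + (r - 1) * Real.exp r

lemma ff_ofReal (x : ℝ) : ff (x : ℂ) = ((FF x : ℝ) : ℂ) := by
  simp [ff, FF]

lemma FF_ge_nine (r : ℝ) : 9 ≤ FF r := by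
  have h1 : -r + 1 ≤ Real.exp (-r) := Real.add_one_le_exp (-r)
  have h2 : Real.exp (-r) * Real.exp r = 1 := by
    rw [← Real.exp_add]; simp
  have h3 : (-r + 1) * Real.exp r ≤ Real.exp (-r) * Real.exp r :=
    mul_le_mul_of_nonneg_right h1 (Real.exp_pos r).le
  unfold FF
  nlinarith

lemma FF_gt (r : ℝ) : r < FF r := by
  by_cases h : r < 9
  · exact lt_of_lt_of_le h (FF_ge_nine r)
  · push Not at h
    have h1 : r + 1 ≤ Real.exp r := Real.add_one_le_exp r
    have h2 : (r - 1) * (r + 1) ≤ (r - 1) * Real.exp r :=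
      mul_le_mul_of_nonneg_left h1 (by linarith)
    unfold FF
    nlinarith

lemma hasDerivAt_FF (r : ℝ) : HasDerivAt FF (r * Real.exp r) r := by
  have h1 : HasDerivAt (fun r : ℝ => (r - 1) * Real.exp r)
      (1 * Real.exp r + (r - 1) * Real.exp r) r :=
    ((hasDerivAt_id r).sub_const 1).mul (Real.hasDerivAt_exp r)
  exact (h1.const_add 10).congr_deriv (by ring)

lemma FF_mono : MonotoneOn FF (Ici 0) := by
  apply monotoneOn_of_deriv_nonneg (convex_Ici 0)
  · exact fun x _ => (hasDerivAt_FF x).continuousAt.continuousWithinAt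
  · exact fun x _ => (hasDerivAt_FF x).differentiableAt.differentiableWithinAt
  · intro x hx
    rw [interior_Ici] at hx
    rw [(hasDerivAt_FF x).deriv]
    exact mul_nonneg (le_of_lt hx) (Real.exp_pos x).le

lemma norm_ff_le (z : ℂ) : ‖ff z‖ ≤ FF ‖z‖ := by
  have key : ‖((1 : ℝ) : ℂ) * z * Complex.exp (((1 : ℝ) : ℂ) * z) -
      Complex.exp (((1 : ℝ) : ℂ) * z) + 1‖ ≤
      (1 : ℝ) * ‖z‖ * Real.exp ((1 : ℝ) * ‖z‖) - Real.exp ((1 : ℝ) * ‖z‖) + 1 := by
    refine image_norm_le_of_norm_deriv_right_le_deriv_boundary (a := 0) (b := 1)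
      (f := fun t : ℝ => (t : ℂ) * z * Complex.exp ((t : ℂ) * z) - Complex.exp ((t : ℂ) * z) + 1)
      (f' := fun t : ℝ => z * ((t : ℂ) * z) * Complex.exp ((t : ℂ) * z))
      (B := fun t : ℝ => t * ‖z‖ * Real.exp (t * ‖z‖) - Real.exp (t * ‖z‖) + 1)
      (B' := fun t : ℝ => ‖z‖ * (t * ‖z‖) * Real.exp (t * ‖z‖)) ?_ ?_ ?_ ?_ ?_
      (right_mem_Icc.mpr zero_le_one)
    · apply Continuous.continuousOn
      fun_prop
    · intro t _
      have h1 : HasDerivAt (fun t : ℝ => (t : ℂ) * z) z t := by
        have := (Complex.ofRealCLM.hasDerivAt (x := t)).mul_const z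
        simpa using this
      have h2 : HasDerivAt (fun t : ℝ => Complex.exp ((t : ℂ) * z))
          (Complex.exp ((t : ℂ) * z) * z) t := h1.cexp
      have h3 := (((h1.mul h2).sub h2).add_const 1).congr_deriv
        (show _ = z * ((t : ℂ) * z) * Complex.exp ((t : ℂ) * z) by ring)
      exact h3.hasDerivWithinAt
    · simp
    · intro t
      have h1 : HasDerivAt (fun t : ℝ => t * ‖z‖) ‖z‖ t := by
        simpa using (hasDerivAt_id t).mul_const ‖z‖
      have h2 : HasDerivAt (fun t : ℝ => Real.exp (t * ‖z‖))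
          (Real.exp (t * ‖z‖) * ‖z‖) t := h1.exp
      exact (((h1.mul h2).sub h2).add_const 1).congr_deriv
        (show _ = ‖z‖ * (t * ‖z‖) * Real.exp (t * ‖z‖) by ring)
    · intro t ht
      rw [norm_mul, norm_mul, norm_mul, Complex.norm_exp, Complex.norm_real,
        Real.norm_of_nonneg ht.1]
      apply mul_le_mul_of_nonneg_left
      · apply Real.exp_le_exp.mpr
        have : ((t : ℂ) * z).re = t * z.re := by simp
        rw [this]
        exact mul_le_mul_of_nonneg_left (Complex.re_le_norm z) ht.1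
      · have := ht.1
        positivity
  simp only [Complex.ofReal_one, one_mul] at key
  have h1 : ff z = 9 + (z * Complex.exp z - Complex.exp z + 1) := by
    unfold ff; ring
  rw [h1]
  calc ‖9 + (z * Complex.exp z - Complex.exp z + 1)‖
      ≤ ‖(9 : ℂ)‖ + ‖z * Complex.exp z - Complex.exp z + 1‖ := norm_add_le _ _
    _ ≤ 9 + (‖z‖ * Real.exp ‖z‖ - Real.exp ‖z‖ + 1) := by
        gcongr
        simp
    _ = FF ‖z‖ := by unfold FF; ring

lemma maxmod (r : ℝ) (hr : 0 ≤ r) :
    sSup ((fun z => ‖ff z‖) '' Metric.sphere (0 : ℂ) r) = FF r := by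
  apply IsGreatest.csSup_eq
  constructor
  · refine ⟨(r : ℂ), by simp [abs_of_nonneg hr], ?_⟩
    simp only [ff_ofReal]
    rw [Complex.norm_real, Real.norm_of_nonneg]
    have := FF_ge_nine r
    linarith
  · rintro _ ⟨z, hz, rfl⟩
    have h1 := norm_ff_le z
    rw [mem_sphere_zero_iff_norm] at hz
    rwa [hz] at h1

lemma maxmod_iter (r : ℝ) (hr : 0 ≤ r) (n : ℕ) :
    (fun r : ℝ => sSup ((fun w => ‖ff w‖) '' Metric.sphere (0 : ℂ) r))^[n] r = FF^[n] r ∧
      0 ≤ FF^[n] r := by
  induction n with
  | zero => exact ⟨rfl, hr⟩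
  | succ n ih =>
    rw [Function.iterate_succ_apply', Function.iterate_succ_apply', ih.1, maxmod _ ih.2]
    exact ⟨rfl, by have := FF_ge_nine (FF^[n] r); linarith⟩

lemma FF_iter_nonneg {r : ℝ} (hr : 0 ≤ r) (n : ℕ) : 0 ≤ FF^[n] r := (maxmod_iter r hr n).2

lemma FF_iter_mono {a b : ℝ} (ha : 0 ≤ a) (hab : a ≤ b) (n : ℕ) : FF^[n] a ≤ FF^[n] b := by
  induction n with
  | zero => exact hab
  | succ n ih =>
    rw [Function.iterate_succ_apply', Function.iterate_succ_apply']
    exact FF_mono (FF_iter_nonneg ha n) (FF_iter_nonneg (ha.trans hab) n) ih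

/-- The level sets of the fast escaping set of `ff`. -/
def AA (ρ : ℝ) : Set ℂ := {z | ∀ n : ℕ, FF^[n] ρ ≤ ‖ff^[n] z‖}

lemma AA_step {ρ : ℝ} {z : ℂ} (hz : z ∈ AA ρ) : ff z ∈ AA (FF ρ) := by
  intro n
  have := hz (n + 1)
  rwa [Function.iterate_succ_apply, Function.iterate_succ_apply] at this

lemma AA_iter {ρ : ℝ} {z : ℂ} (hz : z ∈ AA ρ) (n : ℕ) : ff^[n] z ∈ AA (FF^[n] ρ) := by
  induction n with
  | zero => exact hz
  | succ n ih =>
    rw [Function.iterate_succ_apply', Function.iterate_succ_apply']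
    exact AA_step ih

lemma ff_iter_ofReal (x : ℝ) (n : ℕ) : ff^[n] (x : ℂ) = ((FF^[n] x : ℝ) : ℂ) := by
  induction n with
  | zero => rfl
  | succ n ih =>
    rw [Function.iterate_succ_apply', Function.iterate_succ_apply', ih, ff_ofReal]

lemma FF_lt_ten {x : ℝ} (hx : x < 1) : FF x < 10 := by
  unfold FF
  have := Real.exp_pos x
  nlinarith

/-- For `ρ > 10` the level `AA ρ` does not meet `(-∞, 10]`. -/
lemma real_notMem {ρ x : ℝ} (hρ : 10 < ρ) (hx : x ≤ 10) : (x : ℂ) ∉ AA ρ := by
  intro h
  by_cases h1 : x < 1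
  · have h2 := h 1
    simp only [Function.iterate_one] at h2
    rw [ff_ofReal, Complex.norm_real, Real.norm_of_nonneg (by linarith [FF_ge_nine x])] at h2
    have := FF_gt ρ
    have := FF_lt_ten h1
    linarith
  · have h2 := h 0
    simp only [Function.iterate_zero, id_eq] at h2
    push Not at h1
    rw [Complex.norm_real, Real.norm_of_nonneg (by linarith)] at h2
    linarith

/-- The function `(z - 1) e ^ z`. -/
noncomputable def hh (z : ℂ) : ℂ := (z - 1) * Complex.exp z

lemma ff_eq (z : ℂ) : ff z = 10 + hh z := rfl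

lemma hh_re (z : ℂ) :
    (hh z).re = Real.exp z.re * ((z.re - 1) * Real.cos z.im - z.im * Real.sin z.im) := by
  simp only [hh, Complex.mul_re, Complex.exp_re, Complex.exp_im, Complex.sub_re, Complex.sub_im,
    Complex.one_re, Complex.one_im]
  ring

lemma hh_im (z : ℂ) :
    (hh z).im = Real.exp z.re * ((z.re - 1) * Real.sin z.im + z.im * Real.cos z.im) := by
  simp only [hh, Complex.mul_im, Complex.exp_re, Complex.exp_im, Complex.sub_re, Complex.sub_im,
    Complex.one_re, Complex.one_im]
  ring

/-- `ψ` with `Im h(x+iy) = e^x y ψ(x,y)`. -/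
noncomputable def psi (z : ℂ) : ℝ := (z.re - 1) * Real.sinc z.im + Real.cos z.im

lemma continuous_psi : Continuous psi := by
  unfold psi
  have := Real.continuous_sinc
  fun_prop

/-- The tract containing the positive real axis. -/
def TT : Set ℂ := {z | |z.im| < Real.pi ∧ 0 < psi z}

lemma isOpen_TT : IsOpen TT :=
  (isOpen_lt (Complex.continuous_im.abs) continuous_const).inter
    (isOpen_lt continuous_const continuous_psi)

lemma mul_sinc (y : ℝ) : y * Real.sinc y = Real.sin y := by
  by_cases h : y = 0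
  · simp [h]
  · rw [Real.sinc_of_ne_zero h]; field_simp

lemma hh_im_psi (z : ℂ) : (hh z).im = Real.exp z.re * (z.im * psi z) := by
  rw [hh_im, psi, ← mul_sinc z.im]
  ring

lemma sin_pos_abs {y : ℝ} (h0 : y ≠ 0) (hy : |y| < Real.pi) : 0 < y * Real.sin y := by
  rcases lt_or_gt_of_ne h0 with h | h
  · have h1 : 0 < Real.sin (-y) :=
      Real.sin_pos_of_pos_of_lt_pi (by linarith) (by rwa [abs_of_neg h] at hy)
    rw [Real.sin_neg] at h1
    nlinarith
  · exact mul_pos h (Real.sin_pos_of_pos_of_lt_pi h (by rwa [abs_of_pos h] at hy))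

lemma sinc_pos {y : ℝ} (hy : |y| < Real.pi) : 0 < Real.sinc y := by
  by_cases h : y = 0
  · simp [h]
  · have h1 := sin_pos_abs h hy
    rw [← mul_sinc, ← mul_assoc] at h1
    have h2 : 0 < y * y := mul_self_pos.mpr h
    exact (pos_iff_pos_of_mul_pos h1).mp h2

/-- `y cos y ≤ sin y` in the form `cos y ≤ sinc y` for `|y| ≤ π`. -/
lemma cos_le_sinc {y : ℝ} (hy : |y| ≤ Real.pi) : Real.cos y ≤ Real.sinc y := by
  by_cases h : y = 0
  · simp [h]
  · have hc : Real.cos y ≤ 1 := Real.cos_le_one y
    have key : ∀ t : ℝ, 0 ≤ t → t ≤ Real.pi → 0 ≤ Real.sin t - t * Real.cos t := by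
      intro t ht0 htpi
      have hmono : MonotoneOn (fun t : ℝ => Real.sin t - t * Real.cos t) (Icc 0 Real.pi) := by
        apply monotoneOn_of_deriv_nonneg (convex_Icc 0 Real.pi)
        · exact Continuous.continuousOn (by fun_prop)
        · exact Differentiable.differentiableOn (by fun_prop)
        · intro x hx
          rw [interior_Icc] at hx
          have hd : HasDerivAt (fun t : ℝ => Real.sin t - t * Real.cos t)
              (Real.cos x - (1 * Real.cos x + x * (-Real.sin x))) x :=
            (Real.hasDerivAt_sin x).sub ((hasDerivAt_id x).mul (Real.hasDerivAt_cos x))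
          rw [hd.deriv]
          have := mul_pos hx.1 (Real.sin_pos_of_pos_of_lt_pi hx.1 hx.2)
          nlinarith
      have := hmono ⟨le_refl 0, Real.pi_pos.le⟩ ⟨ht0, htpi⟩ ht0
      simpa using this
    rw [Real.sinc_of_ne_zero h]
    rcases lt_or_gt_of_ne h with h1 | h1
    · have h2 := key (-y) (by linarith) (by rwa [abs_of_neg h1] at hy)
      rw [Real.sin_neg, Real.cos_neg] at h2
      rw [le_div_iff_of_neg h1]
      linarith
    · have h2 := key y h1.le (by rwa [abs_of_pos h1] at hy)
      rw [le_div_iff₀ h1]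
      linarith

lemma re_pos_of_TT {z : ℂ} (hz : z ∈ TT) : 0 < z.re := by
  obtain ⟨h1, h2⟩ := hz
  have h3 := sinc_pos h1
  have h4 := cos_le_sinc h1.le
  unfold psi at h2
  by_contra h
  push Not at h
  nlinarith

/-- The boundary of the tract is mapped into `(-∞, 10]`. -/
lemma closure_TT {z : ℂ} (hz : z ∈ closure TT) (hE : ¬ ((hh z).im = 0 ∧ (hh z).re ≤ 0)) :
    z ∈ TT := by
  have h1 : |z.im| ≤ Real.pi := by
    have : closure TT ⊆ {z : ℂ | |z.im| ≤ Real.pi} :=
      closure_minimal (fun w hw => hw.1.le) (isClosed_le (by fun_prop) continuous_const)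
    exact this hz
  have h2 : 0 ≤ psi z := by
    have : closure TT ⊆ {z : ℂ | 0 ≤ psi z} :=
      closure_minimal (fun w hw => hw.2.le) (isClosed_le continuous_const continuous_psi)
    exact this hz
  have h3 : |z.im| < Real.pi := by
    refine lt_of_le_of_ne h1 (fun h => ?_)
    have hs : Real.sin z.im = 0 ∧ Real.cos z.im = -1 := by
      rcases abs_choice z.im with h' | h'
      · rw [h'] at h
        rw [h]; simp
      · rw [h'] at h
        have : z.im = -Real.pi := by linarith
        rw [this]; simp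
    have hne : z.im ≠ 0 := by
      intro h0
      rw [h0, abs_zero] at h
      exact Real.pi_pos.ne h
    unfold psi at h2
    rw [Real.sinc_of_ne_zero hne, hs.1, hs.2] at h2
    norm_num at h2
  refine ⟨h3, lt_of_le_of_ne h2 (fun h => hE ⟨?_, ?_⟩)⟩
  · rw [hh_im_psi, ← h]; ring
  · rw [hh_re]
    by_cases h0 : z.im = 0
    · have : z.re = 0 := by
        have := h
        unfold psi at this
        rw [h0] at this
        simp at this
        linarith
      rw [h0, this]; simp
    · have h5 := sin_pos_abs h0 h3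
      have h6 : (z.re - 1) * Real.sin z.im = - (z.im * Real.cos z.im) := by
        have := hh_im_psi z
        rw [← h, hh_im] at this
        have he := Real.exp_pos z.re
        have h7 : Real.exp z.re * ((z.re - 1) * Real.sin z.im + z.im * Real.cos z.im) = 0 := by
          rw [this]; ring
        have h8 := (mul_eq_zero.mp h7).resolve_left he.ne'
        linarith
      apply mul_nonpos_of_nonneg_of_nonpos (Real.exp_pos _).le
      have h9 : ((z.re - 1) * Real.cos z.im - z.im * Real.sin z.im) * (z.im * Real.sin z.im)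
          = - z.im ^ 2 := by
        have := Real.sin_sq_add_cos_sq z.im
        have h10 : ((z.re - 1) * Real.cos z.im - z.im * Real.sin z.im) * (z.im * Real.sin z.im)
          = z.im * Real.cos z.im * ((z.re - 1) * Real.sin z.im) - z.im ^ 2 * Real.sin z.im ^ 2 := by
          ring
        rw [h10, h6]
        nlinarith
      by_contra hcon
      push Not at hcon
      have := mul_pos hcon h5
      rw [h9] at this
      nlinarith [sq_nonneg z.im]

/-- Expansion of the imaginary part. -/
lemma expand {z : ℂ} (hz : z ∈ TT) (hfz : ff z ∈ TT) (h1 : 9 ≤ ‖z‖) (h2 : 20 ≤ ‖ff z‖) :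
    2 * |z.im| ≤ |(ff z).im| := by
  have hpi := Real.pi_lt_four
  have hpi0 := Real.pi_pos
  have hx : 8 ≤ z.re := by
    have h3 := re_pos_of_TT hz
    have h4 : ‖z‖ ^ 2 = z.re ^ 2 + z.im ^ 2 := by
      rw [Complex.sq_norm, Complex.normSq_apply]; ring
    have h5 := hz.1
    have h6 : z.im ^ 2 < 16 := by
      rw [← sq_abs]
      nlinarith [abs_nonneg z.im]
    nlinarith [norm_nonneg z]
  have hu : 10 < (ff z).re := by
    have h3 := re_pos_of_TT hfz
    have h4 : ‖ff z‖ ^ 2 = (ff z).re ^ 2 + (ff z).im ^ 2 := by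
      rw [Complex.sq_norm, Complex.normSq_apply]; ring
    have h5 := hfz.1
    have h6 : (ff z).im ^ 2 < 16 := by
      rw [← sq_abs]
      nlinarith [abs_nonneg (ff z).im]
    nlinarith [norm_nonneg (ff z)]
  have hre : 0 < (hh z).re := by
    rw [ff_eq] at hu
    simp at hu
    linarith
  have him : (ff z).im = (hh z).im := by rw [ff_eq]; simp
  have hexp : 1 ≤ Real.exp z.re := Real.one_le_exp (by linarith)
  have hy : |z.im| ≤ Real.pi / 2 := by
    by_contra hcon
    push Not at hcon
    have hc : Real.cos z.im < 0 := by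
      rw [← Real.cos_abs]
      exact Real.cos_neg_of_pi_div_two_lt_of_lt hcon (by linarith [hz.1])
    have h0 : z.im ≠ 0 := by
      intro h0
      rw [h0, abs_zero] at hcon
      linarith
    have hs := sin_pos_abs h0 hz.1
    rw [hh_re] at hre
    have h3 : (z.re - 1) * Real.cos z.im - z.im * Real.sin z.im < 0 := by nlinarith
    have := mul_neg_of_pos_of_neg (Real.exp_pos z.re) h3
    linarith
  rw [him, hh_im_psi, abs_mul, abs_mul, abs_of_pos (Real.exp_pos _)]
  have hcos : 0 ≤ Real.cos z.im := by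
    rw [← Real.cos_abs]
    exact Real.cos_nonneg_of_neg_pi_div_two_le_of_le (by linarith [abs_nonneg z.im]) hy
  have hsinc : 1 / 2 ≤ Real.sinc z.im := by
    by_cases h0 : z.im = 0
    · rw [h0]; simp; norm_num
    · have habs : Real.sinc |z.im| = Real.sinc z.im := by
        rcases abs_choice z.im with h' | h'
        · rw [h']
        · rw [h', Real.sinc_neg]
      rw [← habs, Real.sinc_of_ne_zero (abs_ne_zero.mpr h0), le_div_iff₀ (abs_pos.mpr h0)]
      have := Real.mul_le_sin (abs_nonneg z.im) hy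
      have h7 : 1 / 2 * |z.im| ≤ 2 / Real.pi * |z.im| := by
        apply mul_le_mul_of_nonneg_right _ (abs_nonneg _)
        rw [div_le_div_iff₀ (by norm_num) hpi0]
        linarith
      linarith
  have hpsi : 2 ≤ psi z := by
    unfold psi
    nlinarith
  rw [abs_of_pos (by linarith : 0 < psi z)]
  have h8 : |z.im| * psi z ≤ Real.exp z.re * (|z.im| * psi z) := by
    have : 0 ≤ |z.im| * psi z := by positivity
    nlinarith
  nlinarith [abs_nonneg z.im]

/-- The negation of the preceding statement: For every transcendental entire f and every R > R(f) and R' > R, each connected component of A_R(f) = {z : ∣f^n(z)∣ ≥ M^n(R) for all n} contains a point of A_{R'}(f), with M the maximum modulus. -/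
theorem result :
    ¬ (∀ f : ℂ → ℂ, Differentiable ℂ f →
      (¬ ∃ p : Polynomial ℂ, ∀ z : ℂ, f z = p.eval z) →
      ∀ R R' : ℝ,
        (∃ R₀ : ℝ, 0 < R₀ ∧ R₀ < R ∧
          ∀ r : ℝ, R₀ ≤ r → r < sSup ((fun z => ‖f z‖) '' Metric.sphere (0 : ℂ) r)) →
        R < R' →
        ∀ z₀ : ℂ,
          z₀ ∈ {z : ℂ | ∀ n : ℕ,
            (fun r : ℝ => sSup ((fun w => ‖f w‖) '' Metric.sphere (0 : ℂ) r))^[n] R
              ≤ ‖f^[n] z‖} →
          (connectedComponentIn
              {z : ℂ | ∀ n : ℕ,
                (fun r : ℝ => sSup ((fun w => ‖f w‖) '' Metric.sphere (0 : ℂ) r))^[n] R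
                  ≤ ‖f^[n] z‖} z₀ ∩
            {z : ℂ | ∀ n : ℕ,
                (fun r : ℝ => sSup ((fun w => ‖f w‖) '' Metric.sphere (0 : ℂ) r))^[n] R'
                  ≤ ‖f^[n] z‖}).Nonempty) := by
  intro hmain
  have hdiff : Differentiable ℂ ff := by unfold ff; fun_prop
  have hcont : Continuous ff := hdiff.continuous
  have htrans : ¬ ∃ p : Polynomial ℂ, ∀ z : ℂ, ff z = p.eval z := by
    rintro ⟨p, hp⟩
    by_cases hdeg : 0 < p.degree
    · have h1 : Tendsto (fun x : ℝ => ‖p.eval ((-x : ℝ) : ℂ)‖) atTop atTop := by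
        apply p.tendsto_norm_atTop hdeg
        simp only [Complex.norm_real, norm_neg]
        exact tendsto_norm_atTop_atTop
      obtain ⟨x, hx, hx2⟩ := ((h1.eventually_ge_atTop 10).and (eventually_gt_atTop 0)).exists
      rw [← hp, ff_ofReal, Complex.norm_real, Real.norm_of_nonneg (by linarith [FF_ge_nine (-x)])]
        at hx
      have := FF_lt_ten (show -x < 1 by linarith)
      linarith
    · have h1 : p = Polynomial.C (p.coeff 0) := Polynomial.eq_C_of_degree_le_zero (not_lt.mp hdeg)
      have h2 := hp 0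
      have h3 := hp 1
      rw [h1, Polynomial.eval_C] at h2 h3
      rw [← h2] at h3
      simp [ff] at h3
  have hR : (0 : ℝ) ≤ 1 / 2 := by norm_num
  -- translation of the level sets
  have hlev : ∀ ρ : ℝ, 0 ≤ ρ → {z : ℂ | ∀ n : ℕ,
      (fun r : ℝ => sSup ((fun w => ‖ff w‖) '' Metric.sphere (0 : ℂ) r))^[n] ρ ≤ ‖ff^[n] z‖}
      = AA ρ := by
    intro ρ hρ
    ext z
    simp only [AA, Set.mem_ofPred_eq]
    exact forall_congr' (fun n => by rw [(maxmod_iter ρ hρ n).1])
  have hz0 : ((-4 : ℝ) : ℂ) ∈ AA (1 / 2) := by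
    have hFF : FF (1 / 2) ≤ FF (-4) := by
      unfold FF
      have h1 : (1 : ℝ) ≤ Real.exp (1 / 2) := Real.one_le_exp hR
      have h2 : Real.exp (-4) * Real.exp 4 = 1 := by rw [← Real.exp_add]; simp
      have h3 : (10 : ℝ) ≤ Real.exp 4 := by
        have h4 : (2 : ℝ) ≤ Real.exp 1 := by
          have := Real.add_one_le_exp 1
          linarith
        have h5 : Real.exp 4 = Real.exp 1 ^ 4 := by
          rw [← Real.exp_nat_mul]; norm_num
        rw [h5]
        calc (10 : ℝ) ≤ 2 ^ 4 := by norm_num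
          _ ≤ Real.exp 1 ^ 4 := pow_le_pow_left₀ (by norm_num) h4 4
      have h6 : Real.exp (-4) ≤ 1 / 10 := by
        have := Real.exp_pos (-4)
        nlinarith
      nlinarith
    intro n
    rw [ff_iter_ofReal, Complex.norm_real]
    cases n with
    | zero =>
      simp only [Function.iterate_zero, id_eq]
      norm_num
    | succ n =>
      rw [Function.iterate_succ_apply, Function.iterate_succ_apply]
      refine le_trans ?_ (Real.le_norm_self _)
      exact FF_iter_mono (by linarith [FF_ge_nine (1 / 2)]) hFF n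
  have hconc := hmain ff hdiff htrans (1 / 2) 1
    ⟨1 / 4, by norm_num, by norm_num, fun r hr => by
      rw [maxmod r (by linarith)]; exact FF_gt r⟩ (by norm_num) ((-4 : ℝ) : ℂ)
  rw [hlev (1 / 2) hR, hlev 1 zero_le_one] at hconc
  obtain ⟨z, hzK, hz1⟩ := hconc hz0
  set K := connectedComponentIn (AA (1 / 2)) ((-4 : ℝ) : ℂ) with hK
  have hKpre : IsPreconnected K := isPreconnected_connectedComponentIn
  have hKsub : K ⊆ AA (1 / 2) := connectedComponentIn_subset _ _
  have hKmem : ((-4 : ℝ) : ℂ) ∈ K := mem_connectedComponentIn hz0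
  -- numerical facts
  have hF1 : 9 ≤ FF (1 / 2) := FF_ge_nine _
  have hF2 : 20 ≤ FF (FF (1 / 2)) := by
    have h1 : (2 : ℝ) ≤ Real.exp (FF (1 / 2)) := by
      have := Real.add_one_le_exp (FF (1 / 2))
      linarith
    have h2 : FF (FF (1 / 2)) = 10 + (FF (1 / 2) - 1) * Real.exp (FF (1 / 2)) := rfl
    rw [h2]
    nlinarith
  have hFn : ∀ n : ℕ, 20 ≤ FF^[n + 2] (1 / 2) := by
    intro n
    induction n with
    | zero => exact hF2
    | succ n ih =>
      rw [show n + 1 + 2 = (n + 2) + 1 by ring, Function.iterate_succ_apply']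
      linarith [FF_gt (FF^[n + 2] (1 / 2))]
  -- iterates of points of K avoid the slit
  have havoid : ∀ n : ℕ, ∀ w ∈ K, ¬ ((hh (ff^[n + 1] w)).im = 0 ∧ (hh (ff^[n + 1] w)).re ≤ 0) := by
    rintro n w hw ⟨h1, h2⟩
    have h3 := AA_iter (hKsub hw) (n + 2)
    have h4 : ff^[n + 2] w = ((10 + (hh (ff^[n + 1] w)).re : ℝ) : ℂ) := by
      rw [show n + 2 = (n + 1) + 1 by ring, Function.iterate_succ_apply', ff_eq]
      apply Complex.ext
      · simp
      · rw [Complex.add_im, h1]; simp
    rw [h4] at h3
    exact real_notMem (by linarith [hFn n]) (by linarith) h3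
  -- iterates of K stay in the tract
  have htract : ∀ n : ℕ, ∀ w ∈ K, ff^[n + 1] w ∈ TT := by
    intro n w hw
    have h1 : IsPreconnected (ff^[n + 1] '' K) :=
      hKpre.image _ (hcont.iterate (n + 1)).continuousOn
    have h2 : (ff^[n + 1] '' K ∩ TT).Nonempty := by
      refine ⟨_, ⟨_, hKmem, rfl⟩, ?_⟩
      rw [ff_iter_ofReal]
      refine ⟨by simpa using Real.pi_pos, ?_⟩
      unfold psi
      simp only [Complex.ofReal_re, Complex.ofReal_im, Real.sinc_zero, Real.cos_zero]
      rw [Function.iterate_succ_apply']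
      linarith [FF_ge_nine (FF^[n] (-4))]
    have h3 : closure TT ∩ (ff^[n + 1] '' K) ⊆ TT := by
      rintro _ ⟨h4, ⟨v, hv, rfl⟩⟩
      exact closure_TT h4 (havoid n v hv)
    exact h1.subset_of_closure_inter_subset isOpen_TT h2 h3 ⟨w, hw, rfl⟩
  -- images of K are real
  have hreal : ∀ w ∈ K, (ff w).im = 0 := by
    intro w hw
    have hgrow : ∀ n : ℕ, 2 ^ n * |(ff w).im| ≤ |(ff^[n + 1] w).im| := by
      intro n
      induction n with
      | zero => simp
      | succ n ih =>
        have h1 := htract n w hw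
        have h2 := htract (n + 1) w hw
        have h3 : 9 ≤ ‖ff^[n + 1] w‖ := by
          refine le_trans ?_ (hKsub hw (n + 1))
          rw [Function.iterate_succ_apply']
          exact FF_ge_nine _
        have h4 : 20 ≤ ‖ff^[n + 1 + 1] w‖ := (hFn n).trans (hKsub hw (n + 2))
        rw [Function.iterate_succ_apply' ff (n + 1)] at h2 h4 ⊢
        have := expand h1 h2 h3 h4
        rw [pow_succ]
        linarith
    by_contra hne
    have hpos : 0 < |(ff w).im| := abs_pos.mpr hne
    obtain ⟨n, hn⟩ := pow_unbounded_of_one_lt (Real.pi / |(ff w).im|) (one_lt_two)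
    rw [div_lt_iff₀ hpos] at hn
    have := hgrow n
    have := (htract n w hw).1
    linarith
  have hgt : ∀ w ∈ K, -1 < (hh w).re ∧ (hh w).im = 0 := by
    intro w hw
    have h1 : (hh w).im = 0 := by
      have := hreal w hw
      rw [ff_eq] at this
      simpa using this
    have h2 : 0 < (ff w).re := re_pos_of_TT (htract 0 w hw)
    have h3 := hKsub hw 1
    simp only [Function.iterate_one] at h3
    have h4 : ff w = (((ff w).re : ℝ) : ℂ) := by
      apply Complex.ext
      · simp
      · simpa using hreal w hw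
    rw [h4, Complex.norm_real, Real.norm_of_nonneg h2.le] at h3
    refine ⟨?_, h1⟩
    have h5 : 9 < FF (1 / 2) := by
      have h6 : Real.exp (1 / 2) < 2 := by
        have h7 : Real.exp (1 / 2) ^ 2 = Real.exp 1 := by
          rw [← Real.exp_nat_mul]; norm_num
        have h8 := Real.exp_one_lt_d9
        by_contra hcon
        push Not at hcon
        nlinarith
      unfold FF
      nlinarith
    have h6 : (ff w).re = 10 + (hh w).re := by rw [ff_eq]; simp
    linarith
  -- K lies in the left half strip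
  set V : Set ℂ := {z | z.re < 0 ∧ |z.im| < Real.pi} with hV
  have hVopen : IsOpen V :=
    (isOpen_lt Complex.continuous_re continuous_const).inter
      (isOpen_lt Complex.continuous_im.abs continuous_const)
  have hline : ∀ w ∈ K, w.re ≤ 0 → |w.im| ≤ Real.pi → w.im = 0 ∧ w.re < 0 := by
    intro w hw h1 h2
    obtain ⟨h3, h4⟩ := hgt w hw
    have h5 : w.im = 0 := by
      by_contra hne
      rw [hh_im] at h4
      have h6 := (mul_eq_zero.mp h4).resolve_left (Real.exp_pos _).ne'
      have key : ∀ t : ℝ, 0 < t → t ≤ Real.pi → 0 < Real.sin t - t * Real.cos t := by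
        intro t ht0 htpi
        have hmono : StrictMonoOn (fun t : ℝ => Real.sin t - t * Real.cos t) (Icc 0 Real.pi) := by
          apply strictMonoOn_of_deriv_pos (convex_Icc 0 Real.pi)
          · exact Continuous.continuousOn (by fun_prop)
          · intro x hx
            rw [interior_Icc] at hx
            have hd : HasDerivAt (fun t : ℝ => Real.sin t - t * Real.cos t)
                (Real.cos x - (1 * Real.cos x + x * (-Real.sin x))) x :=
              (Real.hasDerivAt_sin x).sub ((hasDerivAt_id x).mul (Real.hasDerivAt_cos x))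
            rw [hd.deriv]
            have := mul_pos hx.1 (Real.sin_pos_of_pos_of_lt_pi hx.1 hx.2)
            nlinarith
        have := hmono ⟨le_refl 0, Real.pi_pos.le⟩ ⟨ht0.le, htpi⟩ ht0
        simpa using this
      rcases lt_or_gt_of_ne hne with h7 | h7
      · have h8 := key (-w.im) (by linarith) (by rwa [abs_of_neg h7] at h2)
        have h9 : 0 ≤ Real.sin (-w.im) :=
          Real.sin_nonneg_of_nonneg_of_le_pi (by linarith) (by rwa [abs_of_neg h7] at h2)
        rw [Real.sin_neg, Real.cos_neg] at h8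
        rw [Real.sin_neg] at h9
        nlinarith
      · have h8 := key w.im h7 (by rwa [abs_of_pos h7] at h2)
        have h9 : 0 ≤ Real.sin w.im :=
          Real.sin_nonneg_of_nonneg_of_le_pi h7.le (by rwa [abs_of_pos h7] at h2)
        nlinarith
    refine ⟨h5, lt_of_le_of_ne h1 (fun h6 => ?_)⟩
    rw [hh_re, h5, h6] at h3
    simp at h3
  have hKV : K ⊆ V := by
    refine hKpre.subset_of_closure_inter_subset hVopen ⟨_, hKmem, ?_⟩ ?_
    · rw [hV]
      refine ⟨?_, ?_⟩
      · simp
      · simpa using Real.pi_pos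
    · rintro w ⟨h1, h2⟩
      have h3 : w.re ≤ 0 := by
        have : closure V ⊆ {z : ℂ | z.re ≤ 0} :=
          closure_minimal (fun v hv => hv.1.le) (isClosed_le Complex.continuous_re continuous_const)
        exact this h1
      have h4 : |w.im| ≤ Real.pi := by
        have : closure V ⊆ {z : ℂ | |z.im| ≤ Real.pi} :=
          closure_minimal (fun v hv => hv.2.le)
            (isClosed_le Complex.continuous_im.abs continuous_const)
        exact this h1
      obtain ⟨h5, h6⟩ := hline w h2 h3 h4
      exact ⟨h6, by rw [h5, abs_zero]; exact Real.pi_pos⟩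
  -- the final contradiction
  obtain ⟨h1, h2⟩ := hline z hzK (hKV hzK).1.le (hKV hzK).2.le
  have h3 : z = ((z.re : ℝ) : ℂ) := by
    apply Complex.ext
    · simp
    · simpa using h1
  have h4 := hz1 1
  simp only [Function.iterate_one] at h4
  rw [h3, ff_ofReal, Complex.norm_real, Real.norm_of_nonneg (by linarith [FF_ge_nine z.re])] at h4
  have h5 := FF_lt_ten (show z.re < 1 by linarith)
  have h6 : FF 1 = 10 := by unfold FF; ring
  linarith

end Pool.Agent.S05740
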