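import Pool.Statements.S05819
import Pool.Agent.Lib.MP_af3a4a_an.P1.H77.Fin

set_option autoImplicit false
open Pool Pool.MP_af3a4a_an

namespace Pool.Agent.S05819

/-- For n ≥ 2, complex z_1..z_n, real p ≥ 1, any centre c and any k, some zero w of the derivative of ∏(X − z_j) satisfies ∣z_k − w∣ ≤ ((1/n)∑∣z_j − c∣^p)^(1/p). -/
theorem result :
    ∀ (n : ℕ), 2 ≤ n → ∀ (z : Fin n → ℂ) (p : ℝ), 1 ≤ p → ∀ (c : ℂ) (k : Fin n),
      ∃ w : ℂ,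
        (Polynomial.derivative (∏ j : Fin n, (Polynomial.X - Polynomial.C (z j)))).IsRoot w ∧
        ‖z k - w‖ ≤ ((1 / (n : ℝ)) * ∑ j : Fin n, ‖z j - c‖ ^ p) ^ (1 / p) :=
  Pool.Agent.Lib.MP_af3a4a_an.P1.H80.main_of_final2 Pool.Agent.Lib.MP_af3a4a_an.P1.H77.final2

end Pool.Agent.S05819
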