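import Pool.Statements.S05867
import Pool.Agent.Lib.MP_b3782f_an.H79b.Main
import Pool.Agent.Lib.MP_b3782f_an.H3.Seq
import Pool.Agent.Lib.MP_b3782f_an.H79b.Ops

set_option autoImplicit false
open Pool Pool.MP_b3782f_an

namespace Pool.Agent.S05867

/-- For every unital complex Banach algebra A, linear derivation δ on A, and n, any limit of δⁿ(x_k) along a sequence x_k tending to 0 lies in the Jacobson radical of A. -/
theorem result :
    ∀ (A : Type) [NormedRing A] [NormedAlgebra ℂ A] [CompleteSpace A]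
      (δ : A →ₗ[ℂ] A), (∀ a b : A, δ (a * b) = a * δ b + δ a * b) →
      ∀ (n : ℕ) (y : A),
        (∃ x : ℕ → A, Filter.Tendsto x Filter.atTop (nhds 0) ∧
          Filter.Tendsto (fun k => (⇑δ)^[n] (x k)) Filter.atTop (nhds y)) →
        y ∈ (⊥ : Ideal A).jacobson := by
  intro A _ _ _ δ hδ n y hy
  obtain ⟨x, hx1, hx2⟩ := hy
  refine Pool.Agent.Lib.MP_b3782f_an.H79b.main_sep' hδ Pool.Agent.Lib.MP_b3782f_an.H3.seq
    Pool.Agent.Lib.MP_b3782f_an.H79b.OpsMod.ops n y ⟨x, hx1, ?_⟩
  simpa only [Module.End.pow_apply] using hx2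

end Pool.Agent.S05867
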