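import Pool.Statements.S06050
import Pool.Agent.Lib.MP_c3d375_an.Neg.H26.All

set_option autoImplicit false
open Pool Pool.MP_c3d375_an

namespace Pool.Agent.S06050

/-- The negation of the preceding statement: For all closed convex C1, C2 in the complex plane, the union of numerical ranges of f(T), over Hilbert-space operators T with numerical range in C1 and f holomorphic near C1 with f(C1) in C2, is a convex set. -/
theorem result :
    ¬ (∀ C₁ C₂ : Set ℂ, IsClosed C₁ → Convex ℝ C₁ → IsClosed C₂ → Convex ℝ C₂ →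
      Convex ℝ {w : ℂ | ∃ (H : Type) (_ : NormedAddCommGroup H)
          (_ : InnerProductSpace ℂ H) (_ : CompleteSpace H)
          (T : H →L[ℂ] H) (f : ℂ → ℂ) (A : H →L[ℂ] H) (V : Set ℂ),
        (∀ x : H, ‖x‖ = 1 → inner ℂ x (T x) ∈ C₁) ∧
        IsOpen V ∧ C₁ ⊆ V ∧ DifferentiableOn ℂ f V ∧ f '' C₁ ⊆ C₂ ∧
        (∃ (p : ℕ → Polynomial ℂ) (U : Set ℂ), IsOpen U ∧ spectrum ℂ T ⊆ U ∧
          TendstoUniformlyOn (fun n z => (p n).eval z) f Filter.atTop U ∧
          Filter.Tendsto (fun n => Polynomial.aeval T (p n)) Filter.atTop (nhds A)) ∧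
        ∃ x : H, ‖x‖ = 1 ∧ inner ℂ x (A x) = w}) := by
  intro h
  obtain ⟨C₁, C₂, h1, h2, h3, h4, h5⟩ := C3N.H26.all
  exact h5 (h C₁ C₂ h1 h2 h3 h4)

end Pool.Agent.S06050
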