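import Pool.Statements.S06096
import Pool.Agent.Lib.MP_c718d4_an.Main

set_option autoImplicit false
open Filter Topology
open Pool Pool.MP_c718d4_an

namespace Pool.Agent.S06096

/-- The negation of the preceding statement: Every real Banach space in which each separable subspace has separable dual, and which has an equivalent strictly convex norm, also has an equivalent norm that is midpoint locally uniformly rotund. -/
theorem result :
    ¬ (∀ (X : Type) [NormedAddCommGroup X] [NormedSpace ℝ X] [CompleteSpace X],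
      (∀ Y : Submodule ℝ X, TopologicalSpace.SeparableSpace (↥Y) →
          TopologicalSpace.SeparableSpace (↥Y →L[ℝ] ℝ)) →
      (∃ p : Seminorm ℝ X,
          (∃ c C : ℝ, 0 < c ∧ 0 < C ∧ ∀ x : X, c * ‖x‖ ≤ p x ∧ p x ≤ C * ‖x‖) ∧
          ∀ x y : X, p x = 1 → p y = 1 → x ≠ y → p (x + y) < 2) →
      ∃ q : Seminorm ℝ X,
        (∃ c C : ℝ, 0 < c ∧ 0 < C ∧ ∀ x : X, c * ‖x‖ ≤ q x ∧ q x ≤ C * ‖x‖) ∧
        ∀ x : X, q x = 1 → ∀ u : ℕ → X, (∀ n, q (u n) ≤ 1) →
          Tendsto (fun n => q (x + u n)) atTop (𝓝 1) →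
          Tendsto (fun n => q (x - u n)) atTop (𝓝 1) →
          Tendsto (fun n => q (u n)) atTop (𝓝 0)) := by
  intro h
  obtain ⟨q, ⟨c, C, hc, hC, hq⟩, hM⟩ := h Pool.Agent.Lib.MP_c718d4_an.XX
    Pool.Agent.Lib.MP_c718d4_an.asplund_XX Pool.Agent.Lib.MP_c718d4_an.strict_XX
  exact Pool.Agent.Lib.MP_c718d4_an.not_mlur_XX q hc hC hq hM

end Pool.Agent.S06096
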