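import Pool.Statements.S06510
import Pool.Agent.Lib.MP_e6ddea_an.GreenLine

set_option autoImplicit false
open Pool Pool.MP_e6ddea_an

namespace Pool.Agent.S06510

/-- The negation of the preceding statement: For every non-simply-connected plane domain D with Green function g at z₀ and every normalized minimal positive harmonic K on D, some maximal Green line of g leaving z₀ has K equal to the Harnack function at each of its points. -/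
theorem result :
    ¬ (∀ (D : Set ℂ), IsOpen D → IsConnected D → ¬ SimplyConnectedSpace D →
    ∀ z₀ ∈ D, ∀ g : ℂ → ℝ,
      (InnerProductSpace.HarmonicOnNhd g (D \ {z₀}) ∧
        (∀ z ∈ D \ {z₀}, 0 < g z) ∧
        (∃ h : ℂ → ℝ, InnerProductSpace.HarmonicOnNhd h D ∧
          ∀ z ∈ D \ {z₀}, h z = g z + Real.log ‖z - z₀‖) ∧
        (∀ u : ℂ → ℝ,
          (InnerProductSpace.HarmonicOnNhd u (D \ {z₀}) ∧
            (∀ z ∈ D \ {z₀}, 0 < u z) ∧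
            (∃ h : ℂ → ℝ, InnerProductSpace.HarmonicOnNhd h D ∧
              ∀ z ∈ D \ {z₀}, h z = u z + Real.log ‖z - z₀‖)) →
          ∀ z ∈ D \ {z₀}, g z ≤ u z)) →
    ∀ K : ℂ → ℝ,
      (InnerProductSpace.HarmonicOnNhd K D ∧ (∀ z ∈ D, 0 < K z) ∧ K z₀ = 1 ∧
        ∀ u : ℂ → ℝ, InnerProductSpace.HarmonicOnNhd u D →
          (∀ z ∈ D, 0 < u z ∧ u z ≤ K z) →
          ∃ c : ℝ, ∀ z ∈ D, u z = c * K z) →
    ∃ (m : ℝ) (γ : ℝ → ℂ),
      (∀ s : ℝ, m < s →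
        γ s ∈ D ∧ γ s ≠ z₀ ∧ gradient g (γ s) ≠ 0 ∧ g (γ s) = s ∧
        HasDerivAt γ ((‖gradient g (γ s)‖ ^ 2)⁻¹ • gradient g (γ s)) s) ∧
      Filter.Tendsto γ Filter.atTop (nhds z₀) ∧
      (¬ ∃ (m' : ℝ) (γ' : ℝ → ℂ), m' < m ∧ (∀ s : ℝ, m < s → γ' s = γ s) ∧
        ∀ s : ℝ, m' < s →
          γ' s ∈ D ∧ γ' s ≠ z₀ ∧ gradient g (γ' s) ≠ 0 ∧
          HasDerivAt γ' ((‖gradient g (γ' s)‖ ^ 2)⁻¹ • gradient g (γ' s)) s) ∧
      ∀ s : ℝ, m < s →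
        ∀ u : ℂ → ℝ, InnerProductSpace.HarmonicOnNhd u D → (∀ z ∈ D, 0 < u z) →
          u z₀ ≤ 1 → u (γ s) ≤ K (γ s)) := by
  intro H
  obtain ⟨m, γ, hγ, _, _, hu⟩ := H Pool.Agent.Lib.MP_e6ddea_an.PD Pool.Agent.Lib.MP_e6ddea_an.isOpen_PD Pool.Agent.Lib.MP_e6ddea_an.isConnected_PD Pool.Agent.Lib.MP_e6ddea_an.not_simplyConnected_PD 0 Pool.Agent.Lib.MP_e6ddea_an.zero_mem_PD
    Pool.Agent.Lib.MP_e6ddea_an.gPD ⟨Pool.Agent.Lib.MP_e6ddea_an.gPD_harmonic, fun z hz => Pool.Agent.Lib.MP_e6ddea_an.gPD_pos hz, ⟨fun _ => 0, InnerProductSpace.harmonicOnNhd_const 0, fun z _ => by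
      simp [Pool.Agent.Lib.MP_e6ddea_an.gPD]⟩, fun u ⟨_, hpos, h, hh, hhu⟩ => Pool.Agent.Lib.MP_e6ddea_an.gPD_minimal u hpos h hh hhu⟩
    (Pool.Agent.Lib.MP_e6ddea_an.pk 1) ⟨fun z hz => Pool.Agent.Lib.MP_e6ddea_an.pk_harmonic (by simp) (Pool.Agent.Lib.MP_e6ddea_an.norm_lt_one_of_mem hz),
      fun z hz => Pool.Agent.Lib.MP_e6ddea_an.pk_pos (by simp) (Pool.Agent.Lib.MP_e6ddea_an.norm_lt_one_of_mem hz), Pool.Agent.Lib.MP_e6ddea_an.pk_zero (by simp),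
      fun u hu hle => Pool.Agent.Lib.MP_e6ddea_an.pk_minimal u hu hle⟩
  have hline := Pool.Agent.Lib.MP_e6ddea_an.green_line_form m γ (fun s hs => by
    obtain ⟨h1, h2, _, h4, h5⟩ := hγ s hs
    exact ⟨h2, h4, h5⟩)
  obtain ⟨ω, hω, hray⟩ := hline
  -- choose a late parameter
  let s : ℝ := max (m + 1) (Real.log 10)
  have hsm : m < s := lt_of_lt_of_le (by linarith) (le_max_left _ _)
  have hs10 : Real.log 10 ≤ s := le_max_right _ _
  have hr0 : 0 < Real.exp (-s) := Real.exp_pos _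
  have hr1 : Real.exp (-s) ≤ 1 / 10 := by
    rw [Real.exp_neg, one_div]
    apply inv_anti₀ (by norm_num)
    calc (10 : ℝ) = Real.exp (Real.log 10) := (Real.exp_log (by norm_num)).symm
      _ ≤ Real.exp s := Real.exp_le_exp.2 hs10
  have hs := hray s hsm
  by_cases h1 : ω = 1
  · have h2 := hu s hsm Pool.Agent.Lib.MP_e6ddea_an.ga Pool.Agent.Lib.MP_e6ddea_an.ga_harmonic (fun z hz => Pool.Agent.Lib.MP_e6ddea_an.ga_pos hz) (by rw [Pool.Agent.Lib.MP_e6ddea_an.ga_zero])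
    have h3 := Pool.Agent.Lib.MP_e6ddea_an.pk_lt_ga hr0 hr1
    rw [hs, h1, mul_one] at h2
    linarith
  · have h2 := hu s hsm (Pool.Agent.Lib.MP_e6ddea_an.pk ω) (fun z hz => Pool.Agent.Lib.MP_e6ddea_an.pk_harmonic hω (Pool.Agent.Lib.MP_e6ddea_an.norm_lt_one_of_mem hz))
      (fun z hz => Pool.Agent.Lib.MP_e6ddea_an.pk_pos hω (Pool.Agent.Lib.MP_e6ddea_an.norm_lt_one_of_mem hz)) (by rw [Pool.Agent.Lib.MP_e6ddea_an.pk_zero hω])
    have h3 := Pool.Agent.Lib.MP_e6ddea_an.pk_lt_pk hω h1 hr0 (by linarith)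
    rw [hs] at h2
    linarith

end Pool.Agent.S06510
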