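import Pool.Statements.S06612
import Pool.Agent.Lib.MP_eebf92_an.Main

set_option autoImplicit false
open Pool Pool.MP_eebf92_an

namespace Pool.Agent.S06612

/-- Negative answer: k = 2 and the space `ℓ⁴ ⊕ ℓ²` (with its `C^∞` norm), for a quotient seminorm. -/
theorem result :
    ¬ (∀ (k : ℕ∞), 1 ≤ k →
      ∀ (X : Type) [NormedAddCommGroup X] [NormedSpace ℝ X] [CompleteSpace X],
        (∃ N : X → ℝ,
            (∀ x y : X, N (x + y) ≤ N x + N y) ∧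
            (∀ (c : ℝ) (x : X), N (c • x) = |c| * N x) ∧
            (∃ a b : ℝ, 0 < a ∧ 0 < b ∧ ∀ x : X, a * ‖x‖ ≤ N x ∧ N x ≤ b * ‖x‖) ∧
            ContDiffOn ℝ (k : WithTop ℕ∞) N ({0}ᶜ : Set X)) →
        ∀ f : X → ℝ, ConvexOn ℝ Set.univ f → (∃ K, LipschitzWith K f) →
          ∀ ε : ℝ, 0 < ε →
            ∃ φ : X → ℝ, ConvexOn ℝ Set.univ φ ∧ ContDiff ℝ (k : WithTop ℕ∞) φ ∧
              ∀ x : X, |f x - φ x| ≤ ε) := by
  intro h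
  have h2 := h 2 (by norm_num) Pool.Agent.Lib.MP_eebf92_an.X
    ⟨Pool.Agent.Lib.MP_eebf92_an.N, Pool.Agent.Lib.MP_eebf92_an.N_add,
      Pool.Agent.Lib.MP_eebf92_an.N_smul,
      ⟨1, 2, one_pos, two_pos, Pool.Agent.Lib.MP_eebf92_an.N_bounds⟩,
      Pool.Agent.Lib.MP_eebf92_an.N_contDiffOn _⟩
    Pool.Agent.Lib.MP_eebf92_an.f Pool.Agent.Lib.MP_eebf92_an.f_convex
    ⟨1, Pool.Agent.Lib.MP_eebf92_an.f_lip⟩ 1 one_pos
  exact Pool.Agent.Lib.MP_eebf92_an.main h2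

end Pool.Agent.S06612
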