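import Pool.Statements.S06724
import Pool.Agent.Lib.MP_f52611_an.Core9

set_option autoImplicit false
open Filter Asymptotics
open Pool Pool.MP_f52611_an

namespace Pool.Agent.S06724

/-- The negation of the preceding statement: For α>1, the recurrence coefficients a_n of orthonormal polynomials for exp(-∣x∣^α) satisfy a_n/(n/C(α))^{1/α} ~ Σ A_k n^{-i_k} + (-1)^n Σ B_k n^{-j_k}, exponents increasing to infinity, i_0=0, A_0=1, j_0=α. -/
theorem result :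
    ¬ (∀ α : ℝ, 1 < α →
    ∀ μ : ℕ → ℝ, (∀ k : ℕ, μ k = ∫ x : ℝ, x ^ k * Real.exp (-(|x| ^ α))) →
    ∀ D : ℕ → ℝ, (∀ m : ℕ, D m = (Matrix.of fun i j : Fin m => μ (i.val + j.val)).det) →
    ∀ a : ℕ → ℝ, (∀ n : ℕ, 1 ≤ n → a n = Real.sqrt (D (n + 1) * D (n - 1) / D n ^ 2)) →
    ∃ i j A B : ℕ → ℝ,
      StrictMono i ∧ i 0 = 0 ∧ A 0 = 1 ∧
      StrictMono j ∧ j 0 = α ∧
      Tendsto i atTop atTop ∧ Tendsto j atTop atTop ∧
      ∀ N : ℕ,
        (fun n : ℕ =>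
          a n / ((n : ℝ) / (Real.Gamma (α + 1) / (Real.Gamma (α / 2) * Real.Gamma (α / 2 + 1)))) ^ (1 / α)
            - ∑ k ∈ Finset.range N, A k * (n : ℝ) ^ (-(i k))
            - (-1 : ℝ) ^ n * ∑ k ∈ Finset.range N, B k * (n : ℝ) ^ (-(j k)))
        =O[atTop] (fun n : ℕ => (n : ℝ) ^ (-(min (i N) (j N))))) := by
  intro H
  have h3 := H 3 (by norm_num)
  refine F526.final (fun k => ∫ x : ℝ, x ^ k * Real.exp (-(|x| ^ (3 : ℝ)))) (fun _ => rfl)
    (fun m => (Matrix.of fun i j : Fin m =>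
      (fun k : ℕ => ∫ x : ℝ, x ^ k * Real.exp (-(|x| ^ (3 : ℝ)))) (i.val + j.val)).det)
    (fun _ => rfl) _ (fun n _ => rfl) ?_
  exact h3 _ (fun _ => rfl) _ (fun _ => rfl) _ (fun n _ => rfl)

end Pool.Agent.S06724
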