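import Pool.Statements.S07841
import Pool.Agent.Lib.MP_2c0ab4_co.Colorings

set_option autoImplicit false
open Pool Pool.MP_2c0ab4_co

namespace Pool.Agent.S07841

/-- For every finite simple graph on n vertices with chromatic polynomial P (the real polynomial counting proper k-colorings at each natural k), and every real x ≥ n, P(x+1)·P(x−1) ≤ P(x)². -/
theorem result :
    ∀ (V : Type) [Fintype V] (G : SimpleGraph V) (p : Polynomial ℝ),
      (∀ k : ℕ, p.eval (k : ℝ) = (Nat.card (G.Coloring (Fin k)) : ℝ)) →
      ∀ x : ℝ, (Fintype.card V : ℝ) ≤ x →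
        p.eval (x + 1) * p.eval (x - 1) ≤ p.eval x ^ 2 := by
  intro V _ G p hp x hx
  classical
  exact Pool.Agent.Lib.MP_2c0ab4_co.log_concave_chromatic G p hp x hx

end Pool.Agent.S07841
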