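import Pool.Statements.S07963
import Pool.Agent.Lib.MP_31cced_co.Ratio

set_option autoImplicit false
open Pool Pool.MP_31cced_co

namespace Pool.Agent.S07963

/-- For every finite simple graph G on n vertices with clique number ω and every integer λ ≥ n, the number of proper (λ−1)-colourings divided by the number of proper λ-colourings is at most (1−ω/λ)(1−1/λ)^(n−ω). -/
theorem result :
    ∀ (V : Type) [Fintype V] (G : SimpleGraph V) (lam : ℕ),
      Fintype.card V ≤ lam →
      (Nat.card (G.Coloring (Fin (lam - 1))) : ℝ) / (Nat.card (G.Coloring (Fin lam)) : ℝ)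
        ≤ (1 - ((sSup {k : ℕ | ∃ s : Finset V, G.IsNClique k s} : ℕ) : ℝ) / (lam : ℝ))
          * (1 - 1 / (lam : ℝ)) ^ (Fintype.card V - sSup {k : ℕ | ∃ s : Finset V, G.IsNClique k s}) := by
  intro V _ G lam hlam
  have hne : ({k : ℕ | ∃ s : Finset V, G.IsNClique k s}).Nonempty :=
    ⟨0, ∅, by simp [SimpleGraph.isNClique_iff]⟩
  have hbd : BddAbove {k : ℕ | ∃ s : Finset V, G.IsNClique k s} := by
    refine ⟨Fintype.card V, ?_⟩
    rintro k ⟨s, hs⟩
    rw [← hs.card_eq]
    exact Finset.card_le_univ s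
  have hmem := Nat.sSup_mem hne hbd
  set w : ℕ := sSup {k : ℕ | ∃ s : Finset V, G.IsNClique k s} with hw
  have hle : w ≤ Fintype.card V := by
    obtain ⟨s, hs⟩ := hmem
    rw [← hs.card_eq]
    exact Finset.card_le_univ s
  rw [Pool.Agent.Lib.MP_31cced_co.card_coloring, Pool.Agent.Lib.MP_31cced_co.card_coloring]
  have hmain := Pool.Agent.Lib.MP_31cced_co.ratio_bound (Fintype.card V) V G lam w rfl hlam hmem
  have hc : 0 ≤ 1 - (w : ℝ) / (lam : ℝ) := by
    rcases Nat.eq_zero_or_pos lam with h0 | h0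
    · subst h0
      simp
    · have h1 : (0 : ℝ) < (lam : ℝ) := by exact_mod_cast h0
      have h2 : (w : ℝ) ≤ (lam : ℝ) := by exact_mod_cast hle.trans hlam
      rw [sub_nonneg, div_le_one h1]
      exact h2
  have ha : 0 ≤ 1 - 1 / (lam : ℝ) := by
    rcases Nat.eq_zero_or_pos lam with h0 | h0
    · subst h0
      simp
    · have h1 : (1 : ℝ) ≤ (lam : ℝ) := by exact_mod_cast h0
      rw [sub_nonneg, div_le_one (by linarith)]
      exact h1
  apply div_le_of_le_mul₀ (Nat.cast_nonneg _) (by positivity)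
  exact hmain

end Pool.Agent.S07963
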