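import Pool.Statements.S07976
import Pool.Agent.Lib.MP_3240be_co.LEAF.Wrap
import Pool.Agent.Lib.MP_3240be_co.LEAF.All

set_option autoImplicit false
open Pool Pool.MP_3240be_co

namespace Pool.Agent.S07976

/-- The negation of the preceding statement: There is a connected finite graph H such that H and H plus one pendant edge have the same Ramsey graphs: a finite graph F forces a monochromatic copy of H in every 2-edge-colouring iff it forces one of the extended graph. -/
theorem result :
    ¬ (∃ (n : ℕ) (H : SimpleGraph (Fin n)) (H' : SimpleGraph (Fin (n + 1))),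
      H.Connected ∧
      (∀ i j : Fin n, H'.Adj i.castSucc j.castSucc ↔ H.Adj i j) ∧
      (∃ v : Fin n, ∀ i : Fin n, H'.Adj (Fin.last n) i.castSucc ↔ i = v) ∧
      ∀ (m : ℕ) (F : SimpleGraph (Fin m)),
        (∀ c : Fin m → Fin m → Bool, (∀ x y : Fin m, c x y = c y x) →
          ∃ b : Bool, ∃ f : Fin n → Fin m,
            Function.Injective f ∧
            ∀ i j : Fin n, H.Adj i j → F.Adj (f i) (f j) ∧ c (f i) (f j) = b) ↔
        (∀ c : Fin m → Fin m → Bool, (∀ x y : Fin m, c x y = c y x) →
          ∃ b : Bool, ∃ f : Fin (n + 1) → Fin m,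
            Function.Injective f ∧
            ∀ i j : Fin (n + 1), H'.Adj i j → F.Adj (f i) (f j) ∧ c (f i) (f j) = b)) := by
  exact MP3240LEAF.frozen_of MP3240LEAF.sep_all

end Pool.Agent.S07976
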