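import Pool.Statements.S08639

set_option autoImplicit false
open Pool Pool.MP_4cf4e3_co

namespace Pool.Agent.S08639

open Filter

attribute [local instance] Ultrafilter.mul Ultrafilter.add
attribute [local instance] Ultrafilter.semigroup Ultrafilter.addSemigroup

/-- The closed left ideal of all ultrafilters on `ℤ` which tend to `+∞`. -/
def posPart : Set (Ultrafilter ℤ) := {u | ∀ N : ℤ, ∀ᶠ x in u, N < x}

theorem posPart_closed : IsClosed posPart := by
  have : posPart = ⋂ N : ℤ, {u : Ultrafilter ℤ | Set.Ioi N ∈ u} := by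
    ext u
    simp only [posPart, Set.mem_iInter, Set.mem_ofPred_eq]
    rfl
  rw [this]
  exact isClosed_iInter fun N => ultrafilter_isClosed_basic _

theorem posPart_nonempty : posPart.Nonempty := by
  refine ⟨Ultrafilter.of (atTop : Filter ℤ), fun N => ?_⟩
  exact Ultrafilter.of_le (atTop : Filter ℤ) (eventually_gt_atTop N)

theorem posPart_ideal (p u : Ultrafilter ℤ) (hu : u ∈ posPart) : p + u ∈ posPart := by
  intro N
  rw [Ultrafilter.eventually_add]
  filter_upwards with x
  filter_upwards [hu (N - x)] with y hy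
  linarith

/-- The nonempty closed left ideals of `βℤ` inside `posPart`. -/
def ideals : Set (Set (Ultrafilter ℤ)) :=
  {L | IsClosed L ∧ L.Nonempty ∧ L ⊆ posPart ∧ ∀ (p : Ultrafilter ℤ), ∀ u ∈ L, p + u ∈ L}

theorem exists_minimal_ideal : ∃ L, Minimal (· ∈ ideals) L := by
  refine zorn_superset _ fun c hcs hc => ?_
  by_cases hcn : c.Nonempty
  · refine ⟨⋂₀ c, ⟨isClosed_sInter fun t ht => (hcs ht).1, ?_, ?_, fun p u hu => ?_⟩,
      fun s hs => Set.sInter_subset_of_mem hs⟩
    · rw [Set.sInter_eq_iInter]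
      have := hcn.to_subtype
      refine IsCompact.nonempty_iInter_of_directed_nonempty_isCompact_isClosed
        ((↑) : c → Set (Ultrafilter ℤ)) ?_ ?_ ?_ ?_
      · exact DirectedOn.directed_val (IsChain.directedOn hc.symm)
      · exact fun i => (hcs i.prop).2.1
      · exact fun i => (hcs i.prop).1.isCompact
      · exact fun i => (hcs i.prop).1
    · obtain ⟨t, ht⟩ := hcn
      exact (Set.sInter_subset_of_mem ht).trans (hcs ht).2.2.1
    · rw [Set.mem_sInter]
      exact fun t ht => (hcs ht).2.2.2 p u (Set.mem_sInter.mp hu t ht)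
  · refine ⟨posPart, ⟨posPart_closed, posPart_nonempty, subset_rfl, posPart_ideal⟩, fun s hs => ?_⟩
    exact absurd ⟨s, hs⟩ hcn

/-- The key fact: there are an ultrafilter `u` on `ℤ` tending to `+∞` and an ultrafilter `p` with
`p + (u + u) = (-u) + u`. -/
theorem exists_key : ∃ u p : Ultrafilter ℤ, u ∈ posPart ∧
    p + (u + u) = Ultrafilter.map (fun x : ℤ => -x) u + u := by
  obtain ⟨L, hL⟩ := exists_minimal_ideal
  obtain ⟨hLc, ⟨u, hu⟩, hLp, hLi⟩ := hL.prop
  have huu : u + u ∈ L := hLi u u hu
  have hsub : Set.range (fun p : Ultrafilter ℤ => p + (u + u)) ⊆ L := by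
    rintro _ ⟨p, rfl⟩
    exact hLi p _ huu
  have hmem : Set.range (fun p : Ultrafilter ℤ => p + (u + u)) ∈ ideals := by
    refine ⟨?_, ⟨u + (u + u), ⟨u, rfl⟩⟩, hsub.trans hLp, ?_⟩
    · exact (isCompact_range (Ultrafilter.continuous_add_left (u + u))).isClosed
    · rintro p _ ⟨q, rfl⟩
      exact ⟨p + q, add_assoc p q (u + u)⟩
  have heq : Set.range (fun p : Ultrafilter ℤ => p + (u + u)) = L := hL.eq_of_subset hmem hsub
  have hneg : Ultrafilter.map (fun x : ℤ => -x) u + u ∈ L := hLi _ u hu
  rw [← heq] at hneg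
  obtain ⟨p, hp⟩ := hneg
  exact ⟨u, p, hLp hu, hp⟩

/-- In `p + (u + u) = (-u) + u`, the ultrafilter `p` concentrates on the even integers. -/
theorem even_of_key (u p : Ultrafilter ℤ)
    (h : p + (u + u) = Ultrafilter.map (fun x : ℤ => -x) u + u) : ∀ᶠ x : ℤ in (p : Filter ℤ), Even x := by
  have h2 : ∀ᶠ z : ℤ in ((Ultrafilter.map (fun x : ℤ => -x) u + u : Ultrafilter ℤ) : Filter ℤ),
      Even z := by
    rw [Ultrafilter.eventually_add, Ultrafilter.coe_map, eventually_map]
    rcases Ultrafilter.em u (fun x => Even x) with he | he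
    · filter_upwards [he] with y hy
      filter_upwards [he] with z hz
      exact hy.neg.add hz
    · filter_upwards [he] with y hy
      filter_upwards [he] with z hz
      rw [Int.not_even_iff_odd] at hy hz
      exact hy.neg.add_odd hz
  rw [← h, Ultrafilter.eventually_add] at h2
  have h3 : ∀ᶠ z : ℤ in ((u + u : Ultrafilter ℤ) : Filter ℤ), Even z := by
    rw [Ultrafilter.eventually_add]
    rcases Ultrafilter.em u (fun x => Even x) with he | he
    · filter_upwards [he] with y hy
      filter_upwards [he] with z hz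
      exact hy.add hz
    · filter_upwards [he] with y hy
      filter_upwards [he] with z hz
      rw [Int.not_even_iff_odd] at hy hz
      exact hy.add_odd hz
  filter_upwards [h2] with x hx
  obtain ⟨z, hz1, hz2⟩ := (hx.and h3).exists
  exact (Int.even_add.mp hz1).mpr hz2

/-- For every colouring of the natural numbers with finitely many colours, there is a strictly increasing sequence a and one colour such that for all n<m, both a_n+a_m and a_m−a_n have that colour. -/
theorem result :
    ∀ (k : ℕ) (c : ℕ → Fin k), ∃ a : ℕ → ℕ, StrictMono a ∧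
      ∃ i : Fin k, ∀ n m : ℕ, n < m → c (a n + a m) = i ∧ c (a m - a n) = i := by
  intro k c
  obtain ⟨u, p, hu, hkey⟩ := exists_key
  have hev := even_of_key u p hkey
  -- the colour of `w = (-u) + u`
  obtain ⟨i, hi⟩ := Ultrafilter.eq_pure_of_finite
    (Ultrafilter.map (fun z : ℤ => c z.toNat) (Ultrafilter.map (fun x : ℤ => -x) u + u))
  have hw : ∀ᶠ z : ℤ in ((Ultrafilter.map (fun x : ℤ => -x) u + u : Ultrafilter ℤ) : Filter ℤ),
      c z.toNat = i := by
    have : {j : Fin k | j = i} ∈ Ultrafilter.map (fun z : ℤ => c z.toNat)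
        (Ultrafilter.map (fun x : ℤ => -x) u + u) := by
      rw [hi]
      exact Ultrafilter.mem_pure.mpr rfl
    exact this
  have hd : ∀ᶠ y : ℤ in (u : Filter ℤ), ∀ᶠ z : ℤ in (u : Filter ℤ), c (-y + z).toNat = i := by
    rw [Ultrafilter.eventually_add, Ultrafilter.coe_map, eventually_map] at hw
    exact hw
  have hs : ∀ᶠ x : ℤ in (p : Filter ℤ), ∀ᶠ y : ℤ in (u : Filter ℤ), ∀ᶠ z : ℤ in (u : Filter ℤ),
      c (x + (y + z)).toNat = i := by
    rw [← hkey, Ultrafilter.eventually_add] at hw
    filter_upwards [hw] with x hx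
    rwa [Ultrafilter.eventually_add] at hx
  obtain ⟨x, hx, α, hα⟩ := (hs.and hev).exists
  subst hα
  -- build the sequence
  obtain ⟨f, hf1, hf2⟩ := exists_seq_of_forall_finset_exists
    (fun y : ℤ => |α| < y ∧ ∀ᶠ z : ℤ in (u : Filter ℤ), c ((α + α) + (y + z)).toNat = i ∧ c (-y + z).toNat = i)
    (fun y z : ℤ => y < z ∧ c ((α + α) + (y + z)).toNat = i ∧ c (-y + z).toNat = i)
    (by
      intro s hs'
      have h1 : ∀ᶠ y : ℤ in (u : Filter ℤ), ∀ᶠ z : ℤ in (u : Filter ℤ),
          c ((α + α) + (y + z)).toNat = i ∧ c (-y + z).toNat = i := by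
        filter_upwards [hx, hd] with y hy1 hy2
        exact hy1.and hy2
      have h2 : ∀ᶠ z : ℤ in (u : Filter ℤ), ∀ y ∈ s,
          (y < z ∧ c ((α + α) + (y + z)).toNat = i ∧ c (-y + z).toNat = i) := by
        rw [Filter.eventually_all_finset]
        intro y hy
        exact (hu y).and (hs' y hy).2
      obtain ⟨y, hy1, hy2, hy3⟩ := ((hu |α|).and (h1.and h2)).exists
      exact ⟨y, ⟨hy1, hy2⟩, hy3⟩)
  have hpos : ∀ n, 0 < α + f n := by
    intro n
    have := (hf1 n).1
    have h' := neg_abs_le α
    linarith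
  refine ⟨fun n => (α + f n).toNat, ?_, i, ?_⟩
  · intro n m hnm
    have h1 := (hf2 n m hnm).1
    have h2 := hpos n
    have h3 := hpos m
    show (α + f n).toNat < (α + f m).toNat
    omega
  · intro n m hnm
    obtain ⟨h1, h2, h3⟩ := hf2 n m hnm
    have h4 := hpos n
    have h5 := hpos m
    constructor
    · have : (α + f n).toNat + (α + f m).toNat = ((α + α) + (f n + f m)).toNat := by omega
      show c ((α + f n).toNat + (α + f m).toNat) = i
      rw [this, h2]
    · have : (α + f m).toNat - (α + f n).toNat = (-(f n) + f m).toNat := by omega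
      show c ((α + f m).toNat - (α + f n).toNat) = i
      rw [this, h3]

end Pool.Agent.S08639
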