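import Pool.Statements.S09215
import Pool.Agent.Lib.MP_6505eb_co.Final

set_option autoImplicit false
open Classical
open Pool Pool.MP_6505eb_co

namespace Pool.Agent.S09215

/-- For k≥4 and all large t, every connected t-vertex graph made of a K_k with trees attached has 2-color Ramsey multiplicity constant (min monochromatic-copy fraction as n→∞) equal to (k−1)^{1−t}, the Turán coloring value. -/
theorem result :
    ∀ k : ℕ, 4 ≤ k → ∃ T : ℕ, ∀ t : ℕ, T ≤ t →
      ∀ H : SimpleGraph (Fin t),
        (H.Connected ∧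
          ∃ S : Finset (Fin t), S.card = k ∧
            (∀ u ∈ S, ∀ v ∈ S, u ≠ v → H.Adj u v) ∧
            H.edgeSet.ncard = k.choose 2 + (t - k)) →
        ∀ ε : ℝ, 0 < ε → ∃ N : ℕ, ∀ n : ℕ, N ≤ n →
          (∀ G : SimpleGraph (Fin n),
            ((k : ℝ) - 1) ^ ((1 : ℤ) - (t : ℤ)) - ε ≤
              (((Finset.univ : Finset (Fin t ↪ Fin n)).filter
                  (fun f => (∀ u v, H.Adj u v → G.Adj (f u) (f v)) ∨
                            (∀ u v, H.Adj u v → Gᶜ.Adj (f u) (f v)))).card : ℝ) /
                ((n.descFactorial t : ℕ) : ℝ)) ∧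
          (∃ G : SimpleGraph (Fin n),
              (((Finset.univ : Finset (Fin t ↪ Fin n)).filter
                  (fun f => (∀ u v, H.Adj u v → G.Adj (f u) (f v)) ∨
                            (∀ u v, H.Adj u v → Gᶜ.Adj (f u) (f v)))).card : ℝ) /
                ((n.descFactorial t : ℕ) : ℝ) ≤
              ((k : ℝ) - 1) ^ ((1 : ℤ) - (t : ℤ)) + ε) := by
  exact Pool.Agent.Lib.MP_6505eb_co.main_thm

end Pool.Agent.S09215
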