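import Pool.Statements.S09632
import Pool.Agent.Lib.MP_79efce_co.Final

set_option autoImplicit false
open Pool Pool.MP_79efce_co

namespace Pool.Agent.S09632

/-- The negation of the preceding statement: Assume F is an edge-ordered forest whose F-free edge-ordered graphs on n vertices have o(n^2) edges, which is equivalent to order chromatic number 2. Then such graphs have at most C·n·(log n)^c edges for some constants c and C. -/
theorem result :
    ¬ (∀ (k : ℕ) (F : SimpleGraph (Fin k)) (L : Sym2 (Fin k) → ℕ),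
      F.IsAcyclic → Set.InjOn L F.edgeSet →
      (∀ ε : ℝ, 0 < ε → ∃ N : ℕ, ∀ n : ℕ, N ≤ n →
        ∀ (G : SimpleGraph (Fin n)) (M : Sym2 (Fin n) → ℕ), Set.InjOn M G.edgeSet →
          (¬ ∃ φ : Fin k ↪ Fin n, (∀ a b, F.Adj a b → G.Adj (φ a) (φ b)) ∧
              ∀ e ∈ F.edgeSet, ∀ f ∈ F.edgeSet, L e < L f →
                M (Sym2.map (⇑φ) e) < M (Sym2.map (⇑φ) f)) →
          (G.edgeSet.ncard : ℝ) ≤ ε * (n : ℝ) ^ 2) →
      ∃ (c : ℕ) (C : ℝ), ∀ n : ℕ, 2 ≤ n →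
        ∀ (G : SimpleGraph (Fin n)) (M : Sym2 (Fin n) → ℕ), Set.InjOn M G.edgeSet →
          (¬ ∃ φ : Fin k ↪ Fin n, (∀ a b, F.Adj a b → G.Adj (φ a) (φ b)) ∧
              ∀ e ∈ F.edgeSet, ∀ f ∈ F.edgeSet, L e < L f →
                M (Sym2.map (⇑φ) e) < M (Sym2.map (⇑φ) f)) →
          (G.edgeSet.ncard : ℝ) ≤ C * (n : ℝ) * (Real.log (n : ℝ)) ^ c) := by
  intro h
  obtain ⟨c, C, hC⟩ := h 9 (SimpleGraph.pathGraph 9) Pool.Agent.Lib.MP_79efce_co.L9
    Pool.Agent.Lib.MP_79efce_co.path_acyclic Pool.Agent.Lib.MP_79efce_co.L9_injOn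
    Pool.Agent.Lib.MP_79efce_co.dense_contains
  obtain ⟨k, hk⟩ := Pool.Agent.Lib.MP_79efce_co.growth c C
  obtain ⟨G, M, hM, hfree, hcard⟩ := Pool.Agent.Lib.MP_79efce_co.host_fin k
  have hex : 1 ≤ Pool.Agent.Lib.MP_79efce_co.ex k := by
    cases k with
    | zero => simp [Pool.Agent.Lib.MP_79efce_co.ex]
    | succ k => simp only [Pool.Agent.Lib.MP_79efce_co.ex]; omega
  have h2 : 2 ≤ 2 ^ Pool.Agent.Lib.MP_79efce_co.ex k := by
    calc 2 = 2 ^ 1 := by norm_num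
      _ ≤ 2 ^ Pool.Agent.Lib.MP_79efce_co.ex k := Nat.pow_le_pow_right (by norm_num) hex
  have h1 := hC _ h2 G M hM hfree
  push_cast at h1
  have h3 : (2 : ℝ) * G.edgeSet.ncard = 2 ^ Pool.Agent.Lib.MP_79efce_co.ex k * 2 ^ k := by
    exact_mod_cast hcard
  have h4 : (0 : ℝ) < 2 ^ Pool.Agent.Lib.MP_79efce_co.ex k := by positivity
  have h5 : (G.edgeSet.ncard : ℝ) = 2 ^ Pool.Agent.Lib.MP_79efce_co.ex k * (2 ^ k / 2) := by
    linarith
  rw [h5] at h1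
  have h6 : C * 2 ^ Pool.Agent.Lib.MP_79efce_co.ex k *
      Real.log (2 ^ Pool.Agent.Lib.MP_79efce_co.ex k) ^ c =
      2 ^ Pool.Agent.Lib.MP_79efce_co.ex k *
        (C * Real.log (2 ^ Pool.Agent.Lib.MP_79efce_co.ex k) ^ c) := by ring
  rw [h6] at h1
  have h7 := le_of_mul_le_mul_left h1 h4
  linarith

end Pool.Agent.S09632
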