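import Pool.Statements.S09839
import Pool.Agent.Lib.MP_84111f_co.Final

set_option autoImplicit false
open Pool Pool.MP_84111f_co

namespace Pool.Agent.S09839

/-- Every finite simple rank-4 matroid whose same-rank flats have equal sizes and whose hyperplanes pairwise intersect is U(4,4), U(4,5), or the rank-4 truncation of PG(n−1,K) for a field K and n = 4 or 5. -/
theorem result :
    ∀ (α : Type) (M : Matroid α), M.Finite →
      M.IsFlat ∅ → (∀ e ∈ M.E, M.IsFlat {e}) →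
      (∀ F₁ F₂ : Set α, M.IsFlat F₁ → M.IsFlat F₂ → M.eRk F₁ = M.eRk F₂ →
          F₁.ncard = F₂.ncard) →
      M.eRk M.E = 4 →
      (∀ H₁ H₂ : Set α, M.IsFlat H₁ → M.IsFlat H₂ → M.eRk H₁ = 3 → M.eRk H₂ = 3 →
          (H₁ ∩ H₂).Nonempty) →
      (((M.E.ncard = 4 ∨ M.E.ncard = 5) ∧ ∀ I ⊆ M.E, I.ncard ≤ 4 → M.Indep I) ∨
      (∃ (K : Type) (_ : Field K) (n : ℕ) (v : α → Fin n → K),
        (n = 4 ∨ n = 5) ∧ (∀ e ∈ M.E, v e ≠ 0) ∧
        (∀ w : Fin n → K, w ≠ 0 → ∃ e ∈ M.E, ∃ c : K, w = c • v e) ∧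
        ∀ I ⊆ M.E, (M.Indep I ↔ (I.ncard ≤ 4 ∧ LinearIndependent K (fun x : I => v x))))) := by
  intro α M hfin h0 h1 hsz hr hmeet
  exact Pool.Agent.MP84111f.classification ⟨hfin, h0, h1, hsz, hr, hmeet⟩

end Pool.Agent.S09839
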