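import Pool.Statements.S09946
import Pool.Agent.Lib.MP_8888ff_co.HighGirth

set_option autoImplicit false
open Pool Pool.MP_8888ff_co

namespace Pool.Agent.S09946

open SimpleGraph Pool.Agent.Lib.MP_8888ff_co

/-- Threshold after which graphs of girth `> g` with `k * n` edges exist on `n` vertices. -/
noncomputable def N0 (k g : ℕ) : ℕ := Classical.choose (exists_highGirth k g)

lemma N0_spec (k g : ℕ) : ∀ n ≥ N0 k g, ∃ T : SimpleGraph (Fin n),
    (∀ (a : Fin n) (c : T.Walk a a), c.IsCycle → g < c.length) ∧ k * n ≤ T.edgeSet.ncard :=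
  Classical.choose_spec (exists_highGirth k g)

/-- The sparse sequence of sizes. -/
noncomputable def sq : ℕ → ℕ
  | 0 => 4
  | (j + 1) => max (N0 (j + 1) (sq j)) (sq j) + 1

lemma sq_zero : sq 0 = 4 := rfl

lemma sq_succ (j : ℕ) : sq (j + 1) = max (N0 (j + 1) (sq j)) (sq j) + 1 := rfl

lemma sq_strictMono : StrictMono sq := by
  apply strictMono_nat_of_lt_succ
  intro j
  rw [sq_succ]
  have := le_max_right (N0 (j + 1) (sq j)) (sq j)
  omega

lemma four_le_sq (j : ℕ) : 4 ≤ sq j := by
  have := sq_strictMono.monotone (Nat.zero_le j)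
  rwa [sq_zero] at this

/-- The family: all graphs containing a cycle whose number of vertices lies in the sequence. -/
def Fam : Set (Σ k : ℕ, SimpleGraph (Fin k)) := {p | ¬ p.2.IsAcyclic ∧ ∃ j, p.1 = sq j}

/-- The negation of the preceding statement: For every graph family whose members all contain a cycle and one is bipartite, some c>0 ensures every graph with min degree δ≥1 and max degree Δ has a spanning F-free subgraph of min degree at least c·ex(K_Δ,F)·δ/Δ². -/
theorem result :
    ¬ (∀ F : Set (Σ k : ℕ, SimpleGraph (Fin k)),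
      (∀ p ∈ F, ¬ p.2.IsAcyclic) →
      (∃ p ∈ F, p.2.Colorable 2) →
      ∃ c : ℝ, 0 < c ∧
        ∀ δ Δ : ℕ, 1 ≤ δ → δ ≤ Δ →
          ∀ n : ℕ, ∀ G : SimpleGraph (Fin n),
            (∀ v, δ ≤ (G.neighborSet v).ncard) →
            (∃ v, (G.neighborSet v).ncard = δ) →
            (∀ v, (G.neighborSet v).ncard ≤ Δ) →
            (∃ v, (G.neighborSet v).ncard = Δ) →
            ∀ T : SimpleGraph (Fin Δ),
              (∀ p ∈ F, ¬ p.2.IsContained T) →
              ∃ H : SimpleGraph (Fin n), H ≤ G ∧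
                (∀ p ∈ F, ¬ p.2.IsContained H) ∧
                ∀ v, c * (T.edgeSet.ncard : ℝ) * (δ : ℝ) / (Δ : ℝ) ^ 2
                  ≤ ((H.neighborSet v).ncard : ℝ)) := by
  intro hall
  obtain ⟨c, hc0, hc⟩ := hall Fam (fun p hp => hp.1) (by
    refine ⟨⟨4, cycleGraph 4⟩, ⟨?_, 0, rfl⟩, ?_⟩
    · rw [isAcyclic_iff_free_cycleGraph]
      intro h
      exact h 4 (by norm_num) (IsContained.refl _)
    · have h := chromaticNumber_cycleGraph_of_even 4 (by norm_num) (by decide)
      exact (chromaticNumber_le_iff_colorable).mp (by rw [h]; rfl))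
  obtain ⟨j, hj⟩ := exists_nat_gt (1 / c)
  -- parameters
  have hsq := sq_succ j
  have h4 := four_le_sq j
  have hmax1 := le_max_left (N0 (j + 1) (sq j)) (sq j)
  have hmax2 := le_max_right (N0 (j + 1) (sq j)) (sq j)
  obtain ⟨D, hD⟩ : ∃ D, sq (j + 1) = D + 1 := ⟨_, hsq⟩
  have hDN : N0 (j + 1) (sq j) ≤ D := by omega
  have hDs : sq j ≤ D := by omega
  obtain ⟨T, hTg, hTe⟩ := N0_spec (j + 1) (sq j) D hDN
  have hdegG : ∀ v : Fin (D + 1), ((⊤ : SimpleGraph (Fin (D + 1))).neighborSet v).ncard = D := by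
    intro v
    have h1 : (⊤ : SimpleGraph (Fin (D + 1))).neighborSet v =
        (((⊤ : SimpleGraph (Fin (D + 1))).neighborFinset v : Finset (Fin (D + 1))) :
          Set (Fin (D + 1))) := by
      rw [coe_neighborFinset]
    rw [h1, Set.ncard_coe_finset, card_neighborFinset_eq_degree, complete_graph_degree]
    simp
  have hTfree : ∀ p ∈ Fam, ¬ p.2.IsContained T := by
    rintro ⟨k, P⟩ ⟨hPac, i, hi⟩ hcont
    simp only at hPac hi hcont
    subst hi
    have hcard : sq i ≤ D := by
      obtain ⟨f⟩ := hcont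
      have := Fintype.card_le_of_injective f f.injective
      simpa using this
    have hij : i ≤ j := by
      by_contra hlt
      have h5 : j + 1 ≤ i := by omega
      have := sq_strictMono.monotone h5
      omega
    have hle : sq i ≤ sq j := sq_strictMono.monotone hij
    unfold IsAcyclic at hPac
    push Not at hPac
    obtain ⟨v, w, hw⟩ := hPac
    obtain ⟨f⟩ := hcont
    have h6 := hTg _ (w.map f.toHom) (hw.map f.injective)
    rw [Walk.length_map] at h6
    have h7 : w.length ≤ sq i := by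
      have h8 := hw.support_nodup
      have h9 := List.Nodup.length_le_card h8
      simpa using h9
    omega
  have hmain := hc D D (by omega) le_rfl (D + 1) ⊤ (fun v => (hdegG v).ge)
    ⟨0, hdegG 0⟩ (fun v => (hdegG v).le) ⟨0, hdegG 0⟩ T hTfree
  obtain ⟨H, -, hHfree, hHdeg⟩ := hmain
  have hHac : H.IsAcyclic := by
    by_contra hcon
    exact hHfree ⟨D + 1, H⟩ ⟨hcon, j + 1, hD.symm⟩ (IsContained.refl _)
  obtain ⟨v, hv⟩ := exists_degree_le_one H hHac
  have h10 := hHdeg v
  have hDpos : (0 : ℝ) < (D : ℝ) := by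
    have : 0 < D := by omega
    exact_mod_cast this
  have hTe' : ((j : ℝ) + 1) * (D : ℝ) ≤ (T.edgeSet.ncard : ℝ) := by
    exact_mod_cast hTe
  have h11 : c * ((j : ℝ) + 1) ≤ c * (T.edgeSet.ncard : ℝ) * (D : ℝ) / (D : ℝ) ^ 2 := by
    rw [le_div_iff₀ (by positivity)]
    calc c * ((j : ℝ) + 1) * (D : ℝ) ^ 2 = c * (((j : ℝ) + 1) * (D : ℝ)) * (D : ℝ) := by ring
      _ ≤ c * (T.edgeSet.ncard : ℝ) * (D : ℝ) := by gcongr
  have hv' : ((H.neighborSet v).ncard : ℝ) ≤ 1 := by exact_mod_cast hv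
  have h12 : c * ((j : ℝ) + 1) ≤ 1 := h11.trans (h10.trans hv')
  have h13 : 1 < c * (j : ℝ) := by
    rw [div_lt_iff₀ hc0] at hj
    linarith
  nlinarith

end Pool.Agent.S09946
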