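import Pool.Statements.S10198

set_option autoImplicit false
open Pool Pool.MP_94225f_co

namespace Pool.Agent.S10198

/-- The nonzero squares modulo 17, as a Boolean test. -/
def sq (t : Fin 17) : Bool :=
  decide (t = 1 ∨ t = 2 ∨ t = 4 ∨ t = 8 ∨ t = 9 ∨ t = 13 ∨ t = 15 ∨ t = 16)

theorem sq_neg : ∀ t : Fin 17, sq (-t) = sq t := by decide

theorem sq_zero : sq 0 = false := by decide

theorem sq_cases : ∀ t : Fin 17, t = 0 ∨ sq t = true ∨ sq (6 * t) = true := by decide

theorem three_six : ∀ t : Fin 17, 3 * (6 * t) = t := by decide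

/-- The prism over the Paley graph of order 17. -/
def P : SimpleGraph (Fin 17 × Bool) where
  Adj x y := (x.2 = y.2 ∧ sq (y.1 - x.1) = true) ∨ (x.2 ≠ y.2 ∧ x.1 = y.1)
  symm := ⟨by
    intro x y h
    rcases h with ⟨h1, h2⟩ | ⟨h1, h2⟩
    · left
      refine ⟨h1.symm, ?_⟩
      rw [← neg_sub, sq_neg]
      exact h2
    · right
      exact ⟨fun h => h1 h.symm, h2.symm⟩⟩
  loopless := ⟨by
    intro x h
    rcases h with ⟨_, h2⟩ | ⟨h1, _⟩
    · rw [sub_self, sq_zero] at h2
      exact Bool.noConfusion h2
    · exact h1 rfl⟩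

/-- Vertices of one Paley layer that are not dominated by a or b inside the layer. -/
def und (a b : Fin 17) : Finset (Fin 17) :=
  Finset.univ.filter fun x =>
    x ≠ a ∧ x ≠ b ∧ sq (x - a) = false ∧ sq (x - b) = false

theorem und_card : ∀ a b : Fin 17, 3 ≤ (und a b).card := by decide +kernel

theorem und_card_one : ∀ a : Fin 17, 5 ≤ (und a a).card := by decide +kernel

/-- The part of a set in one of the two layers. -/
def layer (D : Finset (Fin 17 × Bool)) (e : Bool) : Finset (Fin 17) :=
  Finset.univ.filter fun x => (x, e) ∈ D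

theorem mem_layer (D : Finset (Fin 17 × Bool)) (e : Bool) (x : Fin 17) :
    x ∈ layer D e ↔ (x, e) ∈ D := by simp [layer]

theorem card_layers (D : Finset (Fin 17 × Bool)) (e : Bool) :
    (layer D e).card + (layer D (!e)).card = D.card := by
  classical
  have h1 : ∀ b : Bool, (layer D b).card = (D.filter fun v => v.2 = b).card := by
    intro b
    apply Finset.card_bij (fun x _ => (x, b))
    · intro x hx
      rw [mem_layer] at hx
      simp [hx]
    · intro x _ y _ h
      exact congrArg Prod.fst h
    · intro v hv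
      rw [Finset.mem_filter] at hv
      refine ⟨v.1, ?_, ?_⟩
      · rw [mem_layer]
        rw [← hv.2]
        exact hv.1
      · rw [← hv.2]
  rw [h1, h1]
  have h2 : (D.filter fun v => v.2 = !e) = (D.filter fun v => ¬ v.2 = e) := by
    apply Finset.filter_congr
    intro v _
    cases v.2 <;> cases e <;> simp
  rw [h2]
  exact Finset.card_filter_add_card_filter_not (fun v : Fin 17 × Bool => v.2 = e)

/-- A dominating set of the prism. -/
def Dom (D : Finset (Fin 17 × Bool)) : Prop :=
  ∀ v : Fin 17 × Bool, ∃ u ∈ D, u = v ∨ P.Adj v u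

theorem und_sub (D : Finset (Fin 17 × Bool)) (hD : Dom D) (e : Bool) (a b : Fin 17)
    (h : layer D e ⊆ {a, b}) : und a b ⊆ layer D (!e) := by
  intro x hx
  rw [mem_layer]
  simp only [und, Finset.mem_filter, Finset.mem_univ, true_and] at hx
  obtain ⟨hxa, hxb, hsa, hsb⟩ := hx
  obtain ⟨⟨y, e'⟩, hu, huv⟩ := hD (x, e)
  have key : ∀ z : Fin 17, (z, e) ∈ D → z = a ∨ z = b := by
    intro z hz
    have := h ((mem_layer D e z).2 hz)
    simpa using this
  rcases huv with h1 | h1 | h1
  · have h2 : y = x := congrArg Prod.fst h1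
    have h3 : e' = e := congrArg Prod.snd h1
    subst h3
    subst h2
    rcases key y hu with h4 | h4
    · exact absurd h4 hxa
    · exact absurd h4 hxb
  · obtain ⟨h2, h3⟩ := h1
    simp only at h2 h3
    subst h2
    have h5 : sq (x - y) = true := by
      rw [← neg_sub, sq_neg]
      exact h3
    rcases key y hu with h4 | h4
    · subst h4
      rw [h5] at hsa
      exact Bool.noConfusion hsa
    · subst h4
      rw [h5] at hsb
      exact Bool.noConfusion hsb
  · obtain ⟨h2, h3⟩ := h1
    simp only at h2 h3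
    subst h3
    have h4 : e' = !e := by
      cases e <;> cases e' <;> simp_all
    rw [← h4]
    exact hu

theorem dom_card (D : Finset (Fin 17 × Bool)) (hD : Dom D) : 5 ≤ D.card := by
  by_contra hlt
  push Not at hlt
  have hex : ∃ e : Bool, (layer D e).card ≤ 2 := by
    by_contra hno
    push Not at hno
    have h1 := hno true
    have h2 := hno false
    have h3 := card_layers D true
    simp only [Bool.not_true] at h3
    omega
  obtain ⟨e, he⟩ := hex
  have hsum := card_layers D e
  rcases Nat.lt_or_ge (layer D e).card 2 with h1 | h1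
  · have h2 : ∃ a : Fin 17, layer D e ⊆ {a, a} := by
      rcases Nat.lt_or_ge (layer D e).card 1 with h3 | h3
      · refine ⟨0, ?_⟩
        have h4 : layer D e = ∅ := by
          rw [← Finset.card_eq_zero]
          omega
        rw [h4]
        exact Finset.empty_subset _
      · have h4 : (layer D e).card = 1 := by omega
        obtain ⟨a, ha⟩ := Finset.card_eq_one.1 h4
        refine ⟨a, ?_⟩
        rw [ha]
        simp
    obtain ⟨a, ha⟩ := h2
    have h3 := Finset.card_le_card (und_sub D hD e a a ha)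
    have h4 := und_card_one a
    omega
  · have h2 : (layer D e).card = 2 := by omega
    obtain ⟨a, b, _, hab⟩ := Finset.card_eq_two.1 h2
    have h3 := Finset.card_le_card (und_sub D hD e a b (by rw [hab]))
    have h4 := und_card a b
    omega

theorem no_domatic (m : ℕ) (hm : 17 ≤ 2 * m + 1) :
    ¬ ∃ c : Fin 17 × Bool → Fin m, ∀ v : Fin 17 × Bool, ∀ i : Fin m,
        ∃ u : Fin 17 × Bool, (u = v ∨ P.Adj v u) ∧ c u = i := by
  classical
  rintro ⟨c, hc⟩
  have h1 : ∀ i : Fin m, 5 ≤ (Finset.univ.filter fun u => c u = i).card := by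
    intro i
    apply dom_card
    intro v
    obtain ⟨u, hu, hi⟩ := hc v i
    exact ⟨u, by simp [hi], hu⟩
  have h2 : (Finset.univ : Finset (Fin 17 × Bool)).card
      = ∑ i : Fin m, (Finset.univ.filter fun u => c u = i).card := by
    apply Finset.card_eq_sum_card_fiberwise
    intro x _
    simp
  have h3 : ∑ _i : Fin m, 5 ≤ ∑ i : Fin m, (Finset.univ.filter fun u => c u = i).card :=
    Finset.sum_le_sum fun i _ => h1 i
  rw [← h2] at h3
  simp only [Finset.sum_const, Finset.card_univ, Fintype.card_fin, Fintype.card_prod,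
    Fintype.card_bool, smul_eq_mul] at h3
  omega

theorem P_nonisolated (v : Fin 17 × Bool) : ∃ u : Fin 17 × Bool, P.Adj v u := by
  refine ⟨(v.1, !v.2), Or.inr ⟨?_, rfl⟩⟩
  cases v.2 <;> simp

theorem total_domatic :
    ∃ f : (Fin 17 × Bool) × (Fin 17 × Bool) → Fin 17,
      ∀ x : (Fin 17 × Bool) × (Fin 17 × Bool), ∀ i : Fin 17,
        ∃ y : (Fin 17 × Bool) × (Fin 17 × Bool),
          (SimpleGraph.boxProd P P).Adj x y ∧ f y = i := by
  refine ⟨fun x => x.1.1 + 3 * x.2.1, ?_⟩
  rintro ⟨⟨a, e⟩, ⟨b, e'⟩⟩ i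
  rcases sq_cases (i - (a + 3 * b)) with h | h | h
  · refine ⟨((a, !e), (b, e')), ?_, ?_⟩
    · rw [SimpleGraph.boxProd_adj]
      left
      refine ⟨Or.inr ⟨?_, rfl⟩, rfl⟩
      cases e <;> simp
    · simp only
      exact (sub_eq_zero.1 h).symm
  · refine ⟨((a + (i - (a + 3 * b)), e), (b, e')), ?_, ?_⟩
    · rw [SimpleGraph.boxProd_adj]
      left
      refine ⟨Or.inl ⟨rfl, ?_⟩, rfl⟩
      simp only [add_sub_cancel_left]
      exact h
    · simp only
      abel
  · refine ⟨((a, e), (b + 6 * (i - (a + 3 * b)), e')), ?_, ?_⟩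
    · rw [SimpleGraph.boxProd_adj]
      right
      refine ⟨Or.inl ⟨rfl, ?_⟩, rfl⟩
      simp only [add_sub_cancel_left]
      exact h
    · simp only
      rw [mul_add, three_six]
      abel

/-- The negation of the preceding statement: For finite nonempty graphs G, H without isolated vertices, if the Cartesian product splits into k total dominating sets, then for some m with k ≤ 2m+1, G or H splits into m dominating sets; that is, d_t(G□H) ≤ 2max(d(G),d(H))+1. -/
theorem result :
    ¬ (∀ (V W : Type) [Fintype V] [Fintype W] [Nonempty V] [Nonempty W]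
      (G : SimpleGraph V) (H : SimpleGraph W),
      (∀ v : V, ∃ u : V, G.Adj v u) →
      (∀ w : W, ∃ u : W, H.Adj w u) →
      ∀ k : ℕ,
        (∃ f : V × W → Fin k, ∀ x : V × W, ∀ i : Fin k,
            ∃ y : V × W, (SimpleGraph.boxProd G H).Adj x y ∧ f y = i) →
        ∃ m : ℕ, k ≤ 2 * m + 1 ∧
          ((∃ c : V → Fin m, ∀ v : V, ∀ i : Fin m,
              ∃ u : V, (u = v ∨ G.Adj v u) ∧ c u = i) ∨
           (∃ c : W → Fin m, ∀ w : W, ∀ i : Fin m,
              ∃ u : W, (u = w ∨ H.Adj w u) ∧ c u = i))) := by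
  intro hall
  obtain ⟨m, hm, h⟩ := hall (Fin 17 × Bool) (Fin 17 × Bool) P P P_nonisolated P_nonisolated 17
    total_domatic
  rcases h with h | h
  · exact no_domatic m hm h
  · exact no_domatic m hm h

end Pool.Agent.S10198
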