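import Pool.Statements.S10337
import Pool.Agent.Lib.MP_99e3ed_co.H87.Final
import Pool.Agent.Lib.MP_99e3ed_co.H59.Final

set_option autoImplicit false
open Classical
open Pool Pool.MP_99e3ed_co

namespace Pool.Agent.S10337

/-- For n = 2dm, H is m disjoint copies of K_{d,d}. For every d-regular G on n vertices and 1 ≤ k ≤ n, i_k(G)·i_{k-1}(H) ≤ i_k(H)·i_{k-1}(G), i.e. H maximizes the ratio of independent k-sets to independent (k-1)-sets. -/
theorem result :
    ∀ d m : ℕ, ∀ G : SimpleGraph (Fin (2 * d * m)), G.IsRegularOfDegree d →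
      ∀ k : ℕ, 1 ≤ k → k ≤ 2 * d * m →
        (Gᶜ.cliqueFinset k).card *
            ((SimpleGraph.fromRel
                (fun x y : Fin m × Bool × Fin d => x.1 = y.1 ∧ x.2.1 ≠ y.2.1))ᶜ.cliqueFinset
              (k - 1)).card ≤
          ((SimpleGraph.fromRel
                (fun x y : Fin m × Bool × Fin d => x.1 = y.1 ∧ x.2.1 ≠ y.2.1))ᶜ.cliqueFinset
              k).card *
            (Gᶜ.cliqueFinset (k - 1)).card :=
  Pool.Agent.Lib.MP_99e3ed_co.H87.ratio_form Pool.Agent.Lib.MP_99e3ed_co.H59.fb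

end Pool.Agent.S10337
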