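import Pool.Statements.S11313
import Pool.Agent.Lib.MP_c534e4_co.Final

set_option autoImplicit false
open Pool Pool.MP_c534e4_co

namespace Pool.Agent.S11313

/-- For every ε>0 there is W such that every finite poset with an antichain of size at least W has elements x, y where the fraction of linear extensions putting x before y, and the fraction putting y before x, are both at least 1/2 − ε. -/
theorem result :
    ∀ ε : ℝ, 0 < ε → ∃ W : ℕ, ∀ (α : Type) [Fintype α] [PartialOrder α],
      (∃ s : Finset α, IsAntichain (· ≤ ·) (↑s : Set α) ∧ W ≤ s.card) →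
      ∃ x y : α,
        (1 / 2 - ε) * ((Nat.card {σ : α ≃ Fin (Fintype.card α) // StrictMono ⇑σ} : ℕ) : ℝ)
          ≤ ((Nat.card {σ : α ≃ Fin (Fintype.card α) // StrictMono ⇑σ ∧ σ x < σ y} : ℕ) : ℝ) ∧
        (1 / 2 - ε) * ((Nat.card {σ : α ≃ Fin (Fintype.card α) // StrictMono ⇑σ} : ℕ) : ℝ)
          ≤ ((Nat.card {σ : α ≃ Fin (Fintype.card α) // StrictMono ⇑σ ∧ σ y < σ x} : ℕ) : ℝ) := by
  exact KS.kahn_saks

end Pool.Agent.S11313
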