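import Pool.Statements.S11695
import Pool.Agent.Lib.MP_d56329_co.Main

set_option autoImplicit false
open Pool Pool.MP_d56329_co

namespace Pool.Agent.S11695

/-- For every full-dimensional polytope in R^d with at most d+3 facets, there is a polytope whose generating points all lie on one sphere and whose vertices correspond bijectively to the first's, with vertex sets of faces matching exactly. -/
theorem result :
    ∀ d : ℕ, ∀ S : Finset (EuclideanSpace ℝ (Fin d)),
      (interior (convexHull ℝ (S : Set (EuclideanSpace ℝ (Fin d))))).Nonempty →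
      {F : Set (EuclideanSpace ℝ (Fin d)) |
          IsExposed ℝ (convexHull ℝ (S : Set (EuclideanSpace ℝ (Fin d)))) F ∧ F.Nonempty ∧
            Module.finrank ℝ (vectorSpan ℝ F) + 1 = d}.ncard ≤ d + 3 →
      ∃ T : Finset (EuclideanSpace ℝ (Fin d)), ∃ c : EuclideanSpace ℝ (Fin d), ∃ r : ℝ,
        (T : Set (EuclideanSpace ℝ (Fin d))) ⊆ Metric.sphere c r ∧
        ∃ e : EuclideanSpace ℝ (Fin d) → EuclideanSpace ℝ (Fin d),
          Set.BijOn e
            ((convexHull ℝ (S : Set (EuclideanSpace ℝ (Fin d)))).extremePoints ℝ)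
            ((convexHull ℝ (T : Set (EuclideanSpace ℝ (Fin d)))).extremePoints ℝ) ∧
          ∀ A ⊆ (convexHull ℝ (S : Set (EuclideanSpace ℝ (Fin d)))).extremePoints ℝ,
            (IsExposed ℝ (convexHull ℝ (S : Set (EuclideanSpace ℝ (Fin d)))) (convexHull ℝ A) ↔
              IsExposed ℝ (convexHull ℝ (T : Set (EuclideanSpace ℝ (Fin d))))
                (convexHull ℝ (e '' A))) := by
  intro d S hint hfac
  rcases d with _ | d
  · -- dimension zero
    refine ⟨S, 0, 0, ?_, id, ?_, ?_⟩
    · intro x _
      rw [mem_sphere_zero_iff_norm, Subsingleton.elim x 0, norm_zero]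
    · exact Set.bijOn_id _
    · intro A _
      rw [Set.image_id]
  · exact Pool.Agent.Lib.MP_d56329_co.main_pos S hint hfac

end Pool.Agent.S11695
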