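import Pool.Statements.S11866

set_option autoImplicit false
open Classical
open Pool Pool.MP_dcf9ac_co

namespace Pool.Agent.S11866

/-- Neighbourhood bit masks of a triangle-free graph with 12 vertices and 20 edges
(a Ramsey (3,5)-graph). -/
def nb : Fin 12 → ℕ :=
  ![3360, 3200, 2072, 1092, 1796, 641, 776, 290, 209, 112, 27, 7]

/-- Adjacency as a Boolean function. -/
def adj (i j : Fin 12) : Bool := (nb i).testBit j

/-- The graph. -/
def G0 : SimpleGraph (Fin 12) where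
  Adj i j := adj i j = true
  symm := by
    have h : ∀ i j : Fin 12, adj i j = true → adj j i = true := by decide
    exact ⟨fun i j hij => h i j hij⟩
  loopless := by
    have h : ∀ i : Fin 12, ¬ adj i i = true := by decide
    exact ⟨h⟩

/-- number of set bits among the first twelve -/
def pc (m : ℕ) : ℕ :=
  (m.testBit 0).toNat + (m.testBit 1).toNat + (m.testBit 2).toNat + (m.testBit 3).toNat +
  (m.testBit 4).toNat + (m.testBit 5).toNat + (m.testBit 6).toNat + (m.testBit 7).toNat +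
  (m.testBit 8).toNat + (m.testBit 9).toNat + (m.testBit 10).toNat + (m.testBit 11).toNat

/-- number of edges (as unordered pairs) inside the mask `m` -/
def ec (m : ℕ) : ℕ :=
  (m.testBit 0 && m.testBit 5).toNat + (m.testBit 0 && m.testBit 8).toNat +
  (m.testBit 0 && m.testBit 10).toNat + (m.testBit 0 && m.testBit 11).toNat +
  (m.testBit 1 && m.testBit 7).toNat + (m.testBit 1 && m.testBit 10).toNat +
  (m.testBit 1 && m.testBit 11).toNat + (m.testBit 2 && m.testBit 3).toNat +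
  (m.testBit 2 && m.testBit 4).toNat + (m.testBit 2 && m.testBit 11).toNat +
  (m.testBit 3 && m.testBit 6).toNat + (m.testBit 3 && m.testBit 10).toNat +
  (m.testBit 4 && m.testBit 8).toNat + (m.testBit 4 && m.testBit 9).toNat +
  (m.testBit 4 && m.testBit 10).toNat + (m.testBit 5 && m.testBit 7).toNat +
  (m.testBit 5 && m.testBit 9).toNat + (m.testBit 6 && m.testBit 8).toNat +
  (m.testBit 6 && m.testBit 9).toNat + (m.testBit 7 && m.testBit 8).toNat

/-- the finite check: sparsity, and no independent set of size five -/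
def good (m : ℕ) : Bool :=
  (Nat.ble (pc m) 2 || Nat.ble (ec m + 4) (2 * pc m)) && (!(pc m == 5) || Nat.ble 1 (ec m))

theorem good_all : ∀ a : Fin 64, ∀ b : Fin 64, good (64 * a.val + b.val) = true := by
  decide +kernel

theorem good_lt (m : ℕ) (hm : m < 4096) : good m = true := by
  have h := good_all ⟨m / 64, by omega⟩ ⟨m % 64, by omega⟩
  have e : 64 * (m / 64) + m % 64 = m := by omega
  simpa [e] using h

/-- each finset of `Fin 12` is described by a bit mask -/
theorem exists_mask (S : Finset (Fin 12)) :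
    ∃ m : ℕ, m < 4096 ∧ ∀ i : Fin 12, m.testBit i.val = decide (i ∈ S) := by
  refine ⟨Nat.ofBits (fun i : Fin 12 => decide (i ∈ S)), ?_, ?_⟩
  · exact Nat.ofBits_lt_two_pow _
  · intro i
    rw [Nat.testBit_ofBits_lt _ _ i.isLt]

theorem card_eq (S : Finset (Fin 12)) (m : ℕ)
    (h : ∀ i : Fin 12, m.testBit i.val = decide (i ∈ S)) : S.card = pc m := by
  have h1 : S.card = ∑ i : Fin 12, if i ∈ S then 1 else 0 := by
    simp
  have h2 : ∀ i : Fin 12, (if i ∈ S then 1 else 0) = (m.testBit i.val).toNat := by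
    intro i
    rw [h i]
    by_cases hi : i ∈ S <;> simp [hi]
  rw [h1, Finset.sum_congr rfl (fun i _ => h2 i)]
  simp only [Fin.sum_univ_succ, pc]
  simp
  ring

/-- the ordered adjacent pairs -/
def EL : List (Fin 12 × Fin 12) :=
  [(0, 5), (5, 0), (0, 8), (8, 0), (0, 10), (10, 0), (0, 11), (11, 0), (1, 7), (7, 1), (1,
   10), (10, 1), (1, 11), (11, 1), (2, 3), (3, 2), (2, 4), (4, 2), (2, 11), (11, 2), (3,
   6), (6, 3), (3, 10), (10, 3), (4, 8), (8, 4), (4, 9), (9, 4), (4, 10), (10, 4), (5, 7),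
   (7, 5), (5, 9), (9, 5), (6, 8), (8, 6), (6, 9), (9, 6), (7, 8), (8, 7)]

theorem EL_nodup : EL.Nodup := by decide +kernel

theorem mem_EL : ∀ i j : Fin 12, (i, j) ∈ EL ↔ adj i j = true := by decide +kernel

theorem EL_eq : Finset.univ.filter (fun p : Fin 12 × Fin 12 => adj p.1 p.2 = true) =
    EL.toFinset := by
  ext ⟨i, j⟩
  simp [mem_EL]

theorem edge_eq (S : Finset (Fin 12)) (m : ℕ)
    (h : ∀ i : Fin 12, m.testBit i.val = decide (i ∈ S)) :
    (Finset.univ.filter (fun p : Fin 12 × Fin 12 =>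
      p.1 ∈ S ∧ p.2 ∈ S ∧ G0.Adj p.1 p.2)).card = 2 * ec m := by
  have h1 : (Finset.univ.filter (fun p : Fin 12 × Fin 12 =>
      p.1 ∈ S ∧ p.2 ∈ S ∧ G0.Adj p.1 p.2)).card =
      ∑ p : Fin 12 × Fin 12, (if adj p.1 p.2 = true then
        (m.testBit p.1.val && m.testBit p.2.val).toNat else 0) := by
    rw [Finset.card_filter]
    apply Finset.sum_congr rfl
    intro p _
    rw [h p.1, h p.2]
    by_cases ha : adj p.1 p.2 = true
    · by_cases h1 : p.1 ∈ S <;> by_cases h2 : p.2 ∈ S <;> simp [h1, h2, ha, G0]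
    · simp [ha, G0]
  rw [h1, ← Finset.sum_filter, EL_eq, List.sum_toFinset _ EL_nodup]
  simp only [EL, List.map_cons, List.map_nil, List.sum_cons, List.sum_nil, ec]
  have hc : ∀ a b : ℕ, (m.testBit b && m.testBit a).toNat = (m.testBit a && m.testBit b).toNat := by
    intro a b
    rw [Bool.and_comm]
  have e0 : ((0 : Fin 12) : ℕ) = 0 := rfl
  have e1 : ((1 : Fin 12) : ℕ) = 1 := rfl
  have e2 : ((2 : Fin 12) : ℕ) = 2 := rfl
  have e3 : ((3 : Fin 12) : ℕ) = 3 := rfl
  have e4 : ((4 : Fin 12) : ℕ) = 4 := rfl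
  have e5 : ((5 : Fin 12) : ℕ) = 5 := rfl
  have e6 : ((6 : Fin 12) : ℕ) = 6 := rfl
  have e7 : ((7 : Fin 12) : ℕ) = 7 := rfl
  have e8 : ((8 : Fin 12) : ℕ) = 8 := rfl
  have e9 : ((9 : Fin 12) : ℕ) = 9 := rfl
  have e10 : ((10 : Fin 12) : ℕ) = 10 := rfl
  have e11 : ((11 : Fin 12) : ℕ) = 11 := rfl
  rw [e0, e1, e2, e3, e4, e5, e6, e7, e8, e9, e10, e11]
  rw [hc 0 5, hc 0 8, hc 0 10, hc 0 11, hc 1 7, hc 1 10, hc 1 11, hc 2 3, hc 2 4, hc 2 11,
    hc 3 6, hc 3 10, hc 4 8, hc 4 9, hc 4 10, hc 5 7, hc 5 9, hc 6 8, hc 6 9, hc 7 8]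
  ring

theorem result :
    ¬ (∀ r k : ℕ, 2 ≤ r → 3 ≤ k →
      (∀ G : SimpleGraph (Fin (k * (r - 1))), Gᶜ.CliqueFree r →
        ∃ S : Finset (Fin (k * (r - 1))), 3 ≤ S.card ∧
          ((k : ℝ) + 1) / 2 ≤
            ((((Finset.univ.filter (fun p : Fin (k * (r - 1)) × Fin (k * (r - 1)) =>
                p.1 ∈ S ∧ p.2 ∈ S ∧ G.Adj p.1 p.2)).card : ℝ) / 2 - 1) /
              ((S.card : ℝ) - 2))) ∧
      (∃ G : SimpleGraph (Fin (k * (r - 1))), Gᶜ.CliqueFree r ∧
        ∀ S : Finset (Fin (k * (r - 1))), 3 ≤ S.card →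
          ((((Finset.univ.filter (fun p : Fin (k * (r - 1)) × Fin (k * (r - 1)) =>
                p.1 ∈ S ∧ p.2 ∈ S ∧ G.Adj p.1 p.2)).card : ℝ) / 2 - 1) /
              ((S.card : ℝ) - 2)) ≤ ((k : ℝ) + 1) / 2)) := by
  intro H
  have H1 := (H 5 3 (by norm_num) (by norm_num)).1
  obtain ⟨S, hS3, hS⟩ := H1 G0 (by
    intro s hs
    obtain ⟨m, hm, hmask⟩ := exists_mask s
    have hg := good_lt m hm
    have hcard : pc m = 5 := by
      rw [← card_eq s m hmask]
      exact hs.2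
    have he : ec m ≠ 0 := by
      intro h0
      simp [good, hcard, h0] at hg
    have hE := edge_eq s m hmask
    have hpos : 0 < (Finset.univ.filter (fun p : Fin 12 × Fin 12 =>
      p.1 ∈ s ∧ p.2 ∈ s ∧ G0.Adj p.1 p.2)).card := by
      rw [hE]
      omega
    obtain ⟨⟨i, j⟩, hp⟩ := Finset.card_pos.mp hpos
    simp only [Finset.mem_filter, Finset.mem_univ, true_and] at hp
    obtain ⟨hi, hj, hadj⟩ := hp
    have hne : i ≠ j := hadj.ne
    have hc := hs.1 hi hj hne
    rw [SimpleGraph.compl_adj] at hc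
    exact hc.2 hadj)
  obtain ⟨m, hm, hmask⟩ := exists_mask S
  have hg := good_lt m hm
  have hcard : S.card = pc m := card_eq S m hmask
  have hE := edge_eq S m hmask
  change ((3 : ℝ) + 1) / 2 ≤ ((((Finset.univ.filter (fun p : Fin 12 × Fin 12 =>
      p.1 ∈ S ∧ p.2 ∈ S ∧ G0.Adj p.1 p.2)).card : ℝ) / 2 - 1) / ((S.card : ℝ) - 2)) at hS
  rw [hE] at hS
  change 3 ≤ S.card at hS3
  have hle : ec m + 4 ≤ 2 * S.card := by
    rw [hcard] at hS3 ⊢
    have h2 : Nat.ble (pc m) 2 = false := by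
      rw [Bool.eq_false_iff]
      intro h
      have := Nat.le_of_ble_eq_true h
      omega
    simp only [good, h2, Bool.false_or, Bool.and_eq_true] at hg
    exact Nat.le_of_ble_eq_true hg.1
  have hle' : (ec m : ℝ) + 4 ≤ 2 * (S.card : ℝ) := by exact_mod_cast hle
  have h3' : (3 : ℝ) ≤ (S.card : ℝ) := by exact_mod_cast hS3
  have hpos : (0 : ℝ) < (S.card : ℝ) - 2 := by linarith
  rw [le_div_iff₀ hpos] at hS
  push_cast at hS
  linarith

end Pool.Agent.S11866
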