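import Pool.Statements.S12021
import Pool.Agent.Lib.MP_e25ec6_co.H59.Conv
import Pool.Agent.Lib.MP_e25ec6_co.H59.Transfer
import Pool.Agent.Lib.MP_e25ec6_co.H59.IfDir

set_option autoImplicit false
open Pool Pool.MP_e25ec6_co

namespace Pool.Agent.S12021

/-- A finite simple graph H has nonnegative homomorphism density into every symmetric measurable kernel with values in [-1,1] iff its vertices split into I, A, B with I independent, no A–B edges, and an isomorphism from the induced graph on I∪A onto that on I∪B fixing I. -/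
theorem result :
  ∀ (n : ℕ) (H : SimpleGraph (Fin n)) [DecidableRel H.Adj],
    (∀ W : ℝ → ℝ → ℝ, Measurable (Function.uncurry W) →
      (∀ x ∈ Set.Icc (0:ℝ) 1, ∀ y ∈ Set.Icc (0:ℝ) 1, W x y = W y x ∧ |W x y| ≤ 1) →
      0 ≤ ∫ x in Set.pi Set.univ (fun _ : Fin n => Set.Icc (0:ℝ) 1),
            ∏ p ∈ Finset.univ.filter (fun p : Fin n × Fin n => p.1 < p.2 ∧ H.Adj p.1 p.2),
              W (x p.1) (x p.2))
    ↔
    ∃ I A B : Set (Fin n), Disjoint I A ∧ Disjoint I B ∧ Disjoint A B ∧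
      I ∪ A ∪ B = Set.univ ∧
      (∀ u ∈ I, ∀ v ∈ I, ¬ H.Adj u v) ∧
      (∀ a ∈ A, ∀ b ∈ B, ¬ H.Adj a b) ∧
      ∃ f : Fin n → Fin n, Set.BijOn f (I ∪ A) (I ∪ B) ∧ (∀ i ∈ I, f i = i) ∧
        ∀ u ∈ I ∪ A, ∀ v ∈ I ∪ A, (H.Adj u v ↔ H.Adj (f u) (f v)) := by
  intro n H _
  exact ⟨fun h => Pool.Agent.PG.right_of_transfer n H (fun T _ μ hμ w =>
    Pool.Agent.PG.transfer n H h T μ hμ w), fun h => Pool.Agent.PG.if_dir n H h⟩

end Pool.Agent.S12021
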