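import Pool.Statements.S12203
import Pool.Agent.Lib.MP_ea4949_co.Final

set_option autoImplicit false
open Pool Pool.MP_ea4949_co

namespace Pool.Agent.S12203

/-- Among isomorphism classes of matroids on an n-element ground set, the fraction of classes whose matroids have no automorphism other than the identity tends to 1 as n goes to infinity. -/
theorem result :
    Filter.Tendsto
      (fun n : ℕ =>
        (Nat.card
            {q : Quot (fun M N : {M : Matroid (Fin n) // M.E = Set.univ} =>
                  ∃ σ : Equiv.Perm (Fin n), ∀ B : Set (Fin n), M.1.IsBase B ↔ N.1.IsBase (σ '' B)) //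
              ∀ M : {M : Matroid (Fin n) // M.E = Set.univ}, q = Quot.mk _ M →
                ∀ σ : Equiv.Perm (Fin n),
                  (∀ B : Set (Fin n), M.1.IsBase B ↔ M.1.IsBase (σ '' B)) → σ = 1} : ℝ) /
          (Nat.card
            (Quot (fun M N : {M : Matroid (Fin n) // M.E = Set.univ} =>
                  ∃ σ : Equiv.Perm (Fin n), ∀ B : Set (Fin n), M.1.IsBase B ↔ N.1.IsBase (σ '' B))) : ℝ))
      Filter.atTop (nhds 1) := by
  exact Pool.Agent.Lib.MP_ea4949_co.main_quot

end Pool.Agent.S12203
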