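import Pool.Statements.S12849
import Pool.Agent.Lib.MP_1ce9e9_gt.Rings
-- import your own Pool.Agent.* helpers here

set_option autoImplicit false
open Pool Pool.MP_1ce9e9_gt

namespace Pool.Agent.S12849

/-- There is a nonempty finite plane set S such that for every N some straight-line planar net with simple unit-weight edges has exactly S as its unbalanced vertices and more than N balanced vertices (degree ≥3, unit edge vectors summing to 0). -/
theorem result :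
    ∃ S : Finset ℂ, S.Nonempty ∧
      ∀ N : ℕ, ∃ V : Finset ℂ, ∃ G : SimpleGraph ℂ,
        (∀ a b : ℂ, G.Adj a b → a ∈ V ∧ b ∈ V) ∧
        (∀ a b c d : ℂ, G.Adj a b → G.Adj c d →
            ¬ ((a = c ∧ b = d) ∨ (a = d ∧ b = c)) →
            ∀ x ∈ segment ℝ a b ∩ segment ℝ c d, (x = a ∨ x = b) ∧ (x = c ∨ x = d)) ∧
        (∀ a b v : ℂ, G.Adj a b → v ∈ V → v ∈ segment ℝ a b → v = a ∨ v = b) ∧
        S ⊆ V ∧
        (∀ v ∈ V, v ∈ S ↔
            ¬ (3 ≤ (G.neighborSet v).ncard ∧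
               (∑ᶠ w ∈ G.neighborSet v, (w - v) / ((‖w - v‖ : ℝ) : ℂ)) = 0)) ∧
        N < Set.ncard {v : ℂ | v ∈ V ∧ 3 ≤ (G.neighborSet v).ncard ∧
               (∑ᶠ w ∈ G.neighborSet v, (w - v) / ((‖w - v‖ : ℝ) : ℂ)) = 0} := by
  refine ⟨Pool.Agent.Lib.MP_1ce9e9_gt.SS_finite.toFinset, ?_,
    Pool.Agent.Lib.MP_1ce9e9_gt.main_ring⟩
  rw [Set.Finite.toFinset_nonempty]
  exact ⟨⟨1 * (11 / 10), 0⟩, 1, 1, by norm_num, by norm_num, Or.inl (Or.inl rfl)⟩

end Pool.Agent.S12849
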