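import Pool.Statements.S12948
import Pool.Agent.Lib.MP_2c1b2b_gt.H68.VolFinal
import Pool.Agent.Lib.MP_2c1b2b_gt.H5.PartialColouring
import Pool.Agent.Lib.MP_2c1b2b_gt.H7.Sparse
import Pool.Agent.Lib.MP_2c1b2b_gt.H33.Zonoid

set_option autoImplicit false
open Pointwise
open Pool Pool.MP_2c1b2b_gt

namespace Pool.Agent.S12948

/-- The negation of the preceding statement: For some ε>0 and every constant C, there is a dimension n and a zonoid K in ℝⁿ that is not within Banach–Mazur distance 1+ε of any sum of at most C·n segments, i.e. the bound C(ε)·n fails in general. -/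
theorem result :
    ¬ (∃ ε : ℝ, 0 < ε ∧ ∀ C : ℝ, ∃ n : ℕ, ∃ K : Set (EuclideanSpace ℝ (Fin n)),
      IsCompact K ∧ (interior K).Nonempty ∧
      (∀ δ : ℝ, 0 < δ → ∃ m : ℕ, ∃ v : Fin m → EuclideanSpace ℝ (Fin n),
          Metric.hausdorffDist K (∑ i, segment ℝ (-v i) (v i)) < δ) ∧
      ¬ ∃ m : ℕ, (m : ℝ) ≤ C * n ∧
          ∃ v : Fin m → EuclideanSpace ℝ (Fin n),
          ∃ T : EuclideanSpace ℝ (Fin n) ≃ₗ[ℝ] EuclideanSpace ℝ (Fin n),
            T '' K ⊆ ∑ i, segment ℝ (-v i) (v i) ∧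
            ∑ i, segment ℝ (-v i) (v i) ⊆ (1 + ε) • (T '' K)) :=
  Pool.Agent.Lib.MP_2c1b2b_gt.H33.zonoid
    (Pool.Agent.Lib.MP_2c1b2b_gt.H7.sparse Pool.Agent.Lib.MP_2c1b2b_gt.H68.volStatement
      Zonoid.H5.pcStatement)

end Pool.Agent.S12948
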