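import Pool.Statements.S12958

set_option autoImplicit false
open Pool Pool.MP_2e0873_gt

namespace Pool.Agent.S12958

open Topology Set

/-- The index set, with the discrete topology. -/
def Td : Type := ℕ → ℕ

instance : TopologicalSpace Td := ⊥
instance : DiscreteTopology Td := ⟨rfl⟩

/-- The `n`-th coordinate of an index. -/
def Td.co (a : Td) (n : ℕ) : ℕ := (a : ℕ → ℕ) n

theorem Td.ext_co {a b : Td} (h : ∀ n, a.co n = b.co n) : a = b := funext h

/-- The space `X`. -/
abbrev XX : Type := {p : (Td → Bool) × (ℕ → ℕ) // ∀ a : Td, p.1 a = true → ∀ n, a.co n ≤ p.2 n}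

theorem root_lemma {U T : Type} [DecidableEq U] (W : Set (Finset U × T))
    (hW : ∀ C : Set T, C.Countable → ∃ w ∈ W, w.2 ∉ C) :
    ∃ R : Finset U, ∀ (C : Set T) (D : Set U), C.Countable → D.Countable →
      ∃ w ∈ W, R ⊆ w.1 ∧ w.2 ∉ C ∧ ∀ d ∈ w.1, d ∉ R → d ∉ D := by
  classical
  obtain ⟨k, hk⟩ : ∃ k : ℕ, ∀ C : Set T, C.Countable → ∃ w ∈ W, w.1.card = k ∧ w.2 ∉ C := by
    by_contra hcon
    push Not at hcon
    choose C hC hCk using hcon
    obtain ⟨w, hw, hw2⟩ := hW (⋃ k, C k) (Set.countable_iUnion hC)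
    exact hw2 (Set.mem_iUnion.2 ⟨w.1.card, hCk w.1.card w hw rfl⟩)
  let Big : Finset U → Prop := fun R =>
    ∀ C : Set T, C.Countable → ∃ w ∈ W, w.1.card = k ∧ R ⊆ w.1 ∧ w.2 ∉ C
  have hBig0 : Big ∅ := by
    intro C hC
    obtain ⟨w, hw, hw1, hw2⟩ := hk C hC
    exact ⟨w, hw, hw1, Finset.empty_subset _, hw2⟩
  have hbound : ∀ R, Big R → R.card ≤ k := by
    intro R hR
    obtain ⟨w, hw, hw1, hw2, -⟩ := hR ∅ countable_empty
    exact hw1 ▸ Finset.card_le_card hw2
  let P : ℕ → Prop := fun n => ∃ R, Big R ∧ R.card = n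
  have hP0 : P 0 := ⟨∅, hBig0, rfl⟩
  obtain ⟨R, hR, hRc⟩ : P (Nat.findGreatest P k) := Nat.findGreatest_spec (Nat.zero_le k) hP0
  have hmax : ∀ R', Big R' → R'.card ≤ R.card := by
    intro R' hR'
    rw [hRc]
    exact Nat.le_findGreatest (hbound R' hR') ⟨R', hR', rfl⟩
  refine ⟨R, ?_⟩
  intro C D hC hD
  by_contra hcon
  push Not at hcon
  have h1 : ∀ d : U, ∃ Cd : Set T, Cd.Countable ∧ (d ∉ R → ∀ w ∈ W, w.1.card = k →
      insert d R ⊆ w.1 → w.2 ∈ Cd) := by
    intro d
    by_cases hd : d ∈ R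
    · exact ⟨∅, countable_empty, fun h => absurd hd h⟩
    · have hnot : ¬ Big (insert d R) := by
        intro h
        have := hmax _ h
        rw [Finset.card_insert_of_notMem hd] at this
        omega
      simp only [Big] at hnot
      push Not at hnot
      obtain ⟨Cd, hCd, h2⟩ := hnot
      exact ⟨Cd, hCd, fun _ => h2⟩
  choose Cd hCd hCd2 using h1
  obtain ⟨w, hw, hw1, hw2, hw3⟩ := hR (C ∪ ⋃ d ∈ D, Cd d) (hC.union (hD.biUnion fun d _ => hCd d))
  have hw4 : w.2 ∉ C := fun h => hw3 (Or.inl h)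
  obtain ⟨d, hd1, hd2, hd3⟩ := hcon w hw hw2 hw4
  apply hw3
  right
  exact mem_biUnion hd3 (hCd2 d hd2 w hw hw1 (Finset.insert_subset hd1 hw2))

theorem bound_lemma (W : Set (Finset (Td × Bool) × Td)) (R : Finset (Td × Bool))
    (h : ∀ (C : Set Td) (D : Set (Td × Bool)), C.Countable → D.Countable →
      ∃ w ∈ W, R ⊆ w.1 ∧ w.2 ∉ C ∧ ∀ d ∈ w.1, d ∉ R → d ∉ D) :
    ∃ y : ℕ → ℕ, ∀ m : ℕ, ∀ (C : Set Td) (D : Set (Td × Bool)), C.Countable → D.Countable →
      ∃ w ∈ W, R ⊆ w.1 ∧ w.2 ∉ C ∧ (∀ d ∈ w.1, d ∉ R → d ∉ D) ∧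
        ∀ i < m, w.2.co i ≤ y i ∧ ∀ d ∈ w.1, d.1.co i ≤ y i := by
  by_contra hcon
  push Not at hcon
  have h1 : ∀ t : (m : ℕ) × (Fin m → ℕ), ∃ (C : Set Td) (D : Set (Td × Bool)), C.Countable ∧
      D.Countable ∧ ((∃ (C : Set Td) (D : Set (Td × Bool)), C.Countable ∧ D.Countable ∧
        ∀ w ∈ W, R ⊆ w.1 → w.2 ∉ C → (∀ d ∈ w.1, d ∉ R → d ∉ D) →
        ¬ ∀ i : Fin t.1, w.2.co i ≤ t.2 i ∧ ∀ d ∈ w.1, d.1.co i ≤ t.2 i) →
        ∀ w ∈ W, R ⊆ w.1 → w.2 ∉ C → (∀ d ∈ w.1, d ∉ R → d ∉ D) →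
        ¬ ∀ i : Fin t.1, w.2.co i ≤ t.2 i ∧ ∀ d ∈ w.1, d.1.co i ≤ t.2 i) := by
    intro t
    by_cases ht : (∃ (C : Set Td) (D : Set (Td × Bool)), C.Countable ∧ D.Countable ∧
        ∀ w ∈ W, R ⊆ w.1 → w.2 ∉ C → (∀ d ∈ w.1, d ∉ R → d ∉ D) →
        ¬ ∀ i : Fin t.1, w.2.co i ≤ t.2 i ∧ ∀ d ∈ w.1, d.1.co i ≤ t.2 i)
    · obtain ⟨C, D, hC, hD, h2⟩ := ht
      exact ⟨C, D, hC, hD, fun _ => h2⟩
    · exact ⟨∅, ∅, countable_empty, countable_empty, fun h => absurd h ht⟩
  choose C D hC hD hCD using h1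
  obtain ⟨w, hw, hw1, hw2, hw3⟩ := h (⋃ t, C t) (⋃ t, D t) (countable_iUnion hC)
    (countable_iUnion hD)
  obtain ⟨m, C', D', hC', hD', h2⟩ := hcon (fun i => max (w.2.co i) (w.1.sup fun d => d.1.co i))
  refine hCD ⟨m, fun i => max (w.2.co i) (w.1.sup fun d => d.1.co i)⟩
    ⟨C', D', hC', hD', ?_⟩ w hw hw1 ?_ ?_ ?_
  · intro w' hw' hw1' hw2' hw3' hall
    obtain ⟨i, hi, h3⟩ := h2 w' hw' hw1' hw2' hw3'
    have h4 := hall ⟨i, hi⟩
    obtain ⟨d, hd, hlt⟩ := h3 h4.1
    exact absurd (h4.2 d hd) (not_le.2 hlt)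
  · exact fun hmem => hw2 (mem_iUnion.2 ⟨_, hmem⟩)
  · exact fun d hd hdR hmem => hw3 d hd hdR (mem_iUnion.2 ⟨_, hmem⟩)
  · intro i
    refine ⟨le_max_left _ _, fun d hd => ?_⟩
    exact (Finset.le_sup (f := fun d : Td × Bool => d.1.co i) hd).trans (le_max_right _ _)

/-- the sequence lemma -/
theorem seq_lemma (W : Set (Finset (Td × Bool) × Td)) 
    (hW : ∀ C : Set Td, C.Countable → ∃ w ∈ W, w.2 ∉ C) :
    ∃ (R : Finset (Td × Bool)) (w : ℕ → Finset (Td × Bool) × Td) (y : ℕ → ℕ),
      (∀ i, w i ∈ W) ∧ (∀ i, R ⊆ (w i).1) ∧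
      (∀ i j, i < j → ∀ d ∈ (w j).1, d ∉ R → (d.1, true) ∉ (w i).1 ∧ (d.1, false) ∉ (w i).1
        ∧ d.1 ≠ (w i).2) ∧
      (∀ i j, i < j → (w j).2 ≠ (w i).2 ∧ ((w j).2, true) ∉ (w i).1 ∧ ((w j).2, false) ∉ (w i).1) ∧
      (∀ j i, (w i).2.co j ≤ y j ∧ ∀ d ∈ (w i).1, d.1.co j ≤ y j) := by
  classical
  obtain ⟨R, hR⟩ := root_lemma W hW
  obtain ⟨y, hy⟩ := bound_lemma W R hR
  obtain ⟨F, hF1, hF2⟩ := exists_seq_of_forall_finset_exists
    (α := ℕ × (Finset (Td × Bool) × Td))
    (P := fun x => x.2 ∈ W ∧ R ⊆ x.2.1 ∧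
      ∀ i < x.1, x.2.2.co i ≤ y i ∧ ∀ d ∈ x.2.1, d.1.co i ≤ y i)
    (r := fun x x' => x.1 < x'.1 ∧ (∀ d ∈ x'.2.1, d ∉ R → (d.1, true) ∉ x.2.1 ∧
        (d.1, false) ∉ x.2.1 ∧ d.1 ≠ x.2.2) ∧
        (x'.2.2 ≠ x.2.2 ∧ (x'.2.2, true) ∉ x.2.1 ∧ (x'.2.2, false) ∉ x.2.1)) (by
      intro s hs
      obtain ⟨w, hw, hw1, hw2, hw3, hw4⟩ := hy (s.sup (fun x => x.1 + 1))
        (⋃ x ∈ s, ({x.2.2} ∪ Prod.fst '' (x.2.1 : Set (Td × Bool))))
        (⋃ x ∈ s, (({x.2.2} ∪ Prod.fst '' (x.2.1 : Set (Td × Bool))) ×ˢ (univ : Set Bool)))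
        (s.countable_toSet.biUnion fun x _ => (countable_singleton _).union
          (x.2.1.countable_toSet.image _))
        (s.countable_toSet.biUnion fun x _ => ((countable_singleton _).union
          (x.2.1.countable_toSet.image _)).prod countable_univ)
      refine ⟨(s.sup (fun x => x.1 + 1), w), ⟨hw, hw1, hw4⟩, ?_⟩
      intro x hx
      refine ⟨?_, ?_, ?_⟩
      · have := Finset.le_sup (f := fun x : ℕ × (Finset (Td × Bool) × Td) => x.1 + 1) hx
        exact this
      · intro d hd hdR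
        have h1 := hw3 d hd hdR
        have h2 : d.1 ∉ ({x.2.2} ∪ Prod.fst '' (x.2.1 : Set (Td × Bool)) : Set Td) := by
          intro hmem
          exact h1 (mem_biUnion hx ⟨hmem, mem_univ _⟩)
        refine ⟨fun h => h2 (Or.inr ⟨_, h, rfl⟩), fun h => h2 (Or.inr ⟨_, h, rfl⟩),
          fun h => h2 (Or.inl h)⟩
      · have h2 : w.2 ∉ ({x.2.2} ∪ Prod.fst '' (x.2.1 : Set (Td × Bool)) : Set Td) := by
          intro hmem
          exact hw2 (mem_biUnion hx hmem)
        exact ⟨fun h => h2 (Or.inl h), fun h => h2 (Or.inr ⟨_, h, rfl⟩),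
          fun h => h2 (Or.inr ⟨_, h, rfl⟩)⟩)
  have hidx : ∀ n, n ≤ (F n).1 := by
    intro n
    induction n with
    | zero => exact Nat.zero_le _
    | succ n ih => exact lt_of_le_of_lt ih (hF2 n (n + 1) (Nat.lt_succ_self n)).1
  have hbd : ∀ j, ∃ M, ∀ i, (F i).2.2.co j ≤ M ∧ ∀ d ∈ (F i).2.1, d.1.co j ≤ M := by
    intro j
    refine ⟨max (y j) ((Finset.range (j + 1)).sup fun i =>
      max ((F i).2.2.co j) ((F i).2.1.sup fun d => d.1.co j)), ?_⟩
    intro i
    by_cases hij : i ≤ j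
    · have h1 := Finset.le_sup (f := fun i =>
        max ((F i).2.2.co j) ((F i).2.1.sup fun d => d.1.co j)) 
        (Finset.mem_range.2 (Nat.lt_succ_of_le hij))
      refine ⟨?_, fun d hd => ?_⟩
      · exact (le_max_left _ _).trans (h1.trans (le_max_right _ _))
      · have h2 := Finset.le_sup (f := fun d : Td × Bool => d.1.co j) hd
        exact (h2.trans (le_max_right _ _)).trans (h1.trans (le_max_right _ _))
    · have h1 := (hF1 i).2.2 j (lt_of_lt_of_le (not_le.1 hij) (hidx i))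
      exact ⟨h1.1.trans (le_max_left _ _), fun d hd => (h1.2 d hd).trans (le_max_left _ _)⟩
  choose y' hy' using hbd
  exact ⟨R, fun i => (F i).2, y', fun i => (hF1 i).1, fun i => (hF1 i).2.1,
    fun i j hij => (hF2 i j hij).2.1, fun i j hij => (hF2 i j hij).2.2, hy'⟩


/-- restriction of a point to a set of indices -/
noncomputable def restr (C : Set Td) (p : XX) : XX :=
  open Classical in
  ⟨(fun t => if t ∈ C then p.1.1 t else false, p.1.2), fun a ha n => p.2 a (by
    by_cases h : a ∈ C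
    · simpa [h] using ha
    · simp [h] at ha) n⟩

theorem restr_of_mem {C : Set Td} {p : XX} {t : Td} (h : t ∈ C) :
    (restr C p).1.1 t = p.1.1 t := by simp [restr, h]

theorem restr_of_notMem {C : Set Td} {p : XX} {t : Td} (h : t ∉ C) :
    (restr C p).1.1 t = false := by simp [restr, h]

theorem restr_snd (C : Set Td) (p : XX) : (restr C p).1.2 = p.1.2 := rfl

theorem nbhd_lemma (f : XX → ℝ) (hf : Continuous f) (p : XX) (ε : ℝ) (hε : 0 < ε) :
    ∃ (F : Finset Td) (n : ℕ), ∀ p' : XX, (∀ t ∈ F, p'.1.1 t = p.1.1 t) →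
      (∀ i < n, p'.1.2 i = p.1.2 i) → |f p' - f p| < ε := by
  have hopen : IsOpen {p' : XX | |f p' - f p| < ε} :=
    ((hf.sub continuous_const).abs).isOpen_preimage _ isOpen_Iio
  obtain ⟨V, hV, hVe⟩ := isOpen_induced_iff.1 hopen
  have hpV : (p : (Td → Bool) × (ℕ → ℕ)) ∈ V := by
    have : p ∈ Subtype.val ⁻¹' V := by
      rw [hVe]
      simpa using hε
    exact this
  obtain ⟨V1, V2, hV1, hV2, hp1, hp2, hsub⟩ := isOpen_prod_iff.1 hV p.1.1 p.1.2 hpV
  obtain ⟨I1, u1, hu1, hs1⟩ := isOpen_pi_iff.1 hV1 _ hp1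
  obtain ⟨I2, u2, hu2, hs2⟩ := isOpen_pi_iff.1 hV2 _ hp2
  refine ⟨I1, I2.sup id + 1, ?_⟩
  intro p' h1 h2
  have hmem : (p' : (Td → Bool) × (ℕ → ℕ)) ∈ V := by
    apply hsub
    refine ⟨hs1 ?_, hs2 ?_⟩
    · intro t ht
      rw [h1 t ht]
      exact (hu1 t ht).2
    · intro i hi
      rw [h2 i (Nat.lt_succ_of_le (Finset.le_sup (f := id) hi))]
      exact (hu2 i hi).2
  have : p' ∈ Subtype.val ⁻¹' V := hmem
  rw [hVe] at this
  exact this

/-- If `f` changes under restriction to `C`, it changes when a single index outside `C` is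
removed. -/
theorem one_step (f : XX → ℝ) (hf : Continuous f) (C : Set Td) (p : XX)
    (h : f (restr C p) ≠ f p) :
    ∃ (p0 p1 : XX) (a : Td), a ∉ C ∧ f p0 ≠ f p1 ∧ p0.1.2 = p1.1.2 ∧ p0.1.1 a = false ∧
      p1.1.1 a = true ∧ ∀ t, t ≠ a → p0.1.1 t = p1.1.1 t := by
  classical
  have key : ∃ (F : Finset Td) (a : Td), f (restr (C ∪ F) p) ≠ f (restr (C ∪ insert a F) p) := by
    by_contra hcon
    push Not at hcon
    have hall : ∀ F : Finset Td, f (restr (C ∪ F) p) = f (restr C p) := by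
      intro F
      induction F using Finset.induction_on with
      | empty => simp
      | insert a s ha ih =>
        rw [← ih, hcon s a, Finset.coe_insert]
    obtain ⟨F, n, hF⟩ := nbhd_lemma f hf p |f (restr C p) - f p| (abs_pos.2 (sub_ne_zero.2 h))
    have h1 := hF (restr (C ∪ F) p) (fun t ht => restr_of_mem (Or.inr ht)) (fun i _ => rfl)
    rw [hall F] at h1
    exact lt_irrefl _ h1
  obtain ⟨F, a, hne⟩ := key
  have haCF : a ∉ C ∪ (F : Set Td) := by
    intro ha
    apply hne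
    rw [union_insert, Set.insert_eq_of_mem ha]
  have hne' : ∀ t, t ≠ a → (restr (C ∪ F) p).1.1 t = (restr (C ∪ insert a F) p).1.1 t := by
    intro t ht
    by_cases hmem : t ∈ C ∪ (F : Set Td)
    · rw [restr_of_mem hmem, restr_of_mem]
      rw [union_insert]
      exact Or.inr hmem
    · rw [restr_of_notMem hmem, restr_of_notMem]
      rw [union_insert]
      rintro (h1 | h1)
      · exact ht h1
      · exact hmem h1
  refine ⟨restr (C ∪ F) p, restr (C ∪ insert a F) p, a, fun hC => haCF (Or.inl hC), hne, rfl,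
    restr_of_notMem haCF, ?_, hne'⟩
  rw [restr_of_mem (by rw [union_insert]; exact Or.inl rfl)]
  by_contra hpa
  apply hne
  congr 1
  apply Subtype.ext
  refine Prod.ext ?_ rfl
  funext t
  by_cases ht : t = a
  · subst ht
    rw [restr_of_notMem haCF, restr_of_mem (by rw [union_insert]; exact Or.inl rfl)]
    simpa using hpa
  · exact hne' t ht

/-- The type of a witness. -/
structure Ty where
  u : ℚ
  v : ℚ
  d : ℚ
  n : ℕ
  s : Fin n → ℕ

theorem countable_Ty : Countable Ty := by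
  have : Function.Injective (fun x : Ty =>
      ((x.u, x.v, x.d), (⟨x.n, x.s⟩ : (n : ℕ) × (Fin n → ℕ)))) := by
    rintro ⟨u, v, d, n, s⟩ ⟨u', v', d', n', s'⟩ h
    simp only [Prod.mk.injEq, Sigma.mk.injEq] at h
    obtain ⟨⟨rfl, rfl, rfl⟩, rfl, h2⟩ := h
    cases h2
    rfl
  exact this.countable

/-- `f` witnesses `(Z, a)` of type `x`. -/
def Wf (f : XX → ℝ) (x : Ty) (w : Finset (Td × Bool) × Td) : Prop :=
  (∀ t, ¬ ((t, true) ∈ w.1 ∧ (t, false) ∈ w.1)) ∧ (w.2, true) ∉ w.1 ∧ (w.2, false) ∉ w.1 ∧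
  (∀ i : Fin x.n, w.2.co i ≤ x.s i ∧ ∀ t, (t, true) ∈ w.1 → t.co i ≤ x.s i) ∧
  (∀ p : XX, (∀ d ∈ w.1, p.1.1 d.1 = d.2) → (∀ i : Fin x.n, p.1.2 i = x.s i) →
    (p.1.1 w.2 = false → |f p - x.u| < x.d) ∧ (p.1.1 w.2 = true → |f p - x.v| < x.d))

theorem exists_witness (f : XX → ℝ) (hf : Continuous f) (C : Set Td) (p : XX)
    (h : f (restr C p) ≠ f p) :
    ∃ (x : Ty) (w : Finset (Td × Bool) × Td), 2 * (x.d : ℝ) < |(x.u : ℝ) - x.v| ∧ w.2 ∉ C ∧
      Wf f x w := by
  classical
  obtain ⟨p0, p1, a, haC, hne, hsnd, h0, h1, hagree⟩ := one_step f hf C p h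
  set D : ℝ := |f p0 - f p1| with hD
  have hDpos : 0 < D := abs_pos.2 (sub_ne_zero.2 hne)
  obtain ⟨d, hd1, hd2⟩ := exists_rat_btwn (show (0 : ℝ) < D / 8 by positivity)
  have hdpos : (0 : ℝ) < d := hd1
  obtain ⟨u, hu1, hu2⟩ := exists_rat_btwn (show f p0 - (d : ℝ) / 2 < f p0 + (d : ℝ) / 2 by linarith)
  obtain ⟨v, hv1, hv2⟩ := exists_rat_btwn (show f p1 - (d : ℝ) / 2 < f p1 + (d : ℝ) / 2 by linarith)
  have hu : |f p0 - u| < (d : ℝ) / 2 := by rw [abs_lt]; constructor <;> linarith
  have hv : |f p1 - v| < (d : ℝ) / 2 := by rw [abs_lt]; constructor <;> linarith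
  obtain ⟨F0, n0, hF0⟩ := nbhd_lemma f hf p0 ((d : ℝ) / 2) (by positivity)
  obtain ⟨F1, n1, hF1⟩ := nbhd_lemma f hf p1 ((d : ℝ) / 2) (by positivity)
  refine ⟨⟨u, v, d, max n0 n1, fun i => p0.1.2 i⟩,
    (((F0 ∪ F1).erase a).image (fun t => (t, p0.1.1 t)), a), ?_, haC, ?_, ?_, ?_, ?_, ?_⟩
  · simp only
    have h3 : D ≤ |f p0 - u| + |(u : ℝ) - v| + |f p1 - v| := by
      rw [hD]
      have h4 : f p0 - f p1 = (f p0 - u) + ((u : ℝ) - v) - (f p1 - v) := by ring
      rw [h4]
      exact (abs_sub _ _).trans (add_le_add (abs_add_le _ _) le_rfl)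
    linarith
  · rintro t ⟨ht1, ht2⟩
    simp only [Finset.mem_image, Prod.mk.injEq] at ht1 ht2
    obtain ⟨t1, -, rfl, h3⟩ := ht1
    obtain ⟨t2, -, rfl, h4⟩ := ht2
    rw [h3] at h4
    exact absurd h4 (by decide)
  · intro hmem
    simp only [Finset.mem_image, Prod.mk.injEq, Finset.mem_erase] at hmem
    obtain ⟨t, ⟨hta, -⟩, h3, -⟩ := hmem
    exact hta h3
  · intro hmem
    simp only [Finset.mem_image, Prod.mk.injEq, Finset.mem_erase] at hmem
    obtain ⟨t, ⟨hta, -⟩, h3, -⟩ := hmem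
    exact hta h3
  · intro i
    refine ⟨?_, ?_⟩
    · simp only
      rw [hsnd]
      exact p1.2 a h1 i
    · intro t ht
      simp only [Finset.mem_image, Prod.mk.injEq, Finset.mem_erase] at ht
      obtain ⟨t1, -, rfl, h3⟩ := ht
      exact p0.2 _ h3 i
  · intro p' hp' hs'
    have hp'' : ∀ t ∈ F0 ∪ F1, t ≠ a → p'.1.1 t = p0.1.1 t := by
      intro t ht hta
      exact hp' (t, p0.1.1 t) (Finset.mem_image.2 ⟨t, Finset.mem_erase.2 ⟨hta, ht⟩, rfl⟩)
    refine ⟨fun hpa => ?_, fun hpa => ?_⟩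
    · have h3 := hF0 p' (fun t ht => by
        by_cases hta : t = a
        · subst hta
          rw [h0]; exact hpa
        · exact hp'' t (Finset.mem_union_left _ ht) hta)
        (fun i hi => hs' ⟨i, lt_of_lt_of_le hi (le_max_left _ _)⟩)
      have h4 : f p' - u = (f p' - f p0) + (f p0 - u) := by ring
      rw [h4]
      refine (abs_add_le _ _).trans_lt ?_
      linarith
    · have h3 := hF1 p' (fun t ht => by
        by_cases hta : t = a
        · subst hta
          rw [h1]; exact hpa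
        · rw [← hagree t hta]
          exact hp'' t (Finset.mem_union_right _ ht) hta)
        (fun i hi => by
          rw [← hsnd]
          exact hs' ⟨i, lt_of_lt_of_le hi (le_max_right _ _)⟩)
      have h4 : f p' - v = (f p' - f p1) + (f p1 - v) := by ring
      rw [h4]
      refine (abs_add_le _ _).trans_lt ?_
      linarith

theorem main_contradiction (A : Set (XX → ℝ)) (hA : IsCompact A) (hAc : ∀ f ∈ A, Continuous f)
    (x : Ty) (hx : 2 * (x.d : ℝ) < |(x.u : ℝ) - x.v|)
    (hW : ∀ C : Set Td, C.Countable →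
      ∃ w ∈ {w : Finset (Td × Bool) × Td | ∃ f ∈ A, Wf f x w}, w.2 ∉ C) : False := by
  classical
  obtain ⟨R, w, y, hw, hR, hlt1, hlt2, hy⟩ := seq_lemma _ hW
  choose f hfA hf using hw
  -- the bounding function
  let y' : ℕ → ℕ := fun j => if h : j < x.n then x.s ⟨j, h⟩ else y j
  -- separation facts
  have hS : ∀ i j t, (t, true) ∈ (w i).1 → (t, false) ∉ (w j).1 := by
    intro i j t h1 h2
    rcases lt_trichotomy i j with hij | hij | hij
    · by_cases hR1 : (t, false) ∈ R
      · exact (hf i).1 t ⟨h1, hR i hR1⟩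
      · exact (hlt1 i j hij _ h2 hR1).1 h1
    · subst hij
      exact (hf i).1 t ⟨h1, h2⟩
    · by_cases hR1 : (t, true) ∈ R
      · exact (hf j).1 t ⟨hR j hR1, h2⟩
      · exact (hlt1 j i hij _ h1 hR1).2.1 h2
  have hSa : ∀ i j b, ((w i).2, b) ∉ (w j).1 := by
    intro i j b h1
    rcases lt_trichotomy i j with hij | hij | hij
    · by_cases hR1 : ((w i).2, b) ∈ R
      · cases b
        · exact (hf i).2.2.1 (hR i hR1)
        · exact (hf i).2.1 (hR i hR1)
      · exact (hlt1 i j hij _ h1 hR1).2.2 rfl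
    · subst hij
      cases b
      · exact (hf i).2.2.1 h1
      · exact (hf i).2.1 h1
    · cases b
      · exact (hlt2 j i hij).2.2 h1
      · exact (hlt2 j i hij).2.1 h1
  have haa : ∀ i j, i ≠ j → (w i).2 ≠ (w j).2 := by
    intro i j hij
    rcases lt_or_gt_of_ne hij with h | h
    · exact (hlt2 i j h).1.symm
    · exact (hlt2 j i h).1
  -- the points
  let Q : Set ℕ → Td → Bool := fun J t =>
    decide ((∃ i, (t, true) ∈ (w i).1) ∨ ∃ i ∈ J, t = (w i).2)
  have hQ : ∀ J a, Q J a = true → ∀ n, a.co n ≤ y' n := by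
    intro J a ha n
    simp only [Q, decide_eq_true_eq] at ha
    by_cases hn : n < x.n
    · simp only [y', hn, dif_pos]
      rcases ha with ⟨i, hi⟩ | ⟨i, -, rfl⟩
      · exact ((hf i).2.2.2.1 ⟨n, hn⟩).2 a hi
      · exact ((hf i).2.2.2.1 ⟨n, hn⟩).1
    · simp only [y', hn, dif_neg, not_false_eq_true]
      rcases ha with ⟨i, hi⟩ | ⟨i, -, rfl⟩
      · exact (hy n i).2 _ hi
      · exact (hy n i).1
  let P : Set ℕ → XX := fun J => ⟨(Q J, y'), hQ J⟩
  have hP : ∀ (J : Set ℕ) (i : ℕ), (i ∉ J → |f i (P J) - x.u| < x.d) ∧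
      (i ∈ J → |f i (P J) - x.v| < x.d) := by
    intro J i
    have h1 := (hf i).2.2.2.2 (P J) (by
      rintro ⟨t, b⟩ hd
      cases b
      · simp only [P, Q]
        rw [decide_eq_false_iff_not]
        rintro (⟨j, hj⟩ | ⟨j, -, rfl⟩)
        · exact hS j i t hj hd
        · exact hSa j i false hd
      · simp only [P, Q]
        rw [decide_eq_true_eq]
        exact Or.inl ⟨i, hd⟩) (by
      intro j
      simp only [P, y', j.2, dif_pos])
    refine ⟨fun hi => h1.1 ?_, fun hi => h1.2 ?_⟩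
    · simp only [P, Q]
      rw [decide_eq_false_iff_not]
      rintro (⟨j, hj⟩ | ⟨j, hj, hj2⟩)
      · exact hSa i j true hj
      · by_cases hij : i = j
        · subst hij; exact hi hj
        · exact haa i j hij hj2
    · simp only [P, Q]
      rw [decide_eq_true_eq]
      exact Or.inr ⟨i, hi, rfl⟩
  -- cluster point
  obtain ⟨g, hgA, hg⟩ := hA.ultrafilter_le_nhds ((Filter.hyperfilter ℕ).map f) (by
    rw [Ultrafilter.coe_map, Filter.le_principal_iff, Filter.mem_map]
    exact Filter.univ_mem' hfA)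
  have hlim : ∀ p : XX, Filter.Tendsto (fun i => f i p) (Filter.hyperfilter ℕ : Filter ℕ)
      (𝓝 (g p)) := by
    intro p
    have : Filter.Tendsto f (Filter.hyperfilter ℕ : Filter ℕ) (𝓝 g) := hg
    exact (tendsto_pi_nhds.1 this) p
  have hgu : ∀ N : ℕ, |g (P {i | i < N}) - x.u| ≤ x.d := by
    intro N
    have h1 := ((hlim (P {i | i < N})).sub_const (x.u : ℝ)).abs
    refine le_of_tendsto h1 ?_
    have h2 : ∀ᶠ i in (Filter.hyperfilter ℕ : Filter ℕ), i ∉ {i | i < N} :=
      Filter.hyperfilter_le_cofinite (Set.finite_lt_nat N).eventually_cofinite_notMem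
    filter_upwards [h2] with i hi
    exact ((hP _ i).1 hi).le
  have hgv : |g (P univ) - x.v| ≤ x.d := by
    have h1 := ((hlim (P univ)).sub_const (x.v : ℝ)).abs
    exact le_of_tendsto h1 (Filter.univ_mem' fun i => ((hP _ i).2 (mem_univ i)).le)
  have hconv : Filter.Tendsto (fun N : ℕ => P {i | i < N}) Filter.atTop (𝓝 (P univ)) := by
    rw [tendsto_subtype_rng]
    refine Filter.Tendsto.prodMk_nhds ?_ tendsto_const_nhds
    rw [tendsto_pi_nhds]
    intro t
    by_cases ht : ∃ i, t = (w i).2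
    · obtain ⟨i, rfl⟩ := ht
      refine tendsto_const_nhds.congr' ?_
      filter_upwards [Filter.eventually_gt_atTop i] with N hN
      simp only [Q]
      rw [decide_eq_decide]
      constructor
      · intro _
        exact Or.inr ⟨i, hN, rfl⟩
      · intro _
        exact Or.inr ⟨i, mem_univ _, rfl⟩
    · have : ∀ N : ℕ, (P {i | i < N}).1.1 t = (P univ).1.1 t := by
        intro N
        simp only [P, Q]
        rw [decide_eq_decide]
        constructor
        · rintro (h | ⟨i, -, h⟩)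
          · exact Or.inl h
          · exact absurd ⟨i, h⟩ ht
        · rintro (h | ⟨i, -, h⟩)
          · exact Or.inl h
          · exact absurd ⟨i, h⟩ ht
      exact tendsto_const_nhds.congr fun N => (this N).symm
  have hglim : Filter.Tendsto (fun N : ℕ => g (P {i | i < N})) Filter.atTop (𝓝 (g (P univ))) :=
    ((hAc g hgA).tendsto _).comp hconv
  have hgu' : |g (P univ) - x.u| ≤ x.d :=
    le_of_tendsto ((hglim.sub_const (x.u : ℝ)).abs) (Filter.univ_mem' hgu)
  have h5 : (x.u : ℝ) - x.v = (g (P univ) - x.v) - (g (P univ) - x.u) := by ring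
  rw [h5] at hx
  have h6 := abs_sub (g (P univ) - x.v) (g (P univ) - x.u)
  linarith

theorem exists_countable_support (A : Set (XX → ℝ)) (hA : IsCompact A)
    (hAc : ∀ f ∈ A, Continuous f) :
    ∃ C : Set Td, C.Countable ∧ ∀ f ∈ A, ∀ p, f (restr C p) = f p := by
  by_contra hcon
  push Not at hcon
  have hT := countable_Ty
  have key : ∃ x : Ty, 2 * (x.d : ℝ) < |(x.u : ℝ) - x.v| ∧ ∀ C : Set Td, C.Countable →
      ∃ w ∈ {w : Finset (Td × Bool) × Td | ∃ f ∈ A, Wf f x w}, w.2 ∉ C := by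
    by_contra hcon2
    push Not at hcon2
    have h1 : ∀ x : Ty, ∃ C : Set Td, C.Countable ∧ (2 * (x.d : ℝ) < |(x.u : ℝ) - x.v| →
        ∀ w ∈ {w : Finset (Td × Bool) × Td | ∃ f ∈ A, Wf f x w}, w.2 ∈ C) := by
      intro x
      by_cases hx : 2 * (x.d : ℝ) < |(x.u : ℝ) - x.v|
      · obtain ⟨C, hC, h2⟩ := hcon2 x hx
        exact ⟨C, hC, fun _ => h2⟩
      · exact ⟨∅, countable_empty, fun h => absurd h hx⟩
    choose C hC h2 using h1
    obtain ⟨f, hfA, p, hne⟩ := hcon (⋃ x, C x) (countable_iUnion hC)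
    obtain ⟨x, w, hx, hwC, hw⟩ := exists_witness f (hAc f hfA) _ p hne
    exact hwC (mem_iUnion.2 ⟨x, h2 x hx w ⟨f, hfA, hw⟩⟩)
  obtain ⟨x, hx, hW⟩ := key
  exact main_contradiction A hA hAc x hx hW


/-- A compact metrizable space embeds in a Banach space with the weak topology. -/
theorem embed_of_metrizable (B : Type) [TopologicalSpace B] [CompactSpace B]
    [TopologicalSpace.MetrizableSpace B] :
    ∃ (E : Type) (_ : NormedAddCommGroup E) (_ : NormedSpace ℝ E) (_ : CompleteSpace E)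
      (e : B → WeakSpace ℝ E), Topology.IsEmbedding e := by
  let _ := TopologicalSpace.metrizableSpaceMetric B
  refine ⟨lp (fun _ : ℕ => ℝ) ⊤, inferInstance, inferInstance, inferInstance,
    fun b => toWeakSpaceCLM ℝ _ (kuratowskiEmbedding B b), ?_⟩
  have hc : Continuous (fun b : B => toWeakSpaceCLM ℝ _ (kuratowskiEmbedding B b)) :=
    (toWeakSpaceCLM ℝ _).continuous.comp (kuratowskiEmbedding.isometry B).continuous
  have hi : Function.Injective (fun b : B => toWeakSpaceCLM ℝ _ (kuratowskiEmbedding B b)) := by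
    intro b b' h
    exact (kuratowskiEmbedding.isometry B).injective ((toWeakSpaceCLM_bijective (𝕜 := ℝ)).1 h)
  exact (hc.isClosedEmbedding hi).isEmbedding

/-- Every compact set of continuous functions on `XX` is metrizable. -/
theorem metrizable_of_compact (A : Set (XX → ℝ)) (hA : IsCompact A)
    (hAc : ∀ f ∈ A, Continuous f) : TopologicalSpace.MetrizableSpace A := by
  classical
  obtain ⟨C, hC, hCA⟩ := exists_countable_support A hA hAc
  have : Countable C := hC.to_subtype
  let Y : Type := {p : XX // ∀ t, t ∉ C → p.1.1 t = false}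
  let π : Y → (C → Bool) × (ℕ → ℕ) := fun q => (fun c => q.1.1.1 c, q.1.1.2)
  let j : (C → Bool) × (ℕ → ℕ) → (Td → Bool) × (ℕ → ℕ) :=
    fun z => (fun t => if h : t ∈ C then z.1 ⟨t, h⟩ else false, z.2)
  have hπ : Continuous π := by
    refine Continuous.prodMk (continuous_pi fun c => ?_) ?_
    · exact (continuous_apply (c : Td)).comp (continuous_fst.comp
        (continuous_subtype_val.comp continuous_subtype_val))
    · exact continuous_snd.comp (continuous_subtype_val.comp continuous_subtype_val)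
  have hj : Continuous j := by
    refine Continuous.prodMk (continuous_pi fun t => ?_) continuous_snd
    by_cases h : t ∈ C
    · simp only [h, dif_pos]
      exact (continuous_apply _).comp continuous_fst
    · simp only [h, dif_neg, not_false_eq_true]
      exact continuous_const
  have hcomp : j ∘ π = fun q : Y => ((q.1 : XX) : (Td → Bool) × (ℕ → ℕ)) := by
    funext q
    refine Prod.ext ?_ rfl
    funext t
    simp only [Function.comp, j, π]
    by_cases h : t ∈ C
    · simp [h]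
    · simp [h, q.2 t h]
  have hind : IsInducing (j ∘ π) := by
    rw [hcomp]
    exact IsInducing.subtypeVal.comp IsInducing.subtypeVal
  have hπi : IsInducing π := IsInducing.of_comp hπ hj hind
  have hsc : SecondCountableTopology Y := hπi.secondCountableTopology
  obtain ⟨D, hDc, hDd⟩ := TopologicalSpace.exists_countable_dense Y
  have : Countable D := hDc.to_subtype
  have : CompactSpace A := isCompact_iff_compactSpace.1 hA
  let Φ : A → (D → ℝ) := fun f d => f.1 d.1.1
  have hΦ : Continuous Φ := continuous_pi fun d =>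
    (continuous_apply (d.1.1 : XX)).comp continuous_subtype_val
  have hΦi : Function.Injective Φ := by
    intro f g hfg
    apply Subtype.ext
    funext p
    have h1 : (fun q : Y => f.1 q.1) = fun q : Y => g.1 q.1 := by
      refine Continuous.ext_on hDd ((hAc f.1 f.2).comp continuous_subtype_val)
        ((hAc g.1 g.2).comp continuous_subtype_val) ?_
      intro d hd
      exact congrFun hfg ⟨d, hd⟩
    have h2 := congrFun h1 ⟨restr C p, fun t ht => restr_of_notMem ht⟩
    simp only at h2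
    rw [← hCA f.1 f.2 p, ← hCA g.1 g.2 p, h2]
  exact (hΦ.isClosedEmbedding hΦi).isEmbedding.metrizableSpace

theorem hyp_XX (A : Set (XX → ℝ)) (hAc : ∀ f ∈ A, Continuous f) (hA : IsCompact A) :
    ∃ (E : Type) (_ : NormedAddCommGroup E) (_ : NormedSpace ℝ E) (_ : CompleteSpace E)
      (e : A → WeakSpace ℝ E), Topology.IsEmbedding e := by
  have : CompactSpace A := isCompact_iff_compactSpace.1 hA
  have := metrizable_of_compact A hA hAc
  exact embed_of_metrizable A

/-! ### The Talagrand compact -/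

/-- first difference -/
noncomputable def fd (a b : Td) : ℕ := PiNat.firstDiff (E := fun _ => ℕ) a b

theorem co_fd_ne {a b : Td} (h : a ≠ b) : a.co (fd a b) ≠ b.co (fd a b) :=
  PiNat.apply_firstDiff_ne (E := fun _ => ℕ) h

/-- The adequate family: sets of indices any two of which first differ at the same place. -/
def AF : Set (Td → Bool) := {a | ∀ x y z w : Td, a x = true → a y = true → a z = true →
  a w = true → x ≠ y → z ≠ w → fd x y = fd z w}

theorem isClosed_AF : IsClosed AF := by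
  have : AF = ⋂ (x : Td) (y : Td) (z : Td) (w : Td),
      (fun a : Td → Bool => ((a x, a y), (a z, a w))) ⁻¹'
        {q : (Bool × Bool) × (Bool × Bool) | q.1.1 = true → q.1.2 = true → q.2.1 = true →
          q.2.2 = true → x ≠ y → z ≠ w → fd x y = fd z w} := by
    ext a
    simp only [AF, mem_iInter]
    rfl
  rw [this]
  refine isClosed_iInter fun x => isClosed_iInter fun y => isClosed_iInter fun z =>
    isClosed_iInter fun w => ?_
  refine (isClosed_discrete _).preimage ?_
  exact ((continuous_apply x).prodMk (continuous_apply y)).prodMk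
    ((continuous_apply z).prodMk (continuous_apply w))

theorem isCompact_AF : IsCompact AF := isClosed_AF.isCompact

theorem AF_injOn {a : Td → Bool} (ha : a ∈ AF) :
    ∃ n, InjOn (fun t : Td => t.co n) {t | a t = true} := by
  by_cases h : ∃ x y : Td, a x = true ∧ a y = true ∧ x ≠ y
  · obtain ⟨x, y, hx, hy, hxy⟩ := h
    refine ⟨fd x y, ?_⟩
    intro z hz w hw hzw
    by_contra hne
    rw [ha x y z w hx hy hz hw hxy hne] at hzw
    exact co_fd_ne hne hzw
  · refine ⟨0, ?_⟩
    intro z hz w hw _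
    by_contra hne
    exact h ⟨z, w, hz, hw, hne⟩

/-- The function on `XX × OnePoint Td` given by a member of the family. -/
noncomputable def FF (a : Td → Bool) (q : XX × OnePoint Td) : ℝ :=
  q.2.elim 0 (fun t => if a t = true ∧ q.1.1.1 t = true then 1 else 0)

theorem FF_continuous_left : Continuous FF := by
  refine continuous_pi ?_
  rintro ⟨p, k⟩
  induction k using OnePoint.rec with
  | infty => exact continuous_const
  | coe t =>
    have : (fun a : Td → Bool => FF a (p, (t : OnePoint Td))) =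
        (fun b : Bool => if b = true ∧ p.1.1 t = true then (1 : ℝ) else 0) ∘ (fun a => a t) := rfl
    rw [this]
    exact continuous_of_discreteTopology.comp (continuous_apply t)

theorem FF_continuous {a : Td → Bool} (ha : a ∈ AF) : Continuous (FF a) := by
  rw [continuous_iff_continuousAt]
  rintro ⟨p, k⟩
  induction k using OnePoint.rec with
  | infty =>
    obtain ⟨n, hn⟩ := AF_injOn ha
    have hfin : {t : Td | a t = true ∧ t.co n ≤ p.1.2 n}.Finite := by
      refine Set.Finite.of_finite_image (f := fun t : Td => t.co n) ?_ ?_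
      · refine (Set.finite_le_nat (p.1.2 n)).subset ?_
        rintro _ ⟨t, ht, rfl⟩
        exact ht.2
      · exact hn.mono fun t ht => ht.1
    have hopen1 : {q : XX × OnePoint Td | q.1.1.2 n = p.1.2 n} ∈ 𝓝 (p, (OnePoint.infty : OnePoint Td)) := by
      have hc : Continuous (fun q : XX × OnePoint Td => q.1.1.2 n) :=
        (continuous_apply n).comp (continuous_snd.comp (continuous_subtype_val.comp continuous_fst))
      exact (hc.isOpen_preimage {p.1.2 n} (isOpen_discrete _)).mem_nhds rfl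
    have hopen2 : {q : XX × OnePoint Td | q.2 ∉ OnePoint.some '' {t : Td | a t = true ∧ t.co n ≤ p.1.2 n}} ∈
        𝓝 (p, (OnePoint.infty : OnePoint Td)) := by
      have hc : IsClosed (OnePoint.some '' {t : Td | a t = true ∧ t.co n ≤ p.1.2 n}) :=
        (hfin.image _).isClosed
      exact (hc.isOpen_compl.preimage continuous_snd).mem_nhds (by
        rintro ⟨t, -, ht⟩
        exact OnePoint.coe_ne_infty t ht)
    have : FF a =ᶠ[𝓝 (p, (OnePoint.infty : OnePoint Td))] fun _ => 0 := by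
      filter_upwards [hopen1, hopen2] with q h1 h2
      rcases q with ⟨p', k'⟩
      induction k' using OnePoint.rec with
      | infty => rfl
      | coe t =>
        show (if a t = true ∧ p'.1.1 t = true then (1 : ℝ) else 0) = 0
        rw [if_neg]
        rintro ⟨h3, h4⟩
        apply h2
        refine ⟨t, ⟨h3, ?_⟩, rfl⟩
        have h5 := p'.2 t h4 n
        have h6 : p'.1.2 n = p.1.2 n := h1
        rw [h6] at h5
        exact h5
    exact (continuousAt_const (y := (0:ℝ))).congr this.symm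
  | coe t =>
    have hopen : {q : XX × OnePoint Td | q.2 = (t : OnePoint Td)} ∈ 𝓝 (p, (t : OnePoint Td)) := by
      have ho : IsOpen ({(t : OnePoint Td)} : Set (OnePoint Td)) := by
        have := OnePoint.isOpenEmbedding_coe.isOpenMap _ (isOpen_discrete ({t} : Set Td))
        rwa [image_singleton] at this
      exact (ho.preimage continuous_snd).mem_nhds rfl
    have heq : FF a =ᶠ[𝓝 (p, (t : OnePoint Td))]
        (fun b : Bool => if a t = true ∧ b = true then (1 : ℝ) else 0) ∘
          (fun q : XX × OnePoint Td => q.1.1.1 t) := by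
      filter_upwards [hopen] with q hq
      rcases q with ⟨p', k'⟩
      have hq' : k' = (t : OnePoint Td) := hq
      subst hq'
      rfl
    have hc : Continuous ((fun b : Bool => if a t = true ∧ b = true then (1 : ℝ) else 0) ∘
          (fun q : XX × OnePoint Td => q.1.1.1 t)) :=
      continuous_of_discreteTopology.comp ((continuous_apply t).comp
        (continuous_fst.comp (continuous_subtype_val.comp continuous_fst)))
    exact hc.continuousAt.congr heq.symm

theorem FF_injective : Function.Injective FF := by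
  classical
  intro a b h
  funext t
  let p : XX := ⟨(fun s => decide (s = t), fun n => t.co n), by
    intro s hs n
    have : s = t := by simpa using hs
    rw [this]⟩
  have h1 := congrFun h (p, (t : OnePoint Td))
  have ha : ∀ c : Td → Bool, FF c (p, (t : OnePoint Td)) = if c t = true then 1 else 0 := by
    intro c
    show (if c t = true ∧ p.1.1 t = true then (1 : ℝ) else 0) = _
    have : p.1.1 t = true := by simp [p]
    simp [this]
  rw [ha a, ha b] at h1
  cases hat : a t <;> cases hbt : b t <;> simp_all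

section noneb

variable {E : Type} [NormedAddCommGroup E] [NormedSpace ℝ E]

/-- evaluation of dual elements along `g` -/
noncomputable def psi (g : AF → WeakSpace ℝ E) (L : WeakDual ℝ E) : AF → ℝ :=
  fun a => L ((toWeakSpace ℝ E).symm (g a))

theorem psi_continuous (g : AF → WeakSpace ℝ E) : Continuous (psi g) :=
  continuous_pi fun _ => WeakDual.eval_continuous _

theorem psi_apply_continuous (g : AF → WeakSpace ℝ E) (hg : Continuous g) (L : WeakDual ℝ E) :
    Continuous (psi g L) := by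
  have h := WeakBilin.eval_continuous (topDualPairing ℝ E).flip (WeakDual.toStrongDual L)
  exact h.comp hg

/-- the basic compact sets -/
noncomputable def base (g : AF → WeakSpace ℝ E) (n : ℕ) : Set (AF → ℝ) :=
  (psi g '' (WeakDual.toStrongDual ⁻¹' Metric.closedBall (0 : StrongDual ℝ E) n)) ∪
    (fun r : ℝ => fun _ : AF => r) '' Icc (-(n : ℝ)) n

/-- the compact sets -/
noncomputable def ZZ (g : AF → WeakSpace ℝ E) : ℕ → Set (AF → ℝ)
  | 0 => base g 0
  | n + 1 => ZZ g n ∪ Set.image2 (· + ·) (ZZ g n) (ZZ g n) ∪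
      Set.image2 (· * ·) (ZZ g n) (ZZ g n) ∪ base g (n + 1)

theorem base_compact (g : AF → WeakSpace ℝ E) (n : ℕ) : IsCompact (base g n) := by
  refine IsCompact.union ?_ ?_
  · exact (WeakDual.isCompact_closedBall _ _).image (psi_continuous g)
  · exact isCompact_Icc.image (continuous_pi fun _ => continuous_id)

theorem image2_compact {S T : Set (AF → ℝ)} (hS : IsCompact S) (hT : IsCompact T)
    {op : (AF → ℝ) → (AF → ℝ) → (AF → ℝ)}
    (hop : Continuous fun z : (AF → ℝ) × (AF → ℝ) => op z.1 z.2) :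
    IsCompact (Set.image2 op S T) := by
  rw [← Set.image_prod]
  exact (hS.prod hT).image hop

theorem ZZ_compact (g : AF → WeakSpace ℝ E) (n : ℕ) : IsCompact (ZZ g n) := by
  induction n with
  | zero => exact base_compact g 0
  | succ n ih =>
    exact ((ih.union (image2_compact ih ih continuous_add)).union
      (image2_compact ih ih continuous_mul)).union (base_compact g (n + 1))

theorem ZZ_continuous (g : AF → WeakSpace ℝ E) (hg : Continuous g) (n : ℕ) :
    ∀ h ∈ ZZ g n, Continuous h := by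
  have hb : ∀ n, ∀ h ∈ base g n, Continuous h := by
    rintro n h (⟨L, -, rfl⟩ | ⟨r, -, rfl⟩)
    · exact psi_apply_continuous g hg L
    · exact continuous_const
  induction n with
  | zero => exact hb 0
  | succ n ih =>
    rintro h (((h1 | ⟨h1, hh1, h2, hh2, rfl⟩) | ⟨h1, hh1, h2, hh2, rfl⟩) | h1)
    · exact ih h h1
    · exact (ih h1 hh1).add (ih h2 hh2)
    · exact (ih h1 hh1).mul (ih h2 hh2)
    · exact hb _ h h1

theorem ZZ_mono (g : AF → WeakSpace ℝ E) : Monotone (ZZ g) :=
  monotone_nat_of_le_succ fun _ _ h => Or.inl (Or.inl (Or.inl h))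

theorem base_sub_ZZ (g : AF → WeakSpace ℝ E) (n : ℕ) : base g n ⊆ ZZ g n := by
  cases n with
  | zero => exact Subset.rfl
  | succ n => exact fun h hh => Or.inr hh

/-- the dense subalgebra -/
noncomputable def SA (g : AF → WeakSpace ℝ E) : Subalgebra ℝ C(AF, ℝ) where
  carrier := {f | ∃ n, (f : AF → ℝ) ∈ ZZ g n}
  mul_mem' := by
    rintro a b ⟨n, hn⟩ ⟨m, hm⟩
    refine ⟨max n m + 1, ?_⟩
    refine Or.inl (Or.inr ⟨a, ZZ_mono g (le_max_left n m) hn, b, ZZ_mono g (le_max_right n m) hm, rfl⟩)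
  add_mem' := by
    rintro a b ⟨n, hn⟩ ⟨m, hm⟩
    refine ⟨max n m + 1, ?_⟩
    refine Or.inl (Or.inl (Or.inr ⟨a, ZZ_mono g (le_max_left n m) hn, b,
      ZZ_mono g (le_max_right n m) hm, rfl⟩))
  algebraMap_mem' := by
    intro r
    obtain ⟨n, hn⟩ := exists_nat_ge |r|
    refine ⟨n, base_sub_ZZ g n (Or.inr ⟨r, abs_le.1 hn, ?_⟩)⟩
    funext a
    rfl

theorem SA_separates (g : AF → WeakSpace ℝ E) (hg : Continuous g) (hinj : Function.Injective g) :
    (SA g).SeparatesPoints := by
  intro a b hab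
  have h1 : (toWeakSpace ℝ E).symm (g a) ≠ (toWeakSpace ℝ E).symm (g b) := by
    intro h
    exact hab (hinj ((toWeakSpace ℝ E).symm.injective h))
  obtain ⟨L, hL⟩ := SeparatingDual.exists_separating_of_ne (R := ℝ) h1
  refine ⟨psi g (StrongDual.toWeakDual L), ?_, hL⟩
  obtain ⟨n, hn⟩ := exists_nat_ge ‖L‖
  refine ⟨⟨psi g (StrongDual.toWeakDual L), psi_apply_continuous g hg _⟩, ⟨n, ?_⟩, rfl⟩
  refine base_sub_ZZ g n (Or.inl ⟨StrongDual.toWeakDual L, ?_, rfl⟩)
  rw [mem_preimage, StrongDual.toStrongDual_toWeakDual, mem_closedBall_zero_iff]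
  exact hn

/-- restriction of an infinite member -/
noncomputable def bset (s : ℕ → Td) (J : Set ℕ) : Td → Bool :=
  open Classical in fun t => decide (∃ i ∈ J, t = s i)

theorem bset_true {s : ℕ → Td} {J : Set ℕ} {t : Td} : bset s J t = true ↔ ∃ i ∈ J, t = s i := by
  simp [bset]

theorem no_infinite (g : AF → WeakSpace ℝ E) (hg : Continuous g) (z : Td → AF → ℝ) (m : ℕ)
    (s : ℕ → Td) (hs : Function.Injective s) (hsAF : ∀ J, bset s J ∈ AF)
    (hz : ∀ i, z (s i) ∈ ZZ g m)
    (hza : ∀ i, ∀ a : AF, |z (s i) a - (if (a : Td → Bool) (s i) = true then 1 else 0)| < 1 / 3) :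
    False := by
  obtain ⟨h, hh, hlim⟩ := (ZZ_compact g m).ultrafilter_le_nhds
    ((Filter.hyperfilter ℕ).map fun i => z (s i)) (by
    rw [Ultrafilter.coe_map, Filter.le_principal_iff, Filter.mem_map]
    exact Filter.univ_mem' hz)
  have hlim' : ∀ a : AF, Filter.Tendsto (fun i => z (s i) a) (Filter.hyperfilter ℕ : Filter ℕ)
      (𝓝 (h a)) := by
    intro a
    have : Filter.Tendsto (fun i => z (s i)) (Filter.hyperfilter ℕ : Filter ℕ) (𝓝 h) := hlim
    exact (tendsto_pi_nhds.1 this) a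
  let P : Set ℕ → AF := fun J => ⟨bset s J, hsAF J⟩
  have h1 : ∀ N : ℕ, h (P {i | i < N}) ≤ 1 / 3 := by
    intro N
    refine le_of_tendsto (hlim' _) ?_
    have h2 : ∀ᶠ i in (Filter.hyperfilter ℕ : Filter ℕ), i ∉ {i | i < N} :=
      Filter.hyperfilter_le_cofinite (Set.finite_lt_nat N).eventually_cofinite_notMem
    filter_upwards [h2] with i hi
    have h3 := hza i (P {i | i < N})
    have h4 : ¬ ((P {i | i < N} : Td → Bool) (s i) = true) := by
      simp only [P]
      rw [bset_true]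
      rintro ⟨j, hj, hji⟩
      rw [hs hji] at hi
      exact hi hj
    rw [if_neg h4, sub_zero, abs_lt] at h3
    exact h3.2.le
  have h2 : 2 / 3 ≤ h (P univ) := by
    refine ge_of_tendsto (hlim' _) (Filter.univ_mem' fun i => ?_)
    have h3 := hza i (P univ)
    have h4 : (P univ : Td → Bool) (s i) = true := by
      simp only [P]
      rw [bset_true]
      exact ⟨i, mem_univ _, rfl⟩
    rw [if_pos h4, abs_lt] at h3
    show 2 / 3 ≤ z (s i) (P univ)
    linarith [h3.1]
  have hconv : Filter.Tendsto (fun N : ℕ => P {i | i < N}) Filter.atTop (𝓝 (P univ)) := by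
    rw [tendsto_subtype_rng, tendsto_pi_nhds]
    intro t
    by_cases ht : ∃ i, t = s i
    · obtain ⟨i, rfl⟩ := ht
      refine tendsto_const_nhds.congr' ?_
      filter_upwards [Filter.eventually_gt_atTop i] with N hN
      simp only [P]
      rw [bset_true.2 ⟨i, mem_univ _, rfl⟩, bset_true.2 ⟨i, hN, rfl⟩]
    · have : ∀ J : Set ℕ, bset s J t = false := by
        intro J
        rw [← Bool.not_eq_true, bset_true]
        rintro ⟨i, -, h⟩
        exact ht ⟨i, h⟩
      simp only [P, this]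
      exact tendsto_const_nhds
  have h3 : h (P univ) ≤ 1 / 3 :=
    le_of_tendsto (((ZZ_continuous g hg m h hh).tendsto _).comp hconv) (Filter.univ_mem' h1)
  linarith

theorem baire (N : Td → ℕ) : ∃ (m n : ℕ) (s : ℕ → Td), (∀ v, N (s v) = m) ∧
    (∀ v, (s v).co n = v) ∧ ∀ v v', ∀ i < n, (s v).co i = (s v').co i := by
  obtain ⟨m, hm⟩ := nonempty_interior_of_iUnion_of_closed (X := ℕ → ℕ) (ι := ℕ)
    (f := fun m => closure {a : ℕ → ℕ | N a = m}) (fun m => isClosed_closure) (by
      rw [eq_univ_iff_forall]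
      intro a
      exact mem_iUnion.2 ⟨N a, subset_closure rfl⟩)
  obtain ⟨x, hx⟩ := hm
  obtain ⟨c, ⟨y, n, rfl⟩, hxy, hsub⟩ :=
    (PiNat.isTopologicalBasis_cylinders (fun _ => ℕ)).exists_subset_of_mem_open hx isOpen_interior
  refine ⟨m, n, ?_⟩
  have key : ∀ v : ℕ, ∃ a : Td, N a = m ∧ a.co n = v ∧ ∀ i < n, a.co i = y i := by
    intro v
    have h1 : Function.update y n v ∈ PiNat.cylinder (E := fun _ => ℕ) y n := by
      intro i hi
      exact Function.update_of_ne (ne_of_lt hi) _ _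
    have h2 : Function.update y n v ∈ closure {a : ℕ → ℕ | N a = m} :=
      interior_subset (hsub h1)
    obtain ⟨a, ha1, ha2⟩ := mem_closure_iff.1 h2
      (PiNat.cylinder (E := fun _ => ℕ) (Function.update y n v) (n + 1))
      (PiNat.isOpen_cylinder _ _ _) (PiNat.self_mem_cylinder _ _)
    refine ⟨a, ha2, ?_, ?_⟩
    · have := ha1 n (Nat.lt_succ_self n)
      rw [Function.update_self] at this
      exact this
    · intro i hi
      have := ha1 i (Nat.lt_succ_of_lt hi)
      rw [Function.update_of_ne (ne_of_lt hi)] at this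
      exact this
  choose s h1 h2 h3 using key
  exact ⟨s, h1, h2, fun v v' i hi => by rw [h3 v i hi, h3 v' i hi]⟩

theorem fd_eq {a b : Td} {n : ℕ} (h1 : ∀ i < n, a.co i = b.co i) (h2 : a.co n ≠ b.co n) :
    fd a b = n := by
  have hne : a ≠ b := fun h => h2 (by rw [h])
  rcases lt_trichotomy (fd a b) n with h | h | h
  · exact absurd (h1 _ h) (co_fd_ne hne)
  · exact h
  · exact absurd (PiNat.apply_eq_of_lt_firstDiff (E := fun _ => ℕ) h) h2

theorem not_eberlein (g : AF → WeakSpace ℝ E) (hg : Continuous g)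
    (hinj : Function.Injective g) : False := by
  have : CompactSpace AF := isCompact_iff_compactSpace.1 isCompact_AF
  have key : ∀ t : Td, ∃ f : C(AF, ℝ), (∃ n, (f : AF → ℝ) ∈ ZZ g n) ∧
      ∀ a : AF, |f a - (if (a : Td → Bool) t = true then 1 else 0)| < 1 / 3 := by
    intro t
    let pt : C(AF, ℝ) := ⟨fun a => if (a : Td → Bool) t = true then 1 else 0, by
      have : (fun a : AF => if (a : Td → Bool) t = true then (1 : ℝ) else 0) =
        (fun b : Bool => if b = true then (1 : ℝ) else 0) ∘ (fun a : AF => (a : Td → Bool) t) := rfl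
      rw [this]
      exact continuous_of_discreteTopology.comp
        ((continuous_apply t).comp continuous_subtype_val)⟩
    obtain ⟨f, hf⟩ := ContinuousMap.exists_mem_subalgebra_near_continuousMap_of_separatesPoints
      (SA g) (SA_separates g hg hinj) pt (1 / 3) (by norm_num)
    refine ⟨f, f.2, fun a => ?_⟩
    exact lt_of_le_of_lt (ContinuousMap.norm_coe_le_norm ((f : C(AF, ℝ)) - pt) a) hf
  choose f hf hfa using key
  choose N hN using hf
  obtain ⟨m, n, s, hs1, hs2, hs3⟩ := baire N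
  have hsinj : Function.Injective s := by
    intro v v' h
    rw [← hs2 v, ← hs2 v', h]
  refine no_infinite g hg (fun t => f t) m s hsinj ?_ ?_ ?_
  · intro J x y z w hx hy hz hw hxy hzw
    rw [bset_true] at hx hy hz hw
    obtain ⟨i1, -, rfl⟩ := hx
    obtain ⟨i2, -, rfl⟩ := hy
    obtain ⟨i3, -, rfl⟩ := hz
    obtain ⟨i4, -, rfl⟩ := hw
    have h1 : i1 ≠ i2 := fun h => hxy (by rw [h])
    have h2 : i3 ≠ i4 := fun h => hzw (by rw [h])
    rw [fd_eq (hs3 i1 i2) (by rw [hs2, hs2]; exact h1), fd_eq (hs3 i3 i4) (by rw [hs2, hs2]; exact h2)]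
  · intro i
    have := hN (s i)
    rw [hs1] at this
    exact this
  · intro i a
    exact hfa (s i) a

end noneb

theorem result :
    ¬ (∀ (X : Type) [TopologicalSpace X] [T35Space X],
      (∀ A : Set (X → ℝ), (∀ f ∈ A, Continuous f) → IsCompact A →
        ∃ (E : Type) (_ : NormedAddCommGroup E) (_ : NormedSpace ℝ E) (_ : CompleteSpace E)
          (e : A → WeakSpace ℝ E), Topology.IsEmbedding e) →
      ∀ (K : Type) [TopologicalSpace K] [CompactSpace K] [T2Space K],
        ∀ B : Set (X × K → ℝ), (∀ f ∈ B, Continuous f) → IsCompact B →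
          ∃ (E : Type) (_ : NormedAddCommGroup E) (_ : NormedSpace ℝ E) (_ : CompleteSpace E)
            (e : B → WeakSpace ℝ E), Topology.IsEmbedding e) := by
  intro H
  obtain ⟨E, i1, i2, i3, e, he⟩ := H XX hyp_XX (OnePoint Td) (FF '' AF) (by
    rintro _ ⟨a, ha, rfl⟩
    exact FF_continuous ha) (isCompact_AF.image FF_continuous_left)
  let φ : AF → (FF '' AF) := fun a => ⟨FF a, mem_image_of_mem _ a.2⟩
  have hφ : Continuous φ := (FF_continuous_left.comp continuous_subtype_val).subtype_mk _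
  have hφi : Function.Injective φ := by
    intro a b h
    exact Subtype.ext (FF_injective (congrArg Subtype.val h))
  exact not_eberlein (fun a => e (φ a)) (he.continuous.comp hφ) (he.injective.comp hφi)

end Pool.Agent.S12958
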