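import Pool.Statements.S13094

set_option autoImplicit false
open Pool Pool.MP_440a64_gt

namespace Pool.Agent.S13094

open Topology Set

/-- The sum of two completely regular spaces is completely regular. -/
theorem sumCR (A B : Type) [TopologicalSpace A] [TopologicalSpace B] [CompletelyRegularSpace A]
    [CompletelyRegularSpace B] : CompletelyRegularSpace (A ⊕ B) := by
  refine ⟨?_⟩
  intro x K hK hx
  rcases x with a | b
  · have hK' : IsClosed (Sum.inl ⁻¹' K : Set A) := hK.preimage continuous_inl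
    obtain ⟨f, hf, hfa, hfK⟩ := CompletelyRegularSpace.completely_regular a _ hK' hx
    refine ⟨Sum.elim f (fun _ => 1), hf.sumElim continuous_const, by simpa using hfa, ?_⟩
    rintro (a' | b') h
    · simpa using hfK h
    · simp
  · have hK' : IsClosed (Sum.inr ⁻¹' K : Set B) := hK.preimage continuous_inr
    obtain ⟨f, hf, hfa, hfK⟩ := CompletelyRegularSpace.completely_regular b _ hK' hx
    refine ⟨Sum.elim (fun _ => 1) f, continuous_const.sumElim hf, by simpa using hfa, ?_⟩
    rintro (a' | b') h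
    · simp
    · simpa using hfK h

/-- The discrete space of size continuum. -/
def Yd : Type := ℕ → Bool

instance : TopologicalSpace Yd := ⊥
instance : DiscreteTopology Yd := ⟨rfl⟩

/-- The discrete set of codes: all real functions on `Yd`. -/
def Lam : Type := Yd → ℝ

instance : TopologicalSpace Lam := ⊥
instance : DiscreteTopology Lam := ⟨rfl⟩

/-- The counterexample space: the one-point compactification of `Lam` plus the discrete `Yd`. -/
abbrev XX : Type := OnePoint Lam ⊕ Yd

instance : T35Space XX :=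
  { (inferInstance : T0Space XX), sumCR (OnePoint Lam) Yd with }

/-- the point of `XX` given by a code -/
def pt (l : Lam) : XX := Sum.inl (OnePoint.some l)
/-- the point at infinity -/
def pinf : XX := Sum.inl OnePoint.infty

/-- the code of a continuous function: its restriction to `Yd` -/
def code (f : C(XX, ℝ)) : Lam := fun y => f (Sum.inr y)

/-- the support -/
def supp (f : C(XX, ℝ)) : Set Lam := {l | f (pt l) ≠ f pinf}

/-- the uniformly dense set -/
def DD : Set C(XX, ℝ) := {f | code f ∈ supp f}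

theorem finite_far (f : C(XX, ℝ)) (ε : ℝ) (hε : 0 < ε) :
    {l : Lam | ε ≤ |f (pt l) - f pinf|}.Finite := by
  have hc : Continuous (fun z : OnePoint Lam => f (Sum.inl z)) := f.continuous.comp continuous_inl
  have hopen : IsOpen {z : OnePoint Lam | |f (Sum.inl z) - f pinf| < ε} := by
    have : Continuous (fun z : OnePoint Lam => |f (Sum.inl z) - f pinf|) :=
      (hc.sub continuous_const).abs
    exact this.isOpen_preimage _ isOpen_Iio
  have hmem : (OnePoint.infty : OnePoint Lam) ∈ {z : OnePoint Lam | |f (Sum.inl z) - f pinf| < ε} := by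
    show |f (Sum.inl OnePoint.infty) - f pinf| < ε
    simpa [pinf] using hε
  have := (OnePoint.isOpen_iff_of_mem hmem).1 hopen
  have hcomp := this.2
  have hfin := hcomp.finite_of_discrete
  refine hfin.subset ?_
  intro l hl
  simp only [mem_ofPred_eq] at hl
  simp only [mem_compl_iff, mem_preimage, mem_ofPred_eq, not_lt]
  exact hl

theorem countable_supp (f : C(XX, ℝ)) : (supp f).Countable := by
  have : supp f ⊆ ⋃ n : ℕ, {l : Lam | (1 / ((n : ℝ) + 1)) ≤ |f (pt l) - f pinf|} := by
    intro l hl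
    have h0 : 0 < |f (pt l) - f pinf| := abs_pos.2 (sub_ne_zero.2 hl)
    obtain ⟨n, hn⟩ := exists_nat_one_div_lt h0
    exact mem_iUnion.2 ⟨n, hn.le⟩
  refine Countable.mono this ?_
  exact countable_iUnion fun n => (finite_far f _ (by positivity)).countable

/-- The union of supports. -/
def CC (A : Set C(XX, ℝ)) : Set Lam := ⋃ a ∈ A, supp a

theorem CC_countable {A : Set C(XX, ℝ)} (hA : A.Countable) : (CC A).Countable :=
  hA.biUnion fun a _ => countable_supp a

theorem CC_mono {A B : Set C(XX, ℝ)} (h : A ⊆ B) : CC A ⊆ CC B :=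
  biUnion_subset_biUnion_left h

/-- basic sets of the network -/
def box (k : ℕ) (q : ℚ) (w : Lam →₀ ℚ) (g : Lam) : Set C(XX, ℝ) :=
  {d | d ∈ DD ∧ code d = g ∧ |d pinf - q| ≤ 1 / ((k : ℝ) + 1) ∧
    ∀ l : Lam, |d (pt l) - (q + w l)| ≤ 1 / ((k : ℝ) + 1)}

/-- the network operator -/
def NN (A : Set C(XX, ℝ)) : Set (Set C(XX, ℝ)) :=
  {n | ∃ (k : ℕ) (q : ℚ) (w : Lam →₀ ℚ) (g : Lam), g ∈ CC A ∧ (w.support : Set Lam) ⊆ CC A ∧
    n = box k q w g}

theorem countable_finsupp {C : Set Lam} (hC : C.Countable) :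
    {w : Lam →₀ ℚ | (w.support : Set Lam) ⊆ C}.Countable := by
  have : Countable C := hC.to_subtype
  have : {w : Lam →₀ ℚ | (w.support : Set Lam) ⊆ C} ⊆
      range (fun v : C →₀ ℚ => v.mapDomain (Subtype.val : C → Lam)) := by
    intro w hw
    have hw' : (w.support : Set Lam) ⊆ range (Subtype.val : C → Lam) := by
      intro x hx
      exact ⟨⟨x, hw hx⟩, rfl⟩
    obtain ⟨v, hv⟩ := (Finsupp.mem_range_mapDomain_iff (Subtype.val : C → Lam)
      Subtype.val_injective w).2 (by
        intro b hb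
        by_contra hne
        exact hb (hw' (by simpa using hne)))
    exact ⟨v, hv⟩
  exact (countable_range _).mono this

theorem NN_countable {A : Set C(XX, ℝ)} (hA : A.Countable) : (NN A).Countable := by
  have hC := CC_countable hA
  have h1 := countable_finsupp hC
  have : NN A ⊆ (fun p : (ℕ × ℚ) × ((Lam →₀ ℚ) × Lam) => box p.1.1 p.1.2 p.2.1 p.2.2) ''
      ((univ : Set (ℕ × ℚ)) ×ˢ ({w : Lam →₀ ℚ | (w.support : Set Lam) ⊆ CC A} ×ˢ CC A)) := by
    rintro n ⟨k, q, w, g, hg, hw, rfl⟩
    exact ⟨((k, q), (w, g)), ⟨mem_univ _, hw, hg⟩, rfl⟩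
  exact ((countable_univ.prod (h1.prod hC)).image _).mono this

/-- the bump function at a code -/
noncomputable def bump (l : Lam) : C(XX, ℝ) where
  toFun := ({pt l} : Set XX).indicator (fun _ => (1 : ℝ))
  continuous_toFun := by
    have hcl : IsClopen ({pt l} : Set XX) := by
      refine ⟨isClosed_singleton, ?_⟩
      have : ({pt l} : Set XX) = Sum.inl '' (OnePoint.some '' ({l} : Set Lam)) := by
        simp [pt]
      rw [this]
      exact isOpenMap_inl _ (OnePoint.isOpen_image_coe.2 (isOpen_discrete _))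
    exact (continuous_const.indicator (fun x hx => by
      rw [hcl.frontier_eq] at hx; exact absurd hx (notMem_empty x)))

theorem bump_self (l : Lam) : bump l (pt l) = 1 := by
  simp [bump]

theorem bump_pinf (l : Lam) : bump l pinf = 0 := by
  simp [bump, pt, pinf]

theorem bump_inr (l : Lam) (y : Yd) : bump l (Sum.inr y) = 0 := by
  simp [bump, pt]

theorem bump_le (l : Lam) (x : XX) : |bump l x| ≤ 1 := by
  by_cases h : x = pt l
  · simp [bump, h]
  · simp [bump, h]

theorem dense (f : C(XX, ℝ)) (ε : ℝ) (hε : 0 < ε) : ∃ g ∈ DD, ∀ x : XX, |f x - g x| < ε := by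
  by_cases hf : f ∈ DD
  · exact ⟨f, hf, fun x => by simpa using hε⟩
  · have hf' : f (pt (code f)) = f pinf := by
      by_contra h
      exact hf h
    refine ⟨f + (ε / 2) • bump (code f), ?_, ?_⟩
    · have hc : code (f + (ε / 2) • bump (code f)) = code f := by
        funext y
        simp [code, bump_inr]
      show code (f + (ε / 2) • bump (code f)) ∈ supp (f + (ε / 2) • bump (code f))
      rw [hc]
      show (f + (ε / 2) • bump (code f)) (pt (code f)) ≠ (f + (ε / 2) • bump (code f)) pinf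
      simp only [ContinuousMap.add_apply, ContinuousMap.smul_apply, bump_self, bump_pinf, hf',
        smul_eq_mul, mul_one, mul_zero, add_zero]
      intro h
      linarith
    · intro x
      have h1 : f x - (f + (ε / 2) • bump (code f)) x = - ((ε / 2) * bump (code f) x) := by
        simp [ContinuousMap.add_apply, ContinuousMap.smul_apply, smul_eq_mul]
      rw [h1, abs_neg, abs_mul, abs_of_pos (by linarith : (0 : ℝ) < ε / 2)]
      have := bump_le (code f) x
      nlinarith [abs_nonneg (bump (code f) x)]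

theorem closure_apply_eq {A : Set C(XX, ℝ)} {y : C(XX, ℝ)}
    (hy : y ∈ @closure _ (TopologicalSpace.induced (fun f : C(XX, ℝ) => (⇑f : XX → ℝ)) inferInstance) A)
    (x x' : XX) (h : ∀ a ∈ A, a x = a x') : y x = y x' := by
  rw [closure_induced] at hy
  have hcl : IsClosed {f : XX → ℝ | f x = f x'} :=
    isClosed_eq (continuous_apply x) (continuous_apply x')
  have hsub : ((fun f : C(XX, ℝ) => (⇑f : XX → ℝ)) '' A) ⊆ {f : XX → ℝ | f x = f x'} := by
    rintro _ ⟨a, ha, rfl⟩
    exact h a ha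
  exact closure_minimal hsub hcl hy

theorem supp_subset {A : Set C(XX, ℝ)} {y : C(XX, ℝ)}
    (hy : y ∈ @closure _ (TopologicalSpace.induced (fun f : C(XX, ℝ) => (⇑f : XX → ℝ)) inferInstance) A) :
    supp y ⊆ CC A := by
  intro l hl
  by_contra hl'
  apply hl
  refine closure_apply_eq hy _ _ ?_
  intro a ha
  by_contra h
  exact hl' (mem_biUnion ha h)

theorem open_basic {U : Set C(XX, ℝ)}
    (hU : @IsOpen _ (TopologicalSpace.induced (fun f : C(XX, ℝ) => (⇑f : XX → ℝ)) inferInstance) U)
    {y : C(XX, ℝ)} (hy : y ∈ U) :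
    ∃ (ε : ℝ), 0 < ε ∧ ∀ d : C(XX, ℝ), (∀ x, |d x - y x| < ε) → d ∈ U := by
  obtain ⟨t, ht, rfl⟩ := isOpen_induced_iff.1 hU
  obtain ⟨I, u, hu, hsub⟩ := isOpen_pi_iff.1 ht _ hy
  have hex : ∀ x : XX, ∃ ε : ℝ, 0 < ε ∧ (x ∈ I → ∀ r : ℝ, |r - y x| < ε → r ∈ u x) := by
    intro x
    by_cases hx : x ∈ I
    · obtain ⟨ho, hmem⟩ := hu x hx
      obtain ⟨ε, hε, hb⟩ := Metric.isOpen_iff.1 ho _ hmem
      exact ⟨ε, hε, fun _ r hr => hb (by simpa [Real.dist_eq] using hr)⟩
    · exact ⟨1, one_pos, fun h => absurd h hx⟩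
  choose e he hee using hex
  obtain ⟨ε, hε, hmin⟩ : ∃ ε : ℝ, 0 < ε ∧ ∀ x ∈ I, ε ≤ e x := by
    rcases I.eq_empty_or_nonempty with hI | hI
    · exact ⟨1, one_pos, by simp [hI]⟩
    · exact ⟨I.inf' hI e, (Finset.lt_inf'_iff hI).2 fun x _ => he x,
        fun x hx => Finset.inf'_le _ hx⟩
  refine ⟨ε, hε, fun d hd => hsub ?_⟩
  intro x hx
  exact hee x hx _ (lt_of_lt_of_le (hd x) (hmin x hx))

theorem network {A : Set C(XX, ℝ)} {y : C(XX, ℝ)} (hyD : y ∈ DD)
    (hy : y ∈ @closure _ (TopologicalSpace.induced (fun f : C(XX, ℝ) => (⇑f : XX → ℝ)) inferInstance) A)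
    {U : Set C(XX, ℝ)}
    (hU : @IsOpen _ (TopologicalSpace.induced (fun f : C(XX, ℝ) => (⇑f : XX → ℝ)) inferInstance) U)
    (hyU : y ∈ U) : ∃ n ∈ NN A, y ∈ n ∧ n ⊆ U := by
  classical
  obtain ⟨ε, hε, hd⟩ := open_basic hU hyU
  have hs := supp_subset hy
  obtain ⟨k, hk⟩ := exists_nat_one_div_lt (by positivity : 0 < ε / 2)
  set δ : ℝ := 1 / ((k : ℝ) + 1) with hδ
  have hδ0 : 0 < δ := by positivity
  obtain ⟨q, hq⟩ : ∃ q : ℚ, |y pinf - q| < δ / 2 := by
    obtain ⟨q, h1, h2⟩ := exists_rat_btwn (show y pinf - δ / 2 < y pinf + δ / 2 by linarith)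
    exact ⟨q, by rw [abs_lt]; constructor <;> linarith⟩
  have hfin := finite_far y (δ / 2) (by positivity)
  have hr : ∀ l : Lam, ∃ r : ℚ, |y (pt l) - q - r| < δ := by
    intro l
    obtain ⟨r, h1, h2⟩ := exists_rat_btwn
      (show y (pt l) - q - δ < y (pt l) - q + δ by linarith)
    exact ⟨r, by rw [abs_lt]; constructor <;> linarith⟩
  choose r hr using hr
  let w : Lam →₀ ℚ := Finsupp.onFinset hfin.toFinset
    (fun l => if l ∈ hfin.toFinset then r l else 0) (by
      intro a ha
      by_contra h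
      simp [h] at ha)
  have hwsupp : (w.support : Set Lam) ⊆ CC A := by
    intro l hl
    have h1 : l ∈ hfin.toFinset := Finsupp.support_onFinset_subset hl
    rw [Set.Finite.mem_toFinset] at h1
    apply hs
    intro h
    have : (0 : ℝ) < |y (pt l) - y pinf| := lt_of_lt_of_le (by positivity) h1
    rw [h] at this
    simp at this
  have hbound : ∀ l : Lam, |y (pt l) - (q + w l)| ≤ δ := by
    intro l
    by_cases hl : l ∈ hfin.toFinset
    · have : w l = r l := if_pos hl
      rw [this]
      have := hr l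
      rw [show y (pt l) - (q + r l) = y (pt l) - q - r l by ring]
      exact this.le
    · have h0 : w l = 0 := if_neg hl
      rw [h0]
      have h1 : |y (pt l) - y pinf| < δ / 2 := by
        rw [Set.Finite.mem_toFinset] at hl
        exact not_le.1 hl
      have h2 : y (pt l) - (q + ((0 : ℚ) : ℝ)) = (y (pt l) - y pinf) + (y pinf - q) := by
        push_cast; ring
      rw [h2]
      refine (abs_add_le _ _).trans ?_
      linarith
  refine ⟨box k q w (code y), ⟨k, q, w, code y, hs hyD, hwsupp, rfl⟩, ?_, ?_⟩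
  · exact ⟨hyD, rfl, by rw [← hδ]; linarith, hbound⟩
  · rintro d ⟨hdD, hdc, hdi, hdl⟩
    apply hd
    intro x
    rcases x with z | t
    · induction z using OnePoint.rec with
      | infty =>
        have h3 : d pinf - y pinf = (d pinf - q) - (y pinf - q) := by ring
        show |d pinf - y pinf| < ε
        rw [h3]
        refine (abs_sub _ _).trans_lt ?_
        rw [← hδ] at hdi
        linarith
      | coe l =>
        have h3 : d (pt l) - y (pt l) = (d (pt l) - (q + w l)) - (y (pt l) - (q + w l)) := by ring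
        show |d (pt l) - y (pt l)| < ε
        rw [h3]
        refine (abs_sub _ _).trans_lt ?_
        have h4 := hdl l
        have h5 := hbound l
        rw [← hδ] at h4
        linarith
    · have h3 : d (Sum.inr t) = y (Sum.inr t) := congrFun hdc t
      rw [h3]
      simpa using hε

theorem NN_mono {A B : Set C(XX, ℝ)} (h : A ⊆ B) : NN A ⊆ NN B := by
  rintro n ⟨k, q, w, g, hg, hw, rfl⟩
  exact ⟨k, q, w, g, CC_mono h hg, hw.trans (CC_mono h), rfl⟩

theorem CC_iUnion (A : ℕ → Set C(XX, ℝ)) : CC (⋃ k, A k) = ⋃ k, CC (A k) := by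
  ext l
  simp only [CC, mem_iUnion, exists_prop]
  constructor
  · rintro ⟨a, ⟨k, hk⟩, hl⟩
    exact ⟨k, a, hk, hl⟩
  · rintro ⟨k, a, hk, hl⟩
    exact ⟨a, ⟨k, hk⟩, hl⟩

theorem finite_subset_of_monotone {F : Set Lam} (hF : F.Finite)
    {B : ℕ → Set Lam} (hB : Monotone B) (h : F ⊆ ⋃ k, B k) : ∃ i, F ⊆ B i := by
  obtain ⟨i, hi⟩ := Directed.exists_mem_subset_of_finset_subset_biUnion (f := B)
    hB.directed_le (s := hF.toFinset) (by rwa [Finite.coe_toFinset])
  exact ⟨i, by rwa [Finite.coe_toFinset] at hi⟩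

theorem NN_iUnion (A : ℕ → Set C(XX, ℝ)) (hA : Monotone A) : NN (⋃ k, A k) = ⋃ k, NN (A k) := by
  apply Subset.antisymm
  · rintro n ⟨k, q, w, g, hg, hw, rfl⟩
    rw [CC_iUnion] at hg hw
    have hmono : Monotone fun k => CC (A k) := fun i j hij => CC_mono (hA hij)
    have hfin : ((w.support : Set Lam) ∪ {g}).Finite :=
      w.support.finite_toSet.union (finite_singleton g)
    have hsub : ((w.support : Set Lam) ∪ {g}) ⊆ ⋃ k, CC (A k) := by
      apply union_subset hw
      rintro x rfl
      exact hg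
    obtain ⟨i, hi'⟩ := finite_subset_of_monotone hfin hmono hsub
    exact mem_iUnion.2 ⟨i, k, q, w, g, hi' (Or.inr rfl), fun x hx => hi' (Or.inl hx), rfl⟩
  · exact iUnion_subset fun k => NN_mono (subset_iUnion A k)

/-- the cylinder functions -/
noncomputable def cyl (n : ℕ) (s : Fin n → Bool) : C(XX, ℝ) where
  toFun := Sum.elim (fun _ => 0) (fun u : Yd => if ∀ i : Fin n, (u : ℕ → Bool) i = s i then 1 else 0)
  continuous_toFun := continuous_const.sumElim continuous_of_discreteTopology

/-- the point functions -/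
noncomputable def chi (t : Yd) : C(XX, ℝ) where
  toFun := Sum.elim (fun _ => 0) (fun u : Yd => open Classical in if u = t then 1 else 0)
  continuous_toFun := continuous_const.sumElim continuous_of_discreteTopology

/-- the countable set of cylinder functions -/
def AA : Set C(XX, ℝ) := range (fun p : (n : ℕ) × (Fin n → Bool) => cyl p.1 p.2)

theorem AA_countable : AA.Countable := countable_range _

theorem chi_mem (t : Yd) :
    chi t ∈ @closure _ (TopologicalSpace.induced (fun f : C(XX, ℝ) => (⇑f : XX → ℝ)) inferInstance) AA := by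
  rw [closure_induced]
  refine mem_closure_of_tendsto (b := Filter.atTop)
    (f := fun n : ℕ => ((cyl n (fun i => (t : ℕ → Bool) i) : C(XX, ℝ)) : XX → ℝ)) ?_ ?_
  · rw [tendsto_pi_nhds]
    intro x
    rcases x with z | u
    · exact tendsto_const_nhds
    · by_cases h : u = t
      · subst h
        have : ∀ n : ℕ, (cyl n (fun i => (u : ℕ → Bool) i)) (Sum.inr u) = 1 := by
          intro n
          simp [cyl]
        have h2 : (chi u) (Sum.inr u) = 1 := by simp [chi]
        simp only [this]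
        rw [h2]
        exact tendsto_const_nhds
      · obtain ⟨m, hm⟩ : ∃ m : ℕ, (u : ℕ → Bool) m ≠ (t : ℕ → Bool) m := by
          by_contra hcon
          push Not at hcon
          exact h (funext hcon)
        have h2 : (chi t) (Sum.inr u) = 0 := by simp [chi, h]
        rw [h2]
        refine tendsto_const_nhds.congr' ?_
        filter_upwards [Filter.eventually_gt_atTop m] with n hn
        have : ¬ ∀ i : Fin n, (u : ℕ → Bool) i = (t : ℕ → Bool) i := fun hall => hm (hall ⟨m, hn⟩)
        simp [cyl, this]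
  · exact Filter.Eventually.of_forall fun n => ⟨_, ⟨⟨n, _⟩, rfl⟩, rfl⟩

theorem mk_seq : Cardinal.mk (ℕ → Bool) = Cardinal.continuum := by simp

theorem isOpen_half (t : Yd) :
    @IsOpen _ (TopologicalSpace.induced (fun f : C(XX, ℝ) => (⇑f : XX → ℝ)) inferInstance)
      {f : C(XX, ℝ) | 1 / 2 < f (Sum.inr t)} := by
  refine isOpen_induced_iff.2 ⟨{f : XX → ℝ | 1 / 2 < f (Sum.inr t)}, ?_, rfl⟩
  exact (isOpen_Ioi).preimage (continuous_apply (Sum.inr t))

theorem result :
    ¬ (∀ (X : Type) [TopologicalSpace X] [T35Space X] (D : Set C(X, ℝ)),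
      (∀ f : C(X, ℝ), ∀ ε : ℝ, 0 < ε → ∃ g ∈ D, ∀ x : X, |f x - g x| < ε) →
      (∃ N : Set C(X, ℝ) → Set (Set C(X, ℝ)),
        (∀ A : Set C(X, ℝ), A ⊆ D → A.Countable →
          (N A).Countable ∧ (∀ n ∈ N A, n ⊆ D) ∧
          ∀ y ∈ D,
            y ∈ @closure _ (TopologicalSpace.induced (fun f : C(X, ℝ) => (⇑f : X → ℝ)) inferInstance) A →
            ∀ U : Set C(X, ℝ),
              @IsOpen _ (TopologicalSpace.induced (fun f : C(X, ℝ) => (⇑f : X → ℝ)) inferInstance) U →
              y ∈ U → ∃ n ∈ N A, y ∈ n ∧ n ⊆ U) ∧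
        (∀ A B : Set C(X, ℝ), A ⊆ B → B ⊆ D → B.Countable → N A ⊆ N B) ∧
        (∀ A : ℕ → Set C(X, ℝ), Monotone A → (∀ k, A k ⊆ D ∧ (A k).Countable) →
          N (⋃ k, A k) = ⋃ k, N (A k))) →
      (∃ N : Set C(X, ℝ) → Set (Set C(X, ℝ)),
        (∀ A : Set C(X, ℝ), A.Countable →
          (N A).Countable ∧
          ∀ y : C(X, ℝ),
            y ∈ @closure _ (TopologicalSpace.induced (fun f : C(X, ℝ) => (⇑f : X → ℝ)) inferInstance) A →
            ∀ U : Set C(X, ℝ),
              @IsOpen _ (TopologicalSpace.induced (fun f : C(X, ℝ) => (⇑f : X → ℝ)) inferInstance) U →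
              y ∈ U → ∃ n ∈ N A, y ∈ n ∧ n ⊆ U) ∧
        (∀ A B : Set C(X, ℝ), A ⊆ B → B.Countable → N A ⊆ N B) ∧
        (∀ A : ℕ → Set C(X, ℝ), Monotone A → (∀ k, (A k).Countable) →
          N (⋃ k, A k) = ⋃ k, N (A k)))) := by
  intro H
  obtain ⟨N, hN1, -, -⟩ := H XX DD dense ⟨NN, fun A hAD hA => ⟨NN_countable hA, by
      rintro n ⟨k, q, w, g, hg, hw, rfl⟩ d hd
      exact hd.1, fun y hyD hy U hU hyU => network hyD hy hU hyU⟩,
    fun A B h _ _ => NN_mono h, fun A hA _ => NN_iUnion A hA⟩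
  obtain ⟨hcount, hnet⟩ := hN1 AA AA_countable
  have hch : ∀ t : Yd, ∃ n ∈ N AA, chi t ∈ n ∧ n ⊆ {f : C(XX, ℝ) | 1 / 2 < f (Sum.inr t)} := by
    intro t
    refine hnet (chi t) (chi_mem t) _ (isOpen_half t) ?_
    show (1 : ℝ) / 2 < chi t (Sum.inr t)
    simp [chi]
    norm_num
  choose n hn hmem hsub using hch
  have hinj : Function.Injective n := by
    intro s t hst
    by_contra hne
    have h1 : chi s ∈ n t := hst ▸ hmem s
    have h2 := hsub t h1
    have h3 : (1 : ℝ) / 2 < chi s (Sum.inr t) := h2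
    have h4 : chi s (Sum.inr t) = 0 := by simp [chi, Ne.symm hne]
    rw [h4] at h3
    norm_num at h3
  have hY : Countable Yd := by
    have : Countable (N AA) := hcount.to_subtype
    exact Function.Injective.countable (f := fun t : Yd => (⟨n t, hn t⟩ : N AA))
      (fun s t h => hinj (congrArg Subtype.val h))
  have h1 : Countable (ℕ → Bool) := hY
  have h2 := Cardinal.mk_le_aleph0_iff.2 h1
  rw [mk_seq] at h2
  exact absurd h2 (not_le.2 Cardinal.aleph0_lt_continuum)

end Pool.Agent.S13094
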