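import Pool.Statements.S13291
import Pool.Agent.Lib.MP_653fdd_gt.Golden

set_option autoImplicit false
open Pool Pool.MP_653fdd_gt

namespace Pool.Agent.S13291

/-- Every compact convex plane set with nonempty interior has an interior point x such that every line through x splits the boundary into two arcs whose lengths have ratio strictly less than the golden ratio (√5+1)/2. -/
theorem result :
    ∀ K : Set (EuclideanSpace ℝ (Fin 2)), Convex ℝ K → IsCompact K → (interior K).Nonempty →
      ∃ x ∈ interior K, ∀ v : EuclideanSpace ℝ (Fin 2), v ≠ 0 →
        MeasureTheory.Measure.hausdorffMeasure 1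
            (frontier K ∩ {y : EuclideanSpace ℝ (Fin 2) | 0 ≤ inner ℝ (y - x) v}) <
          ENNReal.ofReal ((Real.sqrt 5 + 1) / 2) *
            MeasureTheory.Measure.hausdorffMeasure 1
              (frontier K ∩ {y : EuclideanSpace ℝ (Fin 2) | inner ℝ (y - x) v ≤ 0}) := by
  intro K hK hKc hint
  exact Pool.MP_653fdd_gt.Lib.golden K hK hKc hint

end Pool.Agent.S13291
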