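import Pool.Statements.S13486
import Pool.Agent.Lib.MP_85963d_gt.H92.Main

set_option autoImplicit false
open Pool Pool.MP_85963d_gt

namespace Pool.Agent.S13486

/-- The negation of the preceding statement: If two origin-symmetric convex bodies in 3-space are such that, for every nonzero direction e, their sections by the plane through the origin orthogonal to e have equal perimeter (length of the relative boundary), then the two bodies are equal. -/
theorem result :
    ¬ (∀ K₁ K₂ : Set (EuclideanSpace ℝ (Fin 3)),
      IsCompact K₁ → Convex ℝ K₁ → (interior K₁).Nonempty → (∀ x ∈ K₁, -x ∈ K₁) →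
      IsCompact K₂ → Convex ℝ K₂ → (interior K₂).Nonempty → (∀ x ∈ K₂, -x ∈ K₂) →
      (∀ e : EuclideanSpace ℝ (Fin 3), e ≠ 0 →
        MeasureTheory.Measure.hausdorffMeasure (1 : ℝ)
            (intrinsicFrontier ℝ (K₁ ∩ {x : EuclideanSpace ℝ (Fin 3) | inner ℝ x e = (0 : ℝ)})) =
          MeasureTheory.Measure.hausdorffMeasure (1 : ℝ)
            (intrinsicFrontier ℝ (K₂ ∩ {x : EuclideanSpace ℝ (Fin 3) | inner ℝ x e = (0 : ℝ)}))) →
      K₁ = K₂) :=
  Pool.Agent.MP85963d.nonUniqueness

end Pool.Agent.S13486
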