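import Pool.Statements.S14732
import Pool.Agent.Lib.MP_571595_lc.MORT.H15.Mob
import Pool.Agent.Lib.MP_571595_lc.MORT.H15.Two
import Pool.Agent.Lib.MP_571595_lc.MORT.H63.Sys
import Pool.Agent.Lib.MP_571595_lc.MORT.H12.Junc
import Pool.Agent.Lib.MP_571595_lc.MORT.H12.Hit
import Pool.Agent.Lib.MP_571595_lc.MORT.H21.Norm
import Pool.Agent.Lib.MP_571595_lc.MORT.H21.Comp
import Pool.Agent.Lib.MP_571595_lc.MORT.H21.Final
import Pool.Agent.Lib.MP_571595_lc.MORT.H65.Level
import Pool.Agent.Lib.MP_571595_lc.MORT.H65.Run
import Pool.Agent.Lib.MP_571595_lc.MORT.H82.Dec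
import Pool.Agent.Lib.MP_571595_lc.MORT.H27.Data
import Pool.Agent.Lib.MP_571595_lc.MORT.H36.Mach
import Pool.Agent.Lib.MP_571595_lc.MORT.H41.Mortal
import Pool.Agent.Lib.MP_571595_lc.MORT.H41.Red

set_option autoImplicit false
open Pool Pool.MP_571595_lc

namespace Pool.Agent.S14732

open Pool.Agent.Lib.MP_571595_lc.MORT in
/-- All modules put together. -/
theorem mortality_undecidable : FinalStatement := by
  have mob : MobStatement := H15.mob
  have nr : NormStatement ∧ RecStatement := H21.norm mob (H63.sys mob) (H12.junc mob)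
  have dec : DecStatement := H82.dec nr.1 H65.level
  have run : RunStatement := H65.run nr.1 nr.2
  have hit : HitStatement := @H12.hit mob nr.1 dec run (H15.Two.two mob)
  exact H21.final hit H27.data H36.mach H41.red H21.comp

/-- The negation of the preceding statement: It is computably decidable, given a finite list of 2x2 integer matrices, whether some nonempty product of matrices from the list (repetitions allowed, any order) equals the zero matrix. -/
theorem result :
    ¬ (ComputablePred (fun L : List (ℤ × ℤ × ℤ × ℤ) =>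
      ∃ w : List (ℤ × ℤ × ℤ × ℤ), w ≠ [] ∧ (∀ x ∈ w, x ∈ L) ∧
        (w.map (fun x : ℤ × ℤ × ℤ × ℤ =>
          !![x.1, x.2.1; x.2.2.1, x.2.2.2])).prod = (0 : Matrix (Fin 2) (Fin 2) ℤ))) := by
  exact mortality_undecidable

end Pool.Agent.S14732
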