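import Pool.Statements.S14755
import Pool.Agent.Lib.MP_5d599c_lc.Fourier

set_option autoImplicit false
open Pool Pool.MP_5d599c_lc

namespace Pool.Agent.S14755

/-- Some finite abelian group Y with at least 2 elements and some polynomial p positive on positive integers make this true: for finite distributions of unit-norm degree-≤d functions on Y^N with average influences ≤1/p(d), some f, g in the supports have f·g not identically zero. -/
theorem result :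
  ∃ (Y : Type) (_ : AddCommGroup Y) (_ : Fintype Y), 2 ≤ Fintype.card Y ∧
  ∃ p : Polynomial ℝ, (∀ n : ℕ, 1 ≤ n → 0 < p.eval (n : ℝ)) ∧
  ∀ d N : ℕ, 1 ≤ d → 1 ≤ N →
  ∀ (m₁ m₂ : ℕ) (f : Fin m₁ → (Fin N → Y) → ℂ) (u : Fin m₁ → ℝ)
    (g : Fin m₂ → (Fin N → Y) → ℂ) (v : Fin m₂ → ℝ),
    (∀ k, 0 < u k) → ∑ k, u k = 1 → (∀ k, 0 < v k) → ∑ k, v k = 1 →
    (∀ h ∈ Set.range f ∪ Set.range g,
        (∑ x, ‖h x‖ ^ 2) / (Fintype.card Y : ℝ) ^ N = 1 ∧
        ∀ χ : Fin N → AddChar Y ℂ, d < {i | χ i ≠ 1}.ncard →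
          (∑ x, h x * star (∏ i, χ i (x i))) = 0) →
    (∀ i : Fin N,
        ∑ k, u k * (∑ᶠ (χ : Fin N → AddChar Y ℂ) (_ : χ i ≠ 1),
          ‖(∑ x, f k x * star (∏ j, χ j (x j))) / (Fintype.card Y : ℂ) ^ N‖ ^ 2)
          ≤ 1 / p.eval (d : ℝ)) →
    (∀ i : Fin N,
        ∑ k, v k * (∑ᶠ (χ : Fin N → AddChar Y ℂ) (_ : χ i ≠ 1),
          ‖(∑ x, g k x * star (∏ j, χ j (x j))) / (Fintype.card Y : ℂ) ^ N‖ ^ 2)
          ≤ 1 / p.eval (d : ℝ)) →
    ∃ k l x, f k x * g l x ≠ 0 := by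
  classical
  refine ⟨ZMod 2, inferInstance, inferInstance, by simp, Polynomial.C 1024 * Polynomial.X ^ 8, ?_, ?_⟩
  · intro n hn
    have hn' : (1 : ℝ) ≤ n := by exact_mod_cast hn
    simp only [Polynomial.eval_mul, Polynomial.eval_C, Polynomial.eval_pow, Polynomial.eval_X]
    positivity
  · intro d N hd hN m₁ m₂ f u g v hu hu1 hv hv1 hfg hfi hgi
    have hcard : (Fintype.card (Fin N → ZMod 2) : ℝ) = (Fintype.card (ZMod 2) : ℝ) ^ N := by
      rw [Fintype.card_fun]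
      simp
    have hnorm : ∀ h ∈ Set.range f ∪ Set.range g,
        Pool.Agent.Lib.MP_5d599c_lc.avg (fun x => ‖h x‖ ^ 2) = 1 := by
      intro h hh
      unfold Pool.Agent.Lib.MP_5d599c_lc.avg
      rw [hcard]
      exact (hfg h hh).1
    have hlow : ∀ h ∈ Set.range f ∪ Set.range g, Pool.Agent.Lib.MP_5d599c_lc.LowDeg (d + 1) h := by
      intro h hh
      exact Pool.Agent.Lib.MP_5d599c_lc.lowDeg_of_fourier h (hfg h hh).2
    have hinf : ∀ (h : (Fin N → ZMod 2) → ℂ) (i : Fin N),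
        (∑ᶠ (χ : Fin N → AddChar (ZMod 2) ℂ) (_ : χ i ≠ 1),
          ‖(∑ x, h x * star (∏ j, χ j (x j))) / (Fintype.card (ZMod 2) : ℂ) ^ N‖ ^ 2) =
        (1 / 4) * Pool.Agent.Lib.MP_5d599c_lc.avg (fun x => ‖h x -
          h (Pool.Agent.Lib.MP_5d599c_lc.fl x {i})‖ ^ 2) := by
      intro h i
      rw [← Pool.Agent.Lib.MP_5d599c_lc.influence_eq h i]
      simp [Pool.Agent.Lib.MP_5d599c_lc.fc, Pool.Agent.Lib.MP_5d599c_lc.ch]
    have hp : (Polynomial.C (1024 : ℝ) * Polynomial.X ^ 8).eval (d : ℝ) = 1024 * (d : ℝ) ^ 8 := by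
      simp
    refine Pool.Agent.Lib.MP_5d599c_lc.compat_core hd f u g v hu hu1 hv hv1
      (fun k => hnorm (f k) (Or.inl ⟨k, rfl⟩)) (fun k => hnorm (g k) (Or.inr ⟨k, rfl⟩))
      (fun k => hlow (f k) (Or.inl ⟨k, rfl⟩)) (fun k => hlow (g k) (Or.inr ⟨k, rfl⟩)) ?_ ?_
    · intro i
      have h1 := hfi i
      rw [hp] at h1
      simp only [hinf] at h1
      have h2 : ∑ k, u k * ((1 / 4) * Pool.Agent.Lib.MP_5d599c_lc.avg (fun x => ‖f k x -
          f k (Pool.Agent.Lib.MP_5d599c_lc.fl x {i})‖ ^ 2)) =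
          (1 / 4) * ∑ k, u k * Pool.Agent.Lib.MP_5d599c_lc.avg (fun x => ‖f k x -
          f k (Pool.Agent.Lib.MP_5d599c_lc.fl x {i})‖ ^ 2) := by
        rw [Finset.mul_sum]
        refine Finset.sum_congr rfl (fun k _ => ?_)
        ring
      rw [h2] at h1
      linarith
    · intro i
      have h1 := hgi i
      rw [hp] at h1
      simp only [hinf] at h1
      have h2 : ∑ k, v k * ((1 / 4) * Pool.Agent.Lib.MP_5d599c_lc.avg (fun x => ‖g k x -
          g k (Pool.Agent.Lib.MP_5d599c_lc.fl x {i})‖ ^ 2)) =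
          (1 / 4) * ∑ k, v k * Pool.Agent.Lib.MP_5d599c_lc.avg (fun x => ‖g k x -
          g k (Pool.Agent.Lib.MP_5d599c_lc.fl x {i})‖ ^ 2) := by
        rw [Finset.mul_sum]
        refine Finset.sum_congr rfl (fun k _ => ?_)
        ring
      rw [h2] at h1
      linarith

end Pool.Agent.S14755
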