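import Pool.Statements.S14912
import Pool.Agent.Lib.MP_75b31c_lc.N40.H40.All

set_option autoImplicit false
open Pool Pool.MP_75b31c_lc

namespace Pool.Agent.S14912

/-- The negation of the preceding statement: Every countable Borel equivalence relation on a standard Borel space Borel-reduces to Turing equivalence on binary sequences, i.e. Turing equivalence is a universal countable Borel equivalence relation. -/
theorem result :
    ¬ (∀ (Y : Type) [MeasurableSpace Y] [StandardBorelSpace Y] (F : Y → Y → Prop),
      Equivalence F →
      MeasurableSet {p : Y × Y | F p.1 p.2} →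
      (∀ y : Y, Set.Countable {z : Y | F y z}) →
      ∃ f : Y → (ℕ → Bool), Measurable f ∧
        ∀ y y' : Y, F y y' ↔
          (TuringReducible (fun n => Part.some ((f y) n).toNat)
              (fun n => Part.some ((f y') n).toNat) ∧
            TuringReducible (fun n => Part.some ((f y') n).toNat)
              (fun n => Part.some ((f y) n).toNat))) := by
  exact Pool.Agent.Lib.MP_75b31c_lc.N40.H40.frozen_of_main
    Pool.Agent.Lib.MP_75b31c_lc.N40.H40.main Pool.Agent.Lib.MP_75b31c_lc.N40.H40.bor

end Pool.Agent.S14912
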