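import Pool.Statements.S15611
import Pool.Agent.Lib.MP_f26228_lc.Haus

set_option autoImplicit false
open MeasureTheory
open Pool Pool.MP_f26228_lc

namespace Pool.Agent.S15611

/-- There is a set A such that H(A,B)=1/2 fails to hold for almost every B (A is dispersive), and it is not true that almost every B computes a set meeting every dense set of strings that is c.e. in A. -/
theorem result :
    ∃ A : ℕ → Bool,
      ¬ (∀ᵐ B ∂(Measure.infinitePi (fun _ : ℕ => (PMF.uniformOfFintype Bool).toMeasure)),
          max
            (⨆ C : {C : ℕ → Bool // TuringEquivalent (fun n => Part.some (C n).toNat)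
                                        (fun n => Part.some (A n).toNat)},
              ⨅ D : {D : ℕ → Bool // TuringEquivalent (fun n => Part.some (D n).toNat)
                                        (fun n => Part.some (B n).toNat)},
                Filter.limsup
                  (fun n : ℕ => (((Finset.range n).filter (fun k => C.1 k ≠ D.1 k)).card : ℝ) / (n : ℝ))
                  Filter.atTop)
            (⨆ D : {D : ℕ → Bool // TuringEquivalent (fun n => Part.some (D n).toNat)
                                        (fun n => Part.some (B n).toNat)},
              ⨅ C : {C : ℕ → Bool // TuringEquivalent (fun n => Part.some (C n).toNat)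
                                        (fun n => Part.some (A n).toNat)},
                Filter.limsup
                  (fun n : ℕ => (((Finset.range n).filter (fun k => C.1 k ≠ D.1 k)).card : ℝ) / (n : ℝ))
                  Filter.atTop)
            = (1 / 2 : ℝ)) ∧
      ¬ (∀ᵐ B ∂(Measure.infinitePi (fun _ : ℕ => (PMF.uniformOfFintype Bool).toMeasure)),
          ∃ G : ℕ → Bool,
            TuringReducible (fun n => Part.some (G n).toNat) (fun n => Part.some (B n).toNat) ∧
            ∀ W : Set (List Bool),
              (∃ f : ℕ →. ℕ, TuringReducible f (fun n => Part.some (A n).toNat) ∧
                  ∀ σ : List Bool, σ ∈ W ↔ (f (Encodable.encode σ)).Dom) →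
              (∀ σ : List Bool, ∃ τ ∈ W, σ <+: τ) →
              ∃ n : ℕ, List.ofFn (fun i : Fin n => G i) ∈ W) := by
  exact Pool.Agent.Lib.MP_f26228_lc.main_theorem

end Pool.Agent.S15611
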