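import Pool.Statements.S15688
-- import your own Pool.Agent.* helpers here

set_option autoImplicit false
open Matrix
open scoped ComplexOrder
open Pool Pool.MP_2725c9_mp

namespace Pool.Agent.S15688

section KF

variable {ι : Type*} [Fintype ι] [DecidableEq ι]
set_option linter.unusedSectionVars false

/-- Orthogonal projectors of rank `k`. -/
def projSet (k : ℕ) : Set (Matrix ι ι ℂ) :=
  {P | P.IsHermitian ∧ P * P = P ∧ P.trace = (k : ℂ)}

/-- Ky Fan functional: largest value of `tr (P ρ)` over rank `k` projectors. -/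
noncomputable def kf (k : ℕ) (ρ : Matrix ι ι ℂ) : ℝ :=
  sSup ((fun P : Matrix ι ι ℂ => ((P * ρ).trace).re) '' projSet k)

lemma proj_diag {k : ℕ} {P : Matrix ι ι ℂ} (hP : P ∈ projSet k) (i : ι) :
    (P i i) = ((∑ j, ‖P i j‖ ^ 2 : ℝ) : ℂ) := by
  obtain ⟨h1, h2, -⟩ := hP
  have : P i i = (P * P) i i := by rw [h2]
  rw [this, Matrix.mul_apply]
  push_cast
  refine Finset.sum_congr rfl fun j _ => ?_
  have h3 : P j i = star (P i j) := by
    have := h1.apply i j
    rw [← this, star_star]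
  rw [h3]
  have := Complex.mul_conj (P i j)
  simp only [Complex.star_def]
  rw [this, Complex.normSq_eq_norm_sq]
  push_cast
  rfl

lemma proj_diag_re {k : ℕ} {P : Matrix ι ι ℂ} (hP : P ∈ projSet k) (i : ι) :
    (P i i).re = ∑ j, ‖P i j‖ ^ 2 := by
  rw [proj_diag hP i, Complex.ofReal_re]

lemma proj_diag_nonneg {k : ℕ} {P : Matrix ι ι ℂ} (hP : P ∈ projSet k) (i : ι) :
    0 ≤ (P i i).re := by
  rw [proj_diag_re hP i]
  positivity

lemma proj_diag_norm {k : ℕ} {P : Matrix ι ι ℂ} (hP : P ∈ projSet k) (i : ι) :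
    ‖P i i‖ = (P i i).re := by
  rw [proj_diag hP i, Complex.norm_real, Complex.ofReal_re, Real.norm_of_nonneg (by positivity)]

lemma proj_entry_sq {k : ℕ} {P : Matrix ι ι ℂ} (hP : P ∈ projSet k) (i j : ι) :
    ‖P i j‖ ^ 2 ≤ (P i i).re := by
  rw [proj_diag_re hP i]
  exact Finset.single_le_sum (f := fun j => ‖P i j‖ ^ 2) (fun _ _ => by positivity)
    (Finset.mem_univ j)

lemma proj_diag_le_one {k : ℕ} {P : Matrix ι ι ℂ} (hP : P ∈ projSet k) (i : ι) :
    (P i i).re ≤ 1 := by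
  have h := proj_entry_sq hP i i
  rw [proj_diag_norm hP i] at h
  nlinarith [proj_diag_nonneg hP i]

lemma proj_entry_le_one {k : ℕ} {P : Matrix ι ι ℂ} (hP : P ∈ projSet k) (i j : ι) :
    ‖P i j‖ ≤ 1 := by
  have h := proj_entry_sq hP i j
  have h2 := proj_diag_le_one hP i
  nlinarith [norm_nonneg (P i j)]

lemma trace_bound {k : ℕ} {P : Matrix ι ι ℂ} (hP : P ∈ projSet k) (ρ : Matrix ι ι ℂ) :
    |((P * ρ).trace).re| ≤ ∑ i, ∑ j, ‖ρ j i‖ := by
  calc |((P * ρ).trace).re| ≤ ‖(P * ρ).trace‖ := Complex.abs_re_le_norm _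
    _ = ‖∑ i, ∑ j, P i j * ρ j i‖ := by
        simp [Matrix.trace, Matrix.mul_apply]
    _ ≤ ∑ i, ∑ j, ‖P i j * ρ j i‖ :=
        (norm_sum_le _ _).trans (Finset.sum_le_sum fun i _ => norm_sum_le _ _)
    _ ≤ ∑ i, ∑ j, ‖ρ j i‖ := by
        refine Finset.sum_le_sum fun i _ => Finset.sum_le_sum fun j _ => ?_
        rw [norm_mul]
        have := proj_entry_le_one hP i j
        nlinarith [norm_nonneg (ρ j i)]

lemma kf_bdd (k : ℕ) (ρ : Matrix ι ι ℂ) :
    BddAbove ((fun P : Matrix ι ι ℂ => ((P * ρ).trace).re) '' projSet k) := by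
  refine ⟨∑ i, ∑ j, ‖ρ j i‖, ?_⟩
  rintro _ ⟨P, hP, rfl⟩
  exact (le_abs_self _).trans (trace_bound hP ρ)

lemma le_kf {k : ℕ} {P : Matrix ι ι ℂ} (hP : P ∈ projSet k) (ρ : Matrix ι ι ℂ) :
    ((P * ρ).trace).re ≤ kf k ρ :=
  le_csSup (kf_bdd k ρ) ⟨P, hP, rfl⟩

lemma kf_empty {k : ℕ} (h : (projSet k : Set (Matrix ι ι ℂ)) = ∅) (ρ : Matrix ι ι ℂ) :
    kf k ρ = 0 := by
  simp [kf, h]

lemma kf_le {k : ℕ} (hne : (projSet k : Set (Matrix ι ι ℂ)).Nonempty) {ρ : Matrix ι ι ℂ} {M : ℝ}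
    (h : ∀ P ∈ (projSet k : Set (Matrix ι ι ℂ)), ((P * ρ).trace).re ≤ M) : kf k ρ ≤ M := by
  refine csSup_le (hne.image _) ?_
  rintro _ ⟨P, hP, rfl⟩
  exact h P hP

lemma kf_lip (k : ℕ) (ρ σ : Matrix ι ι ℂ) :
    kf k ρ ≤ kf k σ + ∑ i, ∑ j, ‖ρ j i - σ j i‖ := by
  rcases Set.eq_empty_or_nonempty (projSet k : Set (Matrix ι ι ℂ)) with he | hne
  · rw [kf_empty he, kf_empty he]
    positivity
  · refine kf_le hne fun P hP => ?_
    have h1 := le_kf hP σ
    have h2 := trace_bound hP (ρ - σ)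
    have h3 : ((P * ρ).trace).re = ((P * σ).trace).re + ((P * (ρ - σ)).trace).re := by
      rw [Matrix.mul_sub, Matrix.trace_sub, Complex.sub_re]; ring
    have h4 := le_abs_self ((P * (ρ - σ)).trace).re
    simp only [Matrix.sub_apply] at h2
    linarith

lemma kf_continuous (k : ℕ) : Continuous (kf k : Matrix ι ι ℂ → ℝ) := by
  rw [continuous_iff_continuousAt]
  intro σ
  have hg : Continuous fun ρ : Matrix ι ι ℂ => ∑ i, ∑ j, ‖ρ j i - σ j i‖ := by
    refine continuous_finsetSum _ fun i _ => continuous_finsetSum _ fun j _ => ?_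
    exact ((continuous_id.matrix_elem j i).sub continuous_const).norm
  have hg0 : Filter.Tendsto (fun ρ : Matrix ι ι ℂ => ∑ i, ∑ j, ‖ρ j i - σ j i‖) (nhds σ)
      (nhds 0) := by
    have := hg.tendsto σ
    simpa using this
  have hab : ∀ ρ : Matrix ι ι ℂ, |kf k ρ - kf k σ| ≤ ∑ i, ∑ j, ‖ρ j i - σ j i‖ := by
    intro ρ
    rw [abs_le]
    have h1 := kf_lip k ρ σ
    have h2 := kf_lip k σ ρ
    simp only [norm_sub_rev (σ _ _) (ρ _ _)] at h2
    constructor <;> linarith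
  rw [ContinuousAt, tendsto_iff_dist_tendsto_zero]
  refine squeeze_zero (fun _ => dist_nonneg) (fun ρ => ?_) hg0
  rw [Real.dist_eq]
  exact hab ρ

lemma kf_convex (k : ℕ) {S : Set (Matrix ι ι ℂ)} (hS : Convex ℝ S) :
    ConvexOn ℝ S (kf k : Matrix ι ι ℂ → ℝ) := by
  refine ⟨hS, ?_⟩
  intro ρ _ σ _ a b ha hb _
  rcases Set.eq_empty_or_nonempty (projSet k : Set (Matrix ι ι ℂ)) with he | hne
  · simp [kf_empty he]
  · refine kf_le hne fun P hP => ?_
    have h1 := le_kf hP ρ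
    have h2 := le_kf hP σ
    have h3 : ((P * (a • ρ + b • σ)).trace).re = a * ((P * ρ).trace).re + b * ((P * σ).trace).re := by
      rw [Matrix.mul_add, Matrix.mul_smul, Matrix.mul_smul, Matrix.trace_add, Matrix.trace_smul,
        Matrix.trace_smul]
      simp
    rw [h3]
    simp only [smul_eq_mul]
    nlinarith

lemma projSet_conj {k : ℕ} {P : Matrix ι ι ℂ} (hP : P ∈ projSet k) {U : Matrix ι ι ℂ}
    (hU : U ∈ Matrix.unitaryGroup ι ℂ) : star U * P * U ∈ projSet k := by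
  obtain ⟨h1, h2, h3⟩ := hP
  have hU2 : U * star U = 1 := Matrix.mem_unitaryGroup_iff.mp hU
  refine ⟨?_, ?_, ?_⟩
  · rw [Matrix.IsHermitian, Matrix.star_eq_conjTranspose, Matrix.conjTranspose_mul,
      Matrix.conjTranspose_mul, Matrix.conjTranspose_conjTranspose, h1.eq, Matrix.mul_assoc]
  · calc star U * P * U * (star U * P * U) = star U * P * (U * star U) * P * U := by
          simp only [Matrix.mul_assoc]
      _ = star U * (P * P) * U := by rw [hU2]; simp only [Matrix.mul_assoc, Matrix.one_mul]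
      _ = star U * P * U := by rw [h2]
  · rw [Matrix.trace_mul_comm, ← Matrix.mul_assoc, hU2, Matrix.one_mul, h3]

lemma kf_unitary_le (k : ℕ) {U : Matrix ι ι ℂ} (hU : U ∈ Matrix.unitaryGroup ι ℂ)
    (ρ : Matrix ι ι ℂ) : kf k (U * ρ * star U) ≤ kf k ρ := by
  rcases Set.eq_empty_or_nonempty (projSet k : Set (Matrix ι ι ℂ)) with he | hne
  · simp [kf_empty he]
  · refine kf_le hne fun P hP => ?_
    have h := le_kf (projSet_conj hP hU) ρ
    have h2 : (P * (U * ρ * star U)).trace = (star U * P * U * ρ).trace := by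
      calc (P * (U * ρ * star U)).trace = ((P * U * ρ) * star U).trace := by
            simp only [Matrix.mul_assoc]
        _ = (star U * (P * U * ρ)).trace := Matrix.trace_mul_comm _ _
        _ = _ := by simp only [Matrix.mul_assoc]
    rw [h2]
    exact h

lemma kf_unitary (k : ℕ) {U : Matrix ι ι ℂ} (hU : U ∈ Matrix.unitaryGroup ι ℂ)
    (ρ : Matrix ι ι ℂ) : kf k (U * ρ * star U) = kf k ρ := by
  refine le_antisymm (kf_unitary_le k hU ρ) ?_
  have hU' : star U ∈ Matrix.unitaryGroup ι ℂ := by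
    rw [Matrix.mem_unitaryGroup_iff, star_star]
    exact Matrix.mem_unitaryGroup_iff'.mp hU
  have h := kf_unitary_le k hU' (U * ρ * star U)
  have h1 : star U * U = 1 := Matrix.mem_unitaryGroup_iff'.mp hU
  have h2 : star U * (U * ρ * star U) * star (star U) = ρ := by
    rw [star_star]
    calc star U * (U * ρ * star U) * U = (star U * U) * ρ * (star U * U) := by
          simp only [Matrix.mul_assoc]
      _ = ρ := by rw [h1, Matrix.one_mul, Matrix.mul_one]
  rwa [h2] at h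

end KF


section PT

variable {n : ℕ} {d : Fin n → ℕ}

/-- Reduced matrix on the tensor factors in `I`. -/
noncomputable def ptr (I : Finset (Fin n))
    (τ : Matrix ((i : Fin n) → Fin (d i)) ((i : Fin n) → Fin (d i)) ℂ) :
    Matrix ((i : {i // i ∈ I}) → Fin (d i.1)) ((i : {i // i ∈ I}) → Fin (d i.1)) ℂ :=
  Matrix.of fun a b =>
    ∑ c : ((i : {i // i ∉ I}) → Fin (d i.1)),
      τ (fun i => if h : i ∈ I then a ⟨i, h⟩ else c ⟨i, h⟩)
        (fun i => if h : i ∈ I then b ⟨i, h⟩ else c ⟨i, h⟩)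

/-- The product matrix restricted to the factors in `I`. -/
noncomputable def WI (W : (i : Fin n) → Matrix (Fin (d i)) (Fin (d i)) ℂ) (I : Finset (Fin n)) :
    Matrix ((i : {i // i ∈ I}) → Fin (d i.1)) ((i : {i // i ∈ I}) → Fin (d i.1)) ℂ :=
  Matrix.of fun a b => ∏ i, W i.1 (a i) (b i)

lemma prod_unitary {κ : Type*} [Fintype κ] [DecidableEq κ] {e : κ → ℕ}
    (W : (i : κ) → Matrix (Fin (e i)) (Fin (e i)) ℂ)
    (hW : ∀ i, W i ∈ Matrix.unitaryGroup (Fin (e i)) ℂ) :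
    (Matrix.of fun a b : ((i : κ) → Fin (e i)) => ∏ i, W i (a i) (b i)) ∈
      Matrix.unitaryGroup ((i : κ) → Fin (e i)) ℂ := by
  rw [Matrix.mem_unitaryGroup_iff]
  ext a b
  rw [Matrix.mul_apply]
  simp only [Matrix.star_apply, Matrix.of_apply, star_prod, ← Finset.prod_mul_distrib]
  have h1 : ∀ i, ∑ j, W i (a i) j * star (W i (b i) j) = (1 : Matrix (Fin (e i)) (Fin (e i)) ℂ) (a i) (b i) := by
    intro i
    have := Matrix.mem_unitaryGroup_iff.mp (hW i)
    rw [← this, Matrix.mul_apply]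
    rfl
  have h2 := Finset.prod_univ_sum (R := ℂ) (fun i : κ => (Finset.univ : Finset (Fin (e i))))
    (fun i j => W i (a i) j * star (W i (b i) j))
  rw [Fintype.piFinset_univ] at h2
  rw [← h2, Finset.prod_congr rfl (fun i _ => h1 i)]
  by_cases hab : a = b
  · subst hab; simp
  · rw [Matrix.one_apply_ne hab]
    obtain ⟨i, hi⟩ := Function.ne_iff.mp hab
    exact Finset.prod_eq_zero (Finset.mem_univ i) (Matrix.one_apply_ne hi)

lemma conj_diag_apply {κ : Type*} [Fintype κ] [DecidableEq κ] (V : Matrix κ κ ℂ) (q : κ → ℂ)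
    (x y : κ) : (V * Matrix.diagonal q * star V) x y = ∑ z, q z * (V x z * star (V y z)) := by
  rw [Matrix.mul_apply]
  refine Finset.sum_congr rfl fun z _ => ?_
  rw [Matrix.mul_diagonal, Matrix.star_apply]
  ring

/-- The product matrix on all factors. -/
noncomputable def WF (W : (i : Fin n) → Matrix (Fin (d i)) (Fin (d i)) ℂ) :
    Matrix ((i : Fin n) → Fin (d i)) ((i : Fin n) → Fin (d i)) ℂ :=
  Matrix.of (fun x y => ∏ i, W i (x i) (y i))

lemma ptr_classical (W : (i : Fin n) → Matrix (Fin (d i)) (Fin (d i)) ℂ)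
    (hW : ∀ i, W i ∈ Matrix.unitaryGroup (Fin (d i)) ℂ)
    (q : ((i : Fin n) → Fin (d i)) → ℝ) (I : Finset (Fin n))
    (a b : (i : {i // i ∈ I}) → Fin (d i.1)) :
    ptr I (WF W * Matrix.diagonal (fun x => ((q x : ℝ) : ℂ)) * star (WF W)) a b =
    ∑ x : ((i : Fin n) → Fin (d i)), (q x : ℂ) *
      (WI W I a (fun i => x i.1) * star (WI W I b (fun i => x i.1))) := by
  simp only [ptr, Matrix.of_apply, conj_diag_apply]
  rw [Finset.sum_comm]
  refine Finset.sum_congr rfl fun x _ => ?_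
  simp only [WI, WF, Matrix.of_apply]
  have key : ∀ (a : (i : {i // i ∈ I}) → Fin (d i.1)) (c : (i : {i // i ∉ I}) → Fin (d i.1)),
      ∏ i, W i (if h : i ∈ I then a ⟨i, h⟩ else c ⟨i, h⟩) (x i) =
        (∏ i : {i // i ∈ I}, W i.1 (a i) (x i.1)) * ∏ i : {i // i ∉ I}, W i.1 (c i) (x i.1) := by
    intro a c
    rw [← Fintype.prod_subtype_mul_prod_subtype (fun i => i ∈ I)]
    congr 1
    · refine Finset.prod_congr (Finset.ext (by simp)) fun i _ => ?_
      rw [dif_pos i.2]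
    · refine Finset.prod_congr (Finset.ext (by simp)) fun i _ => ?_
      rw [dif_neg i.2]
  simp only [key, star_mul']
  have h2 := Finset.prod_univ_sum (R := ℂ)
    (fun i : {i // i ∉ I} => (Finset.univ : Finset (Fin (d i.1))))
    (fun i j => W i.1 j (x i.1) * star (W i.1 j (x i.1)))
  rw [Fintype.piFinset_univ] at h2
  have h1 : ∀ i : {i // i ∉ I}, ∑ j, W i.1 j (x i.1) * star (W i.1 j (x i.1)) = 1 := by
    intro i
    have := Matrix.mem_unitaryGroup_iff'.mp (hW i.1)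
    have h3 := congrFun (congrFun this (x i.1)) (x i.1)
    rw [Matrix.mul_apply, Matrix.one_apply_eq] at h3
    rw [← h3]
    refine Finset.sum_congr rfl fun j _ => ?_
    rw [Matrix.star_apply, mul_comm]
  rw [Finset.prod_congr rfl (fun i _ => h1 i), Finset.prod_const_one] at h2
  simp only [Finset.prod_mul_distrib] at h2
  calc _ = ((q x : ℂ) * ((∏ i : {i // i ∈ I}, W i.1 (a i) (x i.1)) *
        star (∏ i : {i // i ∈ I}, W i.1 (b i) (x i.1)))) *
        ∑ c : ((i : {i // i ∉ I}) → Fin (d i.1)),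
          (∏ i : {i // i ∉ I}, W i.1 (c i) (x i.1)) *
            ∏ i : {i // i ∉ I}, star (W i.1 (c i) (x i.1)) := by
        rw [Finset.mul_sum]
        refine Finset.sum_congr rfl fun c _ => ?_
        simp only [star_prod]
        ring
    _ = _ := by rw [← h2, mul_one]

/-- The value of a projector on a classical state. -/
lemma trace_classical (W : (i : Fin n) → Matrix (Fin (d i)) (Fin (d i)) ℂ)
    (hW : ∀ i, W i ∈ Matrix.unitaryGroup (Fin (d i)) ℂ)
    (q : ((i : Fin n) → Fin (d i)) → ℝ) (I : Finset (Fin n))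
    (P : Matrix ((i : {i // i ∈ I}) → Fin (d i.1)) ((i : {i // i ∈ I}) → Fin (d i.1)) ℂ) :
    (P * ptr I (WF W * Matrix.diagonal (fun x => ((q x : ℝ) : ℂ)) * star (WF W))).trace.re =
    ∑ x : ((i : Fin n) → Fin (d i)), q x *
      ((star (WI W I) * P * WI W I) (fun i => x i.1) (fun i => x i.1)).re := by
  have h : (P * ptr I (WF W * Matrix.diagonal (fun x => ((q x : ℝ) : ℂ)) *
      star (WF W))).trace =
    ∑ x : ((i : Fin n) → Fin (d i)), (q x : ℂ) *
      ((star (WI W I) * P * WI W I) (fun i => x i.1) (fun i => x i.1)) := by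
    rw [Matrix.trace]
    simp only [Matrix.diag_apply]
    simp_rw [Matrix.mul_apply (M := P), ptr_classical W hW, Matrix.mul_apply, Matrix.star_apply]
    simp only [Finset.mul_sum, Finset.sum_mul]
    rw [Finset.sum_congr rfl (fun a _ => Finset.sum_comm)]
    rw [Finset.sum_comm]
    refine Finset.sum_congr rfl fun x _ => ?_
    rw [Finset.sum_comm]
    refine Finset.sum_congr rfl fun a _ => ?_
    refine Finset.sum_congr rfl fun b _ => ?_
    ring
  rw [h, Complex.re_sum]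
  refine Finset.sum_congr rfl fun x _ => ?_
  rw [Complex.re_ofReal_mul]

end PT

section Spec

variable {κ : Type*} [Fintype κ] [DecidableEq κ]
set_option linter.unusedSectionVars false

lemma spec_eq {U V : Matrix κ κ ℂ} (hV : V ∈ Matrix.unitaryGroup κ ℂ) {r q : κ → ℝ}
    (h : U * Matrix.diagonal (fun x => ((r x : ℝ) : ℂ)) * star U =
      V * Matrix.diagonal (fun x => ((q x : ℝ) : ℂ)) * star V) (x : κ) :
    q x = ∑ z, r z * ‖(star V * U) x z‖ ^ 2 := by
  have hV1 : star V * V = 1 := Matrix.mem_unitaryGroup_iff'.mp hV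
  have h1 : (star V * U) * Matrix.diagonal (fun x => ((r x : ℝ) : ℂ)) * star (star V * U) =
      Matrix.diagonal (fun x => ((q x : ℝ) : ℂ)) := by
    calc (star V * U) * Matrix.diagonal (fun x => ((r x : ℝ) : ℂ)) * star (star V * U)
        = star V * (U * Matrix.diagonal (fun x => ((r x : ℝ) : ℂ)) * star U) * V := by
          rw [StarMul.star_mul, star_star]; simp only [Matrix.mul_assoc]
      _ = (star V * V) * Matrix.diagonal (fun x => ((q x : ℝ) : ℂ)) * (star V * V) := by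
          rw [h]; simp only [Matrix.mul_assoc]
      _ = _ := by rw [hV1, Matrix.one_mul, Matrix.mul_one]
  have h2 := congrFun (congrFun h1 x) x
  rw [conj_diag_apply, Matrix.diagonal_apply_eq] at h2
  have h3 : ((q x : ℝ) : ℂ) = ((∑ z, r z * ‖(star V * U) x z‖ ^ 2 : ℝ) : ℂ) := by
    rw [← h2]
    push_cast
    refine Finset.sum_congr rfl fun z _ => ?_
    have := Complex.mul_conj ((star V * U) x z)
    rw [Complex.star_def, this, Complex.normSq_eq_norm_sq]
    push_cast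
    rfl
  exact_mod_cast h3

lemma unitary_row {T : Matrix κ κ ℂ} (hT : T * star T = 1) (x : κ) : ∑ z, ‖T x z‖ ^ 2 = 1 := by
  have h2 := congrFun (congrFun hT x) x
  rw [Matrix.mul_apply, Matrix.one_apply_eq] at h2
  have h3 : ((∑ z, ‖T x z‖ ^ 2 : ℝ) : ℂ) = ((1 : ℝ) : ℂ) := by
    rw [Complex.ofReal_one, ← h2]
    push_cast
    refine Finset.sum_congr rfl fun z _ => ?_
    have := Complex.mul_conj (T x z)
    rw [Matrix.star_apply, Complex.star_def, this, Complex.normSq_eq_norm_sq]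
    push_cast
    rfl
  exact_mod_cast h3

lemma spec_bounds {U V : Matrix κ κ ℂ} (hU : U ∈ Matrix.unitaryGroup κ ℂ)
    (hV : V ∈ Matrix.unitaryGroup κ ℂ) {r q : κ → ℝ}
    (h : U * Matrix.diagonal (fun x => ((r x : ℝ) : ℂ)) * star U =
      V * Matrix.diagonal (fun x => ((q x : ℝ) : ℂ)) * star V) {c : ℝ}
    (hr0 : ∀ x, 0 ≤ r x) (hrc : ∀ x, r x ≤ c) (hr1 : ∑ x, r x = 1) :
    (∀ x, 0 ≤ q x) ∧ (∀ x, q x ≤ c) ∧ ∑ x, q x = 1 := by
  have hU1 : U * star U = 1 := Matrix.mem_unitaryGroup_iff.mp hU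
  have hU2 : star U * U = 1 := Matrix.mem_unitaryGroup_iff'.mp hU
  have hV1 : star V * V = 1 := Matrix.mem_unitaryGroup_iff'.mp hV
  have hV2 : V * star V = 1 := Matrix.mem_unitaryGroup_iff.mp hV
  have hT : (star V * U) * star (star V * U) = 1 := by
    rw [StarMul.star_mul, star_star]
    calc star V * U * (star U * V) = star V * (U * star U) * V := by simp only [Matrix.mul_assoc]
      _ = 1 := by rw [hU1, Matrix.mul_one, hV1]
  have hT' : star (star V * U) * star (star (star V * U)) = 1 := by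
    rw [star_star, StarMul.star_mul, star_star]
    calc star U * V * (star V * U) = star U * (V * star V) * U := by simp only [Matrix.mul_assoc]
      _ = 1 := by rw [hV2, Matrix.mul_one, hU2]
  refine ⟨fun x => ?_, fun x => ?_, ?_⟩
  · rw [spec_eq hV h x]
    exact Finset.sum_nonneg fun z _ => mul_nonneg (hr0 z) (by positivity)
  · rw [spec_eq hV h x]
    calc ∑ z, r z * ‖(star V * U) x z‖ ^ 2 ≤ ∑ z, c * ‖(star V * U) x z‖ ^ 2 :=
          Finset.sum_le_sum fun z _ => mul_le_mul_of_nonneg_right (hrc z) (by positivity)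
      _ = c := by rw [← Finset.mul_sum, unitary_row hT x, mul_one]
  · rw [Finset.sum_congr rfl (fun x _ => spec_eq hV h x), Finset.sum_comm]
    rw [← hr1]
    refine Finset.sum_congr rfl fun z _ => ?_
    rw [← Finset.mul_sum]
    have := unitary_row hT' z
    simp only [Matrix.star_apply, norm_star] at this
    rw [this, mul_one]

end Spec

section Bounds

variable {n : ℕ} {d : Fin n → ℕ}

/-- Marginal of `q`. -/
noncomputable def marg (I : Finset (Fin n)) (q : ((i : Fin n) → Fin (d i)) → ℝ)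
    (y : (i : {i // i ∈ I}) → Fin (d i.1)) : ℝ :=
  ∑ x : ((i : Fin n) → Fin (d i)), if (fun i : {i // i ∈ I} => x i.1) = y then q x else 0

lemma sum_marg (I : Finset (Fin n)) (q : ((i : Fin n) → Fin (d i)) → ℝ)
    (s : ((i : {i // i ∈ I}) → Fin (d i.1)) → ℝ) :
    ∑ x : ((i : Fin n) → Fin (d i)), q x * s (fun i => x i.1) = ∑ y, s y * marg I q y := by
  simp only [marg, Finset.mul_sum]
  rw [Finset.sum_comm]
  refine Finset.sum_congr rfl fun x _ => ?_
  simp only [mul_ite, mul_zero]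
  rw [Finset.sum_ite_eq]
  simp [mul_comm]

lemma weighted_two {κ : Type*} [Fintype κ] [DecidableEq κ] (g : κ → ℝ)
    (hc : 2 ≤ Fintype.card κ) :
    ∃ y y', y ≠ y' ∧ ∀ s : κ → ℝ, (∀ x, 0 ≤ s x) → (∀ x, s x ≤ 1) → ∑ x, s x = 2 →
      ∑ x, s x * g x ≤ g y + g y' := by
  have hne : (Finset.univ : Finset κ).Nonempty := by
    rw [← Finset.card_pos, Finset.card_univ]; omega
  obtain ⟨y, -, hy⟩ := Finset.exists_max_image Finset.univ g hne
  have hne2 : ((Finset.univ : Finset κ).erase y).Nonempty := by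
    rw [← Finset.card_pos, Finset.card_erase_of_mem (Finset.mem_univ y), Finset.card_univ]; omega
  obtain ⟨y', hy'1, hy'⟩ := Finset.exists_max_image _ g hne2
  refine ⟨y, y', (Finset.ne_of_mem_erase hy'1).symm, fun s h0 h1 h2 => ?_⟩
  have e1 : ∑ x, s x * g x = ∑ x, s x * (g x - g y') + 2 * g y' := by
    rw [← h2, Finset.sum_mul, ← Finset.sum_add_distrib]
    refine Finset.sum_congr rfl fun x _ => ?_
    ring
  have e2 : ∑ x, s x * (g x - g y') ≤ ∑ x, if x = y then (g y - g y') else 0 := by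
    refine Finset.sum_le_sum fun x _ => ?_
    split_ifs with hx
    · subst hx
      have : 0 ≤ g x - g y' := sub_nonneg.mpr (hy y' (Finset.mem_univ _))
      nlinarith [h1 x]
    · have : g x - g y' ≤ 0 := sub_nonpos.mpr (hy' x (Finset.mem_erase.mpr ⟨hx, Finset.mem_univ _⟩))
      nlinarith [h0 x]
  rw [Finset.sum_ite_eq' Finset.univ y] at e2
  simp only [Finset.mem_univ, if_true] at e2
  linarith

lemma weighted_one {κ : Type*} [Fintype κ] [Nonempty κ] (g : κ → ℝ) :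
    ∃ y, ∀ s : κ → ℝ, (∀ x, 0 ≤ s x) → ∑ x, s x = 1 → ∑ x, s x * g x ≤ g y := by
  obtain ⟨y, -, hy⟩ := Finset.exists_max_image (Finset.univ : Finset κ) g Finset.univ_nonempty
  refine ⟨y, fun s h0 h1 => ?_⟩
  calc ∑ x, s x * g x ≤ ∑ x, s x * g y :=
        Finset.sum_le_sum fun x hx => mul_le_mul_of_nonneg_left (hy x hx) (h0 x)
    _ = g y := by rw [← Finset.sum_mul, h1, one_mul]

lemma proj_trace_re {κ : Type*} [Fintype κ] [DecidableEq κ] {k : ℕ} {P : Matrix κ κ ℂ}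
    (hP : P ∈ projSet k) : ∑ x, (P x x).re = k := by
  have := congrArg Complex.re hP.2.2
  rw [Matrix.trace, Complex.re_sum] at this
  simpa using this

lemma kf_one_classical (W : (i : Fin n) → Matrix (Fin (d i)) (Fin (d i)) ℂ)
    (hW : ∀ i, W i ∈ Matrix.unitaryGroup (Fin (d i)) ℂ)
    (q : ((i : Fin n) → Fin (d i)) → ℝ) (I : Finset (Fin n))
    [Nonempty ((i : {i // i ∈ I}) → Fin (d i.1))]
    (hne : (projSet 1 : Set (Matrix ((i : {i // i ∈ I}) → Fin (d i.1))
      ((i : {i // i ∈ I}) → Fin (d i.1)) ℂ)).Nonempty) :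
    ∃ y, kf 1 (ptr I (WF W * Matrix.diagonal (fun x => ((q x : ℝ) : ℂ)) * star (WF W))) ≤
      marg I q y := by
  obtain ⟨y, hy⟩ := weighted_one (marg I q)
  refine ⟨y, kf_le hne fun P hP => ?_⟩
  have hWI : WI W I ∈ Matrix.unitaryGroup _ ℂ := prod_unitary (fun i : {i // i ∈ I} => W i.1)
    (fun i => hW i.1)
  have hQ := projSet_conj hP hWI
  rw [trace_classical W hW q I P,
    sum_marg I q (fun y => ((star (WI W I) * P * WI W I) y y).re)]
  refine hy _ (fun x => proj_diag_nonneg hQ x) ?_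
  rw [proj_trace_re hQ]
  simp

lemma kf_two_classical (W : (i : Fin n) → Matrix (Fin (d i)) (Fin (d i)) ℂ)
    (hW : ∀ i, W i ∈ Matrix.unitaryGroup (Fin (d i)) ℂ)
    (q : ((i : Fin n) → Fin (d i)) → ℝ) (I : Finset (Fin n))
    (hc : 2 ≤ Fintype.card ((i : {i // i ∈ I}) → Fin (d i.1)))
    (hne : (projSet 2 : Set (Matrix ((i : {i // i ∈ I}) → Fin (d i.1))
      ((i : {i // i ∈ I}) → Fin (d i.1)) ℂ)).Nonempty) :
    ∃ y y', y ≠ y' ∧
      kf 2 (ptr I (WF W * Matrix.diagonal (fun x => ((q x : ℝ) : ℂ)) * star (WF W))) ≤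
        marg I q y + marg I q y' := by
  obtain ⟨y, y', hyy, hy⟩ := weighted_two (marg I q) hc
  refine ⟨y, y', hyy, kf_le hne fun P hP => ?_⟩
  have hWI : WI W I ∈ Matrix.unitaryGroup _ ℂ := prod_unitary (fun i : {i // i ∈ I} => W i.1)
    (fun i => hW i.1)
  have hQ := projSet_conj hP hWI
  rw [trace_classical W hW q I P,
    sum_marg I q (fun y => ((star (WI W I) * P * WI W I) y y).re)]
  refine hy _ (fun x => proj_diag_nonneg hQ x) (fun x => proj_diag_le_one hQ x) ?_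
  rw [proj_trace_re hQ]
  simp

end Bounds

section Concrete

/-- Index type of three qubits. -/
abbrev X3 := (i : Fin 3) → Fin ((fun _ : Fin 3 => 2) i)

/-- Index type of the qubits in `I`. -/
abbrev XI (I : Finset (Fin 3)) := (i : {i // i ∈ I}) → Fin ((fun _ : Fin 3 => 2) i.1)

/-- Integer weights of the extreme points. -/
def wt (y1 : XI {0,1}) (y2 : XI {2}) (y3 y3' : XI {0,2}) (x : X3) : ℕ :=
  2 * (if (fun i : {i // i ∈ ({0,1} : Finset (Fin 3))} => x i.1) = y1 then 1 else 0) +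
  (if (fun i : {i // i ∈ ({2} : Finset (Fin 3))} => x i.1) = y2 then 1 else 0) +
  (if (fun i : {i // i ∈ ({0,2} : Finset (Fin 3))} => x i.1) = y3 then 1 else 0) +
  (if (fun i : {i // i ∈ ({0,2} : Finset (Fin 3))} => x i.1) = y3' then 1 else 0)

set_option maxRecDepth 100000 in
lemma wt_bound : ∀ (y1 : XI {0,1}) (y2 : XI {2}) (y3 y3' : XI {0,2}), y3 ≠ y3' →
    ∃ t ∈ Finset.range 5, ∑ x : X3, (wt y1 y2 y3 y3' x - t) + 4 * t ≤ 10 := by
  decide

lemma wt_sum_le (q : X3 → ℝ) (h0 : ∀ x, 0 ≤ q x) (hc : ∀ x, q x ≤ 1 / 4) (h1 : ∑ x, q x = 1)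
    (y1 : XI {0,1}) (y2 : XI {2}) (y3 y3' : XI {0,2}) (hy : y3 ≠ y3') :
    ∑ x, q x * (wt y1 y2 y3 y3' x : ℝ) ≤ 5 / 2 := by
  obtain ⟨t, -, ht⟩ := wt_bound y1 y2 y3 y3' hy
  have ht' : (∑ x : X3, ((wt y1 y2 y3 y3' x - t : ℕ) : ℝ)) + 4 * (t : ℝ) ≤ 10 := by
    exact_mod_cast ht
  calc ∑ x, q x * (wt y1 y2 y3 y3' x : ℝ)
      ≤ ∑ x, (q x * (t : ℝ) + 1 / 4 * ((wt y1 y2 y3 y3' x - t : ℕ) : ℝ)) := by
        refine Finset.sum_le_sum fun x _ => ?_
        have h2 : (wt y1 y2 y3 y3' x : ℝ) ≤ (t : ℝ) + ((wt y1 y2 y3 y3' x - t : ℕ) : ℝ) := by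
          exact_mod_cast le_add_tsub
        have h3 : (0 : ℝ) ≤ ((wt y1 y2 y3 y3' x - t : ℕ) : ℝ) := Nat.cast_nonneg _
        calc q x * (wt y1 y2 y3 y3' x : ℝ)
            ≤ q x * ((t : ℝ) + ((wt y1 y2 y3 y3' x - t : ℕ) : ℝ)) :=
              mul_le_mul_of_nonneg_left h2 (h0 x)
          _ = q x * (t : ℝ) + q x * ((wt y1 y2 y3 y3' x - t : ℕ) : ℝ) := by ring
          _ ≤ _ := by
              have := mul_le_mul_of_nonneg_right (hc x) h3
              linarith
    _ = (t : ℝ) + 1 / 4 * ∑ x : X3, ((wt y1 y2 y3 y3' x - t : ℕ) : ℝ) := by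
        rw [Finset.sum_add_distrib, ← Finset.sum_mul, h1, one_mul, Finset.mul_sum]
    _ ≤ 5 / 2 := by linarith

lemma wt_split (q : X3 → ℝ) (y1 : XI {0,1}) (y2 : XI {2}) (y3 y3' : XI {0,2}) :
    2 * marg {0,1} q y1 + marg {2} q y2 + (marg {0,2} q y3 + marg {0,2} q y3') =
    ∑ x, q x * (wt y1 y2 y3 y3' x : ℝ) := by
  simp only [marg, Finset.mul_sum]
  rw [← Finset.sum_add_distrib, ← Finset.sum_add_distrib, ← Finset.sum_add_distrib]
  refine Finset.sum_congr rfl fun x _ => ?_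
  simp only [wt]
  push_cast
  split_ifs <;> ring

/-- The integer form (scaled by 5) of the rotation. -/
def uu (x y : X3) : ℤ :=
  if x = y then (if x = ![0,1,1] ∨ x = ![1,1,0] then 3 else 5)
  else if x = ![1,1,0] ∧ y = ![0,1,1] then 4
  else if x = ![0,1,1] ∧ y = ![1,1,0] then -4
  else 0

/-- The integer form (scaled by 100) of the state. -/
def ss (x y : X3) : ℤ := ∑ z, (if z 0 = 0 then 1 else 0) * (uu x z * uu y z)

set_option maxRecDepth 100000 in
lemma uu_orth : ∀ x y : X3, ∑ z, uu x z * uu y z = if x = y then 25 else 0 := by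
  decide

/-- The unitary matrix. -/
noncomputable def UU : Matrix X3 X3 ℂ := Matrix.of fun x y => ((uu x y : ℤ) : ℂ) / 5

lemma UU_mem : UU ∈ Matrix.unitaryGroup X3 ℂ := by
  rw [Matrix.mem_unitaryGroup_iff]
  ext x y
  rw [Matrix.mul_apply]
  have h := uu_orth x y
  have h2 : (∑ z, (((uu x z : ℤ) : ℂ) * ((uu y z : ℤ) : ℂ))) = if x = y then 25 else 0 := by
    have := congrArg (fun m : ℤ => (m : ℂ)) h
    push_cast at this
    rw [this]
  have h3 : ∑ z, UU x z * (star UU) z y =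
      (∑ z, (((uu x z : ℤ) : ℂ) * ((uu y z : ℤ) : ℂ))) / 25 := by
    rw [Finset.sum_div]
    refine Finset.sum_congr rfl fun z _ => ?_
    simp only [UU, Matrix.star_apply, Matrix.of_apply, star_div₀]
    simp only [Complex.star_def, Complex.conj_ofNat, map_intCast]
    ring
  rw [h3, h2, Matrix.one_apply]
  split_ifs <;> norm_num

/-- The spectrum. -/
noncomputable def pp (x : X3) : ℝ := if x 0 = 0 then 1 / 4 else 0

lemma pp_nonneg (x : X3) : 0 ≤ pp x := by
  unfold pp; split_ifs <;> norm_num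

lemma pp_le (x : X3) : pp x ≤ 1 / 4 := by
  unfold pp; split_ifs <;> norm_num

lemma pp_sum : ∑ x, pp x = 1 := by
  have h : ∑ x : X3, (if x 0 = 0 then 1 else 0 : ℕ) = 4 := by decide
  have h2 : ∑ x : X3, (if x 0 = 0 then 1 else 0 : ℝ) = 4 := by exact_mod_cast h
  have h3 : ∀ x : X3, pp x = (1 / 4) * (if x 0 = 0 then 1 else 0 : ℝ) := by
    intro x; unfold pp; split_ifs <;> norm_num
  rw [Finset.sum_congr rfl (fun x _ => h3 x), ← Finset.mul_sum, h2]
  norm_num

/-- The quantum state. -/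
noncomputable def sg : Matrix X3 X3 ℂ :=
  UU * Matrix.diagonal (fun x => ((((1 : Matrix X3 X3 ℝ) *ᵥ pp) x : ℝ) : ℂ)) * star UU

lemma sg_apply (x y : X3) : sg x y = ((ss x y : ℤ) : ℂ) / 100 := by
  rw [sg, conj_diag_apply, ss]
  push_cast
  rw [Finset.sum_div]
  refine Finset.sum_congr rfl fun z _ => ?_
  rw [Matrix.one_mulVec]
  simp only [UU, Matrix.of_apply, star_div₀, pp]
  simp only [Complex.star_def, Complex.conj_ofNat, map_intCast]
  split_ifs
  · push_cast; ring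
  · push_cast; ring

lemma ptr_sg_apply (I : Finset (Fin 3)) (a b : XI I) :
    ptr I sg a b = ((∑ c : ((i : {i // i ∉ I}) → Fin ((fun _ : Fin 3 => 2) i.1)),
      ss (fun i => if h : i ∈ I then a ⟨i, h⟩ else c ⟨i, h⟩)
        (fun i => if h : i ∈ I then b ⟨i, h⟩ else c ⟨i, h⟩) : ℤ) : ℂ) / 100 := by
  simp only [ptr, Matrix.of_apply, sg_apply]
  push_cast
  rw [Finset.sum_div]

lemma proj1_mem {κ : Type*} [Fintype κ] [DecidableEq κ] (u : κ) :
    (Matrix.single u u (1 : ℂ)) ∈ (projSet 1 : Set (Matrix κ κ ℂ)) := by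
  refine ⟨?_, ?_, ?_⟩
  · rw [Matrix.IsHermitian, Matrix.conjTranspose_single, star_one]
  · rw [Matrix.single_mul_single_same, mul_one]
  · rw [Matrix.trace_single_eq_same]; simp

lemma trace_single_mul' {κ : Type*} [Fintype κ] [DecidableEq κ] (u v : κ) (ρ : Matrix κ κ ℂ) :
    (Matrix.single u v (1 : ℂ) * ρ).trace = ρ v u := by
  rw [Matrix.trace_mul_comm, Matrix.trace]
  simp only [Matrix.diag_apply, Matrix.mul_apply, Matrix.single_apply]
  rw [Finset.sum_eq_single v]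
  · rw [Finset.sum_eq_single u]
    · simp
    · intro b _ hb
      simp [hb.symm]
    · simp
  · intro b _ hb
    refine Finset.sum_eq_zero fun c _ => ?_
    simp [hb.symm]
  · simp

/-- A rank two projector. -/
noncomputable def proj2 {κ : Type*} [DecidableEq κ] (u v w : κ) : Matrix κ κ ℂ :=
  Matrix.single u u (1 : ℂ) + (16 / 25 : ℂ) • Matrix.single v v (1 : ℂ) +
    (9 / 25 : ℂ) • Matrix.single w w (1 : ℂ) +
    (12 / 25 : ℂ) • (Matrix.single v w (1 : ℂ) + Matrix.single w v (1 : ℂ))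

lemma proj2_mem {κ : Type*} [Fintype κ] [DecidableEq κ] {u v w : κ} (h1 : u ≠ v) (h2 : u ≠ w)
    (h3 : v ≠ w) : proj2 u v w ∈ (projSet 2 : Set (Matrix κ κ ℂ)) := by
  refine ⟨?_, ?_, ?_⟩
  · simp only [proj2, Matrix.IsHermitian, Matrix.conjTranspose_add, Matrix.conjTranspose_smul,
      Matrix.conjTranspose_single, star_one, star_div₀]
    simp only [Complex.star_def, Complex.conj_ofNat]
    rw [add_comm (Matrix.single w v (1 : ℂ))]
  · have e1 : ∀ a b c e : κ, b ≠ c → (Matrix.single a b (1 : ℂ)) * (Matrix.single c e (1 : ℂ)) = 0 :=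
      fun a b c e h => by
        apply Matrix.single_mul_single_of_ne
        exact h
    have e2 : ∀ a b e : κ, (Matrix.single a b (1 : ℂ)) * (Matrix.single b e (1 : ℂ)) =
        Matrix.single a e (1 : ℂ) := fun a b e => by
      rw [Matrix.single_mul_single_same, mul_one]
    simp only [proj2, Matrix.add_mul, Matrix.mul_add, Matrix.smul_mul, Matrix.mul_smul, e2,
      e1 _ _ _ _ h1, e1 _ _ _ _ h2, e1 _ _ _ _ h3, e1 _ _ _ _ h1.symm, e1 _ _ _ _ h2.symm,
      e1 _ _ _ _ h3.symm]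
    module
  · simp only [proj2, Matrix.trace_add, Matrix.trace_smul, Matrix.trace_single_eq_same,
      Matrix.trace_single_eq_of_ne _ _ _ h3, Matrix.trace_single_eq_of_ne _ _ _ h3.symm]
    simp only [smul_eq_mul]
    norm_num

lemma trace_proj2 {κ : Type*} [Fintype κ] [DecidableEq κ] (u v w : κ) (ρ : Matrix κ κ ℂ) :
    (proj2 u v w * ρ).trace = ρ u u + 16 / 25 * ρ v v + 9 / 25 * ρ w w +
      12 / 25 * (ρ w v + ρ v w) := by
  simp only [proj2, Matrix.add_mul, Matrix.smul_mul, Matrix.trace_add, Matrix.trace_smul,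
    trace_single_mul', smul_eq_mul]

lemma value01 : (1 : ℝ) / 2 ≤ kf 1 (ptr {0,1} sg) := by
  have h := le_kf (proj1_mem (fun _ => 0 : XI {0,1})) (ptr {0,1} sg)
  rw [trace_single_mul', ptr_sg_apply] at h
  have h2 : (∑ c : ((i : {i // i ∉ ({0,1} : Finset (Fin 3))}) → Fin ((fun _ : Fin 3 => 2) i.1)),
      ss (fun i => if h : i ∈ ({0,1} : Finset (Fin 3)) then (fun _ => 0 : XI {0,1}) ⟨i, h⟩ else c ⟨i, h⟩)
        (fun i => if h : i ∈ ({0,1} : Finset (Fin 3)) then (fun _ => 0 : XI {0,1}) ⟨i, h⟩ else c ⟨i, h⟩)) = 50 := by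
    decide
  rw [h2] at h
  norm_num at h
  linarith

lemma value2 : (66 : ℝ) / 100 ≤ kf 1 (ptr {2} sg) := by
  have h := le_kf (proj1_mem (fun _ => 0 : XI {2})) (ptr {2} sg)
  rw [trace_single_mul', ptr_sg_apply] at h
  have h2 : (∑ c : ((i : {i // i ∉ ({2} : Finset (Fin 3))}) → Fin ((fun _ : Fin 3 => 2) i.1)),
      ss (fun i => if h : i ∈ ({2} : Finset (Fin 3)) then (fun _ => 0 : XI {2}) ⟨i, h⟩ else c ⟨i, h⟩)
        (fun i => if h : i ∈ ({2} : Finset (Fin 3)) then (fun _ => 0 : XI {2}) ⟨i, h⟩ else c ⟨i, h⟩)) = 66 := by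
    decide
  rw [h2] at h
  norm_num at h
  linarith

/-- The index `(0,1)` on the qubits `0`, `2`. -/
def b01 : XI {0,2} := fun i => if i.1 = 2 then 1 else 0

/-- The index `(1,0)` on the qubits `0`, `2`. -/
def b10 : XI {0,2} := fun i => if i.1 = 0 then 1 else 0

lemma value02 : (8904 : ℝ) / 10000 ≤ kf 2 (ptr {0,2} sg) := by
  have h := le_kf (proj2_mem (u := (fun _ => 0 : XI {0,2})) (v := b01) (w := b10)
    (by decide) (by decide) (by decide)) (ptr {0,2} sg)
  rw [trace_proj2, ptr_sg_apply, ptr_sg_apply, ptr_sg_apply, ptr_sg_apply, ptr_sg_apply] at h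
  have h2 : (∑ c : ((i : {i // i ∉ ({0,2} : Finset (Fin 3))}) → Fin ((fun _ : Fin 3 => 2) i.1)),
      ss (fun i => if h : i ∈ ({0,2} : Finset (Fin 3)) then (fun _ => 0 : XI {0,2}) ⟨i, h⟩ else c ⟨i, h⟩)
        (fun i => if h : i ∈ ({0,2} : Finset (Fin 3)) then (fun _ => 0 : XI {0,2}) ⟨i, h⟩ else c ⟨i, h⟩)) = 50 := by
    decide
  have h3 : (∑ c : ((i : {i // i ∉ ({0,2} : Finset (Fin 3))}) → Fin ((fun _ : Fin 3 => 2) i.1)),
      ss (fun i => if h : i ∈ ({0,2} : Finset (Fin 3)) then b01 ⟨i, h⟩ else c ⟨i, h⟩)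
        (fun i => if h : i ∈ ({0,2} : Finset (Fin 3)) then b01 ⟨i, h⟩ else c ⟨i, h⟩)) = 34 := by
    decide
  have h4 : (∑ c : ((i : {i // i ∉ ({0,2} : Finset (Fin 3))}) → Fin ((fun _ : Fin 3 => 2) i.1)),
      ss (fun i => if h : i ∈ ({0,2} : Finset (Fin 3)) then b10 ⟨i, h⟩ else c ⟨i, h⟩)
        (fun i => if h : i ∈ ({0,2} : Finset (Fin 3)) then b10 ⟨i, h⟩ else c ⟨i, h⟩)) = 16 := by
    decide
  have h5 : (∑ c : ((i : {i // i ∉ ({0,2} : Finset (Fin 3))}) → Fin ((fun _ : Fin 3 => 2) i.1)),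
      ss (fun i => if h : i ∈ ({0,2} : Finset (Fin 3)) then b10 ⟨i, h⟩ else c ⟨i, h⟩)
        (fun i => if h : i ∈ ({0,2} : Finset (Fin 3)) then b01 ⟨i, h⟩ else c ⟨i, h⟩)) = 12 := by
    decide
  have h6 : (∑ c : ((i : {i // i ∉ ({0,2} : Finset (Fin 3))}) → Fin ((fun _ : Fin 3 => 2) i.1)),
      ss (fun i => if h : i ∈ ({0,2} : Finset (Fin 3)) then b01 ⟨i, h⟩ else c ⟨i, h⟩)
        (fun i => if h : i ∈ ({0,2} : Finset (Fin 3)) then b10 ⟨i, h⟩ else c ⟨i, h⟩)) = 12 := by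
    decide
  rw [h2, h3, h4, h5, h6] at h
  norm_num at h
  linarith

/-- Coefficients. -/
def cc (I : Finset (Fin 3)) : ℝ :=
  if I = {0,1} then 2 else if I = {2} then 1 else if I = {0,2} then 1 else 0

/-- Ranks. -/
def rr (I : Finset (Fin 3)) : ℕ := if I = {0,2} then 2 else 1

lemma cc_nonneg (I : Finset (Fin 3)) : 0 ≤ cc I := by
  unfold cc; split_ifs <;> norm_num

/-- The family of functions. -/
noncomputable def ff (I : Finset (Fin 3)) (ρ : Matrix (XI I) (XI I) ℂ) : ℝ :=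
  cc I * kf (rr I) ρ

lemma sum_ff (τ : Matrix X3 X3 ℂ) : ∑ I : Finset (Fin 3), ff I (ptr I τ) =
    2 * kf 1 (ptr {0,1} τ) + kf 1 (ptr {2} τ) + kf 2 (ptr {0,2} τ) := by
  rw [← Finset.sum_subset (Finset.subset_univ
    ({{0,1}, {2}, {0,2}} : Finset (Finset (Fin 3))))]
  · rw [Finset.sum_insert (by decide), Finset.sum_insert (by decide), Finset.sum_singleton]
    have h1 : cc {0,1} = 2 := by simp [cc]
    have h2 : cc {2} = 1 := by
      have : ¬ (({2} : Finset (Fin 3)) = {0,1}) := by decide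
      simp [cc, this]
    have h3 : cc {0,2} = 1 := by
      have e1 : ¬ (({0,2} : Finset (Fin 3)) = {0,1}) := by decide
      have e2 : ¬ (({0,2} : Finset (Fin 3)) = {2}) := by decide
      simp [cc, e1, e2]
    have r1 : rr {0,1} = 1 := by decide
    have r2 : rr {2} = 1 := by decide
    have r3 : rr {0,2} = 2 := by decide
    simp only [ff, h1, h2, h3, r1, r2, r3]
    ring
  · intro I _ hI
    simp only [Finset.mem_insert, Finset.mem_singleton, not_or] at hI
    simp [ff, cc, hI.1, hI.2.1, hI.2.2]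

lemma classical_le (W : (i : Fin 3) → Matrix (Fin ((fun _ : Fin 3 => 2) i))
      (Fin ((fun _ : Fin 3 => 2) i)) ℂ)
    (hW : ∀ i, W i ∈ Matrix.unitaryGroup (Fin ((fun _ : Fin 3 => 2) i)) ℂ)
    (q : X3 → ℝ) (h0 : ∀ x, 0 ≤ q x) (hc : ∀ x, q x ≤ 1 / 4) (h1 : ∑ x, q x = 1) :
    ∑ I : Finset (Fin 3), ff I (ptr I
      (WF W * Matrix.diagonal (fun x => ((q x : ℝ) : ℂ)) * star (WF W))) ≤ 5 / 2 := by
  rw [sum_ff]
  obtain ⟨y1, hy1⟩ := kf_one_classical W hW q {0,1} ⟨_, proj1_mem (fun _ => 0)⟩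
  obtain ⟨y2, hy2⟩ := kf_one_classical W hW q {2} ⟨_, proj1_mem (fun _ => 0)⟩
  obtain ⟨y3, y3', hy, hy3⟩ := kf_two_classical W hW q {0,2} (by decide)
    ⟨_, proj2_mem (u := (fun _ => 0 : XI {0,2})) (v := b01) (w := b10)
    (by decide) (by decide) (by decide)⟩
  have h := wt_sum_le q h0 hc h1 y1 y2 y3 y3' hy
  rw [← wt_split] at h
  linarith

end Concrete


lemma states_convex {κ : Type*} [Fintype κ] [DecidableEq κ] :
    Convex ℝ {ρ : Matrix κ κ ℂ | ρ.PosSemidef ∧ ρ.trace = 1} := by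
  intro ρ hρ σ hσ a b ha hb hab
  refine ⟨?_, ?_⟩
  · exact (hρ.1.smul ha).add (hσ.1.smul hb)
  · rw [Matrix.trace_add, Matrix.trace_smul, Matrix.trace_smul, hρ.2, hσ.2, ← add_smul, hab, one_smul]


/-- The negation of the preceding statement: For continuous, convex, unitarily invariant f_I on subsystem states, some state with spectrum majorized by p, diagonal in a product of local bases, maximizes the sum over all I of f_I of its reduced states. -/
theorem result :
    ¬ (∀ (n : ℕ) (d : Fin n → ℕ) (p : ((i : Fin n) → Fin (d i)) → ℝ)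
      (f : (I : Finset (Fin n)) →
        Matrix ((i : {i // i ∈ I}) → Fin (d i.1)) ((i : {i // i ∈ I}) → Fin (d i.1)) ℂ → ℝ),
      (∀ x, 0 ≤ p x) → ∑ x, p x = 1 →
      (∀ I : Finset (Fin n), ContinuousOn (f I)
        {ρ : Matrix ((i : {i // i ∈ I}) → Fin (d i.1)) ((i : {i // i ∈ I}) → Fin (d i.1)) ℂ |
          ρ.PosSemidef ∧ ρ.trace = 1}) →
      (∀ I : Finset (Fin n), ConvexOn ℝ
        {ρ : Matrix ((i : {i // i ∈ I}) → Fin (d i.1)) ((i : {i // i ∈ I}) → Fin (d i.1)) ℂ |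
          ρ.PosSemidef ∧ ρ.trace = 1} (f I)) →
      (∀ I : Finset (Fin n),
        ∀ U ∈ Matrix.unitaryGroup ((i : {i // i ∈ I}) → Fin (d i.1)) ℂ,
        ∀ ρ : Matrix ((i : {i // i ∈ I}) → Fin (d i.1)) ((i : {i // i ∈ I}) → Fin (d i.1)) ℂ,
          ρ.PosSemidef → ρ.trace = 1 → f I (U * ρ * star U) = f I ρ) →
      ∃ τ : Matrix ((i : Fin n) → Fin (d i)) ((i : Fin n) → Fin (d i)) ℂ,
        (∃ U ∈ Matrix.unitaryGroup ((i : Fin n) → Fin (d i)) ℂ,
          ∃ D ∈ doublyStochastic ℝ ((i : Fin n) → Fin (d i)),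
            τ = U * Matrix.diagonal (fun x => (((D *ᵥ p) x : ℝ) : ℂ)) * star U) ∧
        (∃ W : (i : Fin n) → Matrix (Fin (d i)) (Fin (d i)) ℂ,
          (∀ i, W i ∈ Matrix.unitaryGroup (Fin (d i)) ℂ) ∧
          ∃ q : ((i : Fin n) → Fin (d i)) → ℝ,
            τ = Matrix.of (fun x y => ∏ i, W i (x i) (y i)) *
                Matrix.diagonal (fun x => ((q x : ℝ) : ℂ)) *
                star (Matrix.of (fun x y => ∏ i, W i (x i) (y i)))) ∧
        ∀ σ : Matrix ((i : Fin n) → Fin (d i)) ((i : Fin n) → Fin (d i)) ℂ,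
          (∃ U ∈ Matrix.unitaryGroup ((i : Fin n) → Fin (d i)) ℂ,
            ∃ D ∈ doublyStochastic ℝ ((i : Fin n) → Fin (d i)),
              σ = U * Matrix.diagonal (fun x => (((D *ᵥ p) x : ℝ) : ℂ)) * star U) →
          ∑ I : Finset (Fin n), f I (Matrix.of fun a b =>
              ∑ c : ((i : {i // i ∉ I}) → Fin (d i.1)),
                σ (fun i => if h : i ∈ I then a ⟨i, h⟩ else c ⟨i, h⟩)
                  (fun i => if h : i ∈ I then b ⟨i, h⟩ else c ⟨i, h⟩))
          ≤ ∑ I : Finset (Fin n), f I (Matrix.of fun a b =>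
              ∑ c : ((i : {i // i ∉ I}) → Fin (d i.1)),
                τ (fun i => if h : i ∈ I then a ⟨i, h⟩ else c ⟨i, h⟩)
                  (fun i => if h : i ∈ I then b ⟨i, h⟩ else c ⟨i, h⟩))) := by
  intro hmain
  obtain ⟨τ, ⟨U, hU, D, hD, hτU⟩, ⟨W, hW, q, hτW⟩, hmax⟩ := hmain 3 (fun _ => 2) pp ff pp_nonneg pp_sum
    (fun I => (continuous_const.mul (kf_continuous (rr I))).continuousOn)
    (fun I => by
      have hS : Convex ℝ {ρ : Matrix ((i : {i // i ∈ I}) → Fin ((fun _ : Fin 3 => 2) i.1))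
          ((i : {i // i ∈ I}) → Fin ((fun _ : Fin 3 => 2) i.1)) ℂ |
          ρ.PosSemidef ∧ ρ.trace = 1} := states_convex
      exact (kf_convex (rr I) hS).smul (cc_nonneg I))
    (fun I U hU ρ _ _ => by
      unfold ff
      rw [kf_unitary (rr I) hU ρ])
  have h1 := hmax sg ⟨UU, UU_mem, 1, Submonoid.one_mem _, rfl⟩
  have hD1 := (mem_doublyStochastic_iff_sum).mp hD
  have hr0 : ∀ x, 0 ≤ (D *ᵥ pp) x := fun x => by
    have h : 0 ≤ ∑ y, D x y * pp y :=
      Finset.sum_nonneg fun y _ => mul_nonneg (hD1.1 x y) (pp_nonneg y)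
    exact h
  have hrc : ∀ x, (D *ᵥ pp) x ≤ 1 / 4 := fun x => by
    calc (D *ᵥ pp) x = ∑ y, D x y * pp y := rfl
      _ ≤ ∑ y, D x y * (1 / 4) :=
          Finset.sum_le_sum fun y _ => mul_le_mul_of_nonneg_left (pp_le y) (hD1.1 x y)
      _ = 1 / 4 := by rw [← Finset.sum_mul, hD1.2.1 x, one_mul]
  have hr1 : ∑ x, (D *ᵥ pp) x = 1 := by
    calc ∑ x, (D *ᵥ pp) x = ∑ x, ∑ y, D x y * pp y := rfl
      _ = ∑ y, ∑ x, D x y * pp y := Finset.sum_comm
      _ = ∑ y, pp y := by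
          refine Finset.sum_congr rfl fun y _ => ?_
          rw [← Finset.sum_mul, hD1.2.2 y, one_mul]
      _ = 1 := pp_sum
  have hWF : WF W ∈ Matrix.unitaryGroup X3 ℂ := prod_unitary W hW
  have hb := spec_bounds hU hWF (hτU.symm.trans hτW) hr0 hrc hr1
  have h2 := classical_le W hW q hb.1 hb.2.1 hb.2.2
  have h3 : ∑ I : Finset (Fin 3), ff I (ptr I sg) ≤ ∑ I : Finset (Fin 3), ff I (ptr I τ) := h1
  have h4 : τ = WF W * Matrix.diagonal (fun x => ((q x : ℝ) : ℂ)) * star (WF W) := hτW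
  rw [← h4] at h2
  rw [sum_ff sg] at h3
  have v1 := value01
  have v2 := value2
  have v3 := value02
  linarith

end Pool.Agent.S15688
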