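import Pool.Statements.S16898
import Pool.Agent.Lib.MP_4eb8d9_nt.DisInst

set_option autoImplicit false
open Pool Pool.MP_4eb8d9_nt

namespace Pool.Agent.S16898

/-- The negation of the preceding statement: For each ε>0 there is C>0 such that for all m and nonzero integers a_i, b_i with product a_i^b_i ≠ 1, ∣product − 1∣ ≥ C^m·max∣b_i∣ / (∏∣b_i∣·∏∣a_i∣)^(1+ε). -/
theorem result :
    ¬ (∀ ε : ℝ, 0 < ε → ∃ C : ℝ, 0 < C ∧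
      ∀ (m : ℕ) (a b : Fin m → ℤ),
        (∀ i, a i ≠ 0) → (∀ i, b i ≠ 0) →
        (∏ i, ((a i : ℝ) ^ (b i))) ≠ 1 →
        C ^ m * ((Finset.univ.sup fun i => (b i).natAbs : ℕ) : ℝ) /
            ((∏ i, |((b i : ℤ) : ℝ)|) * (∏ i, |((a i : ℤ) : ℝ)|)) ^ (1 + ε)
          ≤ |(∏ i, ((a i : ℝ) ^ (b i))) - 1|) :=
  Pool.Agent.Lib.MP_4eb8d9_nt.Dis.not_lw Pool.Agent.Lib.MP_4eb8d9_nt.Dis.E
    Pool.Agent.Lib.MP_4eb8d9_nt.Dis.Z Pool.Agent.Lib.MP_4eb8d9_nt.Dis.E_symm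
    Pool.Agent.Lib.MP_4eb8d9_nt.Dis.E_zero Pool.Agent.Lib.MP_4eb8d9_nt.Dis.Z_sub
    Pool.Agent.Lib.MP_4eb8d9_nt.Dis.Z_card Pool.Agent.Lib.MP_4eb8d9_nt.Dis.Z_ga 12
    Pool.Agent.Lib.MP_4eb8d9_nt.Dis.mem12 Pool.Agent.Lib.MP_4eb8d9_nt.Dis.ga12

end Pool.Agent.S16898
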