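import Pool.Statements.S16965
import Pool.Agent.Lib.MP_531408_nt.Stab

set_option autoImplicit false
open Pool Pool.MP_531408_nt

namespace Pool.Agent.S16965

/-- For q=ℓ^n, every monic irreducible 𝔭 in 𝔽_q[T] of degree ≥3 (≥4 if q=3), and every rank-2 Drinfeld module T↦T+gτ+Δτ² over 𝔽_q(T), no Galois-stable A-submodule of φ[𝔭] of size q^deg𝔭 exists. -/
theorem result :
    ∀ (ℓ n : ℕ) [Fact ℓ.Prime], n ≠ 0 →
    ∀ (𝔭 : Polynomial (GaloisField ℓ n)), 𝔭.Monic → Irreducible 𝔭 →
    (if ℓ ^ n = 3 then 4 else 3) ≤ 𝔭.natDegree →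
    ∀ (g Δ : RatFunc (GaloisField ℓ n)), Δ ≠ 0 →
    ¬ ∃ S : Set (AlgebraicClosure (RatFunc (GaloisField ℓ n))),
      S.Finite ∧
      S.ncard = (ℓ ^ n) ^ 𝔭.natDegree ∧
      (0 : AlgebraicClosure (RatFunc (GaloisField ℓ n))) ∈ S ∧
      (∀ x ∈ S, ∀ y ∈ S, x + y ∈ S) ∧
      (∀ a : Polynomial (GaloisField ℓ n), ∀ x ∈ S,
        a.sum (fun (i : ℕ) (c : GaloisField ℓ n) =>
          algebraMap (RatFunc (GaloisField ℓ n)) (AlgebraicClosure (RatFunc (GaloisField ℓ n)))
              (RatFunc.C c) *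
            (fun y : AlgebraicClosure (RatFunc (GaloisField ℓ n)) =>
              algebraMap (RatFunc (GaloisField ℓ n)) (AlgebraicClosure (RatFunc (GaloisField ℓ n)))
                  RatFunc.X * y +
              algebraMap (RatFunc (GaloisField ℓ n)) (AlgebraicClosure (RatFunc (GaloisField ℓ n)))
                  g * y ^ (ℓ ^ n) +
              algebraMap (RatFunc (GaloisField ℓ n)) (AlgebraicClosure (RatFunc (GaloisField ℓ n)))
                  Δ * y ^ ((ℓ ^ n) ^ 2))^[i] x) ∈ S) ∧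
      (∀ x ∈ S,
        𝔭.sum (fun (i : ℕ) (c : GaloisField ℓ n) =>
          algebraMap (RatFunc (GaloisField ℓ n)) (AlgebraicClosure (RatFunc (GaloisField ℓ n)))
              (RatFunc.C c) *
            (fun y : AlgebraicClosure (RatFunc (GaloisField ℓ n)) =>
              algebraMap (RatFunc (GaloisField ℓ n)) (AlgebraicClosure (RatFunc (GaloisField ℓ n)))
                  RatFunc.X * y +
              algebraMap (RatFunc (GaloisField ℓ n)) (AlgebraicClosure (RatFunc (GaloisField ℓ n)))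
                  g * y ^ (ℓ ^ n) +
              algebraMap (RatFunc (GaloisField ℓ n)) (AlgebraicClosure (RatFunc (GaloisField ℓ n)))
                  Δ * y ^ ((ℓ ^ n) ^ 2))^[i] x) = 0) ∧
      (∀ σ : AlgebraicClosure (RatFunc (GaloisField ℓ n)) ≃ₐ[RatFunc (GaloisField ℓ n)]
          AlgebraicClosure (RatFunc (GaloisField ℓ n)),
        ∀ x ∈ S, σ x ∈ S) := by
  intro ℓ n _ hn P hm hirr hdeg g Δ hΔ
  rintro ⟨S, hfin, hncard, h0, hadd, hmod, htor, hgal⟩
  let _ : Fintype (GaloisField ℓ n) := Fintype.ofFinite _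
  have hcard : Fintype.card (GaloisField ℓ n) = ℓ ^ n := by
    rw [← Nat.card_eq_fintype_card, GaloisField.card ℓ n hn]
  have hPhi : ∀ y : AlgebraicClosure (RatFunc (GaloisField ℓ n)),
      Pool.Agent.DrY.PhiL (GaloisField ℓ n) (AlgebraicClosure (RatFunc (GaloisField ℓ n)))
        RatFunc.X g Δ y =
      algebraMap (RatFunc (GaloisField ℓ n)) (AlgebraicClosure (RatFunc (GaloisField ℓ n)))
          RatFunc.X * y +
      algebraMap (RatFunc (GaloisField ℓ n)) (AlgebraicClosure (RatFunc (GaloisField ℓ n)))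
          g * y ^ (ℓ ^ n) +
      algebraMap (RatFunc (GaloisField ℓ n)) (AlgebraicClosure (RatFunc (GaloisField ℓ n)))
          Δ * y ^ ((ℓ ^ n) ^ 2) := by
    intro y
    rw [Pool.Agent.DrY.PhiL_apply, hcard]
  have hfun : (fun y : AlgebraicClosure (RatFunc (GaloisField ℓ n)) =>
      algebraMap (RatFunc (GaloisField ℓ n)) (AlgebraicClosure (RatFunc (GaloisField ℓ n)))
          RatFunc.X * y +
      algebraMap (RatFunc (GaloisField ℓ n)) (AlgebraicClosure (RatFunc (GaloisField ℓ n)))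
          g * y ^ (ℓ ^ n) +
      algebraMap (RatFunc (GaloisField ℓ n)) (AlgebraicClosure (RatFunc (GaloisField ℓ n)))
          Δ * y ^ ((ℓ ^ n) ^ 2)) =
      ⇑(Pool.Agent.DrY.PhiL (GaloisField ℓ n)
        (AlgebraicClosure (RatFunc (GaloisField ℓ n))) RatFunc.X g Δ) :=
    funext fun y => (hPhi y).symm
  rw [hfun] at hmod htor
  have hscal : ∀ (c : GaloisField ℓ n) (y : AlgebraicClosure (RatFunc (GaloisField ℓ n))),
      algebraMap (RatFunc (GaloisField ℓ n)) (AlgebraicClosure (RatFunc (GaloisField ℓ n)))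
        (RatFunc.C c) * y = c • y := by
    intro c y
    rw [Algebra.smul_def, IsScalarTower.algebraMap_apply (GaloisField ℓ n)
      (RatFunc (GaloisField ℓ n)) (AlgebraicClosure (RatFunc (GaloisField ℓ n))),
      RatFunc.algebraMap_eq_C]
  have hsum : ∀ (a : Polynomial (GaloisField ℓ n))
      (x : AlgebraicClosure (RatFunc (GaloisField ℓ n))),
      (a.sum fun (i : ℕ) (c : GaloisField ℓ n) =>
        algebraMap (RatFunc (GaloisField ℓ n)) (AlgebraicClosure (RatFunc (GaloisField ℓ n)))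
          (RatFunc.C c) * (⇑(Pool.Agent.DrY.PhiL (GaloisField ℓ n)
            (AlgebraicClosure (RatFunc (GaloisField ℓ n))) RatFunc.X g Δ))^[i] x) =
      Polynomial.aeval (Pool.Agent.DrY.PhiL (GaloisField ℓ n)
        (AlgebraicClosure (RatFunc (GaloisField ℓ n))) RatFunc.X g Δ) a x := by
    intro a x
    rw [Polynomial.aeval_endomorphism]
    refine Finset.sum_congr rfl fun i _ => ?_
    beta_reduce
    rw [hscal, Module.End.pow_apply]
  refine Pool.Agent.DrY.no_S (p := ℓ) (n := n) hn hcard P hm hirr ?_ ?_ g Δ hΔ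
    (AlgebraicClosure (RatFunc (GaloisField ℓ n))) S hfin hncard h0 hadd ?_ ?_ ?_ hgal
  · split_ifs at hdeg <;> omega
  · rintro ⟨h1, h2⟩
    rw [if_pos h1] at hdeg
    omega
  · intro c x hx
    have h := hmod (Polynomial.C c) x hx
    rw [hsum, Polynomial.aeval_C, Module.algebraMap_end_apply] at h
    exact h
  · intro x hx
    have h := hmod Polynomial.X x hx
    rw [hsum, Polynomial.aeval_X] at h
    exact h
  · intro x hx
    have h := htor x hx
    rw [hsum] at h
    exact h

end Pool.Agent.S16965
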