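import Pool.Statements.S18347
-- import your own Pool.Agent.* helpers here
import Pool.Agent.Lib.MP_be9f18_nt.TFinal
import Pool.Agent.Lib.MP_be9f18_nt.MGlue
import Pool.Agent.Lib.MP_be9f18_nt.TGlue

set_option autoImplicit false
open Pool Pool.MP_be9f18_nt

namespace Pool.Agent.S18347

/-- The supremum, over real pairs not both rational, of the infimum of c in (0,1] such that q·∣qξᵢ−pᵢ∣² < c for i=1,2 has infinitely many integer solutions with q>0, equals 2/7. -/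
theorem result :
    sSup {γ : ℝ | ∃ ξ₁ ξ₂ : ℝ, (Irrational ξ₁ ∨ Irrational ξ₂) ∧
      γ = sInf {c : ℝ | 0 < c ∧ c ≤ 1 ∧
        {x : ℤ × ℤ × ℤ | 0 < x.2.2 ∧
          (x.2.2 : ℝ) * |(x.2.2 : ℝ) * ξ₁ - (x.1 : ℝ)| ^ 2 < c ∧
          (x.2.2 : ℝ) * |(x.2.2 : ℝ) * ξ₂ - (x.2.1 : ℝ)| ^ 2 < c}.Infinite}} = 2 / 7 := by
  exact Pool.Agent.Lib.MP_be9f18_nt.sSup_eq_of_roots
    Pool.Agent.Lib.MP_be9f18_nt.mainStatement
    Pool.Agent.Lib.MP_be9f18_nt.rootII Pool.Agent.Lib.MP_be9f18_nt.rootIII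

end Pool.Agent.S18347
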