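import Pool.Statements.S19320
import Pool.Agent.Lib.MP_5349a4_pr.M.H98.All
-- import your own Pool.Agent.* helpers here

set_option autoImplicit false
open MeasureTheory ProbabilityTheory
open Pool Pool.MP_5349a4_pr

namespace Pool.Agent.S19320

/-- The negation of the preceding statement: For every d ≥ 3 and any unit-intensity Poisson point process in ℝ^d, almost surely any two of its points are joined by a walk along minimal spanning forest edges (pairs with no chain of strictly shorter steps), i.e. the forest is connected. -/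
theorem result :
    ¬ (∀ d : ℕ, 3 ≤ d →
    ∀ (Ω : Type) [MeasurableSpace Ω] (P : Measure Ω) [IsProbabilityMeasure P]
      (S : Ω → Set (EuclideanSpace ℝ (Fin d))),
      (∀ (ω : Ω) (A : Set (EuclideanSpace ℝ (Fin d))),
          Bornology.IsBounded A → (S ω ∩ A).Finite) →
      (∀ A : Set (EuclideanSpace ℝ (Fin d)), MeasurableSet A → Bornology.IsBounded A →
          P.map (fun ω => (S ω ∩ A).ncard)
            = (ProbabilityTheory.poissonPMF (volume A).toNNReal).toMeasure) →
      (∀ (k : ℕ) (A : Fin k → Set (EuclideanSpace ℝ (Fin d))),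
          (∀ i, MeasurableSet (A i)) → (∀ i, Bornology.IsBounded (A i)) →
          Pairwise (fun i j => Disjoint (A i) (A j)) →
          ProbabilityTheory.iIndepFun (fun i ω => (S ω ∩ A i).ncard) P) →
      ∀ᵐ ω ∂P, ∀ x ∈ S ω, ∀ y ∈ S ω,
        ∃ n : ℕ, ∃ w : ℕ → EuclideanSpace ℝ (Fin d),
          w 0 = x ∧ w n = y ∧ (∀ i ≤ n, w i ∈ S ω) ∧
          ∀ i < n, w i ≠ w (i + 1) ∧
            ¬ ∃ k : ℕ, ∃ z : ℕ → EuclideanSpace ℝ (Fin d),
                z 0 = w i ∧ z k = w (i + 1) ∧ (∀ j ≤ k, z j ∈ S ω) ∧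
                ∀ j < k, dist (z (j + 1)) (z j) < dist (w i) (w (i + 1))) := by
  exact Pool.Agent.Lib.MP_5349a4_pr.All.aFinal

end Pool.Agent.S19320
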